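import Pool.Agent.Lib.H24V.D0

set_option autoImplicit false

/-!
H24V: the ring of the entire functions, its field of fractions and their derivations.
-/

open MvPolynomial

namespace Pool.Agent.H24V

/-- The ring of the entire functions. -/
def EF : Subalgebra ℂ (ℂ → ℂ) where
  carrier := {f | Differentiable ℂ f}
  mul_mem' hf hg := Differentiable.mul hf hg
  add_mem' hf hg := Differentiable.add hf hg
  algebraMap_mem' c := differentiable_const c

theorem EF_diff (f : EF) : Differentiable ℂ f.1 := f.2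

theorem EF_mul_apply (f g : EF) (z : ℂ) : (f * g).1 z = f.1 z * g.1 z := rfl

theorem EF_add_apply (f g : EF) (z : ℂ) : (f + g).1 z = f.1 z + g.1 z := rfl

theorem EF_zero_apply (z : ℂ) : (0 : EF).1 z = 0 := rfl

theorem EF_one_apply (z : ℂ) : (1 : EF).1 z = 1 := rfl

theorem EF_algebraMap_apply (t z : ℂ) : (algebraMap ℂ EF t).1 z = t := rfl

theorem EF_exists_ne {f : EF} (hf : f ≠ 0) : ∃ z, f.1 z ≠ 0 := by
  by_contra h
  push Not at h
  exact hf (Subtype.ext (funext h))

/-- The product of two entire functions different from `0` is different from `0`. -/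
theorem EF_mul_ne {f g : EF} (hf : f ≠ 0) (hg : g ≠ 0) : f * g ≠ 0 := by
  obtain ⟨a, ha⟩ := EF_exists_ne hf
  obtain ⟨b, hb⟩ := EF_exists_ne hg
  have h1 := AnalyticOnNhd.preimage_zero_mem_codiscrete (fun z _ => f.2.analyticAt z) ha
  have h2 := AnalyticOnNhd.preimage_zero_mem_codiscrete (fun z _ => g.2.analyticAt z) hb
  have h3 := mem_codiscrete.mp (Filter.inter_mem h1 h2) 0
  rw [Filter.disjoint_principal_right, compl_compl] at h3
  obtain ⟨z, hz⟩ := Filter.nonempty_of_mem h3
  intro h0
  have h4 := congrArg (fun F : EF => F.1 z) h0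
  simp only [EF_mul_apply, EF_zero_apply, mul_eq_zero] at h4
  rcases h4 with h4 | h4
  · exact hz.1 h4
  · exact hz.2 h4

instance : Nontrivial EF :=
  ⟨0, 1, fun h => zero_ne_one (α := ℂ) (by
    have h1 := congrArg (fun F : EF => F.1 0) h
    exact h1)⟩

instance : IsDomain EF :=
  haveI : NoZeroDivisors EF := ⟨fun {a b} h => by
    by_contra hcon
    push Not at hcon
    exact EF_mul_ne hcon.1 hcon.2 h⟩
  NoZeroDivisors.to_isDomain EF

/-- The field of the meromorphic functions. -/
abbrev KK : Type := FractionRing EF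

instance : CharZero KK := charZero_of_injective_algebraMap (algebraMap ℂ KK).injective

/-- The derivation `(z + 1) d / dz` of the ring of the entire functions. -/
noncomputable def DE : Derivation ℂ EF EF where
  toFun f := ⟨fun z => (z + 1) * deriv f.1 z, (differentiable_id.add_const 1).mul f.2.deriv⟩
  map_add' f g := by
    apply Subtype.ext
    funext z
    show (z + 1) * deriv (f.1 + g.1) z = (z + 1) * deriv f.1 z + (z + 1) * deriv g.1 z
    rw [deriv_add (f.2 z) (g.2 z)]
    ring
  map_smul' t f := by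
    apply Subtype.ext
    funext z
    show (z + 1) * deriv (t • f.1) z = t • ((z + 1) * deriv f.1 z)
    rw [deriv_const_smul t (f.2 z)]
    simp only [smul_eq_mul]
    ring
  map_one_eq_zero' := by
    apply Subtype.ext
    funext z
    show (z + 1) * deriv (fun _ : ℂ => (1 : ℂ)) z = 0
    rw [deriv_const, mul_zero]
  leibniz' f g := by
    apply Subtype.ext
    funext z
    show (z + 1) * deriv (f.1 * g.1) z = f.1 z * ((z + 1) * deriv g.1 z) + g.1 z * ((z + 1) * deriv f.1 z)
    rw [deriv_mul (f.2 z) (g.2 z)]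
    ring

theorem DE_apply (f : EF) (z : ℂ) : (DE f).1 z = (z + 1) * deriv f.1 z := rfl

/-- The function `z + 1`. -/
def X1 : EF := ⟨fun z => z + 1, differentiable_id.add_const 1⟩

theorem X1_apply (z : ℂ) : X1.1 z = z + 1 := rfl

theorem X1_ne : X1 ≠ 0 := fun h => by
  have h1 := congrArg (fun F : EF => F.1 0) h
  simp only [X1_apply, EF_zero_apply, zero_add] at h1
  exact one_ne_zero h1

/-- `P` holds outside the zeros of an entire function different from `0`. -/
def Gen (P : ℂ → Prop) : Prop := ∃ b : EF, b ≠ 0 ∧ ∀ z, b.1 z ≠ 0 → P z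

theorem Gen.mono {P Q : ℂ → Prop} (hP : Gen P) (h : ∀ z, P z → Q z) : Gen Q :=
  let ⟨b, hb, h1⟩ := hP
  ⟨b, hb, fun z hz => h z (h1 z hz)⟩

theorem Gen.and {P Q : ℂ → Prop} (hP : Gen P) (hQ : Gen Q) : Gen fun z => P z ∧ Q z := by
  obtain ⟨b, hb, h1⟩ := hP
  obtain ⟨b', hb', h2⟩ := hQ
  refine ⟨b * b', EF_mul_ne hb hb', fun z hz => ?_⟩
  rw [EF_mul_apply, mul_ne_zero_iff] at hz
  exact ⟨h1 z hz.1, h2 z hz.2⟩

theorem Gen.of_forall {P : ℂ → Prop} (h : ∀ z, P z) : Gen P := ⟨1, one_ne_zero, fun z _ => h z⟩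

theorem Gen.all {ι : Type} [Finite ι] {P : ι → ℂ → Prop} (h : ∀ i, Gen (P i)) :
    Gen fun z => ∀ i, P i z := by
  classical
  cases nonempty_fintype ι
  choose b hb h1 using h
  refine ⟨∏ i, b i, Finset.prod_ne_zero_iff.2 fun i _ => hb i, fun z hz i => h1 i z fun h0 => hz ?_⟩
  have h2 : (∏ i, b i).1 z = (b i * ∏ j ∈ Finset.univ.erase i, b j).1 z := by
    rw [Finset.mul_prod_erase _ _ (Finset.mem_univ i)]
  rw [h2, EF_mul_apply, h0, zero_mul]

/-- The change of variable `z = exp w - 1`. -/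
theorem Gen.exp {P : ℂ → Prop} (h : Gen P) : Gen fun w => P (Complex.exp w - 1) := by
  obtain ⟨b, hb, h1⟩ := h
  refine ⟨⟨fun w => b.1 (Complex.exp w - 1), b.2.comp (Complex.differentiable_exp.sub_const 1)⟩,
    fun h0 => ?_, fun w hw => h1 _ hw⟩
  have h2 : ∀ z, b.1 z * (X1).1 z = 0 := by
    intro z
    by_cases hz : z = -1
    · rw [hz, X1_apply]
      ring
    · have hz' : z + 1 ≠ 0 := fun h => hz (by linear_combination h)
      have h3 := congrArg (fun F : EF => F.1 (Complex.log (z + 1))) h0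
      simp only [EF_zero_apply, Complex.exp_log hz', add_sub_cancel_right] at h3
      rw [h3, zero_mul]
  refine EF_mul_ne hb X1_ne (Subtype.ext (funext fun z => ?_))
  exact h2 z

theorem Gen.exists {P : ℂ → Prop} (h : Gen P) : ∃ z, P z := by
  obtain ⟨b, hb, h1⟩ := h
  obtain ⟨z, hz⟩ := EF_exists_ne hb
  exact ⟨z, h1 z hz⟩

end Pool.Agent.H24V
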