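import Pool.Agent.Lib.H24V.P1

set_option autoImplicit false

/-!
CHUNK P2 (M).  The points of the generic fibre.
-/

open MvPolynomial

namespace Pool.Agent.H24V

/-- `y i a = ev (fun z => p z i a)` with `p z` chosen from `SymCurve.prod`.  `y i ≠ 0`: `∑ a, conj (p z i a) * p z i a` is a function without
zeros, so a unit of `ℂ → ℂ`, and `ev` of it is a unit; if all `ev (p . i a) = 0` it would be `0`.  `aeval (y i) (F j) = ev (fun z => eval (p z i) (F j)) = 0`
(induction on the polynomial, or `MvPolynomial.aeval` in the algebra `ℂ → ℂ`).  The coefficients: `coeff α (∏ i, lf (y i))`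
is `ev` of the coefficient of `∏ i, lf (P i)` over the ring `ℂ → ℂ`, `P i a = fun z => p z i a` (`map ev (lf P) = lf (ev ∘ P)`), whose value at `z` is
`coeff α (∏ i, lf (p z i))` (`map` by the evaluation at `z`, `Pi.evalRingHom`). -/
theorem exists_pts {Om : Type} [Field Om] [Algebra ℂ Om] (ev : (ℂ → ℂ) →ₐ[ℂ] Om) {m N c : ℕ}
    {F : Fin c → MvPolynomial (Fin (N + 1)) ℂ} {H : ℂ → MvPolynomial (Fin (N + 1)) ℂ}
    (hH : SymCurve m F H) :
    ∃ y : Fin m → Fin (N + 1) → Om, (∀ i, y i ≠ 0) ∧ (∀ i j, aeval (y i) (F j) = 0) ∧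
      ∀ α, coeff α (∏ i, lf (y i)) = ev fun z => coeff α (H z) := by
  choose p hp0 hpF hpH using hH.prod
  refine ⟨fun i a => ev fun z => p z i a, fun i hi => ?_, fun i j => ?_, fun α => ?_⟩
  · have h1 : ∀ a, ev (fun z => p z i a) = 0 := fun a => congrFun hi a
    let g : ℂ → ℂ := ∑ a, (fun z => (starRingEnd ℂ) (p z i a)) * fun z => p z i a
    have h2 : ev g = 0 := by
      show ev (∑ a, (fun z => (starRingEnd ℂ) (p z i a)) * fun z => p z i a) = 0
      rw [map_sum]
      refine Finset.sum_eq_zero fun a _ => ?_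
      rw [map_mul, h1, mul_zero]
    have h3 : ∀ z, g z ≠ 0 := by
      intro z h4
      have h5 : g z = ((∑ a, Complex.normSq (p z i a) : ℝ) : ℂ) := by
        show (∑ a, (fun z => (starRingEnd ℂ) (p z i a)) * fun z => p z i a) z = _
        rw [Finset.sum_apply, Complex.ofReal_sum]
        refine Finset.sum_congr rfl fun a _ => ?_
        rw [Pi.mul_apply, Complex.normSq_eq_conj_mul_self]
      rw [h5, Complex.ofReal_eq_zero,
        Finset.sum_eq_zero_iff_of_nonneg fun a _ => Complex.normSq_nonneg _] at h4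
      exact hp0 z i (funext fun a => Complex.normSq_eq_zero.1 (h4 a (Finset.mem_univ a)))
    have h6 : g * (fun z => (g z)⁻¹) = 1 := funext fun z => mul_inv_cancel₀ (h3 z)
    have h7 : ev g * ev (fun z => (g z)⁻¹) = 1 := by rw [← map_mul, h6, map_one]
    rw [h2, zero_mul] at h7
    exact zero_ne_one h7
  · have h1 : aeval (fun a => ev fun z => p z i a) (F j) =
        ev (aeval (fun a => fun z => p z i a) (F j)) :=
      (comp_aeval_apply (fun a => fun z => p z i a) ev (F j)).symm
    have h2 : aeval (fun a => fun z => p z i a) (F j) = (0 : ℂ → ℂ) := by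
      funext z
      have h3 := comp_aeval_apply (fun a => fun z => p z i a)
        (Pi.evalAlgHom ℂ (fun _ : ℂ => ℂ) z) (F j)
      have h4 : (Pi.evalAlgHom ℂ (fun _ : ℂ => ℂ) z) (aeval (fun a => fun z => p z i a) (F j)) =
        (aeval (fun a => fun z => p z i a) (F j) : ℂ → ℂ) z := rfl
      rw [← h4, h3]
      have h5 : aeval (fun a => (Pi.evalAlgHom ℂ (fun _ : ℂ => ℂ) z) fun z => p z i a) (F j) =
        eval (p z i) (F j) := by
        rw [← coe_aeval_eq_eval]
        rfl
      rw [h5, hpF]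
      rfl
    rw [h1, h2, map_zero]
  · have hlf : ∀ {A B : Type} [CommRing A] [CommRing B] (f : A →+* B) (x : Fin (N + 1) → A),
        map f (lf x) = lf fun a => f (x a) := by
      intro A B _ _ f x
      simp only [lf, map_sum, map_mul, map_C, map_X]
    let Q : MvPolynomial (Fin (N + 1)) (ℂ → ℂ) := ∏ i : Fin m, lf fun a => fun z => p z i a
    have h1 : map (ev : (ℂ → ℂ) →+* Om) Q = ∏ i : Fin m, lf fun a => ev fun z => p z i a := by
      show map (ev : (ℂ → ℂ) →+* Om) (∏ i : Fin m, lf fun a => fun z => p z i a) = _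
      rw [map_prod]
      exact Finset.prod_congr rfl fun i _ => hlf _ _
    have h2 : coeff α Q = fun z => coeff α (H z) := by
      funext z
      have h3 : map (Pi.evalRingHom (fun _ : ℂ => ℂ) z) Q = H z := by
        show map (Pi.evalRingHom (fun _ : ℂ => ℂ) z) (∏ i : Fin m, lf fun a => fun z => p z i a) = _
        rw [map_prod, hpH]
        exact Finset.prod_congr rfl fun i _ => hlf _ _
      rw [← h3, coeff_map]
      rfl
    have h4 := coeff_map (ev : (ℂ → ℂ) →+* Om) Q α
    rw [h1, h2] at h4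
    exact h4

/-- A vector `u` with complex coordinates outside `m` hyperplanes (`u = (1, t, ..., t ^ N)`: each excludes finitely many `t`: the
polynomial `∑ a, y i a T ^ a` over `Om` has finitely many roots, and `ℂ → Om` is injective, `ℂ` infinite). -/
theorem exists_u {Om : Type} [Field Om] [Algebra ℂ Om] {m N : ℕ} (y : Fin m → Fin (N + 1) → Om)
    (hy : ∀ i, y i ≠ 0) : ∃ u : Fin (N + 1) → ℂ, ∀ i, linc u (y i) ≠ 0 := by
  classical
  let q : Fin m → Polynomial Om := fun i =>
    ∑ b : Fin (N + 1), Polynomial.C (y i b) * Polynomial.X ^ (b : ℕ)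
  have hq : ∀ i, q i ≠ 0 := by
    intro i h
    refine hy i (funext fun a => ?_)
    have h1 : (q i).coeff (a : ℕ) = y i a := by
      show (∑ b : Fin (N + 1), Polynomial.C (y i b) * Polynomial.X ^ (b : ℕ)).coeff (a : ℕ) = _
      rw [Polynomial.finsetSum_coeff, Finset.sum_eq_single a]
      · rw [Polynomial.coeff_C_mul_X_pow, if_pos rfl]
      · intro b _ hb
        rw [Polynomial.coeff_C_mul_X_pow, if_neg fun h2 => hb (Fin.ext h2.symm)]
      · intro h2
        exact absurd (Finset.mem_univ a) h2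
    rw [← h1, h]
    simp
  have hQ : ∏ i, q i ≠ 0 := Finset.prod_ne_zero_iff.2 fun i _ => hq i
  have hex : ∃ t : ℂ, (∏ i, q i).eval (algebraMap ℂ Om t) ≠ 0 := by
    by_contra hcon
    push Not at hcon
    refine hQ (Polynomial.eq_zero_of_infinite_isRoot _ ?_)
    refine Set.Infinite.mono (s := Set.range (algebraMap ℂ Om)) ?_
      (Set.infinite_range_of_injective (algebraMap ℂ Om).injective)
    rintro _ ⟨t, rfl⟩
    exact hcon t
  obtain ⟨t, ht⟩ := hex
  refine ⟨fun a => t ^ (a : ℕ), fun i h => ht ?_⟩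
  rw [Polynomial.eval_prod]
  refine Finset.prod_eq_zero (Finset.mem_univ i) ?_
  show (∑ b : Fin (N + 1), Polynomial.C (y i b) * Polynomial.X ^ (b : ℕ)).eval _ = 0
  rw [Polynomial.eval_finsetSum, ← h]
  refine Finset.sum_congr rfl fun b _ => ?_
  rw [Polynomial.eval_mul, Polynomial.eval_C, Polynomial.eval_pow, Polynomial.eval_X,
    Algebra.smul_def, map_pow, mul_comm]

end Pool.Agent.H24V
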