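import Pool.Agent.Lib.H24V.B

set_option autoImplicit false

/-!
CHUNK P3 (M/L).  The fields generated by the points.
-/

open MvPolynomial

namespace Pool.Agent.H24V

/-- Let `G = ∏ i, lf (y i)` have coefficients in `K`.  Every combination `linc v (y i) / linc u (y i)` with complex `v` is a root of the
monic polynomial `∏ j, (T - linc v (y j) / linc u (y j)) = G (T u - v) / G (u)` of degree `m` with coefficients in `K`
(`ln`-type computation: `lf y (T u - v) = T linc u y - linc v y`; the coefficients of `aeval (fun a => C (u a) * X - C (v a)) G` are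
in the image of `K`: lift `G` to `MvPolynomial _ K`). -/
theorem root_of_comb {K Om : Type} [Field K] [Field Om] [Algebra ℂ K] [Algebra ℂ Om] [Algebra K Om]
    [IsScalarTower ℂ K Om] {m N : ℕ} {y : Fin m → Fin (N + 1) → Om}
    (hG : ∀ α, coeff α (∏ i, lf (y i)) ∈ (algebraMap K Om).range) {u : Fin (N + 1) → ℂ}
    (hu : ∀ i, linc u (y i) ≠ 0) (v : Fin (N + 1) → ℂ) :
    ∃ q : Polynomial K, q.Monic ∧ q.natDegree = m ∧
      ∀ i, Polynomial.aeval (linc v (y i) / linc u (y i)) q = 0 := by
  classical
  set G : MvPolynomial (Fin (N + 1)) Om := ∏ i, lf (y i) with hGdef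
  -- lift to `K`
  obtain ⟨G₀, hG₀⟩ : ∃ G₀ : MvPolynomial (Fin (N + 1)) K, map (algebraMap K Om) G₀ = G := by
    choose c hc using hG
    refine ⟨∑ α ∈ G.support, monomial α (c α), ?_⟩
    rw [map_sum]
    conv_rhs => rw [G.as_sum]
    refine Finset.sum_congr rfl fun α _ => ?_
    rw [map_monomial, hc]
  let su : Fin (N + 1) → Polynomial K := fun a =>
    Polynomial.C (algebraMap ℂ K (u a)) * Polynomial.X - Polynomial.C (algebraMap ℂ K (v a))
  let P₀ : Polynomial K := eval₂ Polynomial.C su G₀
  have hP : P₀.map (algebraMap K Om) =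
      ∏ i, (Polynomial.C (linc u (y i)) * Polynomial.X - Polynomial.C (linc v (y i))) := by
    have h1 : P₀.map (algebraMap K Om) =
        eval₂ (Polynomial.C : Om →+* Polynomial Om)
          (fun a => Polynomial.C (algebraMap ℂ Om (u a)) * Polynomial.X -
            Polynomial.C (algebraMap ℂ Om (v a))) G := by
      rw [← hG₀, eval₂_map]
      show (Polynomial.mapRingHom (algebraMap K Om)) (eval₂ Polynomial.C su G₀) = _
      rw [MvPolynomial.hom_eval₂]
      have e1 : (Polynomial.mapRingHom (algebraMap K Om)).comp Polynomial.C =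
          (Polynomial.C : Om →+* Polynomial Om).comp (algebraMap K Om) := by
        ext x
        simp
      have e2 : (⇑(Polynomial.mapRingHom (algebraMap K Om)) ∘ su) =
          fun a => Polynomial.C (algebraMap ℂ Om (u a)) * Polynomial.X -
            Polynomial.C (algebraMap ℂ Om (v a)) := by
        funext a
        simp [su, ← IsScalarTower.algebraMap_apply ℂ K Om]
      rw [e1, ← e2]
      rfl
    rw [h1, hGdef, eval₂_prod]
    refine Finset.prod_congr rfl fun i _ => ?_
    rw [lf, eval₂_sum]
    simp only [eval₂_mul, eval₂_C, eval₂_X]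
    rw [linc, linc, map_sum, map_sum, Finset.sum_mul, ← Finset.sum_sub_distrib]
    refine Finset.sum_congr rfl fun a _ => ?_
    rw [Algebra.smul_def, Algebra.smul_def, Polynomial.C_mul, Polynomial.C_mul]
    ring
  -- the leading coefficient
  obtain ⟨g₀, hg₀⟩ : ∃ g₀ : K, algebraMap K Om g₀ = ∏ i, linc u (y i) := by
    refine ⟨eval (fun a => algebraMap ℂ K (u a)) G₀, ?_⟩
    have h1 : algebraMap K Om (eval (fun a => algebraMap ℂ K (u a)) G₀) =
        eval (fun a => algebraMap ℂ Om (u a)) G := by
      rw [← hG₀, eval_map]
      show algebraMap K Om (eval₂ (RingHom.id K) (fun a => algebraMap ℂ K (u a)) G₀) = _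
      rw [MvPolynomial.hom_eval₂]
      have e2 : (⇑(algebraMap K Om) ∘ fun a => algebraMap ℂ K (u a)) =
          fun a => algebraMap ℂ Om (u a) := by
        funext a
        simp [← IsScalarTower.algebraMap_apply ℂ K Om]
      rw [← e2]
      rfl
    rw [h1, hGdef, map_prod]
    refine Finset.prod_congr rfl fun i _ => ?_
    rw [lf, map_sum, linc]
    refine Finset.sum_congr rfl fun a _ => ?_
    rw [map_mul, eval_C, eval_X, Algebra.smul_def, mul_comm]
  have hg1 : (∏ i, linc u (y i)) ≠ 0 := Finset.prod_ne_zero_iff.2 fun i _ => hu i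
  have hg2 : g₀ ≠ 0 := by
    rintro rfl
    rw [map_zero] at hg₀
    exact hg1 hg₀.symm
  have hq : (Polynomial.C g₀⁻¹ * P₀).map (algebraMap K Om) =
      ∏ i, (Polynomial.X - Polynomial.C (linc v (y i) / linc u (y i))) := by
    rw [Polynomial.map_mul, hP, Polynomial.map_C, map_inv₀, hg₀, ← Finset.prod_inv_distrib,
      map_prod, ← Finset.prod_mul_distrib]
    refine Finset.prod_congr rfl fun i _ => ?_
    rw [mul_sub, ← mul_assoc, ← Polynomial.C_mul, ← Polynomial.C_mul, inv_mul_cancel₀ (hu i),
      Polynomial.C_1, one_mul, div_eq_inv_mul]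
  have hinj : Function.Injective (algebraMap K Om) := (algebraMap K Om).injective
  refine ⟨Polynomial.C g₀⁻¹ * P₀, ?_, ?_, fun i => ?_⟩
  · rw [hinj.monic_map_iff, hq]
    exact Polynomial.monic_prod_of_monic _ _ fun i _ => Polynomial.monic_X_sub_C _
  · rw [← Polynomial.natDegree_map_eq_of_injective hinj, hq,
      Polynomial.natDegree_prod_of_monic _ _ fun i _ => Polynomial.monic_X_sub_C _]
    simp
  · rw [Polynomial.aeval_def, Polynomial.eval₂_eq_eval_map, hq, Polynomial.eval_prod]
    refine Finset.prod_eq_zero (Finset.mem_univ i) ?_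
    simp

/-- The field `K (y i / linc u (y i))` is finite of degree at most `m`: finitely many integral generators
(`IntermediateField.finiteDimensional_adjoin`), and a primitive element which is a combination with complex coefficients (`exists_prim`
applied in the field `E` itself), of degree at most `m` by `root_of_comb` (`lam : Fin (N + 1) → ℂ`). -/
theorem finrank_le_of_pts {K Om : Type} [Field K] [Field Om] [Algebra ℂ K] [Algebra ℂ Om] [Algebra K Om]
    [IsScalarTower ℂ K Om] {m N : ℕ} {y : Fin m → Fin (N + 1) → Om}
    (hG : ∀ α, coeff α (∏ i, lf (y i)) ∈ (algebraMap K Om).range) {u : Fin (N + 1) → ℂ}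
    (hu : ∀ i, linc u (y i) ≠ 0) (i : Fin m) :
    FiniteDimensional K (IntermediateField.adjoin K (Set.range fun a => y i a / linc u (y i))) ∧
      Module.finrank K (IntermediateField.adjoin K (Set.range fun a => y i a / linc u (y i))) ≤ m := by
  classical
  set S : Set Om := Set.range fun a => y i a / linc u (y i) with hS
  have hgen : ∀ x ∈ S, IsIntegral K x := by
    rintro x ⟨a, rfl⟩
    obtain ⟨q, hq1, _, hq3⟩ := root_of_comb hG hu (Pi.single a 1)
    have h1 : linc (Pi.single a 1 : Fin (N + 1) → ℂ) (y i) = y i a := by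
      rw [linc, Finset.sum_eq_single a]
      · simp
      · intro b _ hb
        simp [Pi.single_eq_of_ne hb]
      · intro h
        exact absurd (Finset.mem_univ a) h
    refine ⟨q, hq1, ?_⟩
    have h2 := hq3 i
    rw [h1] at h2
    exact h2
  have hfin : FiniteDimensional K (IntermediateField.adjoin K S) :=
    IntermediateField.finiteDimensional_adjoin hgen
  refine ⟨hfin, ?_⟩
  let f : Fin (N + 1) → IntermediateField.adjoin K S := fun a =>
    ⟨y i a / linc u (y i), IntermediateField.subset_adjoin K S ⟨a, rfl⟩⟩
  have hST : IsScalarTower ℂ K (IntermediateField.adjoin K S) := inferInstance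
  have hftop : IntermediateField.adjoin K (Set.range f) = ⊤ := by
    apply IntermediateField.map_injective (IntermediateField.adjoin K S).val
    rw [IntermediateField.adjoin_map]
    have h1 : (⇑(IntermediateField.adjoin K S).val '' Set.range f) = S := by
      rw [← Set.range_comp]
      rfl
    rw [h1, ← AlgHom.fieldRange_eq_map, IntermediateField.fieldRange_val]
  obtain ⟨lam, hlam⟩ := exists_prim f hftop
  set x : IntermediateField.adjoin K S := linc lam f with hx
  have hxv : (x : Om) = linc lam (y i) / linc u (y i) := by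
    rw [hx, linc, linc, Finset.sum_div]
    have h1 : ((∑ a, lam a • f a : IntermediateField.adjoin K S) : Om) =
        ∑ a, ((lam a • f a : IntermediateField.adjoin K S) : Om) := by
      simp
    rw [h1]
    refine Finset.sum_congr rfl fun a _ => ?_
    have h2 : ((lam a • f a : IntermediateField.adjoin K S) : Om) =
        lam a • (y i a / linc u (y i)) := rfl
    rw [h2, smul_div_assoc]
  obtain ⟨q, hq1, hq2, hq3⟩ := root_of_comb hG hu lam
  have hqx : Polynomial.aeval x q = 0 := by
    have h1 := hq3 i
    rw [← hxv] at h1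
    have h2 : ((Polynomial.aeval x q : IntermediateField.adjoin K S) : Om) =
        Polynomial.aeval (x : Om) q := by
      have := Polynomial.aeval_algHom_apply (IntermediateField.adjoin K S).val x q
      exact this.symm
    have h3 : ((Polynomial.aeval x q : IntermediateField.adjoin K S) : Om) = 0 := by
      rw [h2, h1]
    exact_mod_cast h3
  have hxint : IsIntegral K x := ⟨q, hq1, hqx⟩
  have h4 : Module.finrank K (IntermediateField.adjoin K S) = (minpoly K x).natDegree := by
    rw [← IntermediateField.adjoin.finrank hxint, hlam]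
    exact (IntermediateField.finrank_top').symm
  rw [h4, ← hq2]
  exact Polynomial.natDegree_le_natDegree (minpoly.min K x hq1 hqx)

end Pool.Agent.H24V
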