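import Pool.Agent.Lib.H24V.P1

set_option autoImplicit false

/-!
CHUNK P4 (M).  The end of the proof for symmetric powers.
-/

open MvPolynomial

namespace Pool.Agent.H24V

theorem lf_coeff4 {n : ℕ} {A : Type} [CommRing A] (x : Fin n → A) (b : Fin n) :
    coeff (Finsupp.single b 1) (lf x) = x b := by
  classical
  simp [lf, coeff_sum, coeff_C_mul, coeff_X, Finsupp.single_left_inj]

/-- The points are proportional to complex vectors `w i`, so `∏ i, lf (y i) = (∏ i, linc u (y i)) * Γ`, `Γ = ∏ i, lf (w i)` mapped to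
`Om`, `linc u (w i) = 1`; the value at `u` of both sides: `∏ i, linc u (y i) = ev (fun z => eval u (H z))`; so
`ev (fun z => coeff α (H z)) = ev (fun z => eval u (H z)) * coeff α Γ`; both are entire functions of `z` (`eval u (H z)` is a
finite sum: all `H z` are homogeneous of degree `m`, as products of `m` linear forms) and `ev` is injective on `EF`, so
`H z = eval u (H z) • Γ` for all `z`; `H z ≠ 0` as a product of nonzero forms, so `eval u (H z) ≠ 0`, and
`H w = (eval u (H w) / eval u (H z)) • H z`. -/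
theorem sym_end {Om : Type} [Field Om] [Algebra ℂ Om] [Algebra KK Om] [IsScalarTower ℂ KK Om]
    (ev : (ℂ → ℂ) →ₐ[ℂ] Om) (hev : ∀ f : EF, ev f.1 = algebraMap KK Om (algebraMap EF KK f))
    {m N c : ℕ} {F : Fin c → MvPolynomial (Fin (N + 1)) ℂ}
    {H : ℂ → MvPolynomial (Fin (N + 1)) ℂ} (hH : SymCurve m F H) {y : Fin m → Fin (N + 1) → Om}
    (hy : ∀ α, coeff α (∏ i, lf (y i)) = ev fun z => coeff α (H z)) {u : Fin (N + 1) → ℂ}
    (hu : ∀ i, linc u (y i) ≠ 0) {w : Fin m → Fin (N + 1) → ℂ}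
    (hw : ∀ i a, y i a = linc u (y i) * algebraMap ℂ Om (w i a)) (z z' : ℂ) :
    ∃ t : ℂ, H z' = t • H z := by
  classical
  have hne : ∀ {x : Fin (N + 1) → ℂ}, x ≠ 0 → lf x ≠ 0 := by
    intro x hx h0
    apply hx
    funext b
    have h1 := lf_coeff4 x b
    rw [h0, coeff_zero] at h1
    exact h1.symm
  obtain ⟨Γ, hΓ⟩ : ∃ Γ : MvPolynomial (Fin (N + 1)) ℂ, Γ = ∏ i, lf (w i) := ⟨_, rfl⟩
  have hΓ0 : Γ ≠ 0 := by
    rw [hΓ, Finset.prod_ne_zero_iff]
    intro i _
    apply hne
    intro h0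
    apply hu i
    have h1 : y i = 0 := by
      funext a
      rw [hw i a, h0]
      simp
    simp [h1, linc]
  have hprod : ∏ i, lf (y i) = C (∏ i, linc u (y i)) * map (algebraMap ℂ Om) Γ := by
    rw [hΓ, map_prod, map_prod, ← Finset.prod_mul_distrib]
    refine Finset.prod_congr rfl fun i _ => ?_
    simp only [lf, map_sum, map_mul, map_C, map_X, Finset.mul_sum]
    refine Finset.sum_congr rfl fun a _ => ?_
    rw [← mul_assoc, ← C_mul, ← hw i a]
  obtain ⟨α0, hα0⟩ : ∃ α, coeff α Γ ≠ 0 := by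
    by_contra hcon
    push Not at hcon
    exact hΓ0 (by ext α; simpa using hcon α)
  have hcoef : ∀ α, ev (fun z => coeff α (H z)) = (∏ i, linc u (y i)) * algebraMap ℂ Om (coeff α Γ) := by
    intro α
    rw [← hy α, hprod, coeff_C_mul, coeff_map]
  have hinj : ∀ f : EF, ev f.1 = 0 → f = 0 := by
    intro f hf
    rw [hev] at hf
    have h1 := (map_eq_zero_iff _ (algebraMap KK Om).injective).mp hf
    exact (map_eq_zero_iff _ (IsFractionRing.injective EF KK)).mp h1
  have hkey : ∀ α z, coeff α0 Γ * coeff α (H z) = coeff α Γ * coeff α0 (H z) := by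
    intro α z
    obtain ⟨f, hf⟩ : ∃ f : EF, ∀ z, f.1 z = coeff α0 Γ * coeff α (H z) - coeff α Γ * coeff α0 (H z) :=
      ⟨⟨fun z => coeff α0 Γ * coeff α (H z) - coeff α Γ * coeff α0 (H z),
        ((hH.diff α).const_mul _).sub ((hH.diff α0).const_mul _)⟩, fun _ => rfl⟩
    have h0 : f = 0 := by
      apply hinj
      have h1 : f.1 = coeff α0 Γ • (fun z => coeff α (H z)) - coeff α Γ • (fun z => coeff α0 (H z)) := by
        funext z
        rw [hf z]
        simp
      rw [h1, map_sub, map_smul, map_smul, hcoef, hcoef, Algebra.smul_def, Algebra.smul_def]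
      ring
    have h2 := hf z
    rw [h0, EF_zero_apply] at h2
    exact sub_eq_zero.mp h2.symm
  have hH0 : coeff α0 (H z) ≠ 0 := by
    intro h0
    obtain ⟨p, hp, -, hHp⟩ := hH.prod z
    have h1 : H z ≠ 0 := by
      rw [hHp, Finset.prod_ne_zero_iff]
      exact fun i _ => hne (hp i)
    apply h1
    ext α
    have h2 := hkey α z
    rw [h0, mul_zero, mul_eq_zero] at h2
    rw [coeff_zero]
    exact h2.resolve_left hα0
  refine ⟨coeff α0 (H z') / coeff α0 (H z), ?_⟩
  ext α
  rw [coeff_smul, smul_eq_mul, div_mul_eq_mul_div, eq_div_iff hH0]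
  have h1 := hkey α z
  have h2 := hkey α z'
  apply mul_left_cancel₀ hα0
  calc coeff α0 Γ * (coeff α (H z') * coeff α0 (H z)) = (coeff α0 Γ * coeff α (H z')) * coeff α0 (H z) := by ring
    _ = coeff α0 (H z') * (coeff α Γ * coeff α0 (H z)) := by rw [h2]; ring
    _ = coeff α0 Γ * (coeff α0 (H z') * coeff α (H z)) := by rw [← h1]; ring

end Pool.Agent.H24V
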