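import Pool.Agent.Lib.H24V.D1
import Pool.Agent.Lib.H53U.R7B

set_option autoImplicit false

/-!
H24V, module R: all charts (port of H53U/R7B.lean).
-/

open MvPolynomial

namespace Pool.Agent.H24V

open Pool.Agent.H89T Pool.Agent.H67T Pool.Agent.H53U

/-- Homogeneity. -/
theorem aeval_mul_left {L : Type} [Field L] [Algebra ℂ L] {n e : ℕ} {G : MvPolynomial (Fin n) ℂ}
    (hG : G.IsHomogeneous e) (t : L) (y : Fin n → L) :
    aeval (fun a => t * y a) G = t ^ e * aeval y G := by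
  classical
  rw [aeval_def, aeval_def, eval₂_eq', eval₂_eq', Finset.mul_sum]
  refine Finset.sum_congr rfl fun α hα => ?_
  have h1 : ∑ a, α a = e := by
    have h2 := hG (mem_support_iff.1 hα)
    rw [Finsupp.weight_apply, Finsupp.sum_fintype _ _ (fun _ => by simp)] at h2
    simpa using h2
  simp only [mul_pow]
  rw [Finset.prod_mul_distrib, Finset.prod_pow_eq_pow_sum, h1]
  ring

/-- From the chart `y_0 ≠ 0` to all charts. -/
theorem hypL_of_chart {B N c : ℕ} {d : Fin c → ℕ}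
    {Θ' : MvPolynomial (IT (Fin (N + 1)) d) ℂ} (hΘ' : Θ' ≠ 0)
    (h : ∀ F : Fin c → MvPolynomial (Fin (N + 1)) ℂ, (∀ j, (F j).IsHomogeneous (d j)) →
      eval (fun p : IT (Fin (N + 1)) d => coeff (p.2 : Fin (N + 1) →₀ ℕ) (F p.1)) Θ' ≠ 0 →
      ∀ (L : Type) [Field L] [Algebra ℂ L] (D : Derivation ℂ L L), Good B L D →
        ∀ f : Fin N → L, (∀ j, aeval (pt f) (F j) = 0) → ∀ b, D (f b) = 0) :
    HypL B N d := by
  classical
  obtain ⟨Θ₁, hΘ₁⟩ : ∃ Θ₁ : MvPolynomial (Fin c × (Fin (N + 1) →₀ ℕ)) ℂ,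
      Θ₁ = rename (fun p : IT (Fin (N + 1)) d => (p.1, (p.2 : Fin (N + 1) →₀ ℕ))) Θ' := ⟨_, rfl⟩
  have hc1 : ∀ F : Fin c → MvPolynomial (Fin (N + 1)) ℂ, cvs Θ₁ F =
      eval (fun p : IT (Fin (N + 1)) d => coeff (p.2 : Fin (N + 1) →₀ ℕ) (F p.1)) Θ' := by
    intro F
    rw [hΘ₁, cvs, eval_rename]
    rfl
  obtain ⟨σ, hσ⟩ : ∃ σ : Fin (N + 1) → Equiv.Perm (Fin (N + 1)), ∀ i, σ i = Equiv.swap 0 i := ⟨_, fun _ => rfl⟩
  have hinv : ∀ j i, σ j (σ j i) = i := fun j i => by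
    rw [hσ]
    exact Equiv.swap_apply_self _ _ _
  obtain ⟨Θi, hΘi⟩ : ∃ Θi : Fin (N + 1) → MvPolynomial (Fin c × (Fin (N + 1) →₀ ℕ)) ℂ,
      ∀ i, Θi i = rename (fun p : Fin c × (Fin (N + 1) →₀ ℕ) => (p.1, p.2.mapDomain (σ i))) Θ₁ := ⟨_, fun _ => rfl⟩
  have hci : ∀ i, ∀ F : Fin c → MvPolynomial (Fin (N + 1)) ℂ, cvs (Θi i) F = cvs Θ₁ (fun j => rename (σ i) (F j)) := by
    intro i F
    rw [hΘi, cvs, eval_rename, cvs]
    have e : (fun p : Fin c × (Fin (N + 1) →₀ ℕ) => coeff p.2 (F p.1)) ∘ (fun p : Fin c × (Fin (N + 1) →₀ ℕ) => (p.1, p.2.mapDomain (σ i))) =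
        fun p : Fin c × (Fin (N + 1) →₀ ℕ) => coeff p.2 (rename (σ i) (F p.1)) := by
      funext p
      rw [r7b_coeff (σ i) (hinv i)]
      rfl
    rw [e]
  have hne : ∀ i, r7b_rs d (Θi i) ≠ 0 := by
    intro i h0
    have h1 : ∃ v : IT (Fin (N + 1)) d → ℂ, eval v Θ' ≠ 0 := by
      by_contra hcon
      push Not at hcon
      exact hΘ' (MvPolynomial.funext fun x => by rw [hcon x, map_zero])
    obtain ⟨v, hv⟩ := h1
    obtain ⟨F, hF, hFv⟩ := r7b_form v
    have h2 := r7b_cvs (d := d) (Θi i) (F := fun j => rename (σ i) (F j)) fun j => (hF j).rename_isHomogeneous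
    rw [h0, map_zero, hci] at h2
    have h3 : (fun j => rename (σ i) (rename (σ i) (F j))) = F := by
      funext j
      rw [rename_rename]
      have e : (σ i : Fin (N + 1) → Fin (N + 1)) ∘ σ i = id := _root_.funext (hinv i)
      rw [e, rename_id_apply]
    rw [h3, hc1, hFv] at h2
    exact hv h2
  refine ⟨∏ i, Θi i, ?_, fun F hF hF0 L _ _ D hG y hyF => ?_⟩
  · have h1 : r7b_rs d (∏ i, Θi i) ≠ 0 := by
      rw [map_prod]
      exact Finset.prod_ne_zero_iff.2 fun i _ => hne i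
    have h2 : ∃ v : IT (Fin (N + 1)) d → ℂ, eval v (r7b_rs d (∏ i, Θi i)) ≠ 0 := by
      by_contra hcon
      push Not at hcon
      exact h1 (MvPolynomial.funext fun x => by rw [hcon x, map_zero])
    obtain ⟨v, hv⟩ := h2
    obtain ⟨F, hF, hFv⟩ := r7b_form v
    refine ⟨F, hF, ?_⟩
    rw [r7b_cvs _ hF, hFv]
    exact hv
  · by_cases hy : ∃ i, y i ≠ 0
    · obtain ⟨i, hi⟩ := hy
      have hFi : cvs (Θi i) F ≠ 0 := by
        intro h0
        apply hF0
        unfold cvs at h0 ⊢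
        rw [map_prod]
        exact Finset.prod_eq_zero (Finset.mem_univ i) h0
      rw [hci, hc1] at hFi
      obtain ⟨f, hf⟩ : ∃ f : Fin N → L, ∀ b, f b = (y i)⁻¹ * y (σ i b.succ) := ⟨_, fun _ => rfl⟩
      have hσ0 : σ i 0 = i := by
        rw [hσ]
        exact Equiv.swap_apply_left _ _
      have hpt : pt f = fun a => (y i)⁻¹ * y (σ i a) := by
        funext a
        refine Fin.cases ?_ (fun b => ?_) a
        · rw [hσ0, inv_mul_cancel₀ hi]
          rfl
        · exact hf b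
      have hev : ∀ j, aeval (pt f) (rename (σ i) (F j)) = 0 := by
        intro j
        rw [aeval_rename, hpt]
        have e : (fun a => (y i)⁻¹ * y (σ i a)) ∘ σ i = fun a => (y i)⁻¹ * y a := by
          funext a
          show (y i)⁻¹ * y (σ i (σ i a)) = _
          rw [hinv]
        rw [e, aeval_mul_left (hF j), hyF, mul_zero]
      have h1 := h (fun j => rename (σ i) (F j)) (fun j => (hF j).rename_isHomogeneous) hFi L D hG f hev
      choose x hx using fun b => hG.const (f b) (h1 b)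
      obtain ⟨x', hx'⟩ : ∃ x' : Fin (N + 1) → ℂ, x' = pt x := ⟨_, rfl⟩
      have hpx : ∀ a, pt f a = algebraMap ℂ L (x' a) := by
        intro a
        rw [hx']
        refine Fin.cases ?_ (fun b => ?_) a
        · exact (map_one _).symm
        · exact hx b
      refine ⟨y i, fun k => x' (σ i k), fun k => ?_⟩
      rw [← hpx, hpt]
      simp only
      rw [hinv, mul_inv_cancel_left₀ hi]
    · push Not at hy
      exact ⟨0, 0, fun i => by rw [hy i, zero_mul]⟩

end Pool.Agent.H24V
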