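import Pool.Agent.Lib.H24V.V3
import Pool.Agent.Lib.H24V.P2
import Pool.Agent.Lib.H24V.P3
import Pool.Agent.Lib.H24V.P4
import Pool.Agent.Lib.H24V.R4

set_option autoImplicit false

/-!
H24V, module P: from points over good fields to entire curves in symmetric powers.
-/

open MvPolynomial

namespace Pool.Agent.H24V

open Pool.Agent.H89T Pool.Agent.H67T Pool.Agent.H53U Pool.Agent.H53V

theorem symHyp_of_hypL {m N c : ℕ} {d : Fin c → ℕ} (h : HypL (4 * m - 3) N d) : SymHyp m N d := by
  classical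
  obtain ⟨Θ, hΘ, hmain⟩ := h
  refine ⟨Θ, hΘ, fun F hF hF0 H hH z z' => ?_⟩
  obtain ⟨Om, iF, iC, iK, iT, ev, hev⟩ := exists_Om
  obtain ⟨y, hy0, hyF, hyH⟩ := exists_pts ev hH
  obtain ⟨u, hu⟩ := exists_u y hy0
  have hK : ∀ α, coeff α (∏ i, lf (y i)) ∈ (algebraMap KK Om).range := fun α =>
    ⟨algebraMap EF KK ⟨fun z => coeff α (H z), hH.diff α⟩, by rw [hyH, ← hev]⟩
  have hpts : ∀ i, ∃ w : Fin (N + 1) → ℂ, ∀ a, y i a = linc u (y i) * algebraMap ℂ Om (w a) := by
    intro i
    obtain ⟨E, hE⟩ : ∃ E, E = IntermediateField.adjoin KK (Set.range fun a => y i a / linc u (y i)) :=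
      ⟨_, rfl⟩
    obtain ⟨hfin, hrank⟩ := finrank_le_of_pts hK hu i
    rw [← hE] at hfin hrank
    haveI : FiniteDimensional KK E := hfin
    obtain ⟨D, hD⟩ := exists_DL E
    have hgood := good_of hD hrank
    obtain ⟨g, hg⟩ : ∃ g : Fin (N + 1) → E, ∀ a, (g a : Om) = y i a / linc u (y i) :=
      ⟨fun a => ⟨y i a / linc u (y i), by
        rw [hE]
        exact IntermediateField.subset_adjoin _ _ ⟨a, rfl⟩⟩, fun _ => rfl⟩
    have hgc : ∀ a, (g a : Om) = (linc u (y i))⁻¹ * y i a := fun a => by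
      rw [hg, div_eq_inv_mul]
    have hgF : ∀ j, aeval g (F j) = 0 := by
      intro j
      apply Subtype.ext
      have h1 := MvPolynomial.comp_aeval_apply (f := g) (E.val.restrictScalars ℂ) (F j)
      have h2 : (fun a => (E.val.restrictScalars ℂ) (g a)) = fun a => (linc u (y i))⁻¹ * y i a :=
        _root_.funext hgc
      rw [h2] at h1
      have h3 : aeval (fun a => (linc u (y i))⁻¹ * y i a) (F j) =
          (linc u (y i))⁻¹ ^ d j * aeval (y i) (F j) := aeval_mul_left (hF j) _ _
      rw [h3, hyF, mul_zero] at h1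
      exact h1
    obtain ⟨t, x, htx⟩ := hmain F hF hF0 E D hgood g hgF
    have h4 : ∀ a, (g a : Om) = t * algebraMap ℂ Om (x a) := fun a => by
      rw [htx a]
      rfl
    have hug : linc u (fun a => (g a : Om)) = 1 := by
      unfold linc
      have h5 : ∀ a, u a • (g a : Om) = (linc u (y i))⁻¹ * (u a • y i a) := fun a => by
        rw [hgc, mul_smul_comm]
      rw [Finset.sum_congr rfl fun a _ => h5 a, ← Finset.mul_sum]
      exact inv_mul_cancel₀ (hu i)
    have htu : (t : Om) * algebraMap ℂ Om (∑ a, u a * x a) = 1 := by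
      rw [← hug]
      unfold linc
      rw [map_sum, Finset.mul_sum]
      refine Finset.sum_congr rfl fun a _ => ?_
      show _ = u a • (g a : Om)
      rw [h4, map_mul, Algebra.smul_def]
      ring
    have hux : (∑ a, u a * x a) ≠ 0 := by
      intro h0
      rw [h0, map_zero, mul_zero] at htu
      exact zero_ne_one htu
    refine ⟨fun a => (∑ a, u a * x a)⁻¹ * x a, fun a => ?_⟩
    have h6 := h4 a
    rw [hg, div_eq_iff (hu i)] at h6
    rw [h6, map_mul, map_inv₀]
    have h5 : (t : Om) = (algebraMap ℂ Om (∑ a, u a * x a))⁻¹ := eq_inv_of_mul_eq_one_left htu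
    rw [h5]
    ring
  choose w hw using hpts
  exact sym_end ev hev hH hyH hu hw z z'

end Pool.Agent.H24V
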