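import Pool.Agent.Lib.H24V.R1
import Pool.Agent.Lib.H53V.NMain

set_option autoImplicit false

/-!
H24V, module R: the pointed theorem for points over good fields (port of H53V/NMain.lean).
-/

open MvPolynomial Real MeasureTheory

namespace Pool.Agent.H24V

open Pool.Agent.H89T Pool.Agent.H67T Pool.Agent.H53U Pool.Agent.H53V

theorem ptdL_of {B n k q c : ℕ} (hn : 1 ≤ n) (hk : 1 ≤ k) {d : Fin c → ℕ} (hd : ∀ j, 1 ≤ d j)
    {M s : ℕ} (hs0 : B * ((q + 1) * M) + 1 ≤ q * s)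
    (hmain : ∀ l : Fin (n + c) → ℂ, ∃ Θ : RC (n + c) d,
      (∃ a : CI (n + c) d → ℂ, (∀ j, U0 a 0 j = 0) ∧ eval a Θ ≠ 0) ∧
      ∀ a : CI (n + c) d → ℂ, (∀ j, U0 a 0 j = 0) → eval a Θ ≠ 0 →
        ∀ ξ : JV (n + c) k → ℂ, (∀ b, ξ (b, 0) = 0) → (∃ b, ξ (b, 1) ≠ 0) →
          (∀ j, ∀ i ≤ k, uV a ξ j i = 0) →
          ∃ (P Q : MvPolynomial (JV (n + c) k) ℂ) (t : ℂ), HasWt M P ∧ HasWt M Q ∧
            (linK k l + C t) ^ s * P - Q ∈ IK k Finset.univ a ∧ eval ξ P ≠ 0) : PtdL B n d := by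
  classical
  obtain ⟨Θ₁, hΘ₁, hbase⟩ := exists_theta1 (n := n) hd
  -- the number of the multipliers
  obtain ⟨ν, rfl⟩ : ∃ ν, n = ν + 1 := ⟨n - 1, by omega⟩
  set κ : ℕ := q * ν + 1 with hκ
  set R : ℕ := q * ν + 1 + ν with hR
  have hR' : R + 1 = κ + (ν + 1) := by omega
  have hsM : B * M + 1 ≤ s := by
    by_contra hcon
    have h1 : s ≤ B * M := by omega
    have h2 : q * s ≤ q * (B * M) := Nat.mul_le_mul_left _ h1
    have h3 : B * ((q + 1) * M) = q * (B * M) + B * M := by ring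
    omega
  have hs : B * (R * M) + 1 ≤ s * κ := by
    have h1 : ν * (B * ((q + 1) * M) + 1) ≤ ν * (q * s) := Nat.mul_le_mul_left _ hs0
    have h2 : s * κ = ν * (q * s) + s := by rw [hκ]; ring
    have h3 : B * (R * M) + 1 + ν = ν * (B * ((q + 1) * M) + 1) + (B * M + 1) := by rw [hR]; ring
    omega
  -- the multipliers
  set τ : Fin R → ℂ := fun i => ((i : ℕ) : ℂ) with hτ
  have hτi : Function.Injective τ := by
    intro i j hij
    have h1 : ((i : ℕ) : ℂ) = ((j : ℕ) : ℂ) := hij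
    exact Fin.ext (by exact_mod_cast h1)
  set l : Fin R → Fin (ν + 1 + c) → ℂ := fun i =>
    Fin.append (fun g : Fin (ν + 1) => τ i ^ (g : ℕ)) (fun _ => 0) with hl
  choose Θ₂ hΘ₂ hmain using fun i => hmain (l i)
  refine ⟨Θ₁ * ∏ i, Θ₂ i, mul_generic hΘ₁ (prod_generic hd _ _ fun i _ => hΘ₂ i), ?_⟩
  intro F hF hF0 hΘ L _ _ D hG f hfF p hfO hf0
  rw [map_mul, mul_ne_zero_iff, map_prod, Finset.prod_ne_zero_iff] at hΘ
  by_contra hcon
  push Not at hcon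
  obtain ⟨b₀, hb₀⟩ := hcon
  -- the jet
  obtain ⟨ξ, hξ⟩ : ∃ ξ : JV (ν + 1 + c) k → ℂ, ∀ q, ξ q = p.val (jetL D k f q) := ⟨_, fun _ => rfl⟩
  have hjO : ∀ q, jetL D k f q ∈ p.O := p.jetL_mem hfO
  have hval : ((1 : Fin (k + 1)) : ℕ) = 1 := by
    rw [Fin.val_one', Nat.mod_eq_of_lt (by omega)]
  have hjet0 : ∀ b, jetL D k f (b, 0) = f b := by
    intro b
    simp [jetL]
  have hξ0 : ∀ b, ξ (b, 0) = 0 := by
    intro b
    rw [hξ, hjet0, hf0]
  have hξ1 : ∃ b, ξ (b, 1) ≠ 0 := by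
    refine ⟨b₀, ?_⟩
    rw [hξ, p.val_jetL hfO]
    simp only
    rw [hval]
    simpa using hb₀
  have hξe : (fun q => p.val (jetL D k f q)) = ξ := _root_.funext fun q => (hξ q).symm
  have hξu : ∀ j, ∀ i ≤ k, uV (cfs d F) ξ j i = 0 := by
    intro j i hi
    have h2 := p.val_aeval hjO (uK k (cfs d F) j i)
    rw [aeval_uK_zero hF hfF j hi, p.val_zero, hξe] at h2
    unfold uK at h2
    rw [eval_uR] at h2
    exact h2.symm
  choose P Q t hP hQ hrel hne using fun i =>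
    hmain i (cfs d F) hF0 (hΘ.2 i (Finset.mem_univ i)) ξ hξ0 hξ1 hξu
  -- no base points
  set T : Finset (Fin (ν + 1 + c + 1)) :=
    insert 0 (Finset.univ.image fun i : Fin (ν + 1) => (Fin.castAdd c i).succ) with hT
  obtain ⟨A₁, hA₁0, hA₁⟩ := compact_bound hF (T := T) ⟨0, Finset.mem_insert_self _ _⟩
    (fun x hx hxT => hbase F hF hΘ.1 x hx (hxT 0 (Finset.mem_insert_self _ _)) fun i =>
      hxT _ (Finset.mem_insert_of_mem (Finset.mem_image_of_mem _ (Finset.mem_univ i))))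
  obtain ⟨A, hA0, hA⟩ := genpos hR' (fun g : Fin (ν + 1) => Fin.castAdd c g) hτi t hA₁0
  obtain ⟨l', hl'⟩ : ∃ l' : Fin R → Fin (ν + 1 + c + 1) → ℂ, ∀ i, l' i = Fin.cons (t i) (l i) :=
    ⟨_, fun _ => rfl⟩
  have hl'0 : ∀ i, l' i 0 = t i := fun i => by rw [hl']; rfl
  have hl's : ∀ i b, l' i (Fin.succ b) = l i b := fun i b => by rw [hl']; rfl
  have hlx : ∀ (i : Fin R) (x : Fin (ν + 1 + c + 1) → ℂ), linc (l' i) x =
      ∑ g : Fin (ν + 1), τ i ^ (g : ℕ) * x (Fin.castAdd c g).succ + t i * x 0 := by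
    intro i x
    unfold linc
    rw [Fin.sum_univ_succ, Fin.sum_univ_add, hl'0]
    have h4 : ∑ j : Fin c, l' i (Fin.natAdd (ν + 1) j).succ • x (Fin.natAdd (ν + 1) j).succ = 0 := by
      refine Finset.sum_eq_zero fun j _ => ?_
      rw [hl's, hl]
      simp only [Fin.append_right, zero_smul]
    rw [h4, add_zero, add_comm]
    congr 1
    refine Finset.sum_congr rfl fun g _ => ?_
    rw [hl's, hl]
    simp only [Fin.append_left, smul_eq_mul]
  have hA' : ∀ x : Fin (ν + 1 + c + 1) → ℂ, (∀ j, eval x (F j) = 0) → ‖x‖ ≤ A * ‖x 0‖ ∨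
      ∃ I : Finset (Fin R), I.card = κ ∧ ∀ i ∈ I, ‖x‖ ≤ A * ‖linc (l' i) x‖ := by
    intro x hx
    have h1 := hA x (by
      obtain ⟨b, hb, hle⟩ := hA₁ x hx
      rw [hT, Finset.mem_insert, Finset.mem_image] at hb
      rcases hb with rfl | ⟨i, -, rfl⟩
      · exact Or.inl hle
      · exact Or.inr ⟨i, hle⟩)
    rcases h1 with h1 | ⟨I, hI, h1⟩
    · exact Or.inl h1
    · exact Or.inr ⟨I, hI, fun i hi => by rw [hlx]; exact h1 i hi⟩
  obtain ⟨i, hi⟩ := hG.vt _ k M R s κ c F f l' A P Q hs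
    ⟨b₀, fun h0 => hb₀ (by rw [h0, p.val_zero])⟩ hfF hA' hP hQ (by
    intro i
    have h2 := aeval_mem_IK (D := D) hF hfF (hrel i)
    rw [map_sub, map_mul, map_pow, map_add, aeval_C, sub_eq_zero] at h2
    have h3 : linc (l' i) (pt f) = aeval (jetL D k f) (linK k (l i)) + algebraMap ℂ L (t i) := by
      unfold linc linK
      rw [Fin.sum_univ_succ, hl'0, map_sum, add_comm]
      congr 1
      · refine Finset.sum_congr rfl fun b _ => ?_
        rw [map_mul, aeval_C, aeval_X, hjet0, hl's, Algebra.smul_def]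
        rfl
      · rw [Algebra.smul_def]
        exact mul_one _
    rw [h3, h2])
  have h5 := p.val_aeval hjO (P i)
  rw [hi, p.val_zero, hξe] at h5
  exact hne i h5.symm

end Pool.Agent.H24V
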