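import Pool.Agent.Lib.H24V.E0

set_option autoImplicit false

/-!
CHUNK A1 (M).  The derivation of the field of the meromorphic functions.
-/

namespace Pool.Agent.H24V

section

variable {A : Type} [CommRing A] [Algebra ℂ A] (D : Derivation ℂ A A)

/-- The homomorphism to the dual numbers defined by the derivation. -/
noncomputable def a1_hom (K : Type) [Field K] [Algebra A K] : A →+* TrivSqZeroExt K K where
  toFun f := TrivSqZeroExt.inl (algebraMap A K f) + TrivSqZeroExt.inr (algebraMap A K (D f))
  map_one' := by
    rw [map_one, Derivation.map_one_eq_zero, map_zero, TrivSqZeroExt.inr_zero, add_zero]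
    rfl
  map_zero' := by
    rw [map_zero, map_zero, map_zero, TrivSqZeroExt.inr_zero, add_zero]
    rfl
  map_add' f g := by
    rw [map_add, map_add, map_add, TrivSqZeroExt.inl_add, TrivSqZeroExt.inr_add]
    abel
  map_mul' f g := by
    apply TrivSqZeroExt.ext
    · simp
    · rw [TrivSqZeroExt.snd_mul]
      simp only [TrivSqZeroExt.snd_add, TrivSqZeroExt.snd_inl, TrivSqZeroExt.snd_inr, zero_add,
        TrivSqZeroExt.fst_add, TrivSqZeroExt.fst_inl, TrivSqZeroExt.fst_inr, add_zero,
        Derivation.leibniz, smul_eq_mul, op_smul_eq_mul, map_add, map_mul]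
      ring

theorem a1_hom_fst (K : Type) [Field K] [Algebra A K] (f : A) :
    (a1_hom D K f).fst = algebraMap A K f := by
  show (TrivSqZeroExt.inl (algebraMap A K f) +
    TrivSqZeroExt.inr (algebraMap A K (D f)) : TrivSqZeroExt K K).fst = _
  rw [TrivSqZeroExt.fst_add, TrivSqZeroExt.fst_inl, TrivSqZeroExt.fst_inr, add_zero]

theorem a1_hom_snd (K : Type) [Field K] [Algebra A K] (f : A) :
    (a1_hom D K f).snd = algebraMap A K (D f) := by
  show (TrivSqZeroExt.inl (algebraMap A K f) +
    TrivSqZeroExt.inr (algebraMap A K (D f)) : TrivSqZeroExt K K).snd = _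
  rw [TrivSqZeroExt.snd_add, TrivSqZeroExt.snd_inl, TrivSqZeroExt.snd_inr, zero_add]

theorem a1_unit (K : Type) [Field K] [Algebra A K] [IsFractionRing A K]
    (y : nonZeroDivisors A) : IsUnit (a1_hom D K y) := by
  rw [TrivSqZeroExt.isUnit_iff_isUnit_fst, a1_hom_fst]
  exact IsLocalization.map_units K y

/-- The extension to the field of fractions. -/
noncomputable def a1_lift (K : Type) [Field K] [Algebra A K] [IsFractionRing A K] :
    K →+* TrivSqZeroExt K K :=
  IsLocalization.lift (M := nonZeroDivisors A) (S := K) (g := a1_hom D K) (a1_unit D K)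

theorem a1_lift_alg (K : Type) [Field K] [Algebra A K] [IsFractionRing A K] (f : A) :
    a1_lift D K (algebraMap A K f) = a1_hom D K f :=
  IsLocalization.lift_eq (M := nonZeroDivisors A) (S := K) (a1_unit D K) f

theorem a1_lift_fst (K : Type) [Field K] [Algebra A K] [IsFractionRing A K] (x : K) :
    (a1_lift D K x).fst = x := by
  have h1 : ((TrivSqZeroExt.fstHom K K K).toRingHom.comp (a1_lift D K)) = RingHom.id K := by
    refine IsLocalization.ringHom_ext (nonZeroDivisors A) (RingHom.ext fun f => ?_)
    show (a1_lift D K (algebraMap A K f)).fst = algebraMap A K f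
    rw [a1_lift_alg, a1_hom_fst]
  exact congrArg (fun F : K →+* K => F x) h1

theorem a1_lift_snd_mul (K : Type) [Field K] [Algebra A K] [IsFractionRing A K] (x y : K) :
    (a1_lift D K (x * y)).snd = x * (a1_lift D K y).snd + y * (a1_lift D K x).snd := by
  rw [map_mul, TrivSqZeroExt.snd_mul, a1_lift_fst, a1_lift_fst, smul_eq_mul,
    op_smul_eq_mul, mul_comm y]

theorem a1_lift_snd_algebraMap (K : Type) [Field K] [Algebra A K]
    [IsFractionRing A K] [Algebra ℂ K] [IsScalarTower ℂ A K] (t : ℂ) :
    (a1_lift D K (algebraMap ℂ K t)).snd = 0 := by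
  rw [IsScalarTower.algebraMap_apply ℂ A K, a1_lift_alg, a1_hom_snd,
    Derivation.map_algebraMap, map_zero]

theorem a1_exists (K : Type) [Field K] [Algebra A K]
    [IsFractionRing A K] [Algebra ℂ K] [IsScalarTower ℂ A K] :
    ∃ D' : Derivation ℂ K K, ∀ f : A, D' (algebraMap A K f) = algebraMap A K (D f) := by
  refine ⟨Derivation.mk' (R := ℂ) (A := K) (M := K)
    { toFun := fun x => (a1_lift D K x).snd
      map_add' := fun x y => by rw [map_add, TrivSqZeroExt.snd_add]
      map_smul' := fun t x => by
        show (a1_lift D K (t • x)).snd = t • (a1_lift D K x).snd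
        rw [Algebra.smul_def, a1_lift_snd_mul, a1_lift_snd_algebraMap, mul_zero, add_zero,
          Algebra.smul_def] } ?_, fun f => ?_⟩
  · intro x y
    show (a1_lift D K (x * y)).snd = x • (a1_lift D K y).snd + y • (a1_lift D K x).snd
    rw [a1_lift_snd_mul, smul_eq_mul, smul_eq_mul]
  · show (a1_lift D K (algebraMap A K f)).snd = _
    rw [a1_lift_alg, a1_hom_snd]

end

/-- The derivation extends to the field of fractions.  Suggestion: `DualNumber KK` / `TrivSqZeroExt KK KK`: the map
`f ↦ inl f + inr (DE f)` is a ring homomorphism `EF →+* TrivSqZeroExt KK KK` (an algebra homomorphism over `ℂ`), the image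
of `f ≠ 0` is a unit (`TrivSqZeroExt.isUnit_iff_isUnit_fst`), so it extends to `φ : KK → TrivSqZeroExt KK KK`
(`IsLocalization.liftAlgHom` or `IsLocalization.lift`); `fst ∘ φ = id` (`IsLocalization.ringHom_ext`), `D x = snd (φ x)`;
Leibniz from `TrivSqZeroExt.snd_mul`; or `Derivation` from `TrivSqZeroExt` (search `toSquareZero`, `liftOfDerivationToSquareZero`,
`derivationToSquareZeroOfLift` in Mathlib/RingTheory/Derivation/ToSquareZero.lean). -/
theorem exists_DK : ∃ D : Derivation ℂ KK KK, ∀ f : EF, D (algebraMap EF KK f) = algebraMap EF KK (DE f) := by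
  exact a1_exists DE KK

end Pool.Agent.H24V
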