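import Pool.Agent.Lib.H24V.A9D
import Pool.Agent.Lib.H24V.E0
import Pool.Agent.Lib.H67T.GH1

set_option autoImplicit false

/-!
CHUNK A10 (M).  The curve.
-/

open Filter Topology

namespace Pool.Agent.H24V

open Pool.Agent.H89T Pool.Agent.H67T Pool.Agent.H53U Pool.Agent.H53V

/-- A bijection with `Fin (m + 1)` that sends a given element to `0`. -/
theorem A10_equiv {κ : Type} [Fintype κ] (a : κ) : ∃ (m : ℕ) (e : κ ≃ Fin (m + 1)), e a = 0 := by
  classical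
  have hpos : 0 < Fintype.card κ := Fintype.card_pos_iff.mpr ⟨a⟩
  obtain ⟨m, hm⟩ : ∃ m, Fintype.card κ = m + 1 := ⟨_, (Nat.succ_pred_eq_of_pos hpos).symm⟩
  have e₀ : κ ≃ Fin (m + 1) := Fintype.equivFinOfCardEq hm
  refine ⟨m, e₀.trans (Equiv.swap (e₀ a) 0), ?_⟩
  rw [Equiv.trans_apply, Equiv.swap_apply_left]

/-- The growth of the substituted curve. -/
theorem A10_grow {m : ℕ} {y : ℂ → Fin (m + 1) → ℂ} (hy : IsHol y) {a b : Fin (m + 1)} {z₁ : ℂ}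
    (h : ∃ w, y w a * y z₁ b ≠ y z₁ a * y w b) :
    ∃ c K : ℝ, 0 < c ∧ ∀ r : ℝ, 1 ≤ r → c * r - K ≤ chi (fun w => y (Complex.exp w - 1)) r := by
  have hu : IsHol (fun w => y (w - 1)) :=
    ⟨fun j => (hy.diff j).comp (differentiable_id.sub_const 1), fun z => hy.ne_zero (z - 1)⟩
  obtain ⟨w, hw⟩ := h
  have h3 := chi_exp_ge hu ⟨z₁ + 1, w + 1, fun c hc => hw (by
    simp only [add_sub_cancel_right] at hc
    have h1 : y w a = c * y z₁ a := congrFun hc a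
    have h2 : y w b = c * y z₁ b := congrFun hc b
    rw [h1, h2, mul_comm c, mul_assoc])⟩
  exact h3

/-- `e`: any bijection of `ι ⊕ τ` with `Fin (m + 1)` (`m + 1` the cardinal), composed with a transposition.  The growth:
`chi_exp_ge` (H67T/GH1.lean) for `u w = y (w - 1)`, `y z j = (Sum.elim h H (e.symm j)).1 z`, as in `grow_exp` (H53U/N6.lean):
`u` is not constant in projective space: if `y w = c • y z₁` for all `w`, with `h i₀ z₁ ≠ 0`, then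
`h i w h i₀ z₁ = h i z₁ h i₀ w` for all `w`, so `h i = t • h i₀`, `t = h i z₁ / h i₀ z₁`. -/
theorem exists_Y {ι τ : Type} [Fintype ι] [Fintype τ] (h : ι → EF) (H : τ → EF) {i₀ : ι}
    (h0 : h i₀ ≠ 0) (hz : ∀ z, ∃ i, (h i).1 z ≠ 0) (hnc : ∃ i, ∀ t : ℂ, h i ≠ t • h i₀) :
    ∃ (m : ℕ) (e : ι ⊕ τ ≃ Fin (m + 1)), e (Sum.inl i₀) = 0 ∧ IsHol (Ycv e h H) ∧
      (∃ w, Ycv e h H w 0 ≠ 0) ∧
      ∃ c K : ℝ, 0 < c ∧ ∀ r : ℝ, 1 ≤ r → c * r - K ≤ chi (Ycv e h H) r := by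
  obtain ⟨m, e, he⟩ := A10_equiv (Sum.inl i₀ : ι ⊕ τ)
  obtain ⟨y, hyd⟩ : ∃ y : ℂ → Fin (m + 1) → ℂ, y = fun z j => (Sum.elim h H (e.symm j)).1 z :=
    ⟨_, rfl⟩
  have hyh : ∀ z i, y z (e (Sum.inl i)) = (h i).1 z := by
    intro z i
    rw [hyd]
    simp only [Equiv.symm_apply_apply, Sum.elim_inl]
  have hY : Ycv e h H = fun w => y (Complex.exp w - 1) := by
    rw [hyd]
    rfl
  have hy : IsHol y := by
    refine ⟨fun j => ?_, fun z h1 => ?_⟩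
    · rw [hyd]
      exact (Sum.elim h H (e.symm j)).2
    · obtain ⟨i, hi⟩ := hz z
      apply hi
      rw [← hyh z i, h1, Pi.zero_apply]
  refine ⟨m, e, he, ?_, ?_, ?_⟩
  · rw [hY]
    exact ⟨fun j => (hy.diff j).comp (Complex.differentiable_exp.sub_const 1),
      fun w => hy.ne_zero _⟩
  · have h1 : Gen fun z => (h i₀).1 z ≠ 0 := ⟨h i₀, h0, fun z hz => hz⟩
    obtain ⟨w, hw⟩ := h1.exp.exists
    refine ⟨w, ?_⟩
    rw [hY, ← he]
    simp only [hyh]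
    exact hw
  · rw [hY]
    obtain ⟨z₁, hz₁⟩ := EF_exists_ne h0
    obtain ⟨i, hi⟩ := hnc
    refine A10_grow hy (a := e (Sum.inl i)) (b := e (Sum.inl i₀)) (z₁ := z₁) ?_
    by_contra hcon
    push Not at hcon
    refine hi ((h i).1 z₁ / (h i₀).1 z₁) ?_
    apply Subtype.ext
    funext w
    have h1 := hcon w
    rw [hyh, hyh, hyh, hyh] at h1
    have h2 : (h i).1 w = (h i).1 z₁ / (h i₀).1 z₁ * (h i₀).1 w := by
      rw [div_mul_eq_mul_div, eq_div_iff hz₁]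
      exact h1
    exact h2

end Pool.Agent.H24V
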