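import Pool.Agent.Lib.H24V.A2

set_option autoImplicit false

/-!
CHUNK A4 (M).  The values of the derivatives.
-/

open Filter Topology

namespace Pool.Agent.H24V

theorem algKK_ne {b : EF} (hb : b ≠ 0) : algebraMap EF KK b ≠ 0 := fun h =>
  hb (IsFractionRing.injective EF KK (by rw [h, map_zero]))

theorem DK_quot_mul {x : KK} {a b : EF} (h : x * algebraMap EF KK b = algebraMap EF KK a) :
    DK x * algebraMap EF KK (b * b) = algebraMap EF KK (DE a * b - a * DE b) := by
  have h1 := congrArg DK h
  rw [Derivation.leibniz, DK_algebraMap, DK_algebraMap, smul_eq_mul, smul_eq_mul] at h1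
  rw [map_mul, map_sub, map_mul, map_mul, ← h1, ← h]
  ring

/-- `DK ^ l (a / b) = e / b ^ (l + 1)` (induction: quotient rule). -/
theorem iter_quot (a : EF) {b : EF} (hb : b ≠ 0) (l : ℕ) :
    ∃ e : EF, DK^[l] (algebraMap EF KK a / algebraMap EF KK b) =
      algebraMap EF KK e / algebraMap EF KK b ^ (l + 1) := by
  have hb' := algKK_ne hb
  induction l with
  | zero => exact ⟨a, by rw [Function.iterate_zero, id, zero_add, pow_one]⟩
  | succ l ih =>
    obtain ⟨e, he⟩ := ih
    refine ⟨DE e * b - (l + 1 : ℕ) * e * DE b, ?_⟩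
    rw [Function.iterate_succ_apply', he, Derivation.leibniz_div, Derivation.leibniz_pow,
      DK_algebraMap, DK_algebraMap, map_sub, map_mul, map_mul, map_mul, map_natCast,
      Nat.add_sub_cancel]
    simp only [smul_eq_mul, nsmul_eq_mul]
    field_simp
    ring

/-- The change of variable `z = exp w - 1` transforms `DK` to `d / dw`: if `x = a / b` and `b (exp w - 1) ≠ 0`, the value
at `exp w - 1` of `DK ^ l x` is the `l`-th derivative at `w` of `a (exp w' - 1) / b (exp w' - 1)`.  Induction on `l`,
for all `a`, `b` and `w` (`iteratedDeriv_succ'`, and `DK (a / b) = (DE a * b - a * DE b) / b ^ 2`, whose value is the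
derivative: `DE f` at `exp w - 1` is `exp w * f'`). -/
theorem val_iter_exp (l : ℕ) (x : KK) (a b : EF) (w : ℂ) (hb : b.1 (Complex.exp w - 1) ≠ 0)
    (h : x * algebraMap EF KK b = algebraMap EF KK a) :
    (plK (Complex.exp w - 1)).val (DK^[l] x) =
      iteratedDeriv l (fun w' => a.1 (Complex.exp w' - 1) / b.1 (Complex.exp w' - 1)) w := by
  have hexp : ∀ w' : ℂ, HasDerivAt (fun w' => Complex.exp w' - 1) (Complex.exp w') w' := fun w' =>
    (Complex.hasDerivAt_exp w').sub_const 1
  have hcomp : ∀ (f : EF) (w' : ℂ), HasDerivAt (fun w' => f.1 (Complex.exp w' - 1))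
      (deriv f.1 (Complex.exp w' - 1) * Complex.exp w') w' := fun f w' =>
    (f.2 (Complex.exp w' - 1)).hasDerivAt.comp w' (hexp w')
  induction l generalizing x a b w with
  | zero =>
    rw [Function.iterate_zero, id, iteratedDeriv_zero]
    exact val_plK hb h
  | succ l ih =>
    have hbb : (b * b).1 (Complex.exp w - 1) ≠ 0 := by
      rw [EF_mul_apply]
      exact mul_ne_zero hb hb
    rw [Function.iterate_succ_apply, ih (DK x) (DE a * b - a * DE b) (b * b) w hbb (DK_quot_mul h),
      iteratedDeriv_succ']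
    apply Filter.EventuallyEq.iteratedDeriv_eq
    have hev : ∀ᶠ w' in 𝓝 w, b.1 (Complex.exp w' - 1) ≠ 0 :=
      (hcomp b w).continuousAt.eventually_ne hb
    filter_upwards [hev] with w' hw'
    rw [((hcomp a w').fun_div (hcomp b w') hw').deriv]
    have e1 : (DE a * b - a * DE b).1 (Complex.exp w' - 1) =
        (Complex.exp w' - 1 + 1) * deriv a.1 (Complex.exp w' - 1) * b.1 (Complex.exp w' - 1) -
          a.1 (Complex.exp w' - 1) * ((Complex.exp w' - 1 + 1) * deriv b.1 (Complex.exp w' - 1)) := rfl
    rw [e1, EF_mul_apply]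
    field_simp
    ring

end Pool.Agent.H24V
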