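import Pool.Agent.Lib.H24V.D1

set_option autoImplicit false

/-!
CHUNK A8 (M).  Logarithmic derivatives of quotients.
-/

namespace Pool.Agent.H24V

/-- Leibniz (`leib`): `D ^ l A = ∑_{i ≤ l} binom (l, i) D ^ i F D ^ (l - i) B`, so
`‖D ^ l F‖ ‖B‖ ≤ Λ ‖A‖ + ∑_{i < l} binom (l, i) ‖D ^ i F‖ Λ ‖B‖`, and `‖A‖ = ‖F‖ ‖B‖`; strong induction on `l`, with
`C = 4 ^ (k * k)`-like constant (or a recursively defined one). -/
theorem quot_log (k : ℕ) : ∃ C : ℝ, 1 ≤ C ∧ ∀ (L : Type) [CommRing L] [Algebra ℂ L]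
    (D : Derivation ℂ L L) (p : Place L D) (A B F : L) (Λ : ℝ), 1 ≤ Λ → A ∈ p.O → B ∈ p.O →
    F ∈ p.O → F * B = A → p.val B ≠ 0 →
    (∀ l ≤ k, ‖p.val (D^[l] A)‖ ≤ Λ * ‖p.val A‖) → (∀ l ≤ k, ‖p.val (D^[l] B)‖ ≤ Λ * ‖p.val B‖) →
    ∀ l ≤ k, ‖p.val (D^[l] F)‖ ≤ C * Λ ^ (l + 1) * ‖p.val F‖ := by
  induction k with
  | zero =>
    refine ⟨1, le_refl _, ?_⟩
    intro L _ _ D p A B F Λ hΛ hA hB hF hFB hB0 h1 h2 l hl
    have hl0 : l = 0 := by omega
    subst hl0
    rw [Function.iterate_zero, id, zero_add, pow_one, one_mul]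
    exact le_mul_of_one_le_left (norm_nonneg _) hΛ
  | succ k ih =>
    obtain ⟨C, hC, ih⟩ := ih
    have hC0 : 0 ≤ C := le_trans zero_le_one hC
    have h2k : (1 : ℝ) ≤ 2 ^ (k + 1) := one_le_pow₀ one_le_two
    have hCC : C ≤ 1 + 2 ^ (k + 1) * C := by nlinarith
    refine ⟨1 + 2 ^ (k + 1) * C, hC.trans hCC, ?_⟩
    intro L _ _ D p A B F Λ hΛ hA hB hF hFB hB0 h1 h2 l hl
    have hΛ0 : 0 ≤ Λ := le_trans zero_le_one hΛ
    have key : ∀ i ≤ k, ‖p.val (D^[i] F)‖ ≤ C * Λ ^ (i + 1) * ‖p.val F‖ :=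
      ih L D p A B F Λ hΛ hA hB hF hFB hB0 (fun l hl => h1 l (by omega)) fun l hl => h2 l (by omega)
    rcases Nat.lt_or_ge l (k + 1) with hlt | hge
    · refine (key l (by omega)).trans ?_
      exact mul_le_mul_of_nonneg_right (mul_le_mul_of_nonneg_right hCC (by positivity)) (norm_nonneg _)
    · have hlk : l = k + 1 := by omega
      subst hlk
      have hF' : ∀ i, D^[i] F ∈ p.O := fun i => p.iter_mem hF i
      have hB' : ∀ i, D^[i] B ∈ p.O := fun i => p.iter_mem hB i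
      have hc : ∀ n : ℕ, (n : L) ∈ p.O := fun n => p.natCast_memO n
      have e := congrArg p.val (leib (D := D) F B (k + 1))
      rw [hFB, Finset.sum_range_succ, p.val_add (sum_mem fun i _ => mul_mem (hc _) (mul_mem (hF' _) (hB' _)))
        (mul_mem (hc _) (mul_mem (hF' _) (hB' _))),
        p.val_sum _ (fun i _ => mul_mem (hc _) (mul_mem (hF' _) (hB' _))),
        p.val_mul (hc _) (mul_mem (hF' _) (hB' _)), p.val_mul (hF' _) (hB' _), Nat.choose_self,
        Nat.sub_self, p.val_natCast, Nat.cast_one, one_mul, Function.iterate_zero, id] at e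
      have hAF : ‖p.val A‖ = ‖p.val F‖ * ‖p.val B‖ := by
        rw [← hFB, p.val_mul hF hB, norm_mul]
      have hBpos : 0 < ‖p.val B‖ := norm_pos_iff.2 hB0
      have hsum : ‖∑ i ∈ Finset.range (k + 1),
          p.val (((k + 1).choose i : L) * (D^[i] F * D^[k + 1 - i] B))‖ ≤
          ∑ i ∈ Finset.range (k + 1), ((k + 1).choose i : ℝ) *
            (C * Λ ^ (k + 1 + 1) * (‖p.val F‖ * ‖p.val B‖)) := by
        refine norm_sum_le_of_le _ fun i hi => ?_
        have hik : i ≤ k := Nat.lt_succ_iff.1 (Finset.mem_range.1 hi)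
        rw [p.val_mul (hc _) (mul_mem (hF' _) (hB' _)), p.val_mul (hF' _) (hB' _), p.val_natCast,
          norm_mul, norm_mul, Complex.norm_natCast]
        refine mul_le_mul_of_nonneg_left ?_ (Nat.cast_nonneg _)
        have h3 := key i hik
        have h4 := h2 (k + 1 - i) (by omega)
        calc ‖p.val (D^[i] F)‖ * ‖p.val (D^[k + 1 - i] B)‖
            ≤ (C * Λ ^ (i + 1) * ‖p.val F‖) * (Λ * ‖p.val B‖) :=
              mul_le_mul h3 h4 (norm_nonneg _) (by positivity)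
          _ = C * Λ ^ (i + 1 + 1) * (‖p.val F‖ * ‖p.val B‖) := by ring
          _ ≤ C * Λ ^ (k + 1 + 1) * (‖p.val F‖ * ‖p.val B‖) := by
              refine mul_le_mul_of_nonneg_right (mul_le_mul_of_nonneg_left ?_ hC0) (by positivity)
              exact pow_le_pow_right₀ hΛ (by omega)
      have hchoose : ∑ i ∈ Finset.range (k + 1), ((k + 1).choose i : ℝ) ≤ 2 ^ (k + 1) := by
        have h5 : ∑ i ∈ Finset.range (k + 1), (k + 1).choose i ≤ 2 ^ (k + 1) := by
          rw [← Nat.sum_range_choose (k + 1), Finset.sum_range_succ _ (k + 1)]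
          exact Nat.le_add_right _ _
        exact_mod_cast h5
      rw [← Finset.sum_mul] at hsum
      have h6 : ‖p.val (D^[k + 1] F)‖ * ‖p.val B‖ ≤
          Λ * ‖p.val A‖ + (∑ i ∈ Finset.range (k + 1), ((k + 1).choose i : ℝ)) *
            (C * Λ ^ (k + 1 + 1) * (‖p.val F‖ * ‖p.val B‖)) := by
        rw [← norm_mul]
        have h7 : p.val (D^[k + 1] F) * p.val B = p.val (D^[k + 1] A) -
            ∑ i ∈ Finset.range (k + 1),
              p.val (((k + 1).choose i : L) * (D^[i] F * D^[k + 1 - i] B)) := by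
          rw [e]
          ring
        rw [h7]
        exact (norm_sub_le _ _).trans (add_le_add (h1 (k + 1) hl) hsum)
      have h8 : Λ ≤ Λ ^ (k + 1 + 1) := le_self_pow₀ hΛ (by omega)
      have h9 : ‖p.val (D^[k + 1] F)‖ * ‖p.val B‖ ≤
          ((1 + 2 ^ (k + 1) * C) * Λ ^ (k + 1 + 1) * ‖p.val F‖) * ‖p.val B‖ := by
        refine h6.trans ?_
        rw [hAF]
        have h10 : Λ * (‖p.val F‖ * ‖p.val B‖) ≤ Λ ^ (k + 1 + 1) * (‖p.val F‖ * ‖p.val B‖) :=
          mul_le_mul_of_nonneg_right h8 (by positivity)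
        have h11 : (∑ i ∈ Finset.range (k + 1), ((k + 1).choose i : ℝ)) *
            (C * Λ ^ (k + 1 + 1) * (‖p.val F‖ * ‖p.val B‖)) ≤ 2 ^ (k + 1) *
            (C * Λ ^ (k + 1 + 1) * (‖p.val F‖ * ‖p.val B‖)) :=
          mul_le_mul_of_nonneg_right hchoose (by positivity)
        refine (add_le_add h10 h11).trans (le_of_eq ?_)
        ring
      exact le_of_mul_le_mul_right h9 hBpos

end Pool.Agent.H24V
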