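import Pool.Agent.Lib.H24V.A2

set_option autoImplicit false

/-!
H24V, module A: definitions.
-/

namespace Pool.Agent.H24V

open Pool.Agent.H89T Pool.Agent.H67T Pool.Agent.H53U Pool.Agent.H53V

/-- The estimate of PROOF.md, section 4, for the element `X` (a norm), the coefficients `n` of the norm form
and its values `B`. -/
def Est {ι τ : Type} [Fintype ι] (k : ℕ) (X : KK) (n : ι → KK) (B : τ → KK) : Prop :=
  ∃ (C c' : ℝ) (E : ℕ), 0 < C ∧ 0 < c' ∧ Gen fun z => ∃ t, B t ≠ 0 ∧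
    c' * ∑ α, ‖(plK z).val (n α)‖ ≤ ‖(plK z).val (B t)‖ ∧
    ∀ Ψ : ℝ, 1 ≤ Ψ → (∀ α, ∀ l ≤ k, ‖(plK z).val (DK^[l] (n α / B t))‖ ≤ Ψ) →
      ‖(plK z).val X‖ * ∑ α, ‖(plK z).val (n α)‖ ≤ C * Ψ ^ E

/-- The curve with the coordinates `h` and `H` composed with `exp w - 1`. -/
noncomputable def Ycv {ι τ : Type} {m : ℕ} (e : ι ⊕ τ ≃ Fin (m + 1)) (h : ι → EF) (H : τ → EF) :
    ℂ → Fin (m + 1) → ℂ :=
  fun w j => (Sum.elim h H (e.symm j)).1 (Complex.exp w - 1)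

end Pool.Agent.H24V
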