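import Pool.Agent.Lib.H24V.A3
import Pool.Agent.Lib.H24V.A4
import Pool.Agent.Lib.H24V.A8
import Pool.Agent.Lib.H24V.A9D
import Pool.Agent.Lib.H53V.N2

set_option autoImplicit false

/-!
CHUNK A11 (L).  The bound for the curve, at generic points.
-/

open Filter Topology

namespace Pool.Agent.H24V

open Pool.Agent.H89T Pool.Agent.H67T Pool.Agent.H53U Pool.Agent.H53V

theorem a11_ch {N k : ℕ} {y : ℂ → Fin (N + 1) → ℂ} {z : ℂ} (hz : Pool.Agent.H53U.Good y z) (b : Fin N)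
    {l : ℕ} (hl : l ≤ k) :
    ‖iteratedDeriv l (fun w => ch 0 y w b) z‖ ≤ LamK k y z * ‖ch 0 y z b‖ := by
  have h1 := one_le_LamK k y z
  by_cases hb : y z ((0 : Fin (N + 1)).succAbove b) = 0
  · have h6 : (fun w => ch 0 y w b) = fun _ => (0 : ℂ) := by
      funext w
      unfold ch
      rw [hz.2 _ hb w, zero_div]
    rw [h6]
    have h7 : iteratedDeriv l (fun _ : ℂ => (0 : ℂ)) z = 0 := by
      rw [iteratedDeriv_const]
      split_ifs <;> rfl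
    rw [h7, norm_zero]
    exact mul_nonneg (by linarith) (norm_nonneg _)
  · have hch : ch 0 y z b ≠ 0 := div_ne_zero hb hz.1
    have h6 : ‖iteratedDeriv l (fun w => ch 0 y w b) z / ch 0 y z b‖ ≤ LamK k y z := by
      have := Finset.single_le_sum
        (f := fun p : Fin N × Fin (k + 1) =>
          ‖iteratedDeriv (p.2 : ℕ) (fun w => ch 0 y w p.1) z / ch 0 y z p.1‖)
        (fun _ _ => norm_nonneg _) (Finset.mem_univ (b, ⟨l, Nat.lt_succ_of_le hl⟩))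
      unfold LamK
      simp only at this
      linarith
    calc ‖iteratedDeriv l (fun w => ch 0 y w b) z‖
        = ‖iteratedDeriv l (fun w => ch 0 y w b) z / ch 0 y z b‖ * ‖ch 0 y z b‖ := by
          rw [← norm_mul, div_mul_cancel₀ _ hch]
      _ ≤ LamK k y z * ‖ch 0 y z b‖ := mul_le_mul_of_nonneg_right h6 (norm_nonneg _)

theorem a11_iter_one (l : ℕ) (hl : l ≠ 0) : DK^[l] (1 : KK) = 0 := by
  obtain ⟨l, rfl⟩ := Nat.exists_eq_succ_of_ne_zero hl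
  rw [Function.iterate_succ_apply, Derivation.map_one_eq_zero]
  clear hl
  induction l with
  | zero => rfl
  | succ l ih => rw [Function.iterate_succ_apply, map_zero]; exact ih

theorem a11_lam {ι τ : Type} {k m : ℕ} {n : ι → KK} {B : τ → KK}
    {h : ι → EF} {i₀ : ι} (hn : n i₀ = 1) {H : τ → EF}
    (hx : ∀ s : ι ⊕ τ, Sum.elim n B s * algebraMap EF KK (h i₀) = algebraMap EF KK (Sum.elim h H s))
    (e : ι ⊕ τ ≃ Fin (m + 1)) (he : e (Sum.inl i₀) = 0)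
    {w : ℂ} (hw : Pool.Agent.H53U.Good (Ycv e h H) w) (s : ι ⊕ τ) {l : ℕ} (hl : l ≤ k) :
    ‖(plK (Complex.exp w - 1)).val (DK^[l] (Sum.elim n B s))‖ ≤
      LamK k (Ycv e h H) w * ‖(plK (Complex.exp w - 1)).val (Sum.elim n B s)‖ := by
  have h1 := one_le_LamK k (Ycv e h H) w
  have he' : e.symm 0 = Sum.inl i₀ := by rw [← he, Equiv.symm_apply_apply]
  have hy0 : ∀ w', Ycv e h H w' 0 = (h i₀).1 (Complex.exp w' - 1) := by
    intro w'
    unfold Ycv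
    rw [he']
    rfl
  have hb0 : (h i₀).1 (Complex.exp w - 1) ≠ 0 := by
    rw [← hy0]
    exact hw.1
  by_cases hs : e s = 0
  · have hs' : s = Sum.inl i₀ := by rw [← he', ← hs, Equiv.symm_apply_apply]
    rw [hs', Sum.elim_inl, hn]
    by_cases hl0 : l = 0
    · rw [hl0, Function.iterate_zero, id]
      nlinarith [norm_nonneg ((plK (Complex.exp w - 1)).val 1)]
    · rw [a11_iter_one l hl0, Place.val_zero, norm_zero]
      exact mul_nonneg (by linarith) (norm_nonneg _)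
  · obtain ⟨b, hb⟩ := Fin.exists_succ_eq.2 hs
    have hch : (fun w' => (Sum.elim h H s).1 (Complex.exp w' - 1) / (h i₀).1 (Complex.exp w' - 1)) =
        fun w' => ch 0 (Ycv e h H) w' b := by
      funext w'
      unfold ch
      rw [hy0, Fin.zero_succAbove, hb]
      unfold Ycv
      rw [Equiv.symm_apply_apply]
    have h2 := val_iter_exp l _ _ _ w hb0 (hx s)
    have h3 := val_plK hb0 (hx s)
    rw [h2, h3, hch]
    have h4 : (Sum.elim h H s).1 (Complex.exp w - 1) / (h i₀).1 (Complex.exp w - 1) =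
        ch 0 (Ycv e h H) w b := congrFun hch w
    rw [h4]
    exact a11_ch hw b hl

theorem a11_gen {ι τ : Type} [Finite ι] [Finite τ] (n : ι → KK) (B : τ → KK) :
    Gen fun z => (∀ α, n α ∈ (plK z).O) ∧ (∀ t, B t ∈ (plK z).O) ∧
      (∀ q : ι × τ, n q.1 / B q.2 ∈ (plK z).O) ∧ ∀ t, B t ≠ 0 → (plK z).val (B t) ≠ 0 := by
  have h1 : Gen fun z => ∀ α, n α ∈ (plK z).O := Gen.all fun α => gen_mem (n α)
  have h2 : Gen fun z => ∀ t, B t ∈ (plK z).O := Gen.all fun t => gen_mem (B t)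
  have h3 : Gen fun z => ∀ q : ι × τ, n q.1 / B q.2 ∈ (plK z).O :=
    Gen.all fun q => gen_mem (n q.1 / B q.2)
  have h4 : Gen fun z => ∀ t, B t ≠ 0 → (plK z).val (B t) ≠ 0 := by
    refine Gen.all fun t => ?_
    by_cases ht : B t = 0
    · exact Gen.of_forall fun z h => absurd ht h
    · exact (gen_ne ht).mono fun z hz _ => hz.2
  exact h1.and (h2.and (h3.and h4))

theorem a11_norm {ι τ : Type} [Fintype ι] [Fintype τ] {m : ℕ} {h : ι → EF} {H : τ → EF}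
    (γ : τ → ι → ℂ) (hγ : ∀ t, H t = ∑ i, γ t i • h i) (e : ι ⊕ τ ≃ Fin (m + 1)) (w : ℂ) :
    ‖Ycv e h H w‖ ≤ (1 + ∑ t, ∑ i, ‖γ t i‖) * ∑ i, ‖(h i).1 (Complex.exp w - 1)‖ := by
  have hT : 0 ≤ ∑ i, ‖(h i).1 (Complex.exp w - 1)‖ := Finset.sum_nonneg fun _ _ => norm_nonneg _
  have hG : 0 ≤ ∑ t, ∑ i, ‖γ t i‖ :=
    Finset.sum_nonneg fun _ _ => Finset.sum_nonneg fun _ _ => norm_nonneg _
  have hT1 : ∀ i, ‖(h i).1 (Complex.exp w - 1)‖ ≤ ∑ i, ‖(h i).1 (Complex.exp w - 1)‖ := fun i =>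
    Finset.single_le_sum (f := fun i => ‖(h i).1 (Complex.exp w - 1)‖) (fun _ _ => norm_nonneg _)
      (Finset.mem_univ i)
  refine (pi_norm_le_iff_of_nonneg (mul_nonneg (by linarith) hT)).2 fun j => ?_
  unfold Ycv
  rcases e.symm j with i | t
  · rw [Sum.elim_inl]
    nlinarith [hT1 i]
  · rw [Sum.elim_inr]
    let φ : EF →ₐ[ℂ] ℂ := (Pi.evalAlgHom ℂ (fun _ : ℂ => ℂ) (Complex.exp w - 1)).comp EF.val
    have h1 : (H t).1 (Complex.exp w - 1) = ∑ i, γ t i * (h i).1 (Complex.exp w - 1) := by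
      have h2 : φ (H t) = ∑ i, γ t i * φ (h i) := by
        rw [hγ t, map_sum]
        refine Finset.sum_congr rfl fun i _ => ?_
        rw [map_smul, smul_eq_mul]
      exact h2
    have h3 : ∑ i, ‖γ t i‖ ≤ ∑ t, ∑ i, ‖γ t i‖ :=
      Finset.single_le_sum (f := fun t => ∑ i, ‖γ t i‖)
        (fun _ _ => Finset.sum_nonneg fun _ _ => norm_nonneg _) (Finset.mem_univ t)
    rw [h1]
    calc ‖∑ i, γ t i * (h i).1 (Complex.exp w - 1)‖
        ≤ ∑ i, ‖γ t i * (h i).1 (Complex.exp w - 1)‖ := norm_sum_le _ _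
      _ ≤ ∑ i, ‖γ t i‖ * ∑ i, ‖(h i).1 (Complex.exp w - 1)‖ := by
          refine Finset.sum_le_sum fun i _ => ?_
          rw [norm_mul]
          exact mul_le_mul_of_nonneg_left (hT1 i) (norm_nonneg _)
      _ = (∑ i, ‖γ t i‖) * ∑ i, ‖(h i).1 (Complex.exp w - 1)‖ := by rw [Finset.sum_mul]
      _ ≤ (1 + ∑ t, ∑ i, ‖γ t i‖) * ∑ i, ‖(h i).1 (Complex.exp w - 1)‖ :=
          mul_le_mul_of_nonneg_right (by linarith) hT

/-- Let `y = Ycv e h H`, `z = exp w - 1`, `w` generic (`Gen.exp`), `Good y w`, `t` of `Est` at `z`.  As `e (inl i₀) = 0`,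
`ch 0 y w' b` is `h α (z') / h i₀ (z')` or `H t (z') / h i₀ (z')` (`z' = exp w' - 1`), for `b.succ = e _`; so by `val_iter_exp`
`val (DK ^ l (n α)) = iteratedDeriv l (ch 0 y . b) w` and the same for `B t`, and by the definition of `LamK` (see `norm_jetf_le_K` in
H53V/N1.lean) `‖val (DK ^ l (n α))‖ ≤ Λ ‖val (n α)‖`, `Λ = LamK k y w ≥ 1` (if the coordinate vanishes at `w`, it vanishes
identically, as `w` is good); for `α = i₀`, `n i₀ = 1` and `DK ^ l 1 = 0`.  By `quot_log` for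
`F = n α / B t`: `‖val (DK ^ l F)‖ ≤ C₁ Λ ^ (k + 1) ‖val F‖ ≤ C₁ Λ ^ (k + 1) / c'`.  So `Est` gives
`‖g z‖ ‖h i₀ z‖ ∑ ‖n α‖ = ‖g z‖ ∑ ‖h α z‖ ≤ C Λ ^ M` and `‖y w‖ ≤ C₂ ∑ ‖h α z‖` (`H t = ∑ γ t i h i`). -/
theorem Y_bound {ι τ : Type} [Fintype ι] [Fintype τ] {k m : ℕ} {X : KK} {n : ι → KK} {B : τ → KK}
    (hE : Est k X n B) {h : ι → EF} {i₀ : ι} (h0 : h i₀ ≠ 0) (hn : n i₀ = 1)
    (hh : ∀ i, algebraMap EF KK (h i) = algebraMap EF KK (h i₀) * n i) {H : τ → EF}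
    (hH : ∀ t, algebraMap EF KK (H t) = algebraMap EF KK (h i₀) * B t) (γ : τ → ι → ℂ)
    (hγ : ∀ t, H t = ∑ i, γ t i • h i) (e : ι ⊕ τ ≃ Fin (m + 1)) (he : e (Sum.inl i₀) = 0)
    (g : EF) (hg : X = algebraMap EF KK (g * h i₀)) :
    ∃ (C : ℝ) (M : ℕ), 0 < C ∧ Gen fun w => Pool.Agent.H53U.Good (Ycv e h H) w →
      ‖g.1 (Complex.exp w - 1)‖ * ‖Ycv e h H w‖ ≤ C * LamK k (Ycv e h H) w ^ M := by
  obtain ⟨C, c', E, hC, hc', hG⟩ := hE
  obtain ⟨C₁, hC₁, hquot⟩ := quot_log k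
  have hx : ∀ s : ι ⊕ τ, Sum.elim n B s * algebraMap EF KK (h i₀) =
      algebraMap EF KK (Sum.elim h H s) := by
    rintro (i | t)
    · rw [Sum.elim_inl, Sum.elim_inl, hh i, mul_comm]
    · rw [Sum.elim_inr, Sum.elim_inr, hH t, mul_comm]
  have hG0 : 0 ≤ ∑ t, ∑ i, ‖γ t i‖ :=
    Finset.sum_nonneg fun _ _ => Finset.sum_nonneg fun _ _ => norm_nonneg _
  have hc1 : 0 < 1 / c' := by positivity
  have hK : 0 < C₁ * (1 + 1 / c') := by positivity
  refine ⟨(1 + ∑ t, ∑ i, ‖γ t i‖) * (C * (C₁ * (1 + 1 / c')) ^ E), (k + 1) * E, by positivity, ?_⟩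
  refine (hG.and (a11_gen n B)).exp.mono fun w hw hgood => ?_
  obtain ⟨⟨t, hBt, h1, h2⟩, g1, g2, g3, g4⟩ := hw
  have hΛ := one_le_LamK k (Ycv e h H) w
  have hlam := fun (s : ι ⊕ τ) (l : ℕ) (hl : l ≤ k) => a11_lam (k := k) hn hx e he hgood s hl
  set y := Ycv e h H with hy
  set Λ := LamK k y w with hΛd
  set z := Complex.exp w - 1 with hz
  set S := ∑ α, ‖(plK z).val (n α)‖ with hS
  have hv : (plK z).val (B t) ≠ 0 := g4 t hBt
  have hvp : 0 < ‖(plK z).val (B t)‖ := norm_pos_iff.2 hv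
  have hΛk : 1 ≤ Λ ^ (k + 1) := one_le_pow₀ hΛ
  have hΛk0 : 0 ≤ Λ ^ (k + 1) := by linarith
  -- the estimate of the derivatives of the quotients
  have h3 : ∀ α, ∀ l ≤ k, ‖(plK z).val (DK^[l] (n α / B t))‖ ≤ C₁ * (1 + 1 / c') * Λ ^ (k + 1) := by
    intro α l hl
    have hF : n α / B t * B t = n α := div_mul_cancel₀ _ hBt
    have h4 := hquot KK DK (plK z) (n α) (B t) (n α / B t) Λ hΛ (g1 α) (g2 t) (g3 (α, t)) hF hv
      (fun l hl => hlam (Sum.inl α) l hl) (fun l hl => hlam (Sum.inr t) l hl) l hl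
    have h5 : ‖(plK z).val (n α / B t)‖ * ‖(plK z).val (B t)‖ = ‖(plK z).val (n α)‖ := by
      rw [← norm_mul, ← (plK z).val_mul (g3 (α, t)) (g2 t), hF]
    have h6 : ‖(plK z).val (n α)‖ ≤ S :=
      Finset.single_le_sum (f := fun α => ‖(plK z).val (n α)‖) (fun _ _ => norm_nonneg _)
        (Finset.mem_univ α)
    have h7 : ‖(plK z).val (n α / B t)‖ ≤ 1 / c' := by
      rw [le_div_iff₀ hc']
      have h8 : (‖(plK z).val (n α / B t)‖ * c') * ‖(plK z).val (B t)‖ ≤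
          1 * ‖(plK z).val (B t)‖ := by
        calc (‖(plK z).val (n α / B t)‖ * c') * ‖(plK z).val (B t)‖
            = c' * (‖(plK z).val (n α / B t)‖ * ‖(plK z).val (B t)‖) := by ring
          _ = c' * ‖(plK z).val (n α)‖ := by rw [h5]
          _ ≤ c' * S := mul_le_mul_of_nonneg_left h6 hc'.le
          _ ≤ ‖(plK z).val (B t)‖ := h1
          _ = 1 * ‖(plK z).val (B t)‖ := (one_mul _).symm
      exact le_of_mul_le_mul_right h8 hvp
    have h9 : Λ ^ (l + 1) ≤ Λ ^ (k + 1) := pow_le_pow_right₀ hΛ (by omega)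
    calc ‖(plK z).val (DK^[l] (n α / B t))‖
        ≤ C₁ * Λ ^ (l + 1) * ‖(plK z).val (n α / B t)‖ := h4
      _ ≤ C₁ * Λ ^ (k + 1) * (1 + 1 / c') := by
          refine mul_le_mul (mul_le_mul_of_nonneg_left h9 (by linarith)) (by linarith)
            (norm_nonneg _) (mul_nonneg (by linarith) hΛk0)
      _ = C₁ * (1 + 1 / c') * Λ ^ (k + 1) := by ring
  have hΨ : 1 ≤ C₁ * (1 + 1 / c') * Λ ^ (k + 1) := by
    have h4 : 1 ≤ C₁ * (1 + 1 / c') := by nlinarith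
    nlinarith
  have h5 := h2 _ hΨ h3
  -- the values
  have hX : (plK z).val X = g.1 z * (h i₀).1 z := by
    rw [hg, (algebraMap_mem_plK z (g * h i₀)).2, EF_mul_apply]
  have hhv : ∀ α, (h α).1 z = (h i₀).1 z * (plK z).val (n α) := by
    intro α
    rw [← (algebraMap_mem_plK z (h α)).2, hh α, (plK z).val_mul (algebraMap_mem_plK z (h i₀)).1 (g1 α),
      (algebraMap_mem_plK z (h i₀)).2]
  have hT : ∑ α, ‖(h α).1 z‖ = ‖(h i₀).1 z‖ * S := by
    rw [hS, Finset.mul_sum]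
    refine Finset.sum_congr rfl fun α _ => ?_
    rw [hhv α, norm_mul]
  have h6 := a11_norm γ hγ e w (h := h)
  rw [← hz, hT] at h6
  calc ‖g.1 z‖ * ‖y w‖
      ≤ ‖g.1 z‖ * ((1 + ∑ t, ∑ i, ‖γ t i‖) * (‖(h i₀).1 z‖ * S)) :=
        mul_le_mul_of_nonneg_left h6 (norm_nonneg _)
    _ = (1 + ∑ t, ∑ i, ‖γ t i‖) * (‖(plK z).val X‖ * S) := by
        rw [hX, norm_mul]
        ring
    _ ≤ (1 + ∑ t, ∑ i, ‖γ t i‖) * (C * (C₁ * (1 + 1 / c') * Λ ^ (k + 1)) ^ E) :=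
        mul_le_mul_of_nonneg_left h5 (by linarith)
    _ = (1 + ∑ t, ∑ i, ‖γ t i‖) * (C * (C₁ * (1 + 1 / c')) ^ E) * Λ ^ ((k + 1) * E) := by
        rw [mul_pow, ← pow_mul]
        ring

end Pool.Agent.H24V
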