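import Pool.Agent.Lib.H24V.E0
import Pool.Agent.Lib.H53V.N2

set_option autoImplicit false

/-!
CHUNK A12 (M).  Extension of a bound by continuity.
-/

open Filter Topology

namespace Pool.Agent.H24V

open Pool.Agent.H89T Pool.Agent.H67T Pool.Agent.H53U Pool.Agent.H53V

theorem a12_good {N : ℕ} {y : ℂ → Fin (N + 1) → ℂ} (hy : IsHol y) {w : ℂ}
    (hw : Pool.Agent.H53U.Good y w) : ∀ᶠ z in 𝓝 w, Pool.Agent.H53U.Good y z := by
  have h1 : ∀ j : Fin (N + 1), ∀ᶠ z in 𝓝 w, y z j = 0 → ∀ w', y w' j = 0 := by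
    intro j
    by_cases hj : y w j = 0
    · exact Eventually.of_forall fun z _ => hw.2 j hj
    · have h2 := ((hy.diff j).continuous.continuousAt (x := w)).eventually_ne hj
      exact h2.mono fun z hz h0 => absurd h0 hz
  have h3 := ((hy.diff 0).continuous.continuousAt (x := w)).eventually_ne hw.1
  filter_upwards [h3, eventually_all.2 h1] with z hz1 hz2
  exact ⟨hz1, fun b hb => hz2 b hb⟩

theorem a12_cont {N k : ℕ} {y : ℂ → Fin (N + 1) → ℂ} (hy : IsHol y) {w : ℂ}
    (hw : Pool.Agent.H53U.Good y w) : ContinuousAt (fun z => LamK k y z) w := by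
  have h0 : ∀ z, LamK k y z = 1 + ∑ p : Fin N × Fin (k + 1),
    ‖iteratedDeriv (p.2 : ℕ) (fun w => ch 0 y w p.1) z / ch 0 y z p.1‖ := fun z => rfl
  have h1 : (fun z => LamK k y z) = fun z => 1 + ∑ p : Fin N × Fin (k + 1),
    ‖iteratedDeriv (p.2 : ℕ) (fun w => ch 0 y w p.1) z / ch 0 y z p.1‖ := funext h0
  rw [h1]
  refine ContinuousAt.add continuousAt_const (tendsto_finsetSum _ fun p _ => ?_)
  refine ContinuousAt.norm ?_
  by_cases hp : y w ((0 : Fin (N + 1)).succAbove p.1) = 0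
  · have h2 := hw.2 _ hp
    have h3 : (fun z => iteratedDeriv (p.2 : ℕ) (fun w => ch 0 y w p.1) z / ch 0 y z p.1) =
        fun _ => (0 : ℂ) := by
      funext z
      have h4 : ch 0 y z p.1 = 0 := by
        show y z ((0 : Fin (N + 1)).succAbove p.1) / y z 0 = 0
        rw [h2 z, zero_div]
      rw [h4, div_zero]
    rw [h3]
    exact continuousAt_const
  · have h4 : AnalyticAt ℂ (fun z => ch 0 y z p.1) w := by
      have h5 : (fun z => ch 0 y z p.1) = fun z => y z ((0 : Fin (N + 1)).succAbove p.1) / y z 0 := rfl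
      rw [h5]
      exact ((hy.diff _).analyticAt w).div ((hy.diff 0).analyticAt w) hw.1
    have h6 : AnalyticAt ℂ (iteratedDeriv (p.2 : ℕ) (fun z => ch 0 y z p.1)) w := by
      rw [iteratedDeriv_eq_iterate]
      exact h4.iterated_deriv _
    refine h6.continuousAt.div h4.continuousAt ?_
    show y w ((0 : Fin (N + 1)).succAbove p.1) / y w 0 ≠ 0
    exact div_ne_zero hp hw.1

/-- `LamK k y` is continuous at the good points (the quotients `iteratedDeriv l (ch 0 y . b) / ch 0 y . b`: analytic near a good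
point, or `ch 0 y . b` identically `0`), and the points near `w` at which the bound holds accumulate at `w` (the zeros of an
entire function different from `0` are isolated, and `Good y` holds near a good point). -/
theorem bound_ext {N k M : ℕ} {y : ℂ → Fin (N + 1) → ℂ} (hy : IsHol y) {Z : ℂ → ℂ}
    (hZ : Differentiable ℂ Z) {C : ℝ} (h : Gen fun w => Pool.Agent.H53U.Good y w →
      ‖Z w‖ * ‖y w‖ ≤ C * LamK k y w ^ M) :
    ∀ w, Pool.Agent.H53U.Good y w → ‖Z w‖ * ‖y w‖ ≤ C * LamK k y w ^ M := by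
  intro w hw
  obtain ⟨b, hb, h1⟩ := h
  obtain ⟨z₀, hz₀⟩ := EF_exists_ne hb
  have h2 := AnalyticOnNhd.preimage_zero_mem_codiscrete (fun z _ => b.2.analyticAt z) hz₀
  have h3 := mem_codiscrete.mp h2 w
  rw [Filter.disjoint_principal_right, compl_compl] at h3
  have h4 : ∀ᶠ z in 𝓝[≠] w, b.1 z ≠ 0 := h3
  have h5 : ∀ᶠ z in 𝓝[≠] w, ‖Z z‖ * ‖y z‖ ≤ C * LamK k y z ^ M := by
    filter_upwards [h4, (a12_good hy hw).filter_mono nhdsWithin_le_nhds] with z hz1 hz2
    exact h1 z hz1 hz2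
  have hyc : ContinuousAt y w := (continuous_pi fun j => (hy.diff j).continuous).continuousAt
  have h6 : Tendsto (fun z => ‖Z z‖ * ‖y z‖) (𝓝[≠] w) (𝓝 (‖Z w‖ * ‖y w‖)) :=
    ((hZ.continuous.continuousAt (x := w)).norm.mul hyc.norm).tendsto.mono_left nhdsWithin_le_nhds
  have h7 : Tendsto (fun z => C * LamK k y z ^ M) (𝓝[≠] w) (𝓝 (C * LamK k y w ^ M)) :=
    (continuousAt_const.mul ((a12_cont hy hw).pow M)).tendsto.mono_left nhdsWithin_le_nhds
  exact le_of_tendsto_of_tendsto h6 h7 h5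

end Pool.Agent.H24V
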