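import Pool.Agent.Lib.H24V.A2

set_option autoImplicit false

/-!
CHUNK A5 (M).  Constants, and the criterion for entire functions.
-/

open Filter Topology

namespace Pool.Agent.H24V

theorem a5_frac (x : KK) : ∃ a b : EF, b ≠ 0 ∧ x * algebraMap EF KK b = algebraMap EF KK a := by
  obtain ⟨⟨a, b⟩, h⟩ := IsLocalization.surj (nonZeroDivisors EF) x
  exact ⟨a, b, nonZeroDivisors.ne_zero b.2, h⟩

theorem a5_gen_ev {b : EF} (hb : b ≠ 0) (z₀ : ℂ) : ∀ᶠ z in 𝓝[≠] z₀, b.1 z ≠ 0 := by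
  rcases (b.2.analyticAt z₀).eventually_eq_zero_or_eventually_ne_zero with h | h
  · exfalso
    apply hb
    apply Subtype.ext
    exact AnalyticOnNhd.eq_of_eventuallyEq (f := b.1) (g := fun _ => 0)
      (fun z _ => b.2.analyticAt z) (fun z _ => analyticAt_const) h
  · exact h

theorem a5_inj {a b : EF} (h : algebraMap EF KK a = algebraMap EF KK b) : a = b :=
  IsFractionRing.injective EF KK h

/-- `x = a / b`: `(z + 1) (a' b - a b') = 0`, so `a' b = a b'` everywhere (identity theorem, or `EF` is a domain and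
`z + 1 ≠ 0`), so `a / b` is locally constant near a point with `b ≠ 0`, so `a = t b` near it and everywhere. -/
theorem DK_const {x : KK} (h : DK x = 0) : ∃ t : ℂ, x = algebraMap ℂ KK t := by
  obtain ⟨a, b, hb, hx⟩ := a5_frac x
  have h1 : x * algebraMap EF KK (DE b) = algebraMap EF KK (DE a) := by
    have h2 := congrArg DK hx
    rw [Derivation.leibniz, h, smul_zero, add_zero, DK_algebraMap, DK_algebraMap, smul_eq_mul] at h2
    exact h2
  have h3 : a * DE b = DE a * b := by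
    apply a5_inj
    rw [map_mul, map_mul, ← hx, ← h1]
    ring
  have h4 : ∀ z, a.1 z * ((z + 1) * deriv b.1 z) = (z + 1) * deriv a.1 z * b.1 z := by
    intro z
    have h5 := congrArg (fun F : EF => F.1 z) h3
    simp only [EF_mul_apply, DE_apply] at h5
    exact h5
  obtain ⟨z₀, hz₀⟩ := EF_exists_ne (EF_mul_ne X1_ne hb)
  have hcont : Continuous (X1 * b).1 := (X1 * b).2.continuous
  have hopen : IsOpen {z | (X1 * b).1 z ≠ 0} := isOpen_ne_fun hcont continuous_const
  obtain ⟨r, hr, hball⟩ := Metric.isOpen_iff.1 hopen z₀ hz₀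
  have hne : ∀ z ∈ Metric.ball z₀ r, (z + 1 ≠ 0) ∧ b.1 z ≠ 0 := by
    intro z hz
    have h6 := hball hz
    simp only [Set.mem_setOf_eq, EF_mul_apply, X1_apply] at h6
    exact mul_ne_zero_iff.1 h6
  have hd : DifferentiableOn ℂ (fun z => a.1 z / b.1 z) (Metric.ball z₀ r) := by
    intro z hz
    exact ((a.2 z).div (b.2 z) (hne z hz).2).differentiableWithinAt
  have hd0 : (Metric.ball z₀ r).EqOn (deriv fun z => a.1 z / b.1 z) 0 := by
    intro z hz
    have h7 := hne z hz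
    have h8 : deriv (fun z => a.1 z / b.1 z) z =
        (deriv a.1 z * b.1 z - a.1 z * deriv b.1 z) / b.1 z ^ 2 :=
      deriv_fun_div (a.2 z) (b.2 z) h7.2
    rw [h8]
    have h9 : deriv a.1 z * b.1 z - a.1 z * deriv b.1 z = 0 := by
      have h10 : (z + 1) * (deriv a.1 z * b.1 z - a.1 z * deriv b.1 z) = 0 := by
        linear_combination - h4 z
      exact (mul_eq_zero.1 h10).resolve_left h7.1
    rw [h9, zero_div]
    rfl
  have hmem : z₀ ∈ Metric.ball z₀ r := Metric.mem_ball_self hr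
  have hc : ∀ z ∈ Metric.ball z₀ r, a.1 z = a.1 z₀ / b.1 z₀ * b.1 z := by
    intro z hz
    have h11 : a.1 z / b.1 z = a.1 z₀ / b.1 z₀ :=
      Metric.isOpen_ball.is_const_of_deriv_eq_zero (convex_ball z₀ r).isPreconnected hd hd0 hz hmem
    rw [← h11, div_mul_cancel₀ _ (hne z hz).2]
  have hall : a.1 = fun z => a.1 z₀ / b.1 z₀ * b.1 z := by
    refine AnalyticOnNhd.eq_of_eventuallyEq (z₀ := z₀) (fun z _ => a.2.analyticAt z)
      (fun z _ => ((b.2.const_mul _).analyticAt z)) ?_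
    filter_upwards [Metric.ball_mem_nhds z₀ hr] with z hz
    exact hc z hz
  refine ⟨a.1 z₀ / b.1 z₀, ?_⟩
  have h12 : a = algebraMap ℂ EF (a.1 z₀ / b.1 z₀) * b := by
    apply Subtype.ext
    funext z
    rw [EF_mul_apply, EF_algebraMap_apply]
    exact congrFun hall z
  have hb' : algebraMap EF KK b ≠ 0 := fun h0 => hb (a5_inj (by rw [h0, map_zero]))
  apply mul_right_cancel₀ hb'
  rw [hx, IsScalarTower.algebraMap_apply ℂ EF KK, ← map_mul, ← h12]

/-- If `x` is locally bounded, at the points where an entire function `b ≠ 0` does not vanish, it is entire: `x = a / b'`;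
`‖a z‖ ≤ C ‖b' z‖` near `z₀` outside a discrete set, so everywhere near `z₀` by continuity; the function
`a / b'` (defined where `b' ≠ 0`) extends: `Complex.differentiableOn_update_limUnder_of_bddAbove` or
`analyticOrderAt b' z₀ ≤ analyticOrderAt a z₀`; the zeros of `b'` are isolated.  Gluing: define `g z = limUnder (𝓝[≠] z) (a / b')`. -/
theorem entire_of_bound (x : KK) (h : ∀ z₀ : ℂ, ∃ C : ℝ, ∃ U ∈ 𝓝 z₀,
    Gen fun z => z ∈ U → ‖(plK z).val x‖ ≤ C) : ∃ g : EF, x = algebraMap EF KK g := by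
  obtain ⟨a, b, hb, hx⟩ := a5_frac x
  have hval : ∀ z, b.1 z ≠ 0 → (plK z).val x = a.1 z / b.1 z := fun z hz => val_plK hz hx
  have hbd : ∀ z₀ : ℂ, ∃ C : ℝ, ∀ᶠ z in 𝓝[≠] z₀, b.1 z ≠ 0 ∧ ‖a.1 z / b.1 z‖ ≤ C := by
    intro z₀
    obtain ⟨C, U, hU, c, hc, h1⟩ := h z₀
    refine ⟨C, ?_⟩
    filter_upwards [a5_gen_ev hb z₀, a5_gen_ev hc z₀, mem_nhdsWithin_of_mem_nhds hU] with z h2 h3 h4
    refine ⟨h2, ?_⟩
    rw [← hval z h2]
    exact h1 z h3 h4
  have hlim : ∀ z, b.1 z ≠ 0 → limUnder (𝓝[≠] z) (fun w => a.1 w / b.1 w) = a.1 z / b.1 z := by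
    intro z hz
    have h1 : ContinuousAt (fun w => a.1 w / b.1 w) z :=
      ((a.2 z).div (b.2 z) hz).continuousAt
    exact (h1.tendsto.mono_left nhdsWithin_le_nhds).limUnder_eq
  have hdiff : Differentiable ℂ fun z => limUnder (𝓝[≠] z) (fun w => a.1 w / b.1 w) := by
    intro z₀
    obtain ⟨C, hC⟩ := hbd z₀
    rw [eventually_nhdsWithin_iff] at hC
    have hs : {z | z ∈ ({z₀}ᶜ : Set ℂ) → b.1 z ≠ 0 ∧ ‖a.1 z / b.1 z‖ ≤ C} ∈ 𝓝 z₀ := hC
    have h1 := Complex.differentiableOn_update_limUnder_of_bddAbove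
      (f := fun w => a.1 w / b.1 w) hs
      (fun z hz => ((a.2 z).div (b.2 z) (hz.1 hz.2).1).differentiableWithinAt)
      ⟨C, by
        rintro _ ⟨z, hz, rfl⟩
        exact (hz.1 hz.2).2⟩
    refine (h1.differentiableAt hs).congr_of_eventuallyEq ?_
    filter_upwards [hs] with z hz
    by_cases hzz : z = z₀
    · subst hzz
      rw [Function.update_self]
    · rw [Function.update_of_ne hzz]
      exact hlim z (hz hzz).1
  refine ⟨⟨_, hdiff⟩, ?_⟩
  have hb' : algebraMap EF KK b ≠ 0 := fun h0 => hb (a5_inj (by rw [h0, map_zero]))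
  apply mul_right_cancel₀ hb'
  rw [hx, ← map_mul]
  congr 1
  have h2 : (a - (⟨_, hdiff⟩ : EF) * b) * b = 0 := by
    apply Subtype.ext
    funext z
    show (a.1 z - limUnder (𝓝[≠] z) (fun w => a.1 w / b.1 w) * b.1 z) * b.1 z = 0
    by_cases hz : b.1 z = 0
    · rw [hz, mul_zero]
    · rw [hlim z hz, div_mul_cancel₀ _ hz, sub_self, zero_mul]
  exact sub_eq_zero.1 ((mul_eq_zero.1 h2).resolve_right hb)

end Pool.Agent.H24V
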