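import Pool.Agent.Lib.H24V.A3
import Pool.Agent.Lib.H24V.A4
import Pool.Agent.Lib.H24V.A5
import Pool.Agent.Lib.H24V.A9D

set_option autoImplicit false

/-!
CHUNK A9 (M/L).  The quotient is entire.
-/

open Filter Topology

namespace Pool.Agent.H24V

/-- `x = X / h i₀` is locally bounded (`entire_of_bound`).  Near `z₀`: `∑ ‖h α z‖ ≥ δ > 0` (continuity, no common zeros), and
the entire functions `e` of `iter_quot (h α) (H t ≠ 0) l` (finitely many: `l ≤ k`, `α`, `t` with `H t ≠ 0`) are bounded by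
`M₀`.  For generic `z` near `z₀` take `t` of `Est`; the values: `val (n α) = h α z / h i₀ z`, `val (B t) = H t z / h i₀ z`
(`h i₀ z ≠ 0` for generic `z`), so `c' δ ≤ c' ∑ ‖h α z‖ ≤ ‖H t z‖`; `n α / B t = h α / H t`, so
`‖val (DK ^ l (n α / B t))‖ ≤ M₀ / (c' δ) ^ (l + 1) ≤ Ψ₀`; so `‖val X‖ ∑ ‖h α z‖ / ‖h i₀ z‖ ≤ C Ψ₀ ^ E` and
`‖val x‖ ≤ C Ψ₀ ^ E / δ`. -/
theorem exists_g {ι τ : Type} [Fintype ι] [Fintype τ] {k : ℕ} {X : KK} {n : ι → KK} {B : τ → KK}
    (hE : Est k X n B) {h : ι → EF} {i₀ : ι} (h0 : h i₀ ≠ 0)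
    (hh : ∀ i, algebraMap EF KK (h i) = algebraMap EF KK (h i₀) * n i)
    (hz : ∀ z, ∃ i, (h i).1 z ≠ 0) {H : τ → EF}
    (hH : ∀ t, algebraMap EF KK (H t) = algebraMap EF KK (h i₀) * B t) :
    ∃ g : EF, X = algebraMap EF KK (g * h i₀) := by
  classical
  have h0' : algebraMap EF KK (h i₀) ≠ 0 := algKK_ne h0
  have hchoice : ∀ (α : ι) (t : τ) (l : ℕ), ∃ e : EF, H t ≠ 0 →
      DK^[l] (algebraMap EF KK (h α) / algebraMap EF KK (H t)) =
        algebraMap EF KK e / algebraMap EF KK (H t) ^ (l + 1) := by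
    intro α t l
    by_cases ht : H t = 0
    · exact ⟨0, fun h1 => absurd ht h1⟩
    · obtain ⟨e, he⟩ := iter_quot (h α) ht l
      exact ⟨e, fun _ => he⟩
  choose e he using hchoice
  obtain ⟨C, c', E, hC, hc', hgen⟩ := hE
  have hbound : ∀ z₀ : ℂ, ∃ C : ℝ, ∃ U ∈ 𝓝 z₀,
      Gen fun z => z ∈ U → ‖(plK z).val (X / algebraMap EF KK (h i₀))‖ ≤ C := by
    intro z₀
    have hScont : Continuous fun z => ∑ α, ‖(h α).1 z‖ :=
      continuous_finsetSum _ fun α _ => (h α).2.continuous.norm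
    have hMcont : Continuous fun z => ∑ α, ∑ t, ∑ l ∈ Finset.range (k + 1), ‖(e α t l).1 z‖ :=
      continuous_finsetSum _ fun α _ => continuous_finsetSum _ fun t _ =>
        continuous_finsetSum _ fun l _ => (e α t l).2.continuous.norm
    obtain ⟨S, hSdef⟩ : ∃ S : ℂ → ℝ, S = fun z => ∑ α, ‖(h α).1 z‖ := ⟨_, rfl⟩
    obtain ⟨M, hMdef⟩ : ∃ M : ℂ → ℝ,
        M = fun z => ∑ α, ∑ t, ∑ l ∈ Finset.range (k + 1), ‖(e α t l).1 z‖ := ⟨_, rfl⟩
    rw [← hSdef] at hScont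
    rw [← hMdef] at hMcont
    have hS0 : 0 < S z₀ := by
      obtain ⟨i, hi⟩ := hz z₀
      rw [hSdef]
      exact Finset.sum_pos' (fun α _ => norm_nonneg _) ⟨i, Finset.mem_univ i, norm_pos_iff.2 hi⟩
    have hM0 : 0 ≤ M z₀ := by
      rw [hMdef]
      exact Finset.sum_nonneg fun α _ => Finset.sum_nonneg fun t _ => Finset.sum_nonneg fun l _ =>
        norm_nonneg _
    obtain ⟨δ, hδdef⟩ : ∃ δ : ℝ, δ = S z₀ / 2 := ⟨_, rfl⟩
    have hδ : 0 < δ := by rw [hδdef]; exact half_pos hS0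
    obtain ⟨η, hηdef⟩ : ∃ η : ℝ, η = min (c' * δ) 1 := ⟨_, rfl⟩
    have hη : 0 < η := by rw [hηdef]; exact lt_min (mul_pos hc' hδ) one_pos
    have hη1 : η ≤ 1 := by rw [hηdef]; exact min_le_right _ _
    have hηc : η ≤ c' * δ := by rw [hηdef]; exact min_le_left _ _
    have hU1 : {z | δ < S z} ∈ 𝓝 z₀ :=
      hScont.continuousAt.eventually (lt_mem_nhds (by rw [hδdef]; exact half_lt_self hS0))
    have hU2 : {z | M z < M z₀ + 1} ∈ 𝓝 z₀ :=
      hMcont.continuousAt.eventually (gt_mem_nhds (lt_add_one _))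
    have hΨ1 : 1 ≤ (M z₀ + 1) / η ^ (k + 1) := by
      rw [one_le_div (pow_pos hη _)]
      exact (pow_le_one₀ hη.le hη1).trans (by linarith)
    refine ⟨C * ((M z₀ + 1) / η ^ (k + 1)) ^ E / δ, {z | δ < S z} ∩ {z | M z < M z₀ + 1},
      inter_mem hU1 hU2, ?_⟩
    have hg0 : Gen fun z => (h i₀).1 z ≠ 0 := ⟨h i₀, h0, fun z hz => hz⟩
    refine Gen.mono (((hgen.and (gen_mem X)).and (gen_mem (X / algebraMap EF KK (h i₀)))).and hg0) ?_
    rintro z ⟨⟨⟨⟨t, hBt, hc, hΨ⟩, hX⟩, hx⟩, hi0⟩ ⟨hS, hM⟩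
    have hS' : δ < S z := hS
    have hM' : M z < M z₀ + 1 := hM
    have hipos : 0 < ‖(h i₀).1 z‖ := norm_pos_iff.2 hi0
    have hHt : H t ≠ 0 := by
      intro h1
      have h2 := hH t
      rw [h1, map_zero] at h2
      exact (mul_ne_zero h0' hBt) h2.symm
    have hHt' : algebraMap EF KK (H t) ≠ 0 := algKK_ne hHt
    have hn : ∀ α, (plK z).val (n α) = (h α).1 z / (h i₀).1 z := by
      intro α
      exact val_plK hi0 (by rw [hh α]; ring)
    have hB : (plK z).val (B t) = (H t).1 z / (h i₀).1 z :=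
      val_plK hi0 (by rw [hH t]; ring)
    have hsum : ∑ α, ‖(plK z).val (n α)‖ = S z / ‖(h i₀).1 z‖ := by
      rw [hSdef]
      simp only [hn, norm_div]
      rw [Finset.sum_div]
    have hHz : c' * S z ≤ ‖(H t).1 z‖ := by
      rw [hsum, hB, norm_div, ← mul_div_assoc, div_le_div_iff_of_pos_right hipos] at hc
      exact hc
    have hηH : η ≤ ‖(H t).1 z‖ :=
      hηc.trans ((mul_le_mul_of_nonneg_left hS'.le hc'.le).trans hHz)
    have hHz0 : (H t).1 z ≠ 0 := norm_pos_iff.1 (hη.trans_le hηH)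
    have hpow : ∀ m : ℕ, (H t ^ m).1 z = (H t).1 z ^ m := by
      intro m
      induction m with
      | zero => rw [pow_zero, pow_zero, EF_one_apply]
      | succ m ih => rw [pow_succ, pow_succ, EF_mul_apply, ih]
    have hquot : ∀ α, n α / B t = algebraMap EF KK (h α) / algebraMap EF KK (H t) := by
      intro α
      rw [hh α, hH t, mul_div_mul_left _ _ h0']
    have hest := hΨ ((M z₀ + 1) / η ^ (k + 1)) hΨ1 (by
      intro α l hl
      have hval : (plK z).val (DK^[l] (n α / B t)) = (e α t l).1 z / (H t ^ (l + 1)).1 z := by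
        refine val_plK ?_ ?_
        · rw [hpow]
          exact pow_ne_zero _ hHz0
        · rw [hquot α, he α t l hHt, map_pow, div_mul_cancel₀ _ (pow_ne_zero _ hHt')]
      rw [hval, hpow, norm_div, norm_pow]
      have h1 : ‖(e α t l).1 z‖ ≤ M z := by
        rw [hMdef]
        refine le_trans ?_ (Finset.single_le_sum (f := fun α => ∑ t, ∑ l ∈ Finset.range (k + 1),
          ‖(e α t l).1 z‖) (fun α _ => Finset.sum_nonneg fun t _ => Finset.sum_nonneg fun l _ =>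
          norm_nonneg _) (Finset.mem_univ α))
        refine le_trans ?_ (Finset.single_le_sum (f := fun t => ∑ l ∈ Finset.range (k + 1),
          ‖(e α t l).1 z‖) (fun t _ => Finset.sum_nonneg fun l _ => norm_nonneg _)
          (Finset.mem_univ t))
        exact Finset.single_le_sum (f := fun l => ‖(e α t l).1 z‖) (fun l _ => norm_nonneg _)
          (Finset.mem_range.2 (by omega))
      have h2 : η ^ (k + 1) ≤ ‖(H t).1 z‖ ^ (l + 1) :=
        (pow_le_pow_of_le_one hη.le hη1 (by omega)).trans (pow_le_pow_left₀ hη.le hηH _)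
      exact div_le_div₀ (by linarith) (h1.trans hM'.le) (pow_pos hη _) h2)
    have hXx : (plK z).val X = (plK z).val (X / algebraMap EF KK (h i₀)) * (h i₀).1 z := by
      obtain ⟨h3, h4⟩ := algebraMap_mem_plK z (h i₀)
      rw [← h4, ← (plK z).val_mul hx h3, div_mul_cancel₀ _ h0']
    rw [hsum, hXx, norm_mul] at hest
    have h5 : ‖(plK z).val (X / algebraMap EF KK (h i₀))‖ * S z ≤
        C * ((M z₀ + 1) / η ^ (k + 1)) ^ E := by
      refine le_trans (le_of_eq ?_) hest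
      field_simp
    rw [le_div_iff₀ hδ]
    exact (mul_le_mul_of_nonneg_left hS'.le (norm_nonneg _)).trans h5
  obtain ⟨g, hg⟩ := entire_of_bound _ hbound
  refine ⟨g, ?_⟩
  rw [map_mul, ← hg, div_mul_cancel₀ _ h0']

end Pool.Agent.H24V
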