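import Pool.Agent.Lib.H24V.A7
import Pool.Agent.Lib.H24V.A9
import Pool.Agent.Lib.H24V.A10
import Pool.Agent.Lib.H24V.A11
import Pool.Agent.Lib.H24V.A12

set_option autoImplicit false

/-!
H24V, module A: the analytic theorem.
-/

open Filter Topology

namespace Pool.Agent.H24V

open Pool.Agent.H89T Pool.Agent.H67T Pool.Agent.H53U Pool.Agent.H53V

/-- The analytic theorem. -/
theorem zero_of_est {ι τ : Type} [Fintype ι] [Fintype τ] {k : ℕ} {X : KK} {n : ι → KK} {B : τ → KK}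
    (hE : Est k X n B) {i₀ : ι} (hn : n i₀ = 1) (γ : τ → ι → ℂ)
    (hB : ∀ t, B t = ∑ i, γ t i • n i) (hnc : ∃ i, ∀ t : ℂ, n i ≠ algebraMap ℂ KK t) : X = 0 := by
  classical
  obtain ⟨h, h0, hh, hz⟩ := exists_reduced n i₀ hn
  have h0' : algebraMap EF KK (h i₀) ≠ 0 := fun h1 =>
    h0 (IsFractionRing.injective EF KK (by rw [h1, map_zero]))
  obtain ⟨H, hHd⟩ : ∃ H : τ → EF, ∀ t, H t = ∑ i, γ t i • h i := ⟨_, fun _ => rfl⟩
  have hsm : ∀ (t : ℂ) (f : EF), algebraMap EF KK (t • f) = t • algebraMap EF KK f := fun t f =>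
    map_smul (IsScalarTower.toAlgHom ℂ EF KK) t f
  have hH : ∀ t, algebraMap EF KK (H t) = algebraMap EF KK (h i₀) * B t := by
    intro t
    rw [hHd, map_sum, hB, Finset.mul_sum]
    refine Finset.sum_congr rfl fun i _ => ?_
    rw [hsm, hh, mul_smul_comm]
  have hnc' : ∃ i, ∀ t : ℂ, h i ≠ t • h i₀ := by
    obtain ⟨i, hi⟩ := hnc
    refine ⟨i, fun t ht => hi t ?_⟩
    have h1 := hh i
    rw [ht, hsm, Algebra.smul_def, mul_comm] at h1
    exact (mul_left_cancel₀ h0' h1).symm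
  obtain ⟨g, hg⟩ := exists_g hE h0 hh hz hH
  obtain ⟨m, e, he, hY, hY0, hgr⟩ := exists_Y h H h0 hz hnc'
  obtain ⟨C, M, hC, hb⟩ := Y_bound hE h0 hn hh hH γ hHd e he g hg
  have hZ : Differentiable ℂ fun w => g.1 (Complex.exp w - 1) :=
    g.2.comp (Complex.differentiable_exp.sub_const 1)
  have h1 := Z_eq_zero_K hY hY0 hgr hZ hC (bound_ext hY hZ hb)
  have h2 : g = 0 := by
    by_contra hne
    obtain ⟨w, hw⟩ := (Gen.exp (P := fun z => g.1 z ≠ 0) ⟨g, hne, fun z hz => hz⟩).exists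
    exact hw (h1 w)
  rw [hg, h2, zero_mul, map_zero]

end Pool.Agent.H24V
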