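import Pool.Agent.Lib.H24V.D1

set_option autoImplicit false

/-!
H24V: the values at places of polynomials (coefficientwise).
-/

open MvPolynomial

namespace Pool.Agent.H24V

open Pool.Agent.H89T Pool.Agent.H67T Pool.Agent.H53U Pool.Agent.H53V

variable {L : Type} [CommRing L] [Algebra ℂ L] {D : Derivation ℂ L L}

/-- The polynomials with coefficients in the subalgebra. -/
def Place.CoP (p : Place L D) (q : Polynomial L) : Prop := ∀ i, q.coeff i ∈ p.O

/-- The polynomials with coefficients in the subalgebra. -/
def Place.CoM (p : Place L D) {σ : Type} (G : MvPolynomial σ L) : Prop := ∀ α, coeff α G ∈ p.O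

open Classical in
/-- The value at a place of a polynomial, coefficientwise. -/
noncomputable def Place.rdP (p : Place L D) (q : Polynomial L) : Polynomial ℂ :=
  ∑ i ∈ q.support, Polynomial.monomial i (p.val (q.coeff i))

open Classical in
/-- The value at a place of a polynomial, coefficientwise. -/
noncomputable def Place.rdM (p : Place L D) {σ : Type} (G : MvPolynomial σ L) : MvPolynomial σ ℂ :=
  ∑ α ∈ G.support, monomial α (p.val (coeff α G))

theorem Place.coeff_rdP (p : Place L D) (q : Polynomial L) (i : ℕ) :
    (p.rdP q).coeff i = p.val (q.coeff i) := by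
  classical
  unfold Place.rdP
  rw [Polynomial.finsetSum_coeff]
  simp only [Polynomial.coeff_monomial]
  rw [Finset.sum_ite_eq' q.support i fun j => p.val (q.coeff j)]
  split_ifs with h
  · rfl
  · rw [Polynomial.notMem_support_iff.1 h, p.val_zero]

theorem Place.coeff_rdM (p : Place L D) {σ : Type} (G : MvPolynomial σ L) (α : σ →₀ ℕ) :
    coeff α (p.rdM G) = p.val (coeff α G) := by
  classical
  unfold Place.rdM
  rw [coeff_sum]
  simp only [coeff_monomial]
  rw [Finset.sum_ite_eq' G.support α fun j => p.val (coeff j G)]
  split_ifs with h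
  · rfl
  · rw [notMem_support_iff.1 h, p.val_zero]

end Pool.Agent.H24V
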