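import Pool.Agent.Lib.H24V.A1
import Pool.Agent.Lib.H24V.D2

set_option autoImplicit false

/-!
CHUNK A2 (M).  The places of the field of the meromorphic functions.
-/

namespace Pool.Agent.H24V

/-- The derivation of the field of the meromorphic functions. -/
noncomputable def DK : Derivation ℂ KK KK := exists_DK.choose

theorem DK_algebraMap (f : EF) : DK (algebraMap EF KK f) = algebraMap EF KK (DE f) :=
  exists_DK.choose_spec f

theorem a2_eq {z : ℂ} {x : KK} {a b a' b' : EF} (hb : b.1 z ≠ 0) (hb' : b'.1 z ≠ 0)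
    (h : x * algebraMap EF KK b = algebraMap EF KK a)
    (h' : x * algebraMap EF KK b' = algebraMap EF KK a') : a.1 z / b.1 z = a'.1 z / b'.1 z := by
  have h1 : algebraMap EF KK (a * b') = algebraMap EF KK (a' * b) := by
    rw [map_mul, map_mul, ← h, ← h']
    ring
  have h2 : a * b' = a' * b := IsFractionRing.injective EF KK h1
  have h3 := congrArg (fun F : EF => F.1 z) h2
  simp only [EF_mul_apply] at h3
  rw [div_eq_div_iff hb hb']
  exact h3

/-- the subalgebra of the meromorphic functions without pole at `z` -/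
noncomputable def a2_O (z : ℂ) : Subalgebra ℂ KK where
  carrier := {x | ∃ a b : EF, b.1 z ≠ 0 ∧ x * algebraMap EF KK b = algebraMap EF KK a}
  mul_mem' := by
    rintro x y ⟨a, b, hb, h⟩ ⟨a', b', hb', h'⟩
    refine ⟨a * a', b * b', ?_, ?_⟩
    · rw [EF_mul_apply]
      exact mul_ne_zero hb hb'
    · rw [map_mul, map_mul, ← h, ← h']
      ring
  add_mem' := by
    rintro x y ⟨a, b, hb, h⟩ ⟨a', b', hb', h'⟩
    refine ⟨a * b' + a' * b, b * b', ?_, ?_⟩
    · rw [EF_mul_apply]
      exact mul_ne_zero hb hb'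
    · rw [map_add, map_mul, map_mul, map_mul, ← h, ← h']
      ring
  algebraMap_mem' t := by
    refine ⟨algebraMap ℂ EF t, 1, ?_, ?_⟩
    · rw [EF_one_apply]
      exact one_ne_zero
    · rw [map_one, mul_one, ← IsScalarTower.algebraMap_apply ℂ EF KK t]

theorem a2_mem {z : ℂ} {x : KK} :
    x ∈ a2_O z ↔ ∃ a b : EF, b.1 z ≠ 0 ∧ x * algebraMap EF KK b = algebraMap EF KK a := Iff.rfl

/-- the value at `z` -/
noncomputable def a2_f (z : ℂ) (x : a2_O z) : ℂ :=
  (a2_mem.1 x.2).choose.1 z / (a2_mem.1 x.2).choose_spec.choose.1 z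

theorem a2_f_eq {z : ℂ} (x : a2_O z) {a b : EF} (hb : b.1 z ≠ 0)
    (h : x.1 * algebraMap EF KK b = algebraMap EF KK a) : a2_f z x = a.1 z / b.1 z :=
  a2_eq (a2_mem.1 x.2).choose_spec.choose_spec.1 hb (a2_mem.1 x.2).choose_spec.choose_spec.2 h

/-- the value at `z` as a homomorphism -/
noncomputable def a2_hom (z : ℂ) : a2_O z →ₐ[ℂ] ℂ where
  toFun := a2_f z
  map_one' := by
    rw [a2_f_eq (a := 1) (b := 1) (1 : a2_O z) (by rw [EF_one_apply]; exact one_ne_zero)
      (by rw [map_one, mul_one]; rfl), EF_one_apply, div_one]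
  map_mul' x y := by
    obtain ⟨a, b, hb, h⟩ := a2_mem.1 x.2
    obtain ⟨a', b', hb', h'⟩ := a2_mem.1 y.2
    rw [a2_f_eq x hb h, a2_f_eq y hb' h', a2_f_eq (a := a * a') (b := b * b') (x * y)
      (by rw [EF_mul_apply]; exact mul_ne_zero hb hb')
      (by
        rw [map_mul, map_mul, ← h, ← h']
        show x.1 * y.1 * _ = _
        ring), EF_mul_apply, EF_mul_apply, div_mul_div_comm]
  map_zero' := by
    rw [a2_f_eq (a := 0) (b := 1) (0 : a2_O z) (by rw [EF_one_apply]; exact one_ne_zero)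
      (by rw [map_one, mul_one, map_zero]; rfl), EF_zero_apply, zero_div]
  map_add' x y := by
    obtain ⟨a, b, hb, h⟩ := a2_mem.1 x.2
    obtain ⟨a', b', hb', h'⟩ := a2_mem.1 y.2
    rw [a2_f_eq x hb h, a2_f_eq y hb' h', a2_f_eq (a := a * b' + a' * b) (b := b * b') (x + y)
      (by rw [EF_mul_apply]; exact mul_ne_zero hb hb')
      (by
        rw [map_add, map_mul, map_mul, map_mul, ← h, ← h']
        show (x.1 + y.1) * _ = _
        ring), EF_add_apply, EF_mul_apply, EF_mul_apply, EF_mul_apply, div_add_div _ _ hb hb']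
    ring
  commutes' t := by
    rw [a2_f_eq (a := algebraMap ℂ EF t) (b := 1) (algebraMap ℂ (a2_O z) t)
      (by rw [EF_one_apply]; exact one_ne_zero)
      (by
        rw [map_one, mul_one, ← IsScalarTower.algebraMap_apply ℂ EF KK t]
        rfl), EF_one_apply, div_one]
    rfl

theorem a2_stable (z : ℂ) (x : KK) (hx : x ∈ a2_O z) : DK x ∈ a2_O z := by
  obtain ⟨a, b, hb, h⟩ := a2_mem.1 hx
  refine a2_mem.2 ⟨DE a * b - a * DE b, b * b, ?_, ?_⟩
  · rw [EF_mul_apply]
    exact mul_ne_zero hb hb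
  · have h1 := congrArg DK h
    rw [Derivation.leibniz, DK_algebraMap, DK_algebraMap, smul_eq_mul, smul_eq_mul] at h1
    rw [map_sub, map_mul, map_mul, map_mul, ← h1, ← h]
    ring

/-- The place `z`: the subalgebra `{a / b | b z ≠ 0}` (carrier: `x` with `x * b = a` for some `a b`, `b z ≠ 0`), stable
under `DK` (quotient rule: `DK x * b ^ 2 = DE a * b - a * DE b`), and the homomorphism `a / b ↦ a z / b z`
(well defined: `a b' = a' b` in `EF`, as `algebraMap EF KK` is injective). -/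
theorem exists_plK (z : ℂ) : ∃ p : Place KK DK,
    (∀ x, x ∈ p.O ↔ ∃ a b : EF, b.1 z ≠ 0 ∧ x * algebraMap EF KK b = algebraMap EF KK a) ∧
    ∀ (x : KK) (a b : EF), b.1 z ≠ 0 → x * algebraMap EF KK b = algebraMap EF KK a →
      p.val x = a.1 z / b.1 z := by
  refine ⟨⟨a2_O z, a2_stable z, a2_hom z⟩, fun x => Iff.rfl, ?_⟩
  intro x a b hb h
  have hx : x ∈ a2_O z := a2_mem.2 ⟨a, b, hb, h⟩
  rw [Place.val_eq _ (x := x) hx]
  exact a2_f_eq ⟨x, hx⟩ hb h

/-- The place `z`. -/
noncomputable def plK (z : ℂ) : Place KK DK := (exists_plK z).choose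

theorem mem_plK {z : ℂ} {x : KK} :
    x ∈ (plK z).O ↔ ∃ a b : EF, b.1 z ≠ 0 ∧ x * algebraMap EF KK b = algebraMap EF KK a :=
  (exists_plK z).choose_spec.1 x

theorem val_plK {z : ℂ} {x : KK} {a b : EF} (hb : b.1 z ≠ 0)
    (h : x * algebraMap EF KK b = algebraMap EF KK a) : (plK z).val x = a.1 z / b.1 z :=
  (exists_plK z).choose_spec.2 x a b hb h

end Pool.Agent.H24V
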