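import Pool.Agent.Lib.H24V.A2

set_option autoImplicit false

/-!
CHUNK A3 (S).  Generic regularity.
-/

namespace Pool.Agent.H24V

theorem a3_frac (x : KK) : ∃ a b : EF, b ≠ 0 ∧ x * algebraMap EF KK b = algebraMap EF KK a := by
  obtain ⟨a, b, hb, h⟩ := IsFractionRing.div_surjective EF x
  have hb0 : b ≠ 0 := nonZeroDivisors.ne_zero hb
  have hb1 : algebraMap EF KK b ≠ 0 := by
    intro h1
    exact hb0 ((IsFractionRing.injective EF KK) (by rw [h1, map_zero]))
  refine ⟨a, b, hb0, ?_⟩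
  rw [← h, div_mul_cancel₀ _ hb1]

theorem algebraMap_mem_plK (z : ℂ) (f : EF) :
    algebraMap EF KK f ∈ (plK z).O ∧ (plK z).val (algebraMap EF KK f) = f.1 z := by
  have h1 : (1 : EF).1 z ≠ 0 := by
    rw [EF_one_apply]
    exact one_ne_zero
  have h2 : algebraMap EF KK f * algebraMap EF KK 1 = algebraMap EF KK f := by
    rw [map_one, mul_one]
  refine ⟨mem_plK.2 ⟨f, 1, h1, h2⟩, ?_⟩
  rw [val_plK h1 h2, EF_one_apply, div_one]

/-- `x = a / b` with `b ≠ 0` (`IsFractionRing.div_surjective`). -/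
theorem gen_mem (x : KK) : Gen fun z => x ∈ (plK z).O := by
  obtain ⟨a, b, hb, h⟩ := a3_frac x
  exact ⟨b, hb, fun z hz => mem_plK.2 ⟨a, b, hz, h⟩⟩

/-- `x = a / b` with `a ≠ 0`, `b ≠ 0`. -/
theorem gen_ne {x : KK} (hx : x ≠ 0) : Gen fun z => x ∈ (plK z).O ∧ (plK z).val x ≠ 0 := by
  obtain ⟨a, b, hb, h⟩ := a3_frac x
  have ha : a ≠ 0 := by
    rintro rfl
    rw [map_zero, mul_eq_zero] at h
    rcases h with h | h
    · exact hx h
    · exact hb ((IsFractionRing.injective EF KK) (by rw [h, map_zero]))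
  refine ⟨a * b, EF_mul_ne ha hb, fun z hz => ?_⟩
  rw [EF_mul_apply, mul_ne_zero_iff] at hz
  refine ⟨mem_plK.2 ⟨a, b, hz.2, h⟩, ?_⟩
  rw [val_plK hz.2 h]
  exact div_ne_zero hz.1 hz.2

/-- The values at `z` of generic `z` determine an element. -/
theorem eq_of_gen {x y : KK} (h : Gen fun z => (plK z).val x = (plK z).val y) : x = y := by
  by_contra hne
  have h1 : x - y ≠ 0 := sub_ne_zero.2 hne
  obtain ⟨z, ⟨⟨h2, h3⟩, h4, h5⟩, h6⟩ := (((gen_mem x).and (gen_mem y)).and (gen_ne h1)).and h |>.exists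
  apply h5
  rw [(plK z).val_sub h2 h3, h6, sub_self]

end Pool.Agent.H24V
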