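import Pool.Agent.Lib.H24V.E0

set_option autoImplicit false

/-!
CHUNK A6 (L).  The theorem of Weierstrass.
-/

open Filter Topology

namespace Pool.Agent.H24V

/-- The zeros of norm at most `k + 1`. -/
noncomputable def a6D (n : ℂ → ℕ) (hn : ∀ r : ℝ, {z : ℂ | ‖z‖ ≤ r ∧ n z ≠ 0}.Finite) (k : ℕ) :
    Finset ℂ := (hn ((k : ℝ) + 1)).toFinset

theorem a6_mem {n : ℂ → ℕ} {hn : ∀ r : ℝ, {z : ℂ | ‖z‖ ≤ r ∧ n z ≠ 0}.Finite} {k : ℕ} {z : ℂ} :
    z ∈ a6D n hn k ↔ ‖z‖ ≤ (k : ℝ) + 1 ∧ n z ≠ 0 := by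
  unfold a6D
  rw [Set.Finite.mem_toFinset]
  rfl

theorem a6_sub {n : ℂ → ℕ} {hn : ∀ r : ℝ, {z : ℂ | ‖z‖ ≤ r ∧ n z ≠ 0}.Finite} (k : ℕ) :
    a6D n hn k ⊆ a6D n hn (k + 1) := by
  intro z hz
  rw [a6_mem] at hz ⊢
  push_cast
  exact ⟨by linarith [hz.1], hz.2⟩

/-- The exponent of the elementary factors. -/
noncomputable def a6e (n : ℂ → ℕ) (A : Finset ℂ) (m : ℕ) (z : ℂ) : ℂ :=
  ∑ ζ ∈ A, (n ζ : ℂ) * (Complex.log (1 + -(z / ζ)) - Complex.logTaylor (m + 1) (-(z / ζ)))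

/-- The product of elementary factors. -/
noncomputable def a6E (n : ℂ → ℕ) (A : Finset ℂ) (m : ℕ) (z : ℂ) : ℂ :=
  ∏ ζ ∈ A, ((1 + -(z / ζ)) * Complex.exp (-Complex.logTaylor (m + 1) (-(z / ζ)))) ^ n ζ

/-- The factor without zeros. -/
noncomputable def a6G (n : ℂ → ℕ) (A : Finset ℂ) (m : ℕ) (z : ℂ) : ℂ :=
  ∏ ζ ∈ A, (-ζ⁻¹ * Complex.exp (-Complex.logTaylor (m + 1) (-(z / ζ)))) ^ n ζ

theorem a6_diffT (m : ℕ) : Differentiable ℂ (Complex.logTaylor (m + 1)) :=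
  fun z => (Complex.hasDerivAt_logTaylor m z).differentiableAt

theorem a6_ratio {z ζ : ℂ} (h : ‖z‖ < ‖ζ‖) : ‖-(z / ζ)‖ < 1 := by
  rw [norm_neg, norm_div, div_lt_one ((norm_nonneg z).trans_lt h)]
  exact h

theorem a6_slit {w : ℂ} (h : ‖w‖ < 1) : 1 + w ∈ Complex.slitPlane := by
  left
  have h1 : -‖w‖ ≤ w.re := (abs_le.mp (Complex.abs_re_le_norm w)).1
  simp only [Complex.add_re, Complex.one_re]
  linarith

theorem a6_exp (n : ℂ → ℕ) (A : Finset ℂ) (m : ℕ) {z : ℂ} (h : ∀ ζ ∈ A, ‖z‖ < ‖ζ‖) :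
    a6E n A m z = Complex.exp (a6e n A m z) := by
  unfold a6E a6e
  rw [Complex.exp_sum]
  refine Finset.prod_congr rfl fun ζ hζ => ?_
  rw [Complex.exp_nat_mul]
  congr 1
  have h1 : 1 + -(z / ζ) ≠ 0 := Complex.slitPlane_ne_zero (a6_slit (a6_ratio (h ζ hζ)))
  rw [sub_eq_add_neg, Complex.exp_add, Complex.exp_log h1]

theorem a6_EG (n : ℂ → ℕ) (A : Finset ℂ) (m : ℕ) (h : ∀ ζ ∈ A, ζ ≠ 0) (z : ℂ) :
    a6E n A m z = (∏ ζ ∈ A, (z - ζ) ^ n ζ) * a6G n A m z := by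
  unfold a6E a6G
  rw [← Finset.prod_mul_distrib]
  refine Finset.prod_congr rfl fun ζ hζ => ?_
  rw [← mul_pow]
  congr 1
  have h1 := h ζ hζ
  have h2 : 1 + -(z / ζ) = (z - ζ) * -ζ⁻¹ := by
    field_simp
    ring
  rw [h2, mul_assoc]

theorem a6_Gne (n : ℂ → ℕ) (A : Finset ℂ) (m : ℕ) (h : ∀ ζ ∈ A, ζ ≠ 0) (z : ℂ) :
    a6G n A m z ≠ 0 := by
  unfold a6G
  refine Finset.prod_ne_zero_iff.mpr fun ζ hζ => pow_ne_zero _ ?_
  exact mul_ne_zero (neg_ne_zero.mpr (inv_ne_zero (h ζ hζ))) (Complex.exp_ne_zero _)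

theorem a6_Gdiff (n : ℂ → ℕ) (A : Finset ℂ) (m : ℕ) : Differentiable ℂ (a6G n A m) := by
  unfold a6G
  refine Differentiable.fun_finsetProd fun ζ _ => ?_
  refine Differentiable.pow ?_ _
  refine Differentiable.mul (differentiable_const _) ?_
  refine Differentiable.cexp ?_
  refine Differentiable.neg ?_
  exact (a6_diffT m).comp ((differentiable_id.div_const ζ).neg)

theorem a6_ediff (n : ℂ → ℕ) (A : Finset ℂ) (m : ℕ) (r : ℝ) (h : ∀ ζ ∈ A, r ≤ ‖ζ‖) :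
    DifferentiableOn ℂ (a6e n A m) (Metric.ball 0 r) := by
  unfold a6e
  refine DifferentiableOn.fun_sum fun ζ hζ => ?_
  intro z hz
  rw [mem_ball_zero_iff] at hz
  have h1 := a6_slit (a6_ratio (hz.trans_le (h ζ hζ)))
  have hd : DifferentiableAt ℂ (fun z : ℂ => -(z / ζ)) z := (differentiableAt_id.div_const ζ).neg
  have h2 : DifferentiableAt ℂ (fun z : ℂ => Complex.log (1 + -(z / ζ))) z :=
    (hd.const_add 1).clog h1
  have h3 : DifferentiableAt ℂ (fun z : ℂ => Complex.logTaylor (m + 1) (-(z / ζ))) z :=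
    DifferentiableAt.fun_comp' (g := Complex.logTaylor (m + 1)) z (a6_diffT m (-(z / ζ))) hd
  exact ((h2.sub h3).const_mul _).differentiableWithinAt

theorem a6_bound (n : ℂ → ℕ) (A : Finset ℂ) (m k : ℕ) (h : ∀ ζ ∈ A, (k : ℝ) + 1 ≤ ‖ζ‖) {z : ℂ}
    (hz : ‖z‖ ≤ k) : ‖a6e n A m z‖ ≤ (∑ ζ ∈ A, (n ζ : ℝ)) * ((k : ℝ) + 1) / ((m : ℝ) + 1) := by
  unfold a6e
  refine (norm_sum_le _ _).trans ?_
  rw [Finset.sum_mul, Finset.sum_div]
  refine Finset.sum_le_sum fun ζ hζ => ?_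
  rw [norm_mul, Complex.norm_natCast, mul_div_assoc]
  refine mul_le_mul_of_nonneg_left ?_ (Nat.cast_nonneg _)
  have hk : (0 : ℝ) ≤ k := Nat.cast_nonneg k
  have h1 : (0 : ℝ) < ‖ζ‖ := by linarith [h ζ hζ]
  have h0 : ‖z‖ < ‖ζ‖ := by linarith [h ζ hζ]
  have h2 := Complex.norm_log_sub_logTaylor_le m (a6_ratio h0)
  refine h2.trans ?_
  have h3 : ‖-(z / ζ)‖ ≤ (k : ℝ) / (k + 1) := by
    rw [norm_neg, norm_div, div_le_div_iff₀ h1 (by linarith)]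
    nlinarith [h ζ hζ, norm_nonneg z]
  have h4 : (1 - ‖-(z / ζ)‖)⁻¹ ≤ (k : ℝ) + 1 := by
    have h5 : ((k : ℝ) + 1)⁻¹ ≤ 1 - ‖-(z / ζ)‖ := by
      have h6 : (k : ℝ) / (k + 1) = 1 - ((k : ℝ) + 1)⁻¹ := by
        field_simp
        ring
      linarith
    have h7 : (0 : ℝ) < ((k : ℝ) + 1)⁻¹ := by positivity
    calc (1 - ‖-(z / ζ)‖)⁻¹ ≤ (((k : ℝ) + 1)⁻¹)⁻¹ := inv_anti₀ h7 h5
      _ = (k : ℝ) + 1 := inv_inv _
  have h8 : ‖-(z / ζ)‖ ^ (m + 1) ≤ 1 := pow_le_one₀ (norm_nonneg _) (a6_ratio h0).le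
  have h9 : (0 : ℝ) ≤ (1 - ‖-(z / ζ)‖)⁻¹ := inv_nonneg.mpr (by linarith [a6_ratio h0])
  refine div_le_div_of_nonneg_right ?_ (by positivity)
  calc ‖-(z / ζ)‖ ^ (m + 1) * (1 - ‖-(z / ζ)‖)⁻¹ ≤ 1 * ((k : ℝ) + 1) :=
        mul_le_mul h8 h4 h9 zero_le_one
    _ = (k : ℝ) + 1 := one_mul _

/-- Weierstrass: there is an entire function with prescribed zeros.  `n` has finite support on every disc.
Suggestion (no canonical products): for `k ≥ 1` let `p k = ∏_{|ζ| < k} (z - ζ) ^ n ζ` (finite product).  `p (k + 1) / p k =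
∏_{k ≤ |ζ| < k + 1} (z - ζ) ^ n ζ` has no zero in the disc `|z| < k`, so it is `exp (g k)` there (`g k` holomorphic on the
disc: primitive of the logarithmic derivative, Mathlib/Analysis/Complex/HasPrimitives.lean, or BranchLogRoot.lean; or elementary:
`z - ζ = - ζ exp (log (1 - z / ζ))`, `|z / ζ| < 1`, and `log (1 - z / ζ)` is the `Complex.log` of a number of positive real
part), and there is a polynomial `q k` with `‖g k - q k‖ ≤ 2 ^ (-k)` on `|z| ≤ k - 1` (Taylor polynomial).  For `|z| < K`,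
`β z = p (K + 1) z * (∏_{k ≤ K} exp (- q k z)) * exp (∑_{k > K} (g k z - q k z))` does not depend on `K`, and the series
converges uniformly on `|z| ≤ K`. -/
theorem weierstrass (n : ℂ → ℕ) (hn : ∀ r : ℝ, {z : ℂ | ‖z‖ ≤ r ∧ n z ≠ 0}.Finite) :
    ∃ β : EF, β ≠ 0 ∧ ∀ z, analyticOrderAt β.1 z = n z := by
  classical
  -- the blocks and the degrees
  set D : ℕ → Finset ℂ := a6D n hn with hD
  set A : ℕ → Finset ℂ := fun k => D (k + 1) \ D k with hA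
  have hAz : ∀ k, ∀ ζ ∈ A k, (k : ℝ) + 1 < ‖ζ‖ := by
    intro k ζ hζ
    rw [hA, Finset.mem_sdiff, hD, a6_mem, a6_mem] at hζ
    by_contra hcon
    push Not at hcon
    exact hζ.2 ⟨hcon, hζ.1.2⟩
  have hA0 : ∀ k, ∀ ζ ∈ A k, ζ ≠ 0 := by
    intro k ζ hζ h0
    have h1 := hAz k ζ hζ
    rw [h0, norm_zero] at h1
    have h2 : (0 : ℝ) ≤ k := Nat.cast_nonneg k
    linarith
  have hm : ∀ k : ℕ, ∃ m : ℕ, (∑ ζ ∈ A k, (n ζ : ℝ)) * ((k : ℝ) + 1) / ((m : ℝ) + 1) ≤ (1 / 2) ^ k := by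
    intro k
    obtain ⟨m, hm⟩ := exists_nat_ge ((∑ ζ ∈ A k, (n ζ : ℝ)) * ((k : ℝ) + 1) * 2 ^ k)
    refine ⟨m, ?_⟩
    rw [div_le_iff₀ (by positivity), one_div, inv_pow, ← div_eq_inv_mul, le_div_iff₀ (by positivity)]
    linarith
  choose m hm using hm
  set E : ℕ → ℂ → ℂ := fun k => a6E n (A k) (m k) with hE
  set e : ℕ → ℂ → ℂ := fun k => a6e n (A k) (m k) with he
  set G : ℕ → ℂ → ℂ := fun k => a6G n (A k) (m k) with hG
  have heb : ∀ (k : ℕ) (z : ℂ), ‖z‖ ≤ (k : ℝ) → ‖e k z‖ ≤ (1 / 2) ^ k := fun k z hz =>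
    (a6_bound n (A k) (m k) k (fun ζ hζ => (hAz k ζ hζ).le) hz).trans (hm k)
  have hEe : ∀ (k : ℕ) (z : ℂ), ‖z‖ ≤ (k : ℝ) + 1 → E k z = Complex.exp (e k z) := fun k z hz =>
    a6_exp n (A k) (m k) fun ζ hζ => hz.trans_lt (hAz k ζ hζ)
  -- the tails
  set T : ℕ → ℂ → ℂ := fun K z => ∑' k, e (k + K) z with hT
  have hsum : ∀ K : ℕ, Summable fun k : ℕ => ((1 : ℝ) / 2) ^ (k + K) := by
    intro K
    simp_rw [pow_add]
    exact (summable_geometric_of_lt_one (by norm_num) (by norm_num)).mul_right _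
  have hKk : ∀ (K k : ℕ) (z : ℂ), ‖z‖ ≤ (K : ℝ) → ‖z‖ ≤ ((k + K : ℕ) : ℝ) := by
    intro K k z hz
    push_cast
    linarith [(Nat.cast_nonneg k : (0 : ℝ) ≤ k)]
  have hTd : ∀ K : ℕ, DifferentiableOn ℂ (T K) (Metric.ball 0 K) := by
    intro K
    refine Complex.differentiableOn_tsum_of_summable_norm (hsum K) (fun k => ?_) Metric.isOpen_ball
      fun k w hw => ?_
    · refine (a6_ediff n (A (k + K)) (m (k + K)) (((k + K : ℕ) : ℝ) + 1) fun ζ hζ =>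
        (hAz (k + K) ζ hζ).le).mono (Metric.ball_subset_ball ?_)
      push_cast
      linarith [(Nat.cast_nonneg k : (0 : ℝ) ≤ k)]
    · rw [mem_ball_zero_iff] at hw
      exact heb _ _ (hKk K k w hw.le)
  have hTs : ∀ (K : ℕ) (z : ℂ), ‖z‖ ≤ (K : ℝ) → HasSum (fun k => e (k + K) z) (T K z) := by
    intro K z hz
    refine (Summable.of_norm_bounded (hsum K) fun k => ?_).hasSum
    exact heb _ _ (hKk K k z hz)
  -- the products
  have hprod : ∀ (K : ℕ) (z : ℂ), ‖z‖ ≤ (K : ℝ) →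
      HasProd (fun k => E k z) ((∏ k ∈ Finset.range K, E k z) * Complex.exp (T K z)) := by
    intro K z hz
    apply HasProd.prod_range_mul
    have h1 := (hTs K z hz).cexp
    have h2 : (fun k => E (k + K) z) = Complex.exp ∘ fun k => e (k + K) z := by
      funext k
      show E (k + K) z = Complex.exp (e (k + K) z)
      exact hEe _ _ ((hKk K k z hz).trans (by linarith))
    rw [h2]
    exact h1
  have hPD : ∀ (K : ℕ) (z : ℂ), ∏ ζ ∈ D K, (z - ζ) ^ n ζ =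
      (∏ ζ ∈ D 0, (z - ζ) ^ n ζ) * ∏ k ∈ Finset.range K, ∏ ζ ∈ A k, (z - ζ) ^ n ζ := by
    intro K z
    induction K with
    | zero => simp
    | succ K ih =>
      rw [Finset.prod_range_succ, ← mul_assoc, ← ih, mul_comm]
      exact (Finset.prod_sdiff (a6_sub K)).symm
  set β : ℂ → ℂ := fun z => (∏ ζ ∈ D 0, (z - ζ) ^ n ζ) * ∏' k, E k z with hβ
  set H : ℕ → ℂ → ℂ := fun K z => (∏ k ∈ Finset.range K, G k z) * Complex.exp (T K z) with hH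
  have hβH : ∀ (K : ℕ) (z : ℂ), ‖z‖ ≤ (K : ℝ) → β z = (∏ ζ ∈ D K, (z - ζ) ^ n ζ) * H K z := by
    intro K z hz
    have h1 : ∏ k ∈ Finset.range K, E k z = (∏ k ∈ Finset.range K, ∏ ζ ∈ A k, (z - ζ) ^ n ζ) *
        ∏ k ∈ Finset.range K, G k z := by
      rw [← Finset.prod_mul_distrib]
      exact Finset.prod_congr rfl fun k _ => a6_EG n (A k) (m k) (hA0 k) z
    show (∏ ζ ∈ D 0, (z - ζ) ^ n ζ) * ∏' k, E k z = _
    rw [(hprod K z hz).tprod_eq, hPD K z, h1]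
    show _ = _ * ((∏ k ∈ Finset.range K, G k z) * Complex.exp (T K z))
    ring
  have hHne : ∀ K z, H K z ≠ 0 := fun K z =>
    mul_ne_zero (Finset.prod_ne_zero_iff.mpr fun k _ => a6_Gne n (A k) (m k) (hA0 k) z)
      (Complex.exp_ne_zero _)
  have hHd : ∀ K : ℕ, DifferentiableOn ℂ (H K) (Metric.ball 0 K) := by
    intro K
    refine DifferentiableOn.mul ?_ (hTd K).cexp
    exact (Differentiable.fun_finsetProd fun k _ => a6_Gdiff n (A k) (m k)).differentiableOn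
  -- local form
  have hloc : ∀ z₀ : ℂ, ∃ K : ℕ, ‖z₀‖ < (K : ℝ) ∧ AnalyticAt ℂ (H K) z₀ ∧
      ∀ᶠ z in 𝓝 z₀, β z = (∏ ζ ∈ D K, (z - ζ) ^ n ζ) * H K z := by
    intro z₀
    obtain ⟨K, hK⟩ := exists_nat_gt ‖z₀‖
    have hmem : Metric.ball (0 : ℂ) K ∈ 𝓝 z₀ :=
      Metric.isOpen_ball.mem_nhds (mem_ball_zero_iff.mpr hK)
    refine ⟨K, hK, (hHd K).analyticAt hmem, ?_⟩
    filter_upwards [hmem] with z hz
    exact hβH K z (mem_ball_zero_iff.mp hz).le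
  have hpd : ∀ S : Finset ℂ, Differentiable ℂ fun z : ℂ => ∏ ζ ∈ S, (z - ζ) ^ n ζ := by
    intro S
    refine Differentiable.fun_finsetProd fun ζ _ => ?_
    exact (differentiable_id.sub_const ζ).pow _
  have hβd : Differentiable ℂ β := by
    intro z₀
    obtain ⟨K, hK, h1, h2⟩ := hloc z₀
    refine DifferentiableAt.congr_of_eventuallyEq ?_ h2
    exact ((hpd (D K)) z₀).mul h1.differentiableAt
  have hord : ∀ z₀, analyticOrderAt β z₀ = n z₀ := by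
    intro z₀
    obtain ⟨K, hK, h1, h2⟩ := hloc z₀
    rw [(hβd.analyticAt z₀).analyticOrderAt_eq_natCast]
    refine ⟨fun z => (∏ ζ ∈ (D K).erase z₀, (z - ζ) ^ n ζ) * H K z,
      ((hpd _).analyticAt z₀).mul h1, ?_, ?_⟩
    · refine mul_ne_zero (Finset.prod_ne_zero_iff.mpr fun ζ hζ => pow_ne_zero _ ?_) (hHne K z₀)
      exact sub_ne_zero.mpr (Finset.ne_of_mem_erase hζ).symm
    · filter_upwards [h2] with z hz
      have key : ∏ ζ ∈ D K, (z - ζ) ^ n ζ = (z - z₀) ^ n z₀ * ∏ ζ ∈ (D K).erase z₀, (z - ζ) ^ n ζ := by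
        by_cases hz0 : z₀ ∈ D K
        · exact (Finset.mul_prod_erase (D K) (fun ζ => (z - ζ) ^ n ζ) hz0).symm
        · have h3 : n z₀ = 0 := by
            by_contra hcon
            apply hz0
            rw [hD, a6_mem]
            exact ⟨by linarith, hcon⟩
          rw [h3, pow_zero, one_mul, Finset.erase_eq_of_notMem hz0]
      rw [hz, smul_eq_mul, key]
      exact mul_assoc _ _ _
  refine ⟨⟨β, hβd⟩, ?_, hord⟩
  intro h0
  have h1 : β = fun _ => 0 := congrArg Subtype.val h0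
  have h2 := hord 0
  rw [h1] at h2
  have h3 : analyticOrderAt (fun _ : ℂ => (0 : ℂ)) 0 = ⊤ := by
    rw [analyticOrderAt_eq_top]
    exact Eventually.of_forall fun _ => rfl
  rw [h3] at h2
  exact ENat.top_ne_natCast _ h2

end Pool.Agent.H24V
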