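import Pool.Agent.Lib.H24V.A6
import Pool.Agent.Lib.H24V.A2

set_option autoImplicit false

/-!
CHUNK A7 (M).  Reduced coordinates.
-/

open Filter Topology

namespace Pool.Agent.H24V

theorem a7_ne_top {β : EF} (hβ : β ≠ 0) (z : ℂ) : analyticOrderAt β.1 z ≠ ⊤ := by
  intro h
  rw [analyticOrderAt_eq_top] at h
  apply hβ
  apply Subtype.ext
  have h1 : AnalyticOnNhd ℂ β.1 Set.univ := fun w _ => β.2.analyticAt w
  have h2 : AnalyticOnNhd ℂ (fun _ : ℂ => (0 : ℂ)) Set.univ := fun w _ => analyticAt_const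
  exact h1.eq_of_eventuallyEq h2 h

theorem a7_ev_ne {β : EF} (hβ : β ≠ 0) (z : ℂ) : ∀ᶠ w in 𝓝[≠] z, β.1 w ≠ 0 := by
  rcases (β.2.analyticAt z).eventually_eq_zero_or_eventually_ne_zero with h | h
  · exact absurd (analyticOrderAt_eq_top.2 h) (a7_ne_top hβ z)
  · exact h

theorem a7_finite {b : EF} (hb : b ≠ 0) (r : ℝ) : {z : ℂ | ‖z‖ ≤ r ∧ b.1 z = 0}.Finite := by
  by_contra hinf
  have hinf' : Set.Infinite {z : ℂ | ‖z‖ ≤ r ∧ b.1 z = 0} := hinf
  obtain ⟨x, _, hx⟩ := hinf'.exists_accPt_of_subset_isCompact (isCompact_closedBall (0 : ℂ) r)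
    (fun z hz => mem_closedBall_zero_iff.2 hz.1)
  rw [accPt_iff_frequently_nhdsNE] at hx
  exact hx ((a7_ev_ne hb x).mono fun w hw h => hw h.2)

theorem a7_ord_nonneg {a β : EF} (hβ : β ≠ 0) {z : ℂ} (h : analyticOrderAt β.1 z ≤ analyticOrderAt a.1 z) :
    0 ≤ meromorphicOrderAt (a.1 / β.1) z := by
  rw [meromorphicOrderAt_div (a.2.analyticAt z).meromorphicAt (β.2.analyticAt z).meromorphicAt,
    (a.2.analyticAt z).meromorphicOrderAt_eq, (β.2.analyticAt z).meromorphicOrderAt_eq]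
  obtain ⟨n, hn⟩ := ENat.ne_top_iff_exists.mp (a7_ne_top hβ z)
  rw [← hn] at h ⊢
  rcases eq_or_ne (analyticOrderAt a.1 z) ⊤ with ht | ht
  · rw [ht, ENat.map_top, ENat.map_natCast]
    exact le_top
  · obtain ⟨m, hm⟩ := ENat.ne_top_iff_exists.mp ht
    rw [← hm] at h ⊢
    rw [ENat.map_natCast, ENat.map_natCast]
    have h1 : n ≤ m := by exact_mod_cast h
    have h2 : (0 : ℤ) ≤ (m : ℤ) - (n : ℤ) := by omega
    exact_mod_cast h2

/-- Quotients: if the order of `β` is at most the order of `a` everywhere, `β` divides `a`. -/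
theorem dvd_of_order {a β : EF} (hβ : β ≠ 0) (h : ∀ z, analyticOrderAt β.1 z ≤ analyticOrderAt a.1 z) :
    ∃ g : EF, a = β * g := by
  have hm : MeromorphicOn (a.1 / β.1) Set.univ := fun z _ =>
    (a.2.analyticAt z).meromorphicAt.div (β.2.analyticAt z).meromorphicAt
  have hg : ∀ z, AnalyticAt ℂ (toMeromorphicNFOn (a.1 / β.1) Set.univ) z := by
    intro z
    rw [← (meromorphicNFOn_toMeromorphicNFOn (a.1 / β.1) Set.univ (Set.mem_univ z)).meromorphicOrderAt_nonneg_iff_analyticAt,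
      meromorphicOrderAt_toMeromorphicNFOn hm (Set.mem_univ z)]
    exact a7_ord_nonneg hβ (h z)
  refine ⟨⟨toMeromorphicNFOn (a.1 / β.1) Set.univ, fun z => (hg z).differentiableAt⟩, ?_⟩
  apply Subtype.ext
  funext z
  have h1 : ∀ᶠ w in 𝓝[≠] z, a.1 w = β.1 w * toMeromorphicNFOn (a.1 / β.1) Set.univ w := by
    filter_upwards [hm.toMeromorphicNFOn_eq_self_on_nhdsNE (Set.mem_univ z), a7_ev_ne hβ z] with w hw1 hw2
    rw [hw1, Pi.div_apply, mul_div_cancel₀ _ hw2]
  have h2 : Tendsto a.1 (𝓝[≠] z) (𝓝 (a.1 z)) :=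
    (a.2.continuous.tendsto z).mono_left nhdsWithin_le_nhds
  have h3 : Tendsto (fun w => β.1 w * toMeromorphicNFOn (a.1 / β.1) Set.univ w) (𝓝[≠] z)
      (𝓝 (β.1 z * toMeromorphicNFOn (a.1 / β.1) Set.univ z)) :=
    (((β.2.continuous.tendsto z).mul (hg z).continuousAt)).mono_left nhdsWithin_le_nhds
  exact tendsto_nhds_unique_of_eventuallyEq h2 h3 h1

/-- Every tuple of meromorphic functions, one of them equal to `1`, is proportional to a tuple of entire functions without
common zeros: clear denominators, `a i = b * n i`, `a i₀ = b ≠ 0`; `β` with order `min_i (order of a i)` (A6: at most the order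
of `b`, so the support is discrete: finite on discs), `a i = β * h i`; no common zeros (the order of `β * h i` is the sum). -/
theorem exists_reduced {ι : Type} [Finite ι] (n : ι → KK) (i₀ : ι) (hn : n i₀ = 1) :
    ∃ h : ι → EF, h i₀ ≠ 0 ∧ (∀ i, algebraMap EF KK (h i) = algebraMap EF KK (h i₀) * n i) ∧
      ∀ z, ∃ i, (h i).1 z ≠ 0 := by
  classical
  have hinj : Function.Injective (algebraMap EF KK) := IsFractionRing.injective EF KK
  obtain ⟨b, hb⟩ := IsLocalization.exist_integer_multiples_of_finite (nonZeroDivisors EF) n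
  have hb0 : (b : EF) ≠ 0 := nonZeroDivisors.ne_zero b.2
  choose a ha using hb
  have ha' : ∀ i, algebraMap EF KK (a i) = algebraMap EF KK (b : EF) * n i := by
    intro i
    have h1 := ha i
    rw [h1, Algebra.smul_def]
  have hai₀ : a i₀ = b := by
    apply hinj
    rw [ha' i₀, hn, mul_one]
  haveI : Nonempty ι := ⟨i₀⟩
  let N : ℂ → ℕ := fun z => (⨅ i, analyticOrderAt (a i).1 z).toNat
  have hNtop : ∀ z, (⨅ i, analyticOrderAt (a i).1 z) ≠ ⊤ := by
    intro z h
    have h1 := iInf_le (fun i => analyticOrderAt (a i).1 z) i₀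
    rw [h, top_le_iff] at h1
    refine a7_ne_top (β := a i₀) ?_ z h1
    rw [hai₀]
    exact hb0
  have hN : ∀ z, ((N z : ℕ) : ℕ∞) = ⨅ i, analyticOrderAt (a i).1 z := fun z =>
    ENat.coe_toNat (hNtop z)
  have hfin : ∀ r : ℝ, {z : ℂ | ‖z‖ ≤ r ∧ N z ≠ 0}.Finite := by
    intro r
    refine (a7_finite hb0 r).subset ?_
    rintro z ⟨hz1, hz2⟩
    refine ⟨hz1, ?_⟩
    by_contra hz3
    apply hz2
    have h1 : (⨅ i, analyticOrderAt (a i).1 z) ≤ analyticOrderAt (a i₀).1 z := iInf_le _ i₀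
    have h2 : analyticOrderAt (a i₀).1 z = 0 := by
      rw [hai₀]
      exact ((b : EF).2.analyticAt z).analyticOrderAt_eq_zero.2 hz3
    rw [h2] at h1
    have h3 : ((N z : ℕ) : ℕ∞) ≤ 0 := by
      rw [hN z]
      exact h1
    exact_mod_cast nonpos_iff_eq_zero.1 h3
  obtain ⟨β, hβ0, hβ⟩ := weierstrass N hfin
  have hle : ∀ i z, analyticOrderAt β.1 z ≤ analyticOrderAt (a i).1 z := by
    intro i z
    rw [hβ z, hN z]
    exact iInf_le _ i
  choose h hh using fun i => dvd_of_order (a := a i) hβ0 (hle i)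
  have hβK : algebraMap EF KK β ≠ 0 := fun h0 => hβ0 (hinj (by rw [h0, map_zero]))
  refine ⟨h, ?_, ?_, ?_⟩
  · intro h0
    have h1 := hh i₀
    rw [h0, mul_zero, hai₀] at h1
    exact hb0 h1
  · intro i
    apply mul_left_cancel₀ hβK
    rw [← map_mul, ← hh i, ha' i, ← mul_assoc, ← map_mul, ← hh i₀, hai₀]
  · intro z
    obtain ⟨i, hi⟩ := exists_eq_ciInf_of_finite (f := fun i => analyticOrderAt (a i).1 z)
    refine ⟨i, ?_⟩
    have h1 : analyticOrderAt (a i).1 z = analyticOrderAt β.1 z := by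
      rw [hβ z, hN z]
      exact hi
    have h2 : analyticOrderAt (a i).1 z = analyticOrderAt β.1 z + analyticOrderAt (h i).1 z := by
      have h3 : (a i).1 = β.1 * (h i).1 := congrArg Subtype.val (hh i)
      rw [h3]
      exact analyticOrderAt_mul (β.2.analyticAt z) ((h i).2.analyticAt z)
    rw [h1] at h2
    obtain ⟨k, hk⟩ := ENat.ne_top_iff_exists.mp (a7_ne_top hβ0 z)
    rw [← hk] at h2
    have h4 : analyticOrderAt (h i).1 z = 0 := by
      rcases eq_or_ne (analyticOrderAt (h i).1 z) ⊤ with ht | ht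
      · rw [ht, add_top] at h2
        exact absurd h2 (ENat.coe_ne_top k)
      · obtain ⟨l, hl⟩ := ENat.ne_top_iff_exists.mp ht
        rw [← hl] at h2 ⊢
        have h5 : k = k + l := by exact_mod_cast h2
        have h6 : l = 0 := by omega
        rw [h6]
        rfl
    exact ((h i).2.analyticAt z).analyticOrderAt_eq_zero.1 h4

end Pool.Agent.H24V
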