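import Pool.Agent.Lib.H24V.D0

set_option autoImplicit false

/-!
H24V, module B, part 1: the norm form.
-/

open MvPolynomial

namespace Pool.Agent.H24V

/-- The determinant of a matrix of forms of degree `1` is a form. -/
theorem b1_det_hom {K : Type} [CommRing K] {n : ℕ} {ι : Type} [Fintype ι] [DecidableEq ι]
    (A : Matrix ι ι (MvPolynomial (Fin n) K)) (hA : ∀ i j, (A i j).IsHomogeneous 1) :
    A.det.IsHomogeneous (Fintype.card ι) := by
  rw [Matrix.det_apply]
  refine IsHomogeneous.sum _ _ _ fun σ _ => ?_
  have h1 : (∏ i, A (σ i) i).IsHomogeneous (∑ _i : ι, 1) :=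
    IsHomogeneous.prod _ _ _ fun i _ => hA _ _
  rw [Finset.sum_const, Finset.card_univ, smul_eq_mul, mul_one] at h1
  rcases Int.units_eq_one_or (Equiv.Perm.sign σ) with h | h
  · rw [h, one_smul]
    exact h1
  · rw [h, Units.neg_smul, one_smul]
    exact h1.neg

/-- The norm form of the point `x`: the determinant of `∑ u_a (multiplication by x_a)`; the vector of the
basis is an eigenvector with the eigenvalue `lf x`. -/
theorem b1_norm_form {K L : Type} [Field K] [Field L] [Algebra K L] [FiniteDimensional K L] {n : ℕ}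
    (x : Fin n → L) :
    ∃ G : MvPolynomial (Fin n) K, G.IsHomogeneous (Module.finrank K L) ∧
      (∀ v : Fin n → K, eval v G = Algebra.norm K (∑ a, v a • x a)) ∧
      ∃ H1 : MvPolynomial (Fin n) L, map (algebraMap K L) G = lf x * H1 := by
  classical
  obtain ⟨b⟩ : Nonempty (Module.Basis (Fin (Module.finrank K L)) K L) := ⟨Module.finBasis K L⟩
  let A : Fin n → Matrix (Fin (Module.finrank K L)) (Fin (Module.finrank K L)) K := fun a =>
    Algebra.leftMulMatrix b (x a)
  let Mx : Matrix (Fin (Module.finrank K L)) (Fin (Module.finrank K L)) (MvPolynomial (Fin n) K) :=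
    fun i j => ∑ a, C (A a i j) * X a
  have hmul : ∀ a j, x a * b j = ∑ i, algebraMap K L (A a i j) * b i := by
    intro a j
    have h1 := (b.sum_repr (x a * b j)).symm
    rw [h1]
    refine Finset.sum_congr rfl fun i _ => ?_
    rw [Algebra.smul_def]
    congr 2
    show _ = Algebra.leftMulMatrix b (x a) i j
    rw [Algebra.leftMulMatrix_eq_repr_mul]
  refine ⟨Mx.det, ?_, fun v => ?_, ?_⟩
  · have h1 := b1_det_hom Mx fun i j => IsHomogeneous.sum _ _ _ fun a _ => by
      have h2 := (isHomogeneous_C (Fin n) (A a i j)).mul (isHomogeneous_X K a)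
      rw [zero_add] at h2
      exact h2
    rw [Fintype.card_fin] at h1
    exact h1
  · rw [RingHom.map_det, Algebra.norm_eq_matrix_det b]
    congr 1
    ext i j
    have h1 : Algebra.leftMulMatrix b (∑ a, v a • x a) i j = ∑ a, v a * A a i j := by
      rw [map_sum, Matrix.sum_apply]
      refine Finset.sum_congr rfl fun a _ => ?_
      rw [map_smul, Matrix.smul_apply, smul_eq_mul]
    rw [h1]
    show eval v (∑ a, C (A a i j) * X a) = _
    rw [map_sum]
    refine Finset.sum_congr rfl fun a _ => ?_
    rw [map_mul, eval_C, eval_X, mul_comm]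
  · obtain ⟨i₀⟩ : Nonempty (Fin (Module.finrank K L)) := by
      rw [← Fin.pos_iff_nonempty]
      exact Module.finrank_pos
    let ML : Matrix (Fin (Module.finrank K L)) (Fin (Module.finrank K L)) (MvPolynomial (Fin n) L) :=
      Mx.map (map (algebraMap K L))
    have hML : ∀ i j, ML i j = ∑ a, C (algebraMap K L (A a i j)) * X a := by
      intro i j
      show map (algebraMap K L) (∑ a, C (A a i j) * X a) = _
      rw [map_sum]
      refine Finset.sum_congr rfl fun a _ => ?_
      rw [map_mul, map_C, map_X]
    have hdet : map (algebraMap K L) Mx.det = ML.det := by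
      rw [RingHom.map_det]
      rfl
    let w : Fin (Module.finrank K L) → MvPolynomial (Fin n) L := fun i => C (b i)
    have hw : Matrix.vecMul w ML = lf x • w := by
      funext j
      show ∑ i, w i * ML i j = lf x * C (b j)
      unfold lf
      rw [Finset.sum_mul]
      simp only [hML, Finset.mul_sum]
      rw [Finset.sum_comm]
      refine Finset.sum_congr rfl fun a _ => ?_
      have h1 : C (x a) * X a * C (b j) = C (x a * b j) * (X a : MvPolynomial (Fin n) L) := by
        rw [C_mul]
        ring
      rw [h1, hmul, map_sum, Finset.sum_mul]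
      refine Finset.sum_congr rfl fun i _ => ?_
      show C (b i) * _ = _
      rw [C_mul]
      ring
    have hadj : Matrix.vecMul (Matrix.vecMul w ML) ML.adjugate = ML.det • w := by
      rw [Matrix.vecMul_vecMul, Matrix.mul_adjugate, Matrix.vecMul_smul, Matrix.vecMul_one]
    rw [hw, Matrix.smul_vecMul] at hadj
    have h2 := congrFun hadj i₀
    refine ⟨C (b i₀)⁻¹ * Matrix.vecMul w ML.adjugate i₀, ?_⟩
    have hb : b i₀ ≠ 0 := b.ne_zero i₀
    have h3 : C (b i₀)⁻¹ * C (b i₀) = (1 : MvPolynomial (Fin n) L) := by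
      rw [← C_mul, inv_mul_cancel₀ hb, C_1]
    have h4 : lf x * Matrix.vecMul w ML.adjugate i₀ = ML.det * C (b i₀) := h2
    rw [hdet]
    calc ML.det = C (b i₀)⁻¹ * C (b i₀) * ML.det := by rw [h3, one_mul]
      _ = C (b i₀)⁻¹ * (ML.det * C (b i₀)) := by ring
      _ = lf x * (C (b i₀)⁻¹ * Matrix.vecMul w ML.adjugate i₀) := by
          rw [← h4]
          ring

end Pool.Agent.H24V
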