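import Pool.Agent.Lib.H24V.D0

set_option autoImplicit false

/-!
H24V, module B, part 2: primitive elements with complex coefficients.
-/

open MvPolynomial

namespace Pool.Agent.H24V

/-- A primitive element which is a linear combination with complex coefficients: the moment vector `(1, t, t ^ 2, ...)`
with a natural number `t` which is not a root of the polynomials `∑ (σ f_b - τ f_b) T ^ b`, `σ ≠ τ` two embeddings. -/
theorem b2_exists_prim {K L : Type} [Field K] [Field L] [Algebra ℂ K] [Algebra ℂ L] [Algebra K L]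
    [IsScalarTower ℂ K L] [FiniteDimensional K L] {N : ℕ} (f : Fin N → L)
    (hf : IntermediateField.adjoin K (Set.range f) = ⊤) :
    ∃ lam : Fin N → ℂ, IntermediateField.adjoin K {linc lam f} = ⊤ := by
  classical
  haveI : CharZero K := charZero_of_injective_algebraMap (algebraMap ℂ K).injective
  haveI : CharZero (AlgebraicClosure K) :=
    charZero_of_injective_algebraMap (algebraMap K (AlgebraicClosure K)).injective
  -- the polynomials
  let q : (L →ₐ[K] AlgebraicClosure K) → (L →ₐ[K] AlgebraicClosure K) →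
      Polynomial (AlgebraicClosure K) := fun σ τ =>
    ∑ b : Fin N, Polynomial.C (σ (f b) - τ (f b)) * Polynomial.X ^ (b : ℕ)
  have hq : ∀ σ τ, σ ≠ τ → q σ τ ≠ 0 := by
    intro σ τ hne h0
    apply hne
    have h1 : ∀ b, σ (f b) = τ (f b) := by
      intro b
      have h2 := congrArg (fun P => Polynomial.coeff P (b : ℕ)) h0
      simp only [q, Polynomial.finsetSum_coeff, Polynomial.coeff_C_mul, Polynomial.coeff_X_pow,
        Polynomial.coeff_zero] at h2
      rw [Finset.sum_eq_single b] at h2
      · rw [if_pos rfl, mul_one] at h2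
        exact sub_eq_zero.1 h2
      · intro c _ hc
        rw [if_neg (fun h => hc (Fin.ext h.symm)), mul_zero]
      · intro h
        exact absurd (Finset.mem_univ _) h
    have h3 : IntermediateField.adjoin K (Set.range f) ≤
        (AlgHom.equalizer σ τ).toIntermediateField (by
          intro x hx
          show σ x⁻¹ = τ x⁻¹
          rw [map_inv₀, map_inv₀]
          exact congrArg _ hx) := by
      rw [IntermediateField.adjoin_le_iff]
      rintro _ ⟨b, rfl⟩
      exact h1 b
    rw [hf] at h3
    ext x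
    exact h3 IntermediateField.mem_top
  obtain ⟨t, ht⟩ : ∃ t : ℕ, ∀ σ τ, σ ≠ τ → (q σ τ).eval (t : AlgebraicClosure K) ≠ 0 := by
    have h1 : (∏ p : {p : (L →ₐ[K] AlgebraicClosure K) × (L →ₐ[K] AlgebraicClosure K) // p.1 ≠ p.2},
        q p.1.1 p.1.2) ≠ 0 := Finset.prod_ne_zero_iff.2 fun p _ => hq _ _ p.2
    obtain ⟨_, ⟨t, rfl⟩, ht⟩ := Set.Infinite.exists_notMem_finite
      (s := Set.range fun t : ℕ => (t : AlgebraicClosure K))
      (Set.infinite_range_of_injective Nat.cast_injective)
      (Polynomial.rootSet_finite (∏ p : {p : (L →ₐ[K] AlgebraicClosure K) ×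
        (L →ₐ[K] AlgebraicClosure K) // p.1 ≠ p.2}, q p.1.1 p.1.2) (AlgebraicClosure K))
    refine ⟨t, fun σ τ hne h0 => ht ?_⟩
    rw [Polynomial.mem_rootSet]
    refine ⟨h1, ?_⟩
    rw [map_prod, Finset.prod_eq_zero (Finset.mem_univ ⟨(σ, τ), hne⟩)]
    rw [Polynomial.coe_aeval_eq_eval]
    exact h0
  refine ⟨fun b => (t : ℂ) ^ (b : ℕ), ?_⟩
  rw [Field.primitive_element_iff_algHom_eq_of_eval' K (AlgebraicClosure K)
    (fun x => IsAlgClosed.splits _)]
  intro σ τ hστ
  by_contra hne
  apply ht σ τ hne
  have h4 : ∀ ρ : L →ₐ[K] AlgebraicClosure K, ρ (linc (fun b : Fin N => (t : ℂ) ^ (b : ℕ)) f) =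
      ∑ b : Fin N, (t : AlgebraicClosure K) ^ (b : ℕ) * ρ (f b) := by
    intro ρ
    unfold linc
    rw [map_sum]
    refine Finset.sum_congr rfl fun b _ => ?_
    rw [Algebra.smul_def, map_mul, IsScalarTower.algebraMap_apply ℂ K L, AlgHom.commutes, map_pow,
      map_natCast, map_pow, map_natCast]
  simp only [q, Polynomial.eval_finsetSum, Polynomial.eval_mul, Polynomial.eval_C,
    Polynomial.eval_pow, Polynomial.eval_X]
  simp only [h4] at hστ
  rw [← sub_eq_zero, ← Finset.sum_sub_distrib] at hστ
  rw [← hστ]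
  exact Finset.sum_congr rfl fun b _ => by ring

end Pool.Agent.H24V
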