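import Pool.Agent.Lib.H24V.B5
import Pool.Agent.Lib.H24V.A3

set_option autoImplicit false

/-!
H24V, module B, part 6: the fibres.
-/

namespace Pool.Agent.H24V

/-- The coefficients of a polynomial are regular at a generic point. -/
theorem b6_gen_CoP (q : Polynomial KK) : Gen fun z => (plK z).CoP q := by
  have h1 : Gen fun z => ∀ i : Fin (q.natDegree + 1), q.coeff i ∈ (plK z).O :=
    Gen.all fun i => gen_mem _
  refine h1.mono fun z hz i => ?_
  by_cases hi : i < q.natDegree + 1
  · exact hz ⟨i, hi⟩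
  · rw [Polynomial.coeff_eq_zero_of_natDegree_lt (by omega)]
    exact zero_mem _

section

variable {L : Type} [Field L] [Algebra ℂ L] [Algebra KK L] [IsScalarTower ℂ KK L]
  [FiniteDimensional KK L]

omit [Algebra ℂ L] [IsScalarTower ℂ KK L] in
/-- Every element is a polynomial in the primitive element. -/
theorem b6_poly {θ : L} (hθ : IntermediateField.adjoin KK {θ} = ⊤) (x : L) :
    ∃ q : Polynomial KK, Polynomial.aeval θ q = x := by
  have h1 : x ∈ (IntermediateField.adjoin KK {θ}).toSubalgebra := by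
    rw [hθ]
    exact IntermediateField.mem_top
  rw [IntermediateField.adjoin_simple_toSubalgebra_of_isAlgebraic
    (IsIntegral.of_finite KK θ).isAlgebraic, Algebra.adjoin_singleton_eq_range_aeval] at h1
  exact h1

variable {D : Derivation ℂ L L} (hD : ∀ x, D (algebraMap KK L x) = algebraMap KK L (DK x))

include hD

/-- The places of `L` above a generic point `z`. -/
theorem b6_fiber {θ : L} (hθ : IntermediateField.adjoin KK {θ} = ⊤) (s : Finset L)
    (sK : Finset KK) :
    Gen fun z => ∃ p : Fin (Module.finrank KK L) → Place L D,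
      (∀ i, ∀ x ∈ s, x ∈ (p i).O) ∧ (∀ x ∈ sK, x ∈ (plK z).O) ∧
      (Function.Injective fun i => (p i).val θ) ∧
      (plK z).rdP (minpoly KK θ) = ∏ i, (Polynomial.X - Polynomial.C ((p i).val θ)) ∧
      (∀ x ∈ (plK z).O, ∀ i, algebraMap KK L x ∈ (p i).O ∧
        (p i).val (algebraMap KK L x) = (plK z).val x) ∧
      ∀ x, (∀ i, x ∈ (p i).O) → Algebra.norm KK x ∈ (plK z).O ∧
        (plK z).val (Algebra.norm KK x) = ∏ i, (p i).val x := by
  classical
  haveI : CharZero KK := charZero_of_injective_algebraMap (algebraMap ℂ KK).injective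
  have hint : IsIntegral KK θ := IsIntegral.of_finite KK θ
  have hsep : (minpoly KK θ).Separable := Algebra.IsSeparable.isSeparable KK θ
  obtain ⟨a, b, hab⟩ := hsep
  obtain ⟨q0, hq0⟩ := b6_poly hθ (D θ)
  choose qs hqs using fun x : s => b6_poly hθ x.1
  have hfin : (minpoly KK θ).natDegree = Module.finrank KK L :=
    (Field.primitive_element_iff_minpoly_natDegree_eq KK θ).1 hθ
  have hgen := ((((b6_gen_CoP (minpoly KK θ)).and (b6_gen_CoP a)).and (b6_gen_CoP b)).and
    (b6_gen_CoP q0)).and ((Gen.all fun x : s => b6_gen_CoP (qs x)).and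
      (Gen.all fun x : sK => gen_mem x.1))
  refine hgen.mono fun z hz => ?_
  obtain ⟨⟨⟨⟨hQ, ha⟩, hb⟩, h0⟩, hs, hK⟩ := hz
  obtain ⟨hm, hd⟩ := b5_rdP_monic (plK z) (minpoly.monic hint) hQ
  have hsep' : ((plK z).rdP (minpoly KK θ)).Separable := by
    refine ⟨(plK z).rdP a, (plK z).rdP b, ?_⟩
    rw [← b4_rdP_derivative _ hQ, ← b4_rdP_mul _ ha hQ,
      ← b4_rdP_mul _ hb (b4_CoP_derivative _ hQ),
      ← b4_rdP_add _ (b4_CoP_mul _ ha hQ) (b4_CoP_mul _ hb (b4_CoP_derivative _ hQ)), hab]
    ext i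
    rw [Place.coeff_rdP, Polynomial.coeff_one, Polynomial.coeff_one]
    split_ifs
    · exact Place.val_one _
    · exact Place.val_zero _
  have hnd : ((plK z).rdP (minpoly KK θ)).roots.Nodup := Polynomial.nodup_roots hsep'
  have hspl : ((plK z).rdP (minpoly KK θ)).Splits := IsAlgClosed.splits _
  have hcard : ((plK z).rdP (minpoly KK θ)).roots.toFinset.card = Module.finrank KK L := by
    rw [Multiset.toFinset_card_of_nodup hnd, ← hfin, ← hd]
    exact hspl.natDegree_eq_card_roots.symm
  let e := Finset.equivFinOfCardEq hcard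
  have hprod : ∀ {M : Type} [CommMonoid M] (F : ℂ → M),
      (((plK z).rdP (minpoly KK θ)).roots.map F).prod = ∏ i, F (e.symm i).1 := by
    intro M _ F
    rw [Equiv.prod_comp e.symm (fun x : ((plK z).rdP (minpoly KK θ)).roots.toFinset => F x.1),
      Finset.prod_coe_sort ((plK z).rdP (minpoly KK θ)).roots.toFinset F,
      Finset.prod_eq_multiset_prod, Multiset.toFinset_val, hnd.dedup]
  have hroot : ∀ i, ((plK z).rdP (minpoly KK θ)).eval (e.symm i).1 = 0 := fun i =>
    Polynomial.isRoot_of_mem_roots (Multiset.mem_toFinset.1 (e.symm i).2)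
  choose p hpO hpv using fun i => b4_place (plK z) hD hint hQ h0 hq0.symm (hroot i)
  have hX : (plK z).CoP Polynomial.X := fun i => by
    rw [Polynomial.coeff_X]
    split_ifs
    · exact one_mem _
    · exact zero_mem _
  have hθv : ∀ i, (p i).val θ = (e.symm i).1 := by
    intro i
    have h1 := hpv i Polynomial.X hX
    have h2 : (plK z).rdP Polynomial.X = Polynomial.X := by
      ext j
      rw [Place.coeff_rdP, Polynomial.coeff_X, Polynomial.coeff_X]
      split_ifs
      · exact Place.val_one _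
      · exact Place.val_zero _
    rw [Polynomial.aeval_X, h2, Polynomial.eval_X] at h1
    exact h1
  refine ⟨p, fun i x hx => ?_, fun x hx => hK ⟨x, hx⟩, fun i j hij => ?_, ?_, fun x hx i => ?_,
    fun x hx => ?_⟩
  · exact (hpO i x).2 ⟨qs ⟨x, hx⟩, hs ⟨x, hx⟩, hqs ⟨x, hx⟩⟩
  · simp only [hθv] at hij
    exact e.symm.injective (Subtype.ext hij)
  · have h1 := hspl.eq_prod_roots_of_monic hm
    rw [hprod] at h1
    simp only [hθv]
    exact h1
  · have hC : (plK z).CoP (Polynomial.C x) := fun j => by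
      rw [Polynomial.coeff_C]
      split_ifs
      · exact hx
      · exact zero_mem _
    have h2 : (plK z).rdP (Polynomial.C x) = Polynomial.C ((plK z).val x) := by
      ext j
      rw [Place.coeff_rdP, Polynomial.coeff_C, Polynomial.coeff_C]
      split_ifs
      · rfl
      · exact Place.val_zero _
    refine ⟨(hpO i _).2 ⟨Polynomial.C x, hC, Polynomial.aeval_C _ _⟩, ?_⟩
    have h1 := hpv i (Polynomial.C x) hC
    rw [Polynomial.aeval_C, h2, Polynomial.eval_C] at h1
    exact h1
  · have hpos : 0 < Module.finrank KK L := Module.finrank_pos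
    obtain ⟨q, hq, rfl⟩ := (hpO ⟨0, hpos⟩ x).1 (hx _)
    obtain ⟨h1, h2⟩ := b5_norm (plK z) hθ hQ hq
    refine ⟨h1, ?_⟩
    rw [h2, hprod]
    exact Finset.prod_congr rfl fun i _ => (hpv i q hq).symm

/-- Generic places. -/
theorem b6_gp (s : Finset L) :
    ∃ p : Place L D, (∀ x ∈ s, x ∈ p.O) ∧ ∀ x ∈ s, x ≠ 0 → p.val x ≠ 0 := by
  classical
  haveI : CharZero KK := charZero_of_injective_algebraMap (algebraMap ℂ KK).injective
  obtain ⟨θ, hθ⟩ := Field.exists_primitive_element KK L
  obtain ⟨z, p, hp, -⟩ := (b6_fiber hD hθ (s ∪ s.image fun x => x⁻¹) ∅).exists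
  have hpos : 0 < Module.finrank KK L := Module.finrank_pos
  refine ⟨p ⟨0, hpos⟩, fun x hx => hp _ x (Finset.mem_union_left _ hx), fun x hx hx0 h0 => ?_⟩
  have h1 := (p ⟨0, hpos⟩).val_mul (hp _ x (Finset.mem_union_left _ hx))
    (hp _ x⁻¹ (Finset.mem_union_right _ (Finset.mem_image_of_mem _ hx)))
  rw [mul_inv_cancel₀ hx0, (p ⟨0, hpos⟩).val_one, h0, zero_mul] at h1
  exact one_ne_zero h1

end

end Pool.Agent.H24V
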