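import Pool.Agent.Lib.H24V.A3
import Pool.Agent.Lib.H24V.A5
import Pool.Agent.Lib.H24V.B1
import Pool.Agent.Lib.H24V.B2
import Pool.Agent.Lib.H24V.B6

set_option autoImplicit false

/-!
H24V, module B (interface): finite extensions of the field of the meromorphic functions.
-/

open MvPolynomial

namespace Pool.Agent.H24V

/-- The norm form of the point `x`. -/
theorem norm_form {K L : Type} [Field K] [Field L] [Algebra K L] [FiniteDimensional K L] {n : ℕ}
    (x : Fin n → L) :
    ∃ G : MvPolynomial (Fin n) K, G.IsHomogeneous (Module.finrank K L) ∧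
      (∀ v : Fin n → K, eval v G = Algebra.norm K (∑ a, v a • x a)) ∧
      ∃ H1 : MvPolynomial (Fin n) L, map (algebraMap K L) G = lf x * H1 :=
  b1_norm_form x

/-- A primitive element which is a linear combination with complex coefficients. -/
theorem exists_prim {K L : Type} [Field K] [Field L] [Algebra ℂ K] [Algebra ℂ L] [Algebra K L]
    [IsScalarTower ℂ K L] [FiniteDimensional K L] {N : ℕ} (f : Fin N → L)
    (hf : IntermediateField.adjoin K (Set.range f) = ⊤) :
    ∃ lam : Fin N → ℂ, IntermediateField.adjoin K {linc lam f} = ⊤ :=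
  b2_exists_prim f hf

section

variable (L : Type) [Field L] [Algebra ℂ L] [Algebra KK L] [IsScalarTower ℂ KK L]
  [FiniteDimensional KK L]

/-- The derivation extends to finite extensions. -/
theorem exists_DL : ∃ D : Derivation ℂ L L,
    ∀ x, D (algebraMap KK L x) = algebraMap KK L (DK x) :=
  b3_ext DK

variable {L} {D : Derivation ℂ L L} (hD : ∀ x, D (algebraMap KK L x) = algebraMap KK L (DK x))

include hD

/-- The places of `L` above a generic point `z`. -/
theorem fiber {θ : L} (hθ : IntermediateField.adjoin KK {θ} = ⊤) (s : Finset L) (sK : Finset KK) :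
    Gen fun z => ∃ p : Fin (Module.finrank KK L) → Place L D,
      (∀ i, ∀ x ∈ s, x ∈ (p i).O) ∧ (∀ x ∈ sK, x ∈ (plK z).O) ∧
      (Function.Injective fun i => (p i).val θ) ∧
      (plK z).rdP (minpoly KK θ) = ∏ i, (Polynomial.X - Polynomial.C ((p i).val θ)) ∧
      (∀ x ∈ (plK z).O, ∀ i, algebraMap KK L x ∈ (p i).O ∧
        (p i).val (algebraMap KK L x) = (plK z).val x) ∧
      ∀ x, (∀ i, x ∈ (p i).O) → Algebra.norm KK x ∈ (plK z).O ∧
        (plK z).val (Algebra.norm KK x) = ∏ i, (p i).val x :=
  b6_fiber hD hθ s sK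

/-- Generic places (from `fiber`, for `s ∪ s⁻¹`). -/
theorem gp_of (s : Finset L) :
    ∃ p : Place L D, (∀ x ∈ s, x ∈ p.O) ∧ ∀ x ∈ s, x ≠ 0 → p.val x ≠ 0 :=
  b6_gp hD s

/-- The constants (the coefficients of the minimal polynomial are constants, `DK_const`). -/
theorem const_of (x : L) (hx : D x = 0) : ∃ t : ℂ, x = algebraMap ℂ L t :=
  b3_const hD (fun _ h => DK_const h) x hx

end

end Pool.Agent.H24V
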