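import Mathlib

set_option autoImplicit false

/-!
H24V, module B, part 3: extension of derivations, constants.
-/

namespace Pool.Agent.H24V

section

variable {K L : Type} [Field K] [Field L] [Algebra ℂ K] [Algebra ℂ L] [Algebra K L]
  [IsScalarTower ℂ K L] [FiniteDimensional K L]

/-- A derivation extends to finite extensions. -/
theorem b3_ext (d : Derivation ℂ K K) :
    ∃ D : Derivation ℂ L L, ∀ x, D (algebraMap K L x) = algebraMap K L (d x) := by
  haveI : CharZero K := charZero_of_injective_algebraMap (algebraMap ℂ K).injective
  letI : Differential K := ⟨d.restrictScalars ℤ⟩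
  letI : Differential L := Differential.differentialFiniteDimensional K L
  haveI : DifferentialAlgebra K L := Differential.differentialAlgebraFiniteDimensional
  let e : Derivation ℤ L L := Differential.deriv
  have h1 : ∀ x : K, e (algebraMap K L x) = algebraMap K L (d x) := fun x =>
    DifferentialAlgebra.deriv_algebraMap x
  refine ⟨{ toFun := e, map_add' := map_add e, map_smul' := fun t x => ?_,
            map_one_eq_zero' := e.map_one_eq_zero, leibniz' := e.leibniz }, h1⟩
  show e (t • x) = t • e x
  rw [Algebra.smul_def, Derivation.leibniz, IsScalarTower.algebraMap_apply ℂ K L, h1,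
    Derivation.map_algebraMap, map_zero, smul_zero, add_zero, smul_eq_mul,
    ← IsScalarTower.algebraMap_apply ℂ K L, Algebra.smul_def]

/-- The derivation of the coefficients of a polynomial. -/
noncomputable def b3_dP (d : Derivation ℂ K K) (q : Polynomial K) : Polynomial K :=
  ∑ i ∈ Finset.range (q.natDegree + 1), Polynomial.monomial i (d (q.coeff i))

omit [FiniteDimensional K L] in
theorem b3_coeff_dP (d : Derivation ℂ K K) (q : Polynomial K) (i : ℕ) :
    (b3_dP d q).coeff i = d (q.coeff i) := by
  unfold b3_dP
  rw [Polynomial.finsetSum_coeff]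
  simp only [Polynomial.coeff_monomial]
  rw [Finset.sum_ite_eq']
  split_ifs with h
  · rfl
  · rw [Finset.mem_range, not_lt] at h
    rw [Polynomial.coeff_eq_zero_of_natDegree_lt (by omega), map_zero]

omit [FiniteDimensional K L] in
/-- The derivation of the value of a polynomial. -/
theorem b3_D_aeval {d : Derivation ℂ K K} {D : Derivation ℂ L L}
    (hD : ∀ x, D (algebraMap K L x) = algebraMap K L (d x)) (x : L) (q : Polynomial K) :
    D (Polynomial.aeval x q) = Polynomial.aeval x (b3_dP d q) +
      Polynomial.aeval x (Polynomial.derivative q) * D x := by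
  have hadd : ∀ p q : Polynomial K, b3_dP d (p + q) = b3_dP d p + b3_dP d q := by
    intro p q
    ext i
    simp only [b3_coeff_dP, Polynomial.coeff_add, map_add]
  induction q using Polynomial.induction_on' with
  | add p q hp hq =>
    rw [map_add, map_add, hp, hq, hadd, map_add, map_add, map_add]
    ring
  | monomial n a =>
    have h1 : b3_dP d (Polynomial.monomial n a) = Polynomial.monomial n (d a) := by
      ext i
      rw [b3_coeff_dP, Polynomial.coeff_monomial, Polynomial.coeff_monomial]
      split_ifs
      · rfl
      · exact map_zero d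
    rw [h1, Polynomial.aeval_monomial, Polynomial.aeval_monomial, Polynomial.derivative_monomial,
      Polynomial.aeval_monomial, Derivation.leibniz, Derivation.leibniz_pow, hD, map_mul,
      map_natCast]
    simp only [smul_eq_mul, nsmul_eq_mul]
    ring

/-- The constants of a finite extension, if the constants of the base are the complex numbers: the minimal
polynomial has constant coefficients. -/
theorem b3_const {d : Derivation ℂ K K} {D : Derivation ℂ L L}
    (hD : ∀ x, D (algebraMap K L x) = algebraMap K L (d x))
    (hd : ∀ x, d x = 0 → ∃ t : ℂ, x = algebraMap ℂ K t) (x : L) (hx : D x = 0) :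
    ∃ t : ℂ, x = algebraMap ℂ L t := by
  have hint : IsIntegral K x := IsIntegral.of_finite K x
  have hm : (minpoly K x).Monic := minpoly.monic hint
  -- the derived polynomial vanishes
  have h1 : b3_dP d (minpoly K x) = 0 := by
    by_contra hne
    have h2 : Polynomial.aeval x (b3_dP d (minpoly K x)) = 0 := by
      have h3 := b3_D_aeval hD x (minpoly K x)
      rw [minpoly.aeval, map_zero, hx, mul_zero, add_zero] at h3
      exact h3.symm
    have h4 := minpoly.degree_le_of_ne_zero K x hne h2
    have h5 : (b3_dP d (minpoly K x)).degree < (minpoly K x).natDegree := by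
      rw [Polynomial.degree_lt_iff_coeff_zero]
      intro i hi
      rw [b3_coeff_dP]
      rcases hi.lt_or_eq with h6 | h6
      · rw [Polynomial.coeff_eq_zero_of_natDegree_lt h6, map_zero]
      · rw [← h6, hm.coeff_natDegree, Derivation.map_one_eq_zero]
    rw [Polynomial.degree_eq_natDegree hm.ne_zero] at h4
    exact absurd h4 (not_le.2 h5)
  have h2 : ∀ i, ∃ t : ℂ, (minpoly K x).coeff i = algebraMap ℂ K t := fun i => hd _ (by
    rw [← b3_coeff_dP, h1, Polynomial.coeff_zero])
  choose t ht using h2
  let q : Polynomial ℂ := ∑ i ∈ Finset.range ((minpoly K x).natDegree + 1), Polynomial.monomial i (t i)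
  have hq : q.map (algebraMap ℂ K) = minpoly K x := by
    ext i
    rw [Polynomial.coeff_map]
    simp only [q, Polynomial.finsetSum_coeff, Polynomial.coeff_monomial]
    rw [Finset.sum_ite_eq']
    split_ifs with h
    · exact (ht i).symm
    · rw [Finset.mem_range, not_lt] at h
      rw [Polynomial.coeff_eq_zero_of_natDegree_lt (by omega), map_zero]
  have hdeg : q.degree ≠ 0 := by
    rw [← Polynomial.degree_map_eq_of_injective (algebraMap ℂ K).injective, hq]
    exact (minpoly.degree_pos hint).ne'
  obtain ⟨r, hr⟩ := IsAlgClosed.exists_root q hdeg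
  have hroot : (minpoly K x).IsRoot (algebraMap ℂ K r) := by
    rw [← hq, Polynomial.IsRoot.def, Polynomial.eval_map_algebraMap, Polynomial.aeval_algebraMap_apply,
      Polynomial.coe_aeval_eq_eval, hr, map_zero]
  have hass := (Polynomial.irreducible_X_sub_C (algebraMap ℂ K r)).associated_of_dvd
    (minpoly.irreducible hint) (Polynomial.dvd_iff_isRoot.2 hroot)
  have heq := Polynomial.eq_of_monic_of_associated (Polynomial.monic_X_sub_C _) hm hass
  refine ⟨r, ?_⟩
  have h7 := minpoly.aeval K x
  rw [← heq, map_sub, Polynomial.aeval_X, Polynomial.aeval_C, sub_eq_zero] at h7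
  rw [h7, ← IsScalarTower.algebraMap_apply]

end

end Pool.Agent.H24V
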