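import Pool.Agent.Lib.H24V.D2
import Pool.Agent.Lib.H24V.B3

set_option autoImplicit false

/-!
H24V, module B, part 4: the places above a place, one for each root of the reduction of the minimal polynomial.
-/

namespace Pool.Agent.H24V

section

variable {K L : Type} [Field K] [Field L] [Algebra ℂ K] [Algebra ℂ L] [Algebra K L]
  [IsScalarTower ℂ K L] {d : Derivation ℂ K K} (P : Place K d)

theorem b4_CoP_map (q : Polynomial P.O) : P.CoP (q.map P.O.val.toRingHom) := fun i => by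
  rw [Polynomial.coeff_map]
  exact (q.coeff i).2

theorem b4_rdP_map (q : Polynomial P.O) :
    P.rdP (q.map P.O.val.toRingHom) = q.map P.hom.toRingHom := by
  ext i
  rw [Polynomial.coeff_map, P.coeff_rdP, Polynomial.coeff_map]
  exact P.val_eq (q.coeff i).2

theorem b4_lift {q : Polynomial K} (hq : P.CoP q) :
    ∃ q' : Polynomial P.O, q'.map P.O.val.toRingHom = q := by
  have h1 : q ∈ Polynomial.lifts P.O.val.toRingHom :=
    (Polynomial.lifts_iff_coeff_lifts q).2 fun i => ⟨⟨_, hq i⟩, rfl⟩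
  exact (Polynomial.mem_lifts q).1 h1

theorem b4_CoP_add {q r : Polynomial K} (hq : P.CoP q) (hr : P.CoP r) : P.CoP (q + r) := fun i => by
  rw [Polynomial.coeff_add]
  exact add_mem (hq i) (hr i)

theorem b4_CoP_mul {q r : Polynomial K} (hq : P.CoP q) (hr : P.CoP r) : P.CoP (q * r) := by
  obtain ⟨q', rfl⟩ := b4_lift P hq
  obtain ⟨r', rfl⟩ := b4_lift P hr
  rw [← Polynomial.map_mul]
  exact b4_CoP_map P _

theorem b4_rdP_mul {q r : Polynomial K} (hq : P.CoP q) (hr : P.CoP r) :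
    P.rdP (q * r) = P.rdP q * P.rdP r := by
  obtain ⟨q', rfl⟩ := b4_lift P hq
  obtain ⟨r', rfl⟩ := b4_lift P hr
  rw [← Polynomial.map_mul, b4_rdP_map, b4_rdP_map, b4_rdP_map, Polynomial.map_mul]

theorem b4_rdP_add {q r : Polynomial K} (hq : P.CoP q) (hr : P.CoP r) :
    P.rdP (q + r) = P.rdP q + P.rdP r := by
  obtain ⟨q', rfl⟩ := b4_lift P hq
  obtain ⟨r', rfl⟩ := b4_lift P hr
  rw [← Polynomial.map_add, b4_rdP_map, b4_rdP_map, b4_rdP_map, Polynomial.map_add]

theorem b4_CoP_derivative {q : Polynomial K} (hq : P.CoP q) : P.CoP (Polynomial.derivative q) := by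
  obtain ⟨q', rfl⟩ := b4_lift P hq
  rw [Polynomial.derivative_map]
  exact b4_CoP_map P _

theorem b4_rdP_derivative {q : Polynomial K} (hq : P.CoP q) :
    P.rdP (Polynomial.derivative q) = Polynomial.derivative (P.rdP q) := by
  obtain ⟨q', rfl⟩ := b4_lift P hq
  rw [Polynomial.derivative_map, b4_rdP_map, b4_rdP_map, Polynomial.derivative_map]

/-- The place above `P` given by a root of the reduction of the minimal polynomial. -/
theorem b4_place {D : Derivation ℂ L L} (hD : ∀ x, D (algebraMap K L x) = algebraMap K L (d x))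
    {θ : L} (hint : IsIntegral K θ) (hQ : P.CoP (minpoly K θ)) {q0 : Polynomial K}
    (hq0 : P.CoP q0) (hθ : D θ = Polynomial.aeval θ q0) {ρ : ℂ}
    (hρ : (P.rdP (minpoly K θ)).eval ρ = 0) :
    ∃ p : Place L D, (∀ x, x ∈ p.O ↔ ∃ q, P.CoP q ∧ Polynomial.aeval θ q = x) ∧
      ∀ q, P.CoP q → p.val (Polynomial.aeval θ q) = (P.rdP q).eval ρ := by
  let f : Polynomial P.O →ₐ[ℂ] L :=
    ((Polynomial.aeval (R := K) θ).restrictScalars ℂ).comp (Polynomial.mapAlgHom P.O.val)
  let g : Polynomial P.O →ₐ[ℂ] ℂ := (Polynomial.aeval ρ).comp (Polynomial.mapAlgHom P.hom)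
  have hf : ∀ q : Polynomial P.O, f q = Polynomial.aeval θ (q.map P.O.val.toRingHom) := fun _ => rfl
  have hg : ∀ q : Polynomial P.O, g q = (P.rdP (q.map P.O.val.toRingHom)).eval ρ := fun q => by
    rw [b4_rdP_map]
    rfl
  have hmem : ∀ x, x ∈ f.range ↔ ∃ q, P.CoP q ∧ Polynomial.aeval θ q = x := by
    intro x
    constructor
    · rintro ⟨q, rfl⟩
      exact ⟨_, b4_CoP_map P q, rfl⟩
    · rintro ⟨q, hq, rfl⟩
      obtain ⟨q', rfl⟩ := b4_lift P hq
      exact ⟨q', rfl⟩
  have hker : RingHom.ker f.rangeRestrict.toRingHom ≤ RingHom.ker g.toRingHom := by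
    intro q hq
    rw [RingHom.mem_ker] at hq ⊢
    have h1 : Polynomial.aeval θ (q.map P.O.val.toRingHom) = 0 := congrArg Subtype.val hq
    obtain ⟨Q', hQ'⟩ := b4_lift P hQ
    have h2 : Q'.Monic := Polynomial.monic_of_injective (f := P.O.val.toRingHom)
      Subtype.val_injective (by rw [hQ']; exact minpoly.monic hint)
    have h3 := minpoly.dvd K θ h1
    rw [← hQ', Polynomial.map_dvd_map _ Subtype.val_injective h2] at h3
    obtain ⟨r, rfl⟩ := h3
    show g (Q' * r) = 0
    rw [map_mul, hg, hQ', hρ, zero_mul]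
  let h : f.range →ₐ[ℂ] ℂ :=
    AlgHom.liftOfSurjective f.rangeRestrict f.rangeRestrict_surjective g hker
  have hh : ∀ q, h (f.rangeRestrict q) = g q := fun q =>
    AlgHom.liftOfSurjective_apply f.rangeRestrict f.rangeRestrict_surjective g hker q
  refine ⟨⟨f.range, ?_, h⟩, hmem, ?_⟩
  · intro x hx
    obtain ⟨q, hq, rfl⟩ := (hmem x).1 hx
    rw [hmem]
    refine ⟨b3_dP d q + Polynomial.derivative q * q0, ?_, ?_⟩
    · refine b4_CoP_add P (fun i => ?_) (b4_CoP_mul P (b4_CoP_derivative P hq) hq0)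
      rw [b3_coeff_dP]
      exact P.stable _ (hq i)
    · rw [b3_D_aeval hD, map_add, map_mul, hθ]
  · intro q hq
    obtain ⟨q', rfl⟩ := b4_lift P hq
    have h5 : Polynomial.aeval θ (q'.map P.O.val.toRingHom) ∈ f.range := ⟨q', rfl⟩
    rw [← hg, ← hh]
    exact Place.val_eq _ h5

end

end Pool.Agent.H24V
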