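import Pool.Agent.Lib.H24V.B4

set_option autoImplicit false

/-!
H24V, module B, part 5: norms and reduction (the norm is a resultant).
-/

namespace Pool.Agent.H24V

/-- The norm is a resultant. -/
theorem b5_norm_resultant {K L : Type} [Field K] [Field L] [CharZero K] [Algebra K L]
    [FiniteDimensional K L] {θ : L} (hθ : IntermediateField.adjoin K {θ} = ⊤) (q : Polynomial K) :
    Algebra.norm K (Polynomial.aeval θ q) = (minpoly K θ).resultant q := by
  classical
  have hint : IsIntegral K θ := IsIntegral.of_finite K θ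
  apply (algebraMap K (AlgebraicClosure K)).injective
  have hs : ((minpoly K θ).map (algebraMap K (AlgebraicClosure K))).Splits := IsAlgClosed.splits _
  have hm : ((minpoly K θ).map (algebraMap K (AlgebraicClosure K))).Monic :=
    (minpoly.monic hint).map _
  rw [Algebra.norm_eq_prod_embeddings]
  have h1 := Polynomial.resultant_eq_prod_eval ((minpoly K θ).map (algebraMap K (AlgebraicClosure K)))
    (q.map (algebraMap K (AlgebraicClosure K))) q.natDegree Polynomial.natDegree_map_le hs
  rw [Polynomial.natDegree_map, Polynomial.resultant_map_map, hm.leadingCoeff, one_pow,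
    one_mul] at h1
  rw [h1]
  have hsep : (minpoly K θ).Separable := Algebra.IsSeparable.isSeparable K θ
  have hnd : ((minpoly K θ).map (algebraMap K (AlgebraicClosure K))).roots.Nodup :=
    Polynomial.nodup_roots hsep.map
  have hinj := (Field.primitive_element_iff_algHom_eq_of_eval' K (AlgebraicClosure K)
    (fun x => IsAlgClosed.splits _) θ).1 hθ
  have hrange := Algebra.IsAlgebraic.range_eval_eq_rootSet_minpoly_of_splits
    (AlgebraicClosure K) (fun x : L => IsAlgClosed.splits _) (F := K) θ
  have himg : Finset.univ.image (fun σ : L →ₐ[K] AlgebraicClosure K => σ θ) =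
      ((minpoly K θ).map (algebraMap K (AlgebraicClosure K))).roots.toFinset := by
    ext x
    rw [Multiset.mem_toFinset, Finset.mem_image]
    have h2 : x ∈ Set.range (fun σ : L →ₐ[K] AlgebraicClosure K => σ θ) ↔
        x ∈ (minpoly K θ).rootSet (AlgebraicClosure K) := by rw [hrange]
    rw [Polynomial.mem_rootSet, Polynomial.aeval_def, ← Polynomial.eval_map] at h2
    rw [Polynomial.mem_roots', Polynomial.IsRoot.def]
    constructor
    · rintro ⟨σ, -, h3⟩
      exact ⟨hm.ne_zero, (h2.1 ⟨σ, h3⟩).2⟩
    · rintro ⟨-, h3⟩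
      obtain ⟨σ, h4⟩ := h2.2 ⟨minpoly.ne_zero hint, h3⟩
      exact ⟨σ, Finset.mem_univ _, h4⟩
  have h3 : ∀ σ : L →ₐ[K] AlgebraicClosure K, σ (Polynomial.aeval θ q) =
      (q.map (algebraMap K (AlgebraicClosure K))).eval (σ θ) := by
    intro σ
    rw [← Polynomial.aeval_algHom_apply, Polynomial.aeval_def, ← Polynomial.eval_map]
  rw [Finset.prod_congr rfl fun σ _ => h3 σ]
  have h4 : ∏ σ : L →ₐ[K] AlgebraicClosure K,
      (q.map (algebraMap K (AlgebraicClosure K))).eval (σ θ) =
      ∏ x ∈ Finset.univ.image (fun σ : L →ₐ[K] AlgebraicClosure K => σ θ),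
        (q.map (algebraMap K (AlgebraicClosure K))).eval x := by
    rw [Finset.prod_image]
    intro σ _ τ _ h5
    exact hinj h5
  rw [h4, himg, Finset.prod_eq_multiset_prod, Multiset.toFinset_val, hnd.dedup]

section

variable {K L : Type} [Field K] [Field L] [Algebra ℂ K] [Algebra K L]
  {d : Derivation ℂ K K} (P : Place K d)

theorem b5_monic_lift {Q : Polynomial P.O} (h : (Q.map P.O.val.toRingHom).Monic) : Q.Monic :=
  Polynomial.monic_of_injective (f := P.O.val.toRingHom) Subtype.val_injective h

theorem b5_rdP_monic {Q : Polynomial K} (hm : Q.Monic) (hQ : P.CoP Q) :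
    (P.rdP Q).Monic ∧ (P.rdP Q).natDegree = Q.natDegree := by
  obtain ⟨Q', rfl⟩ := b4_lift P hQ
  have h1 := b5_monic_lift P hm
  rw [b4_rdP_map]
  exact ⟨h1.map _, by rw [h1.natDegree_map, h1.natDegree_map]⟩

/-- The norm and the reduction. -/
theorem b5_norm [FiniteDimensional K L] {θ : L} (hθ : IntermediateField.adjoin K {θ} = ⊤)
    (hQ : P.CoP (minpoly K θ)) {q : Polynomial K} (hq : P.CoP q) :
    Algebra.norm K (Polynomial.aeval θ q) ∈ P.O ∧
      P.val (Algebra.norm K (Polynomial.aeval θ q)) =
        ((P.rdP (minpoly K θ)).roots.map fun ρ => (P.rdP q).eval ρ).prod := by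
  haveI : CharZero K := charZero_of_injective_algebraMap (algebraMap ℂ K).injective
  have hint : IsIntegral K θ := IsIntegral.of_finite K θ
  obtain ⟨hm, hd⟩ := b5_rdP_monic P (minpoly.monic hint) hQ
  obtain ⟨Q', hQ'⟩ := b4_lift P hQ
  obtain ⟨q', rfl⟩ := b4_lift P hq
  rw [b5_norm_resultant hθ]
  have h1 : (minpoly K θ).resultant (q'.map P.O.val.toRingHom) =
      P.O.val.toRingHom (Q'.resultant q' (minpoly K θ).natDegree
        (q'.map P.O.val.toRingHom).natDegree) := by
    rw [← Polynomial.resultant_map_map, hQ']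
  rw [h1]
  refine ⟨(Q'.resultant q' _ _).2, ?_⟩
  have h2 : P.val (P.O.val.toRingHom (Q'.resultant q' (minpoly K θ).natDegree
      (q'.map P.O.val.toRingHom).natDegree)) =
      P.hom.toRingHom (Q'.resultant q' (minpoly K θ).natDegree
        (q'.map P.O.val.toRingHom).natDegree) := P.val_eq (Q'.resultant q' _ _).2
  have h3 : Q'.map P.hom.toRingHom = P.rdP (minpoly K θ) := by rw [← hQ', b4_rdP_map]
  rw [h2, ← Polynomial.resultant_map_map, h3, ← hd, Polynomial.resultant_eq_prod_eval _ _ _ ?_
    (IsAlgClosed.splits _), hm.leadingCoeff, one_pow, one_mul, b4_rdP_map]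
  rw [Polynomial.natDegree_map_eq_of_injective (f := P.O.val.toRingHom) Subtype.val_injective]
  exact Polynomial.natDegree_map_le

end

end Pool.Agent.H24V
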