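import Pool.Agent.Lib.H24V.C9

set_option autoImplicit false

/-!
H24V, module C: the estimate.
-/

open MvPolynomial

namespace Pool.Agent.H24V

open Pool.Agent.H89T Pool.Agent.H67T Pool.Agent.H53U Pool.Agent.H53V

theorem c0_sum_coeff_le {ι : Type} {s : Finset ι} {S : ℕ} {e : ι → Polynomial ℂ} {T H : ℝ}
    (hT : 0 ≤ T) (hdeg : ∀ α ∈ s, (e α).natDegree ≤ S) (hH : 0 ≤ H)
    (h : (∑ l ∈ Finset.range (S + 1), ∑ α ∈ s, ‖(e α).coeff l‖) * T ≤ H) (l : ℕ) :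
    (∑ α ∈ s, ‖(e α).coeff l‖) * T ≤ H := by
  by_cases hl : l ≤ S
  · refine le_trans (mul_le_mul_of_nonneg_right ?_ hT) h
    exact Finset.single_le_sum (f := fun l => ∑ α ∈ s, ‖(e α).coeff l‖)
      (fun _ _ => Finset.sum_nonneg fun _ _ => norm_nonneg _) (Finset.mem_range.2 (by omega))
  · rw [Finset.sum_eq_zero, zero_mul]
    · exact hH
    · intro α hα
      rw [Polynomial.coeff_eq_zero_of_natDegree_lt (lt_of_le_of_lt (hdeg α hα) (by omega)), norm_zero]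

/-- THE ESTIMATE (PROOF.md, section 4). -/
theorem est_of {L : Type} [Field L] [Algebra ℂ L] [Algebra KK L] [IsScalarTower ℂ KK L]
    [FiniteDimensional KK L] {D : Derivation ℂ L L}
    (hD : ∀ x, D (algebraMap KK L x) = algebraMap KK L (DK x))
    {N k M R s κ c S : ℕ} (hS : Module.finrank KK L = S) {F : Fin c → MvPolynomial (Fin (N + 1)) ℂ}
    {f : Fin N → L} {lam : Fin N → ℂ} (hlam : IntermediateField.adjoin KK {linc lam f} = ⊤)
    {l : Fin R → Fin (N + 1) → ℂ} {A : ℝ} {P Q : Fin R → MvPolynomial (JV N k) ℂ}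
    (hs : (4 * S - 3) * (R * M) + 1 ≤ s * κ) (hF : ∀ j, aeval (pt f) (F j) = 0)
    (hA : ∀ x : Fin (N + 1) → ℂ, (∀ j, eval x (F j) = 0) → ‖x‖ ≤ A * ‖x 0‖ ∨
      ∃ I : Finset (Fin R), I.card = κ ∧ ∀ i ∈ I, ‖x‖ ≤ A * ‖linc (l i) x‖)
    (hP : ∀ i, HasWt M (P i)) (hQ : ∀ i, HasWt M (Q i))
    (hrel : ∀ i, linc (l i) (pt f) ^ s * aeval (jetL D k f) (P i) = aeval (jetL D k f) (Q i))
    {G : MvPolynomial (Fin (N + 1)) KK} (hG : G.IsHomogeneous S)
    (hGn : ∀ v : Fin (N + 1) → KK, eval v G = Algebra.norm KK (∑ a, v a • pt f a))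
    {H1 : MvPolynomial (Fin (N + 1)) L} (hG1 : map (algebraMap KK L) G = lf (pt f) * H1) :
    Est k (XX D k M f lam P) (fun α : G.support => coeff α.1 G)
      (fun t : Fin (N * S + 1) => eval (fun a => algebraMap ℂ KK (mv N t a)) G) := by
  classical
  have hS1 : 1 ≤ S := by
    rw [← hS]
    exact Module.finrank_pos
  obtain ⟨c₁, hc₁, hgp₁⟩ := gp_lin N S
  obtain ⟨c₂, hc₂, hgp₂⟩ := gp_lin N (S * S)
  obtain ⟨Cs, hCs, hsheet⟩ := c6_sheet (κ := κ) (s := s) hP hQ l A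
  -- the constants
  obtain ⟨Γ, hΓ⟩ : ∃ Γ : ℝ, Γ = 1 + (∑ t : Fin (N * S + 1), ∑ a, ‖mv N t a‖) +
    ∑ t : Fin (N * (S * S) + 1), ∑ a, ‖mv N t a‖ := ⟨_, rfl⟩
  have hΓa : 0 ≤ ∑ t : Fin (N * S + 1), ∑ a, ‖mv N t a‖ :=
    Finset.sum_nonneg fun _ _ => Finset.sum_nonneg fun _ _ => norm_nonneg _
  have hΓb : 0 ≤ ∑ t : Fin (N * (S * S) + 1), ∑ a, ‖mv N t a‖ :=
    Finset.sum_nonneg fun _ _ => Finset.sum_nonneg fun _ _ => norm_nonneg _
  have hΓ1 : 1 ≤ Γ := by rw [hΓ]; linarith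
  have hΓu : ∀ t : Fin (N * S + 1), ∑ a, ‖mv N t a‖ ≤ Γ := by
    intro t
    have := Finset.single_le_sum (f := fun t : Fin (N * S + 1) => ∑ a, ‖mv N t a‖)
      (fun _ _ => Finset.sum_nonneg fun _ _ => norm_nonneg _) (Finset.mem_univ t)
    rw [hΓ]
    linarith
  have hΓv : ∀ t : Fin (N * (S * S) + 1), ∑ a, ‖mv N t a‖ ≤ Γ := by
    intro t
    have := Finset.single_le_sum (f := fun t : Fin (N * (S * S) + 1) => ∑ a, ‖mv N t a‖)
      (fun _ _ => Finset.sum_nonneg fun _ _ => norm_nonneg _) (Finset.mem_univ t)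
    rw [hΓ]
    linarith
  obtain ⟨nn, hnn⟩ : ∃ nn : ℝ, nn = (((N + 1 : ℕ) : ℝ)) ^ S := ⟨_, rfl⟩
  have hnn1 : 1 ≤ nn := by
    rw [hnn]
    exact one_le_pow₀ (by exact_mod_cast Nat.succ_pos N)
  obtain ⟨T, hT⟩ : ∃ T : ℝ, T = ((k : ℝ) + 1) + nn * (1 / c₁) ^ S := ⟨_, rfl⟩
  have hT0 : 0 ≤ T := by rw [hT]; positivity
  have hTk : (k : ℝ) + 1 ≤ T := by
    rw [hT]
    exact le_add_of_nonneg_right (by positivity)
  obtain ⟨EP, hEP⟩ : ∃ EP : Fin (N * S + 1) → Fin (N * (S * S) + 1) → ℝ, ∀ t t', EP t t' =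
    ∑ l ∈ Finset.range (S + 1), ∑ α ∈ G.support, ‖(eP (mv N t) (mv N t') α).coeff l‖ :=
    ⟨_, fun _ _ => rfl⟩
  obtain ⟨EB, hEB⟩ : ∃ EB : Fin (N * S + 1) → Fin (N * (S * S) + 1) → Fin (N + 1) → ℝ, ∀ t t' a, EB t t' a =
    ∑ l ∈ Finset.range (S + 1), ∑ α ∈ G.support, ‖(eB (mv N t) (mv N t') a α).coeff l‖ :=
    ⟨_, fun _ _ _ => rfl⟩
  have hEP0 : ∀ t t', 0 ≤ EP t t' := fun t t' => by
    rw [hEP]
    exact Finset.sum_nonneg fun _ _ => Finset.sum_nonneg fun _ _ => norm_nonneg _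
  have hEB0 : ∀ t t' a, 0 ≤ EB t t' a := fun t t' a => by
    rw [hEB]
    exact Finset.sum_nonneg fun _ _ => Finset.sum_nonneg fun _ _ => norm_nonneg _
  obtain ⟨H, hH⟩ : ∃ H : ℝ, H = 1 + (∑ t, ∑ t', EP t t') * T + (∑ t, ∑ t', ∑ a, EB t t' a) * T +
    Γ * (1 / c₁) + 1 / c₁ := ⟨_, rfl⟩
  have hH1 : 0 ≤ (∑ t, ∑ t', EP t t') * T :=
    mul_nonneg (Finset.sum_nonneg fun t _ => Finset.sum_nonneg fun t' _ => hEP0 t t') hT0
  have hH2 : 0 ≤ (∑ t, ∑ t', ∑ a, EB t t' a) * T :=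
    mul_nonneg (Finset.sum_nonneg fun t _ => Finset.sum_nonneg fun t' _ =>
      Finset.sum_nonneg fun a _ => hEB0 t t' a) hT0
  have hH3 : 0 ≤ Γ * (1 / c₁) := by positivity
  have hH4 : 0 ≤ 1 / c₁ := by positivity
  have hHH : 1 ≤ H := by rw [hH]; linarith
  have hHP : ∀ t t', EP t t' * T ≤ H := by
    intro t t'
    have h1 : EP t t' ≤ ∑ t, ∑ t', EP t t' :=
      (Finset.single_le_sum (f := fun t' => EP t t') (fun t' _ => hEP0 t t') (Finset.mem_univ t')).trans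
        (Finset.single_le_sum (f := fun t => ∑ t', EP t t')
          (fun t _ => Finset.sum_nonneg fun t' _ => hEP0 t t') (Finset.mem_univ t))
    have h2 := mul_le_mul_of_nonneg_right h1 hT0
    rw [hH]
    linarith
  have hHB : ∀ t t' a, EB t t' a * T ≤ H := by
    intro t t' a
    have h1 : EB t t' a ≤ ∑ t, ∑ t', ∑ a, EB t t' a :=
      ((Finset.single_le_sum (f := fun a => EB t t' a) (fun a _ => hEB0 t t' a) (Finset.mem_univ a)).trans
        (Finset.single_le_sum (f := fun t' => ∑ a, EB t t' a)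
          (fun t' _ => Finset.sum_nonneg fun a _ => hEB0 t t' a) (Finset.mem_univ t'))).trans
        (Finset.single_le_sum (f := fun t => ∑ t', ∑ a, EB t t' a)
          (fun t _ => Finset.sum_nonneg fun t' _ => Finset.sum_nonneg fun a _ => hEB0 t t' a)
          (Finset.mem_univ t))
    have h2 := mul_le_mul_of_nonneg_right h1 hT0
    rw [hH]
    linarith
  obtain ⟨K, hK1, hK⟩ := c8_jets hD N S hHH
  obtain ⟨Λ, hΛ⟩ : ∃ Λ : ℝ, Λ = ∑ b, ‖lam b‖ := ⟨_, rfl⟩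
  have hΛ0 : 0 ≤ Λ := by rw [hΛ]; exact Finset.sum_nonneg fun _ _ => norm_nonneg _
  obtain ⟨C₃, hC₃⟩ : ∃ C₃ : ℝ, C₃ = 1 + Λ * (Γ ^ 2 * (2 / c₁)) / c₂ := ⟨_, rfl⟩
  have hC₃1 : 1 ≤ C₃ := by
    rw [hC₃]
    exact le_add_of_nonneg_right (by positivity)
  obtain ⟨D₀, hD₀⟩ : ∃ D₀ : ℝ, D₀ = (1 + 2 * (Γ * (1 / c₁))) ^ S := ⟨_, rfl⟩
  have hD₀1 : 1 ≤ D₀ := by
    rw [hD₀]
    exact one_le_pow₀ (by linarith)
  obtain ⟨K₁, hK₁⟩ : ∃ K₁ : ℝ, K₁ = K * Γ := ⟨_, rfl⟩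
  have hK₁1 : 1 ≤ K₁ := by
    rw [hK₁]
    exact one_le_mul_of_one_le_of_one_le hK1 hΓ1
  obtain ⟨cd, hcd⟩ : ∃ cd : ℝ, cd = (Fintype.card G.support : ℝ) + 1 := ⟨_, rfl⟩
  have hcd1 : 1 ≤ cd := by
    rw [hcd]
    exact le_add_of_nonneg_left (Nat.cast_nonneg _)
  obtain ⟨Cf, hCf⟩ : ∃ Cf : ℝ, Cf = Cs ^ S * ((C₃ ^ (S - 1)) ^ 2 * D₀ ^ 2 * K₁) ^ (R * M * S) :=
    ⟨_, rfl⟩
  have hCf0 : 0 < Cf := by rw [hCf]; positivity
  refine ⟨Cf * (cd * nn), c₁ ^ S / (cd * nn), R * M * S, by positivity, by positivity, ?_⟩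
  -- the generic points
  have hfib := fiber hD hlam ((Finset.univ.image f) ∪
      (Finset.univ.image fun t : Fin (N * S + 1) => (linc (mv N t) (pt f))⁻¹))
    (((G.support.image fun α => coeff α G) ∪
      (Finset.univ.image fun t : Fin (N * S + 1) =>
        (eval (fun a => algebraMap ℂ KK (mv N t a)) G)⁻¹)) ∪
      ((minpoly KK (linc lam f)).support.image fun i => (minpoly KK (linc lam f)).coeff i))
  rw [hS] at hfib
  refine Gen.mono hfib ?_
  rintro z ⟨p, hps, hpK, hinj, hrd, htr, hnorm⟩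
  obtain ⟨pz, hpz⟩ : ∃ pz : Place KK DK, pz = plK z := ⟨_, rfl⟩
  rw [← hpz] at hpK hrd htr hnorm ⊢
  have hfO : ∀ i b, f b ∈ (p i).O := fun i b => hps i _ (Finset.mem_union_left _
    (Finset.mem_image_of_mem _ (Finset.mem_univ b)))
  have hUO : ∀ i (t : Fin (N * S + 1)), (linc (mv N t) (pt f))⁻¹ ∈ (p i).O := fun i t =>
    hps i _ (Finset.mem_union_right _ (Finset.mem_image_of_mem _ (Finset.mem_univ t)))
  have hGO : pz.CoM G := by
    intro α
    by_cases hα : α ∈ G.support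
    · exact hpK _ (Finset.mem_union_left _ (Finset.mem_union_left _ (Finset.mem_image_of_mem _ hα)))
    · rw [notMem_support_iff.1 hα]
      exact zero_mem _
  have hBO : ∀ t : Fin (N * S + 1), (eval (fun a => algebraMap ℂ KK (mv N t a)) G)⁻¹ ∈ pz.O := fun t =>
    hpK _ (Finset.mem_union_left _ (Finset.mem_union_right _ (Finset.mem_image_of_mem _ (Finset.mem_univ t))))
  have hQO : pz.CoP (minpoly KK (linc lam f)) := by
    intro i
    by_cases hi : i ∈ (minpoly KK (linc lam f)).support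
    · exact hpK _ (Finset.mem_union_right _ (Finset.mem_image_of_mem _ hi))
    · rw [Polynomial.notMem_support_iff.1 hi]
      exact zero_mem _
  have hxO : ∀ i a, pt f a ∈ (p i).O := fun i a => (p i).pt_mem (hfO i) a
  obtain ⟨X, hX⟩ : ∃ X : Fin S → Fin (N + 1) → ℂ, ∀ i a, X i a = (p i).val (pt f a) :=
    ⟨_, fun _ _ => rfl⟩
  have hXfun : ∀ i, X i = fun a => (p i).val (pt f a) := fun i => _root_.funext (hX i)
  have hX0 : ∀ i, X i 0 = 1 := fun i => by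
    rw [hX]
    exact (p i).val_one
  have hX1 : ∀ i, 1 ≤ ‖X i‖ := fun i => by
    have := norm_le_pi_norm (X i) 0
    rwa [hX0, norm_one] at this
  have hXF : ∀ i j, eval (X i) (F j) = 0 := by
    intro i j
    rw [hXfun, ← (p i).val_aeval (hxO i), hF]
    exact (p i).val_zero
  have hXlin : ∀ i (v : Fin (N + 1) → ℂ), (p i).val (linc v (pt f)) = linc v (X i) := by
    intro i v
    rw [(p i).val_linc v (hxO i), hXfun]
  have hN : ∀ v : Fin (N + 1) → ℂ,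
      pz.val (eval (fun a => algebraMap ℂ KK (v a)) G) = ∏ i, linc v (X i) := by
    intro v
    have h1 : ∑ a, (algebraMap ℂ KK (v a)) • pt f a = linc v (pt f) := by
      unfold linc
      exact Finset.sum_congr rfl fun a _ => algebraMap_smul KK (v a) (pt f a)
    rw [hGn, h1, (hnorm _ fun i => (p i).linc_mem v (hxO i)).2]
    exact Finset.prod_congr rfl fun i _ => hXlin i v
  have hrdM : pz.rdM G = ∏ i, lf (X i) := by
    refine MvPolynomial.funext fun v => ?_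
    rw [← c9_rdM hGO, hN, map_prod]
    exact Finset.prod_congr rfl fun i _ => (eval_lf v (X i)).symm
  have hcoeff : ∀ α, pz.val (coeff α G) = coeff α (∏ i, lf (X i)) := fun α => by
    rw [← pz.coeff_rdM, hrdM]
  obtain ⟨n, hn⟩ : ∃ n : Fin S → ℝ, ∀ i, n i = ‖X i‖ := ⟨_, fun _ => rfl⟩
  have hPi0 : 0 ≤ ∏ i, n i := Finset.prod_nonneg fun i _ => by rw [hn]; exact norm_nonneg _
  have hnle : ∀ α, ‖pz.val (coeff α G)‖ ≤ nn * ∏ i, n i := by
    intro α
    rw [hcoeff, hnn]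
    refine (c6_coeff X α).trans (le_of_eq ?_)
    congr 1
    exact Finset.prod_congr rfl fun i _ => (hn i).symm
  have hsumn : ∑ α : G.support, ‖pz.val (coeff α.1 G)‖ ≤ cd * nn * ∏ i, n i := by
    refine (Finset.sum_le_sum fun α _ => hnle α.1).trans ?_
    rw [Finset.sum_const, Finset.card_univ, nsmul_eq_mul, mul_assoc]
    refine mul_le_mul_of_nonneg_right ?_ (by positivity)
    rw [hcd]
    linarith
  obtain ⟨t, ht⟩ := hgp₁ X
  obtain ⟨u, hu⟩ : ∃ u, u = mv N t := ⟨_, rfl⟩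
  obtain ⟨b, hb⟩ : ∃ b, b = eval (fun a => algebraMap ℂ KK (mv N t a)) G := ⟨_, rfl⟩
  obtain ⟨U, hU⟩ : ∃ U : Fin S → ℂ, ∀ i, U i = linc u (X i) := ⟨_, fun _ => rfl⟩
  have hUlow : ∀ i, c₁ * ‖X i‖ ≤ ‖U i‖ := fun i => by rw [hU, hu]; exact ht i
  have hUpos : ∀ i, 0 < ‖U i‖ := fun i =>
    lt_of_lt_of_le (mul_pos hc₁ (lt_of_lt_of_le one_pos (hX1 i))) (hUlow i)
  have hUne : ∀ i, U i ≠ 0 := fun i => norm_pos_iff.1 (hUpos i)
  have hUup : ∀ i, ‖U i‖ ≤ Γ * ‖X i‖ := fun i => by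
    rw [hU, hu]
    exact (c6_linc_le _ _).trans (mul_le_mul_of_nonneg_right (hΓu t) (norm_nonneg _))
  have hbv : pz.val b = ∏ i, U i := by
    rw [hb, hN]
    exact Finset.prod_congr rfl fun i _ => by rw [hU, hu]
  have hbvne : pz.val b ≠ 0 := by
    rw [hbv]
    exact Finset.prod_ne_zero_iff.2 fun i _ => hUne i
  have hb0 : b ≠ 0 := fun h => hbvne (by rw [h, pz.val_zero])
  have hblow : c₁ ^ S * ∏ i, n i ≤ ‖pz.val b‖ := by
    rw [hbv, norm_prod]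
    calc c₁ ^ S * ∏ i, n i = ∏ i, (c₁ * ‖X i‖) := by
          rw [Finset.prod_mul_distrib, Finset.prod_const, Finset.card_univ, Fintype.card_fin]
          congr 1
          exact Finset.prod_congr rfl fun i _ => hn i
      _ ≤ ∏ i, ‖U i‖ := Finset.prod_le_prod (fun i _ => by positivity) fun i _ => hUlow i
  refine ⟨t, ?_, ?_, fun Ψ hΨ hΨn => ?_⟩
  · show eval (fun a => algebraMap ℂ KK (mv N t a)) G ≠ 0
    rw [← hb]
    exact hb0
  · show c₁ ^ S / (cd * nn) * ∑ α : G.support, ‖pz.val (coeff α.1 G)‖ ≤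
      ‖pz.val (eval (fun a => algebraMap ℂ KK (mv N t a)) G)‖
    rw [← hb]
    refine le_trans ?_ hblow
    calc c₁ ^ S / (cd * nn) * ∑ α : G.support, ‖pz.val (coeff α.1 G)‖
        ≤ c₁ ^ S / (cd * nn) * (cd * nn * ∏ i, n i) := mul_le_mul_of_nonneg_left hsumn (by positivity)
      _ = c₁ ^ S * ∏ i, n i := by field_simp
  -- the main estimate
  have hΨn' : ∀ α ∈ G.support, ∀ l ≤ k, ‖pz.val (DK^[l] (coeff α G / b))‖ ≤ Ψ := by
    intro α hα l hl
    have h1 := hΨn ⟨α, hα⟩ l hl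
    rw [hb]
    exact h1
  obtain ⟨gs, hgs⟩ : ∃ gs : Fin S → Fin (N + 1) → ℂ, ∀ i, gs i = (U i)⁻¹ • X i := ⟨_, fun _ => rfl⟩
  have hgs1 : ∀ i, linc u (gs i) = 1 := fun i => by
    rw [hgs, linc_smul', ← hU, inv_mul_cancel₀ (hUne i)]
  have hgsn : ∀ i, ‖gs i‖ ≤ 1 / c₁ := fun i => by
    rw [hgs, norm_smul, norm_inv, ← div_eq_inv_mul, div_le_div_iff₀ (hUpos i) hc₁]
    have := hUlow i
    linarith
  obtain ⟨t', ht'⟩ := hgp₂ fun e => gs (finProdFinEquiv.symm e).1 - gs (finProdFinEquiv.symm e).2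
  obtain ⟨v, hv⟩ : ∃ v, v = mv N t' := ⟨_, rfl⟩
  have hsep : ∀ i j, c₂ * ‖gs i - gs j‖ ≤ ‖linc v (gs i) - linc v (gs j)‖ := by
    intro i j
    have h1 := ht' (finProdFinEquiv (i, j))
    rw [Equiv.symm_apply_apply] at h1
    rw [← linc_sub', hv]
    exact h1
  obtain ⟨θ, hθ⟩ : ∃ θ : Fin S → ℂ, ∀ i, θ i = linc v (gs i) := ⟨_, fun _ => rfl⟩
  have hθn : ∀ i, ‖θ i‖ ≤ Γ * (1 / c₁) := fun i => by
    rw [hθ, hv]
    exact (c6_linc_le _ _).trans (mul_le_mul (hΓv t') (hgsn i) (norm_nonneg _) (by linarith))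
  obtain ⟨ρ, hρ⟩ : ∃ ρ : Fin S → ℂ, ∀ i, ρ i = (p i).val (linc lam f) := ⟨_, fun _ => rfl⟩
  have hρinj : ∀ i j, i ≠ j → ρ i ≠ ρ j := by
    intro i j hij h
    rw [hρ, hρ] at h
    exact hij (hinj h)
  have hρdiff : ∀ i j, ‖ρ i - ρ j‖ ≤ Λ * ‖X i - X j‖ := by
    intro i j
    have h1 : ∀ i, ρ i = linc lam fun b => X i b.succ := by
      intro i
      rw [hρ, (p i).val_linc lam (hfO i)]
      congr 1
      funext b
      rw [hX]
      rfl
    rw [h1, h1, ← linc_sub', hΛ]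
    refine (c6_linc_le _ _).trans (mul_le_mul_of_nonneg_left ?_ (Finset.sum_nonneg fun _ _ => norm_nonneg _))
    rw [pi_norm_le_iff_of_nonneg (norm_nonneg _)]
    intro b
    exact norm_le_pi_norm (X i - X j) b.succ
  have hXdiff : ∀ i j, ‖X i - X j‖ ≤ Γ ^ 2 * (2 / c₁) * (‖X i‖ * ‖X j‖ * ‖gs i - gs j‖) := by
    intro i j
    have h1 := c6_diff (Γ := Γ) (u := u) (x := X i) (y := X j) hc₁ (by rw [hu]; exact hΓu t) (hX0 i) (hX0 j)
      (by rw [← hU]; exact hUlow i) (by rw [← hU]; exact hUlow j)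
    rw [hgs, hgs, hU, hU]
    exact h1
  have hρe : ∀ i j, ‖ρ i - ρ j‖ ≤ C₃ * (n i * n j * ‖θ i - θ j‖) := by
    intro i j
    rw [hn, hn, hθ, hθ]
    have h1 : ‖gs i - gs j‖ ≤ ‖linc v (gs i) - linc v (gs j)‖ / c₂ := by
      rw [le_div_iff₀ hc₂, mul_comm]
      exact hsep i j
    calc ‖ρ i - ρ j‖ ≤ Λ * (Γ ^ 2 * (2 / c₁) * (‖X i‖ * ‖X j‖ * ‖gs i - gs j‖)) :=
          (hρdiff i j).trans (mul_le_mul_of_nonneg_left (hXdiff i j) hΛ0)
      _ ≤ Λ * (Γ ^ 2 * (2 / c₁) * (‖X i‖ * ‖X j‖ * (‖linc v (gs i) - linc v (gs j)‖ / c₂))) := by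
          gcongr
      _ = (Λ * (Γ ^ 2 * (2 / c₁)) / c₂) * (‖X i‖ * ‖X j‖ * ‖linc v (gs i) - linc v (gs j)‖) := by
          field_simp
      _ ≤ C₃ * (‖X i‖ * ‖X j‖ * ‖linc v (gs i) - linc v (gs j)‖) := by
          refine mul_le_mul_of_nonneg_right ?_ (by positivity)
          rw [hC₃]
          linarith
  have hθne : ∀ i j, i ≠ j → θ i - θ j ≠ 0 := by
    intro i j hij h
    have h1 := hρe i j
    rw [h, norm_zero, mul_zero, mul_zero] at h1
    exact hρinj i j hij (sub_eq_zero.1 (norm_le_zero_iff.1 h1))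
  obtain ⟨d, hd⟩ : ∃ d : Fin S → ℝ, ∀ i, d i = ‖∏ j ∈ Finset.univ.erase i, (θ i - θ j)‖ := ⟨_, fun _ => rfl⟩
  have hdpos : ∀ i, 0 < d i := fun i => by
    rw [hd, norm_pos_iff]
    exact Finset.prod_ne_zero_iff.2 fun j hj => hθne i j (Finset.ne_of_mem_erase hj).symm
  obtain ⟨δ, hδ⟩ : ∃ δ : Fin S → ℝ, ∀ i, δ i = min 1 (d i) := ⟨_, fun _ => rfl⟩
  have hδ0 : ∀ i, 0 < δ i := fun i => by rw [hδ]; exact lt_min one_pos (hdpos i)
  have hδ1 : ∀ i, δ i ≤ 1 := fun i => by rw [hδ]; exact min_le_left _ _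
  have hδd : ∀ i, δ i ≤ d i := fun i => by rw [hδ]; exact min_le_right _ _
  have hdD : ∀ i, d i ≤ D₀ * δ i := by
    intro i
    rcases le_total (d i) 1 with h | h
    · have h1 : δ i = d i := by rw [hδ, min_eq_right h]
      rw [h1]
      exact le_mul_of_one_le_left (hdpos i).le hD₀1
    · have h1 : δ i = 1 := by rw [hδ, min_eq_left h]
      rw [h1, mul_one, hd, norm_prod, hD₀]
      have h3 : (1 : ℝ) ≤ 1 + 2 * (Γ * (1 / c₁)) := by linarith
      calc ∏ j ∈ Finset.univ.erase i, ‖θ i - θ j‖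
          ≤ ∏ _j ∈ Finset.univ.erase i, (1 + 2 * (Γ * (1 / c₁))) := by
            refine Finset.prod_le_prod (fun _ _ => norm_nonneg _) fun j _ => ?_
            refine (norm_sub_le _ _).trans ?_
            have := hθn i
            have := hθn j
            linarith
        _ = (1 + 2 * (Γ * (1 / c₁))) ^ (Finset.univ.erase i).card := by rw [Finset.prod_const]
        _ ≤ (1 + 2 * (Γ * (1 / c₁))) ^ S := by
            refine pow_le_pow_right₀ h3 ?_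
            rw [Finset.card_erase_of_mem (Finset.mem_univ i), Finset.card_univ, Fintype.card_fin]
            omega
  -- the values at the derivative of the minimal polynomial
  obtain ⟨y, hy⟩ : ∃ y : L, y = Polynomial.aeval (linc lam f) (Polynomial.derivative (minpoly KK (linc lam f))) :=
    ⟨_, rfl⟩
  have hθO : ∀ i, linc lam f ∈ (p i).O := fun i => (p i).linc_mem lam (hfO i)
  have hder := c9_rdP_derivative hQO
  have hyO : ∀ i, y ∈ (p i).O := fun i => by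
    rw [hy]
    exact (c9_val (fun x hx => htr x hx i) (hθO i) hder.1).1
  have hyv : ∀ i, (p i).val y = ∏ j ∈ Finset.univ.erase i, (ρ i - ρ j) := by
    intro i
    rw [hy, (c9_val (fun x hx => htr x hx i) (hθO i) hder.1).2, hder.2, hrd]
    have h1 := c5_deriv_prod (fun j => (p j).val (linc lam f)) i
    rw [hρ i]
    refine h1.trans ?_
    exact Finset.prod_congr rfl fun j _ => by rw [hρ]
  have hqle : ∀ i, ‖(p i).val y‖ ≤ C₃ ^ (S - 1) * (n i ^ (S - 1) * (∏ j ∈ Finset.univ.erase i, n j)) * d i := by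
    intro i
    rw [hyv, norm_prod, hd, norm_prod]
    have hcard : (Finset.univ.erase i : Finset (Fin S)).card = S - 1 := by
      rw [Finset.card_erase_of_mem (Finset.mem_univ i), Finset.card_univ, Fintype.card_fin]
    calc ∏ j ∈ Finset.univ.erase i, ‖ρ i - ρ j‖
        ≤ ∏ j ∈ Finset.univ.erase i, (C₃ * (n i * n j * ‖θ i - θ j‖)) :=
          Finset.prod_le_prod (fun _ _ => norm_nonneg _) fun j _ => hρe i j
      _ = C₃ ^ (S - 1) * (n i ^ (S - 1) * (∏ j ∈ Finset.univ.erase i, n j)) *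
          ∏ j ∈ Finset.univ.erase i, ‖θ i - θ j‖ := by
          rw [Finset.prod_mul_distrib, Finset.prod_mul_distrib, Finset.prod_mul_distrib,
            Finset.prod_const, Finset.prod_const, hcard]
          ring
  -- the jets
  have hU0 : ∀ _i : Fin S, linc u (pt f) ≠ 0 := by
    intro i h
    apply hUne i
    rw [hU, ← hXlin, h, (p i).val_zero]
  have hUinv : ∀ i, (linc u (pt f))⁻¹ ∈ (p i).O := fun i => by rw [hu]; exact hUO i t
  have hUival : ∀ i, (p i).val (linc u (pt f))⁻¹ = (U i)⁻¹ := by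
    intro i
    have h1 : (p i).val (linc u (pt f) * (linc u (pt f))⁻¹) = 1 := by
      rw [mul_inv_cancel₀ (hU0 i), (p i).val_one]
    rw [(p i).val_mul ((p i).linc_mem u (hxO i)) (hUinv i), hXlin, ← hU] at h1
    exact eq_inv_of_mul_eq_one_right h1
  have hbinv : b⁻¹ ∈ pz.O := by rw [hb]; exact hBO t
  have hbO : b ∈ pz.O := by
    rw [hb, eval_eq']
    refine sum_mem fun α _ => mul_mem (hGO α) (prod_mem fun a _ => pow_mem (pz.O.algebraMap_mem _) _)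
  have hbival : pz.val b⁻¹ = (pz.val b)⁻¹ := by
    have h1 : pz.val (b * b⁻¹) = 1 := by
      rw [mul_inv_cancel₀ hb0, pz.val_one]
    rw [pz.val_mul hbO hbinv] at h1
    exact eq_inv_of_mul_eq_one_right h1
  have hnO : ∀ α, coeff α G / b ∈ pz.O := fun α => by
    rw [div_eq_mul_inv]
    exact mul_mem (hGO α) hbinv
  have hGz : ∀ α, pz.val (coeff α G / b) = coeff α (∏ j, lf (gs j)) := by
    intro α
    have h1 : (∏ j, lf (gs j) : MvPolynomial (Fin (N + 1)) ℂ) = C (∏ j, (U j)⁻¹) * ∏ j, lf (X j) := by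
      rw [map_prod, ← Finset.prod_mul_distrib]
      exact Finset.prod_congr rfl fun j _ => by rw [hgs, lf_smul]
    rw [h1, coeff_C_mul, div_eq_mul_inv, pz.val_mul (hGO α) hbinv, hbival, hbv, hcoeff,
      Finset.prod_inv_distrib, mul_comm]
  have hgi : ∀ i a, gs i a = (p i).val (pt f a * (linc u (pt f))⁻¹) := by
    intro i a
    rw [(p i).val_mul (hxO i a) (hUinv i), hUival, ← hX, hgs, Pi.smul_apply, smul_eq_mul, mul_comm]
  have hTn : ∀ α ∈ G.support, ‖pz.val (coeff α G / b)‖ ≤ T := by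
    intro α _
    rw [hGz]
    refine (c6_coeff gs α).trans ?_
    rw [← hnn, hT]
    have h1 : ∏ j, ‖gs j‖ ≤ (1 / c₁) ^ S := by
      calc ∏ j, ‖gs j‖ ≤ ∏ _j : Fin S, (1 / c₁) :=
            Finset.prod_le_prod (fun _ _ => norm_nonneg _) fun j _ => hgsn j
        _ = (1 / c₁) ^ S := by rw [Finset.prod_const, Finset.card_univ, Fintype.card_fin]
    have h2 := mul_le_mul_of_nonneg_left h1 (zero_le_one.trans hnn1)
    have h3 : (0 : ℝ) ≤ (k : ℝ) + 1 := by positivity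
    linarith
  have hdeg : ∀ α ∈ G.support, α.degree ≤ S := by
    intro α hα
    have h1 := hG (mem_support_iff.1 hα)
    rw [← h1, Finsupp.degree_eq_weight_one]
    exact le_rfl
  have hE : ∀ l, (∑ α ∈ G.support, ‖(eP u v α).coeff l‖) * T ≤ H := by
    refine c0_sum_coeff_le (S := S) hT0 (fun α hα => eP_natDegree u v (hdeg α hα)) (by linarith) ?_
    have h1 := hHP t t'
    rw [hEP] at h1
    rw [hu, hv]
    exact h1
  have hEB' : ∀ a l, (∑ α ∈ G.support, ‖(eB u v a α).coeff l‖) * T ≤ H := by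
    intro a
    refine c0_sum_coeff_le (S := S) hT0 (fun α hα => eB_natDegree u v a (hdeg α hα)) (by linarith) ?_
    have h1 := hHB t t' a
    rw [hEB] at h1
    rw [hu, hv]
    exact h1
  have hg0 : ∀ i, gs i 0 = (U i)⁻¹ := fun i => by
    rw [hgs, Pi.smul_apply, hX0, smul_eq_mul, mul_one]
  have hjet : ∀ i, ∀ q : JV N k, ‖(p i).val (jetL D k f q)‖ ≤
      (K * (Ψ / (δ i ^ 2 * ‖gs i 0‖))) ^ ((q.2 : ℕ) + 1) := by
    intro i
    refine hK k f G H1 b u v pz (p i) gs i (δ i) Ψ T hG hG1 hb0 (fun x hx => htr x hx i) hnO (hfO i)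
      (hU0 i) (hUinv i) hgs1 hGz (hgi i) hTk hTn hE hEB' ?_ ?_ ?_ (hδ0 i) (hδ1 i) hΨ ?_ hΨn'
    · rw [← hθ]
      refine (hθn i).trans ?_
      rw [hH]
      linarith
    · intro a
      refine (norm_le_pi_norm (gs i) a).trans ((hgsn i).trans ?_)
      rw [hH]
      linarith
    · rw [hg0]
      exact inv_ne_zero (hUne i)
    · have h1 : ∏ j ∈ Finset.univ.erase i, (linc v (gs i) - linc v (gs j)) =
          ∏ j ∈ Finset.univ.erase i, (θ i - θ j) :=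
        Finset.prod_congr rfl fun j _ => by rw [hθ, hθ]
      rw [h1, ← hd]
      exact hδd i
  obtain ⟨W, hW⟩ : ∃ W : Fin S → ℝ, ∀ i, W i = K₁ * (Ψ * n i / δ i ^ 2) := ⟨_, fun _ => rfl⟩
  have hn1 : ∀ i, 1 ≤ n i := fun i => by rw [hn]; exact hX1 i
  have hW1 : ∀ i, 1 ≤ W i := by
    intro i
    rw [hW]
    refine one_le_mul_of_one_le_of_one_le hK₁1 ?_
    have h1 : δ i ^ 2 ≤ 1 := pow_le_one₀ (hδ0 i).le (hδ1 i)
    have h2 : 0 < δ i ^ 2 := pow_pos (hδ0 i) 2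
    rw [one_le_div h2]
    exact h1.trans (one_le_mul_of_one_le_of_one_le hΨ (hn1 i))
  have hjetW : ∀ i, ∀ q : JV N k, ‖(p i).val (jetL D k f q)‖ ≤ W i ^ ((q.2 : ℕ) + 1) := by
    intro i q
    refine (hjet i q).trans (pow_le_pow_left₀ ?_ ?_ _)
    · have := hδ0 i
      positivity
    · rw [hW, hg0, norm_inv, hK₁, hn]
      have h2 : 0 < δ i ^ 2 := pow_pos (hδ0 i) 2
      have h3 := hUpos i
      calc K * (Ψ / (δ i ^ 2 * ‖U i‖⁻¹)) = K * (Ψ * ‖U i‖ / δ i ^ 2) := by field_simp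
        _ ≤ K * (Ψ * (Γ * ‖X i‖) / δ i ^ 2) := by
            have := hUup i
            gcongr
        _ = K * Γ * (Ψ * ‖X i‖ / δ i ^ 2) := by ring
  have hsle : ∀ i, (∏ r, ‖(p i).val (aeval (jetL D k f) (P r))‖) * n i ^ (s * κ) ≤
      Cs * (K₁ * (Ψ * n i / δ i ^ 2)) ^ (R * M) := by
    intro i
    have hjO : ∀ q, jetL D k f q ∈ (p i).O := (p i).jetL_mem (hfO i)
    have h1 := hsheet (X i) (fun q => (p i).val (jetL D k f q)) (W i) (hW1 i) (hjetW i) (hX0 i)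
      (hA (X i) (hXF i)) (by
        intro r
        have h2 := congrArg (p i).val (hrel r)
        rw [(p i).val_mul (pow_mem ((p i).linc_mem _ (hxO i)) _) ((p i).aeval_mem hjO _),
          (p i).val_pow ((p i).linc_mem _ (hxO i)), hXlin, (p i).val_aeval hjO, (p i).val_aeval hjO] at h2
        exact h2)
    rw [hn, ← hn, ← hW]
    rw [hn]
    refine le_trans (le_of_eq ?_) h1
    congr 1
    exact Finset.prod_congr rfl fun r _ => by rw [(p i).val_aeval hjO]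
  -- the conclusion
  have hXXval : ‖pz.val (XX D k M f lam P)‖ =
      ∏ i, (‖(p i).val y‖ ^ (2 * (R * M)) * ∏ r, ‖(p i).val (aeval (jetL D k f) (P r))‖) := by
    unfold XX
    rw [← hy]
    have hjO : ∀ i q, jetL D k f q ∈ (p i).O := fun i => (p i).jetL_mem (hfO i)
    have hPO : ∀ i, ∀ r ∈ (Finset.univ : Finset (Fin R)), aeval (jetL D k f) (P r) ∈ (p i).O :=
      fun i r _ => (p i).aeval_mem (hjO i) _
    rw [(hnorm _ fun i => mul_mem (pow_mem (hyO i) _) (prod_mem (hPO i))).2, norm_prod]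
    refine Finset.prod_congr rfl fun i _ => ?_
    rw [(p i).val_mul (pow_mem (hyO i) _) (prod_mem (hPO i)), (p i).val_pow (hyO i),
      (p i).val_prod _ (hPO i), norm_mul, norm_pow, norm_prod]
  have hfin := c9_num (T := R * M) (E := s * κ) hS1 hC₃1 hCs hD₀1 hK₁1 hΨ hs (n := n)
    (q := fun i => ‖(p i).val y‖) (s := fun i => ∏ r, ‖(p i).val (aeval (jetL D k f) (P r))‖)
    (d := d) (δ := δ) hn1 (fun i => norm_nonneg _)
    (fun i => Finset.prod_nonneg fun _ _ => norm_nonneg _) hδ0 (fun i => (hdpos i).le) hdD hqle hsle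
  rw [← hCf] at hfin
  show ‖pz.val (XX D k M f lam P)‖ * ∑ α : G.support, ‖pz.val (coeff α.1 G)‖ ≤
    Cf * (cd * nn) * Ψ ^ (R * M * S)
  rw [hXXval]
  have hpr0 : 0 ≤ ∏ i, (‖(p i).val y‖ ^ (2 * (R * M)) *
      ∏ r, ‖(p i).val (aeval (jetL D k f) (P r))‖) :=
    Finset.prod_nonneg fun i _ => mul_nonneg (pow_nonneg (norm_nonneg _) _)
      (Finset.prod_nonneg fun _ _ => norm_nonneg _)
  calc (∏ i, (‖(p i).val y‖ ^ (2 * (R * M)) * ∏ r, ‖(p i).val (aeval (jetL D k f) (P r))‖)) *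
        ∑ α : G.support, ‖pz.val (coeff α.1 G)‖
      ≤ (∏ i, (‖(p i).val y‖ ^ (2 * (R * M)) * ∏ r, ‖(p i).val (aeval (jetL D k f) (P r))‖)) *
        (cd * nn * ∏ i, n i) := mul_le_mul_of_nonneg_left hsumn hpr0
    _ = (cd * nn) * ((∏ i, (‖(p i).val y‖ ^ (2 * (R * M)) *
        ∏ r, ‖(p i).val (aeval (jetL D k f) (P r))‖)) * ∏ i, n i) := by ring
    _ ≤ (cd * nn) * (Cf * Ψ ^ (R * M * S)) := mul_le_mul_of_nonneg_left hfin (by positivity)
    _ = Cf * (cd * nn) * Ψ ^ (R * M * S) := by ring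

end Pool.Agent.H24V
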