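import Pool.Agent.Lib.H24V.B
import Pool.Agent.Lib.H24V.A9D

set_option autoImplicit false

/-!
H24V, module C: definitions.
-/

open MvPolynomial

namespace Pool.Agent.H24V

open Pool.Agent.H89T Pool.Agent.H67T Pool.Agent.H53U Pool.Agent.H53V

/-- The moment vector `(1, t, ..., t ^ N)`. -/
def mv (N t : ℕ) : Fin (N + 1) → ℂ := fun a => (t : ℂ) ^ (a : ℕ)

/-- `N (Q' (θ) ^ (2 R M) ∏ P_i (jet f))`, `θ = ∑ lam_b f_b` and `Q` its minimal polynomial. -/
noncomputable def XX {L : Type} [Field L] [Algebra ℂ L] [Algebra KK L] (D : Derivation ℂ L L)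
    {N R : ℕ} (k M : ℕ) (f : Fin N → L) (lam : Fin N → ℂ) (P : Fin R → MvPolynomial (JV N k) ℂ) :
    KK :=
  Algebra.norm KK ((Polynomial.aeval (linc lam f) (Polynomial.derivative (minpoly KK (linc lam f)))) ^
    (2 * (R * M)) * ∏ i, aeval (jetL D k f) (P i))

end Pool.Agent.H24V
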