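import Mathlib

set_option autoImplicit false

/-!
H24V, module C: the sum of the norms of the first coefficients of a formal power series.
-/

namespace Pool.Agent.H24V

open PowerSeries

/-- The sum of the norms of the coefficients of order at most `k`. -/
noncomputable def pn (k : ℕ) (f : PowerSeries ℂ) : ℝ := ∑ l ∈ Finset.range (k + 1), ‖coeff l f‖

theorem pn_nonneg (k : ℕ) (f : PowerSeries ℂ) : 0 ≤ pn k f := Finset.sum_nonneg fun _ _ => norm_nonneg _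

theorem coeff_le_pn {k l : ℕ} (hl : l ≤ k) (f : PowerSeries ℂ) : ‖coeff l f‖ ≤ pn k f :=
  Finset.single_le_sum (f := fun l => ‖coeff l f‖) (fun _ _ => norm_nonneg _)
    (Finset.mem_range.2 (by omega))

theorem const_le_pn (k : ℕ) (f : PowerSeries ℂ) : ‖constantCoeff f‖ ≤ pn k f := by
  have h := coeff_le_pn (Nat.zero_le k) f
  rwa [coeff_zero_eq_constantCoeff_apply] at h

theorem pn_zero (k : ℕ) : pn k 0 = 0 := by
  simp [pn]

theorem pn_add (k : ℕ) (f g : PowerSeries ℂ) : pn k (f + g) ≤ pn k f + pn k g := by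
  unfold pn
  rw [← Finset.sum_add_distrib]
  refine Finset.sum_le_sum fun l _ => ?_
  rw [map_add]
  exact norm_add_le _ _

theorem pn_neg (k : ℕ) (f : PowerSeries ℂ) : pn k (-f) = pn k f := by
  unfold pn
  refine Finset.sum_congr rfl fun l _ => ?_
  rw [map_neg, norm_neg]

theorem pn_sub (k : ℕ) (f g : PowerSeries ℂ) : pn k (f - g) ≤ pn k f + pn k g := by
  have h := pn_add k f (-g)
  rwa [← sub_eq_add_neg, pn_neg] at h

theorem pn_sum (k : ℕ) {ι : Type*} (s : Finset ι) (f : ι → PowerSeries ℂ) :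
    pn k (∑ i ∈ s, f i) ≤ ∑ i ∈ s, pn k (f i) := by
  classical
  induction s using Finset.induction_on with
  | empty => simp [pn_zero]
  | insert a s ha ih =>
    rw [Finset.sum_insert ha, Finset.sum_insert ha]
    exact (pn_add _ _ _).trans (add_le_add le_rfl ih)

theorem pn_C (k : ℕ) (a : ℂ) : pn k (C a) = ‖a‖ := by
  unfold pn
  rw [Finset.sum_eq_single 0]
  · simp
  · intro l _ hl
    rw [coeff_C, if_neg hl, norm_zero]
  · intro h
    exact absurd (Finset.mem_range.2 (Nat.succ_pos k)) h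

theorem pn_mul (k : ℕ) (f g : PowerSeries ℂ) : pn k (f * g) ≤ pn k f * pn k g := by
  unfold pn
  have h1 : ∑ l ∈ Finset.range (k + 1), ‖coeff l (f * g)‖ ≤
      ∑ l ∈ Finset.range (k + 1), ∑ p ∈ Finset.HasAntidiagonal.antidiagonal l, ‖coeff p.1 f‖ * ‖coeff p.2 g‖ := by
    refine Finset.sum_le_sum fun l _ => ?_
    rw [coeff_mul]
    refine (norm_sum_le _ _).trans (Finset.sum_le_sum fun p _ => ?_)
    rw [norm_mul]
  refine h1.trans ?_
  rw [Finset.sum_mul_sum, ← Finset.sum_product', Finset.sum_sigma']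
  have hinj : Set.InjOn (fun x : (_ : ℕ) × (ℕ × ℕ) => x.2)
      (((Finset.range (k + 1)).sigma fun l => Finset.HasAntidiagonal.antidiagonal l : Finset _) :
        Set ((_ : ℕ) × (ℕ × ℕ))) := by
    rintro ⟨l, p⟩ hx ⟨l', p'⟩ hy hxy
    rw [Finset.mem_coe, Finset.mem_sigma, Finset.HasAntidiagonal.mem_antidiagonal] at hx hy
    simp only at hxy hx hy
    subst hxy
    have : l = l' := hx.2.symm.trans hy.2
    subst this
    rfl
  have h2 := Finset.sum_image (f := fun p : ℕ × ℕ => ‖coeff p.1 f‖ * ‖coeff p.2 g‖) hinj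
  rw [← h2]
  refine Finset.sum_le_sum_of_subset_of_nonneg ?_ fun x _ _ => by positivity
  intro x hx
  obtain ⟨y, hy, rfl⟩ := Finset.mem_image.1 hx
  rw [Finset.mem_sigma, Finset.HasAntidiagonal.mem_antidiagonal, Finset.mem_range] at hy
  rw [Finset.mem_product, Finset.mem_range, Finset.mem_range]
  omega

theorem pn_pow (k : ℕ) (f : PowerSeries ℂ) (n : ℕ) : pn k (f ^ n) ≤ pn k f ^ n := by
  induction n with
  | zero =>
    have h : pn k (1 : PowerSeries ℂ) = 1 := by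
      have := pn_C k 1
      rwa [map_one, norm_one] at this
    rw [pow_zero, pow_zero, h]
  | succ n ih =>
    rw [pow_succ, pow_succ]
    exact (pn_mul _ _ _).trans (mul_le_mul_of_nonneg_right ih (pn_nonneg _ _))

/-- Scaling of the variable. -/
noncomputable def rs (ρ : ℝ) : PowerSeries ℂ →+* PowerSeries ℂ := rescale (ρ : ℂ)

theorem coeff_rs (ρ : ℝ) (l : ℕ) (f : PowerSeries ℂ) : coeff l (rs ρ f) = (ρ : ℂ) ^ l * coeff l f :=
  coeff_rescale _ _ _

theorem const_rs (ρ : ℝ) (f : PowerSeries ℂ) : constantCoeff (rs ρ f) = constantCoeff f := by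
  have h := coeff_rs ρ 0 f
  rwa [pow_zero, one_mul, coeff_zero_eq_constantCoeff_apply, coeff_zero_eq_constantCoeff_apply] at h

theorem rs_C (ρ : ℝ) (a : ℂ) : rs ρ (C a) = C a := by
  ext l
  rw [coeff_rs, coeff_C]
  split_ifs with h
  · rw [h, pow_zero, one_mul]
  · rw [mul_zero]

theorem norm_coeff_rs {ρ : ℝ} (hρ : 0 ≤ ρ) (l : ℕ) (f : PowerSeries ℂ) :
    ‖coeff l (rs ρ f)‖ = ρ ^ l * ‖coeff l f‖ := by
  rw [coeff_rs, norm_mul, norm_pow, Complex.norm_real, Real.norm_of_nonneg hρ]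

theorem pn_rs_le {ρ : ℝ} (h0 : 0 ≤ ρ) (h1 : ρ ≤ 1) (k : ℕ) (f : PowerSeries ℂ) :
    pn k (rs ρ f) ≤ pn k f := by
  unfold pn
  refine Finset.sum_le_sum fun l _ => ?_
  rw [norm_coeff_rs h0]
  exact mul_le_of_le_one_left (norm_nonneg _) (pow_le_one₀ h0 h1)

/-- Without constant term. -/
theorem pn_rs_le_mul {ρ : ℝ} (h0 : 0 ≤ ρ) (h1 : ρ ≤ 1) (k : ℕ) {f : PowerSeries ℂ}
    (hf : constantCoeff f = 0) : pn k (rs ρ f) ≤ ρ * pn k f := by
  unfold pn
  rw [Finset.mul_sum]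
  refine Finset.sum_le_sum fun l _ => ?_
  rw [norm_coeff_rs h0]
  rcases Nat.eq_zero_or_pos l with rfl | hl
  · rw [coeff_zero_eq_constantCoeff_apply, hf, norm_zero, mul_zero, mul_zero]
  · refine mul_le_mul_of_nonneg_right ?_ (norm_nonneg _)
    calc ρ ^ l ≤ ρ ^ 1 := pow_le_pow_of_le_one h0 h1 hl
      _ = ρ := pow_one ρ

theorem rs_sub_C (ρ : ℝ) (f : PowerSeries ℂ) :
    rs ρ f - C (constantCoeff f) = rs ρ (f - C (constantCoeff f)) := by
  rw [map_sub, rs_C]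

theorem pn_rs_sub_le {ρ : ℝ} (h0 : 0 ≤ ρ) (h1 : ρ ≤ 1) (k : ℕ) (f : PowerSeries ℂ) :
    pn k (rs ρ f - C (constantCoeff f)) ≤ ρ * pn k (f - C (constantCoeff f)) := by
  rw [rs_sub_C]
  exact pn_rs_le_mul h0 h1 k (by simp)

/-- `rs (ρ σ) = rs ρ (rs σ)`. -/
theorem rs_mul (ρ σ : ℝ) (f : PowerSeries ℂ) : rs (ρ * σ) f = rs ρ (rs σ f) := by
  ext l
  rw [coeff_rs, coeff_rs, coeff_rs, Complex.ofReal_mul, mul_pow]
  ring

/-- The inverse. -/
theorem pn_inv_le {k : ℕ} {f : PowerSeries ℂ} (h0 : constantCoeff f ≠ 0)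
    (h : pn k (f - C (constantCoeff f)) ≤ ‖constantCoeff f‖ / 2) :
    pn k f⁻¹ ≤ 2 / ‖constantCoeff f‖ := by
  set a : ℂ := constantCoeff f with ha
  have ha0 : 0 < ‖a‖ := norm_pos_iff.2 h0
  have h1 : f⁻¹ = C a⁻¹ - C a⁻¹ * (f - C a) * f⁻¹ := by
    have h2 : f * f⁻¹ = 1 := PowerSeries.mul_inv_cancel f h0
    have h3 : C a⁻¹ * C a = (1 : PowerSeries ℂ) := by
      rw [← map_mul, inv_mul_cancel₀ h0, map_one]
    have h4 : C a⁻¹ * (f - C a) * f⁻¹ = C a⁻¹ * (f * f⁻¹) - (C a⁻¹ * C a) * f⁻¹ := by ring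
    rw [h4, h2, h3]
    ring
  have h5 : pn k f⁻¹ ≤ 1 / ‖a‖ + 1 / 2 * pn k f⁻¹ := by
    calc pn k f⁻¹ = pn k (C a⁻¹ - C a⁻¹ * (f - C a) * f⁻¹) := by rw [← h1]
      _ ≤ pn k (C a⁻¹) + pn k (C a⁻¹ * (f - C a) * f⁻¹) := pn_sub _ _ _
      _ ≤ 1 / ‖a‖ + 1 / 2 * pn k f⁻¹ := by
          rw [pn_C, norm_inv, one_div]
          refine add_le_add le_rfl ?_
          refine (pn_mul _ _ _).trans (mul_le_mul_of_nonneg_right ?_ (pn_nonneg _ _))
          refine (pn_mul _ _ _).trans ?_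
          rw [pn_C, norm_inv]
          calc ‖a‖⁻¹ * pn k (f - C a) ≤ ‖a‖⁻¹ * (‖a‖ / 2) :=
                mul_le_mul_of_nonneg_left h (by positivity)
            _ = 1 / 2 := by field_simp
  have h6 : 2 / ‖a‖ = 2 * (1 / ‖a‖) := by ring
  rw [h6]
  linarith

end Pool.Agent.H24V
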