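import Pool.Agent.Lib.H24V.C1

set_option autoImplicit false

/-!
H24V, module C: the root of a polynomial with formal power series as coefficients, after a small
scaling of the variable, is close to its constant term.
-/

namespace Pool.Agent.H24V

open PowerSeries

theorem pn_C_mul (k : ℕ) (a : ℂ) (f : PowerSeries ℂ) : pn k (C a * f) = ‖a‖ * pn k f := by
  unfold pn
  rw [Finset.mul_sum]
  refine Finset.sum_congr rfl fun l _ => ?_
  rw [coeff_C_mul, norm_mul]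

theorem pn_one (k : ℕ) : pn k (1 : PowerSeries ℂ) = 1 := by
  have := pn_C k 1
  rwa [map_one, norm_one] at this

section Powers

variable {k : ℕ} {H : ℝ} {θ : ℂ} {η : PowerSeries ℂ}

theorem c2_pn_add (hθ : ‖θ‖ ≤ H) (hη : pn k η ≤ 1) : pn k (C θ + η) ≤ H + 1 := by
  refine (pn_add _ _ _).trans ?_
  rw [pn_C]
  exact add_le_add hθ hη

/-- `(θ + η) ^ i = θ ^ i + i θ ^ (i - 1) η + η ^ 2 r`. -/
theorem c2_expand (hH : 0 ≤ H) (hθ : ‖θ‖ ≤ H) (hη : pn k η ≤ 1) (i : ℕ) :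
    ∃ r : PowerSeries ℂ, (C θ + η) ^ i = C (θ ^ i) + C ((i : ℂ) * θ ^ (i - 1)) * η + η ^ 2 * r ∧
      pn k r ≤ (i : ℝ) ^ 2 * (H + 1) ^ i := by
  have hH1 : (1 : ℝ) ≤ H + 1 := by linarith
  induction i with
  | zero =>
    refine ⟨0, ?_, ?_⟩
    · simp
    · rw [pn_zero]
      simp
  | succ i ih =>
    obtain ⟨r, hr, hr1⟩ := ih
    refine ⟨C ((i : ℂ) * θ ^ (i - 1)) + r * (C θ + η), ?_, ?_⟩
    · rw [pow_succ, hr]
      have h1 : C (θ ^ (i + 1)) = C (θ ^ i) * (C θ : PowerSeries ℂ) := by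
        rw [pow_succ, map_mul]
      have h2 : (C (((i + 1 : ℕ) : ℂ) * θ ^ (i + 1 - 1)) : PowerSeries ℂ) =
          C (θ ^ i) + C ((i : ℂ) * θ ^ (i - 1)) * C θ := by
        rw [← map_mul, ← map_add]
        congr 1
        rw [Nat.add_sub_cancel]
        rcases Nat.eq_zero_or_pos i with rfl | hi
        · simp
        · obtain ⟨j, rfl⟩ : ∃ j, i = j + 1 := ⟨i - 1, by omega⟩
          rw [Nat.add_sub_cancel]
          push_cast
          ring
      rw [h1, h2]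
      ring
    · have h3 : ‖(i : ℂ) * θ ^ (i - 1)‖ ≤ (i : ℝ) * (H + 1) ^ (i + 1) := by
        rw [norm_mul, norm_pow, Complex.norm_natCast]
        refine mul_le_mul_of_nonneg_left ?_ (Nat.cast_nonneg _)
        calc ‖θ‖ ^ (i - 1) ≤ (H + 1) ^ (i - 1) := pow_le_pow_left₀ (norm_nonneg _) (by linarith) _
          _ ≤ (H + 1) ^ (i + 1) := pow_le_pow_right₀ hH1 (by omega)
      have h4 : pn k (r * (C θ + η)) ≤ (i : ℝ) ^ 2 * (H + 1) ^ i * (H + 1) :=
        (pn_mul _ _ _).trans (mul_le_mul hr1 (c2_pn_add hθ hη) (pn_nonneg _ _) (by positivity))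
      refine (pn_add _ _ _).trans ?_
      rw [pn_C]
      refine (add_le_add h3 h4).trans ?_
      have h5 : (i : ℝ) * (H + 1) ^ (i + 1) + (i : ℝ) ^ 2 * (H + 1) ^ i * (H + 1) =
          ((i : ℝ) + (i : ℝ) ^ 2) * (H + 1) ^ (i + 1) := by
        rw [pow_succ]
        ring
      rw [h5]
      refine mul_le_mul_of_nonneg_right ?_ (by positivity)
      push_cast
      nlinarith [(Nat.cast_nonneg i : (0 : ℝ) ≤ i)]

end Powers

/-- The constant of the estimates. -/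
noncomputable def KH (S : ℕ) (H : ℝ) : ℝ :=
  1 + ∑ i ∈ Finset.range (S + 1), H * (((i : ℝ) ^ 2 + 1) * (H + 1) ^ i)

theorem one_le_KH {S : ℕ} {H : ℝ} (hH : 0 ≤ H) : 1 ≤ KH S H :=
  le_add_of_nonneg_right (Finset.sum_nonneg fun i _ => by positivity)

theorem c2_sum_le {S : ℕ} {H : ℝ} {u : ℕ → ℝ}
    (hu : ∀ i, u i ≤ H * (((i : ℝ) ^ 2 + 1) * (H + 1) ^ i)) :
    ∑ i ∈ Finset.range (S + 1), u i ≤ KH S H := by
  have h1 : ∑ i ∈ Finset.range (S + 1), u i ≤
      ∑ i ∈ Finset.range (S + 1), H * (((i : ℝ) ^ 2 + 1) * (H + 1) ^ i) :=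
    Finset.sum_le_sum fun i _ => hu i
  unfold KH
  linarith

section Root

variable {S k : ℕ} {H Ψ ρ : ℝ} {P : Polynomial (PowerSeries ℂ)} {Θ : PowerSeries ℂ}

/-- The value of the scaled polynomial. -/
theorem c2_eval (hP : P.natDegree ≤ S) (ρ : ℝ) (Θ : PowerSeries ℂ) :
    rs ρ (P.eval Θ) = ∑ i ∈ Finset.range (S + 1), rs ρ (P.coeff i) * rs ρ Θ ^ i := by
  rw [Polynomial.eval_eq_sum_range' (Nat.lt_succ_of_le hP), map_sum]
  refine Finset.sum_congr rfl fun i _ => ?_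
  rw [map_mul, map_pow]

theorem c2_eval_const (hP : P.natDegree ≤ S) (t : ℂ) :
    (P.map constantCoeff).eval t = ∑ i ∈ Finset.range (S + 1), constantCoeff (P.coeff i) * t ^ i := by
  rw [Polynomial.eval_eq_sum_range' (Nat.lt_succ_of_le ((Polynomial.natDegree_map_le).trans hP))]
  refine Finset.sum_congr rfl fun i _ => ?_
  rw [Polynomial.coeff_map]

theorem c2_deriv_const (hP : P.natDegree ≤ S) (t : ℂ) :
    (P.map constantCoeff).derivative.eval t =
      ∑ i ∈ Finset.range (S + 1), constantCoeff (P.coeff i) * ((i : ℂ) * t ^ (i - 1)) := by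
  rw [Polynomial.derivative_eval, Polynomial.sum_over_range' _ _ (S + 1)
    (Nat.lt_succ_of_le ((Polynomial.natDegree_map_le).trans hP))]
  · refine Finset.sum_congr rfl fun i _ => ?_
    rw [Polynomial.coeff_map]
    ring
  · intro n
    ring

/-- The contribution of the coefficients which are not constant. -/
theorem c2_err (hH : 1 ≤ H) (hΨ : 0 ≤ Ψ) (h0 : 0 ≤ ρ) (h1 : ρ ≤ 1)
    (hc : ∀ i, pn k (P.coeff i - C (constantCoeff (P.coeff i))) ≤ H * Ψ)
    (hθ : ‖constantCoeff Θ‖ ≤ H) (hη : pn k (rs ρ Θ - C (constantCoeff Θ)) ≤ 1) :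
    pn k (∑ i ∈ Finset.range (S + 1), (rs ρ (P.coeff i) - C (constantCoeff (P.coeff i))) *
      rs ρ Θ ^ i) ≤ KH S H * (ρ * Ψ) := by
  have hH0 : 0 ≤ H := by linarith
  have hpow : ∀ i : ℕ, pn k (rs ρ Θ ^ i) ≤ (H + 1) ^ i := by
    intro i
    refine (pn_pow _ _ _).trans (pow_le_pow_left₀ (pn_nonneg _ _) ?_ _)
    have h2 := c2_pn_add hθ hη
    rwa [add_sub_cancel] at h2
  refine (pn_sum _ _ _).trans ?_
  have h2 : ∀ i ∈ Finset.range (S + 1),
      pn k ((rs ρ (P.coeff i) - C (constantCoeff (P.coeff i))) * rs ρ Θ ^ i) ≤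
        (H * (((i : ℝ) ^ 2 + 1) * (H + 1) ^ i)) * (ρ * Ψ) := by
    intro i _
    refine (pn_mul _ _ _).trans ?_
    calc pn k (rs ρ (P.coeff i) - C (constantCoeff (P.coeff i))) * pn k (rs ρ Θ ^ i)
        ≤ (ρ * (H * Ψ)) * (H + 1) ^ i :=
          mul_le_mul ((pn_rs_sub_le h0 h1 k _).trans (mul_le_mul_of_nonneg_left (hc i) h0)) (hpow i)
            (pn_nonneg _ _) (by positivity)
      _ = (H * (1 * (H + 1) ^ i)) * (ρ * Ψ) := by ring
      _ ≤ (H * (((i : ℝ) ^ 2 + 1) * (H + 1) ^ i)) * (ρ * Ψ) := by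
          have : (1 : ℝ) ≤ (i : ℝ) ^ 2 + 1 := by nlinarith [sq_nonneg (i : ℝ)]
          gcongr
  refine (Finset.sum_le_sum h2).trans ?_
  rw [← Finset.sum_mul]
  refine mul_le_mul_of_nonneg_right (c2_sum_le fun i => le_rfl) (by positivity)

/-- The inequality for the deviation `η` of the root. -/
theorem c2_ineq (hH : 1 ≤ H) (hΨ : 0 ≤ Ψ) (h0 : 0 ≤ ρ) (h1 : ρ ≤ 1) (hP : P.natDegree ≤ S)
    (hb : ∀ i, ‖constantCoeff (P.coeff i)‖ ≤ H)
    (hc : ∀ i, pn k (P.coeff i - C (constantCoeff (P.coeff i))) ≤ H * Ψ)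
    (hroot : P.eval Θ = 0) (hθ : ‖constantCoeff Θ‖ ≤ H)
    (hη : pn k (rs ρ Θ - C (constantCoeff Θ)) ≤ 1) :
    ‖(P.map constantCoeff).derivative.eval (constantCoeff Θ)‖ *
      pn k (rs ρ Θ - C (constantCoeff Θ)) ≤
      KH S H * pn k (rs ρ Θ - C (constantCoeff Θ)) ^ 2 + KH S H * (ρ * Ψ) := by
  have hH0 : 0 ≤ H := by linarith
  obtain ⟨θ, hθd⟩ : ∃ θ, θ = constantCoeff Θ := ⟨_, rfl⟩
  obtain ⟨η, hηd⟩ : ∃ η, η = rs ρ Θ - C (constantCoeff Θ) := ⟨_, rfl⟩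
  have hsum : rs ρ Θ = C θ + η := by rw [hηd, hθd]; ring
  rw [← hηd] at hη ⊢
  rw [← hθd] at hθ ⊢
  choose r hr hr1 using c2_expand (k := k) hH0 hθ hη
  have h2 : rs ρ (P.eval Θ) = 0 := by rw [hroot, map_zero]
  rw [c2_eval hP] at h2
  have h3 : ∑ i ∈ Finset.range (S + 1), (rs ρ (P.coeff i) - C (constantCoeff (P.coeff i))) *
      rs ρ Θ ^ i + ∑ i ∈ Finset.range (S + 1), C (constantCoeff (P.coeff i)) * rs ρ Θ ^ i = 0 := by
    rw [← Finset.sum_add_distrib, ← h2]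
    refine Finset.sum_congr rfl fun i _ => ?_
    ring
  have h4 : ∑ i ∈ Finset.range (S + 1), C (constantCoeff (P.coeff i)) * rs ρ Θ ^ i =
      C ((P.map constantCoeff).eval θ) + C ((P.map constantCoeff).derivative.eval θ) * η +
        η ^ 2 * ∑ i ∈ Finset.range (S + 1), C (constantCoeff (P.coeff i)) * r i := by
    rw [c2_eval_const hP, c2_deriv_const hP, map_sum, map_sum, Finset.sum_mul, Finset.mul_sum,
      ← Finset.sum_add_distrib, ← Finset.sum_add_distrib]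
    refine Finset.sum_congr rfl fun i _ => ?_
    rw [hsum, hr i]
    simp only [map_mul]
    ring
  have h5 : (P.map constantCoeff).eval θ = 0 := by
    have h6 := congrArg constantCoeff hroot
    rw [map_zero, Polynomial.eval_eq_sum_range' (Nat.lt_succ_of_le hP), map_sum] at h6
    rw [c2_eval_const hP, ← h6]
    refine Finset.sum_congr rfl fun i _ => ?_
    rw [map_mul, map_pow, hθd]
  have h6 : C ((P.map constantCoeff).derivative.eval θ) * η =
      -(η ^ 2 * ∑ i ∈ Finset.range (S + 1), C (constantCoeff (P.coeff i)) * r i) -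
        ∑ i ∈ Finset.range (S + 1), (rs ρ (P.coeff i) - C (constantCoeff (P.coeff i))) *
          rs ρ Θ ^ i := by
    rw [h4, h5, map_zero] at h3
    linear_combination h3
  have h7 : pn k (∑ i ∈ Finset.range (S + 1), C (constantCoeff (P.coeff i)) * r i) ≤ KH S H := by
    refine (pn_sum _ _ _).trans (c2_sum_le fun i => ?_)
    rw [pn_C_mul]
    refine mul_le_mul (hb i) ((hr1 i).trans ?_) (pn_nonneg _ _) hH0
    refine mul_le_mul_of_nonneg_right ?_ (by positivity)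
    linarith
  have h8 : pn k (η ^ 2 * ∑ i ∈ Finset.range (S + 1), C (constantCoeff (P.coeff i)) * r i) ≤
      KH S H * pn k η ^ 2 := by
    refine (pn_mul _ _ _).trans ?_
    rw [mul_comm (KH S H)]
    exact mul_le_mul (pn_pow _ _ _) h7 (pn_nonneg _ _) (by positivity)
  have h9 := c2_err (S := S) (P := P) hH hΨ h0 h1 hc (by rw [← hθd]; exact hθ) (by rw [← hηd]; exact hη)
  rw [← pn_C_mul, h6]
  refine (pn_sub _ _ _).trans (add_le_add ?_ h9)
  rw [pn_neg]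
  exact h8

/-- The deviation is a continuous function of the scaling. -/
theorem c2_cont (k : ℕ) (Θ : PowerSeries ℂ) :
    Continuous fun ρ : ℝ => pn k (rs ρ Θ - C (constantCoeff Θ)) := by
  unfold pn
  refine continuous_finsetSum _ fun l _ => Continuous.norm ?_
  have h : (fun ρ : ℝ => coeff l (rs ρ Θ - C (constantCoeff Θ))) =
      fun ρ : ℝ => (ρ : ℂ) ^ l * coeff l Θ - coeff l (C (constantCoeff Θ)) := by
    funext ρ
    rw [map_sub, coeff_rs]
  rw [h]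
  fun_prop

theorem c2_zero (k : ℕ) (Θ : PowerSeries ℂ) : pn k (rs 0 Θ - C (constantCoeff Θ)) = 0 := by
  have h := pn_rs_sub_le (le_refl (0 : ℝ)) zero_le_one k Θ
  rw [zero_mul] at h
  exact le_antisymm h (pn_nonneg _ _)

end Root

/-- THE ROOT LEMMA. -/
theorem root_small (S : ℕ) {H β : ℝ} (hH : 1 ≤ H) (hβ : 0 < β) (hβ1 : β ≤ 1) :
    ∃ c : ℝ, 0 < c ∧ c ≤ 1 ∧ ∀ (k : ℕ) (P : Polynomial (PowerSeries ℂ)) (Θ : PowerSeries ℂ)
      (δ Ψ : ℝ), P.natDegree ≤ S → (∀ i, ‖constantCoeff (P.coeff i)‖ ≤ H) →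
      (∀ i, pn k (P.coeff i - C (constantCoeff (P.coeff i))) ≤ H * Ψ) → P.eval Θ = 0 →
      ‖constantCoeff Θ‖ ≤ H → 0 < δ → δ ≤ 1 → 1 ≤ Ψ →
      δ ≤ ‖(P.map constantCoeff).derivative.eval (constantCoeff Θ)‖ →
      ∀ ρ : ℝ, 0 ≤ ρ → ρ * Ψ ≤ c * δ ^ 2 → pn k (rs ρ Θ - C (constantCoeff Θ)) ≤ β * δ := by
  set K : ℝ := KH S H with hK
  have hK1 : 1 ≤ K := one_le_KH (by linarith)
  set β' : ℝ := min β (1 / (2 * K)) with hβ'
  have hβ'0 : 0 < β' := lt_min hβ (by positivity)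
  have hβ'1 : β' ≤ β := min_le_left _ _
  have hβ'2 : K * β' ≤ 1 / 2 := by
    have h1 : β' ≤ 1 / (2 * K) := min_le_right _ _
    calc K * β' ≤ K * (1 / (2 * K)) := mul_le_mul_of_nonneg_left h1 (by linarith)
      _ = 1 / 2 := by field_simp
  refine ⟨β' / (4 * K), by positivity, ?_, ?_⟩
  · rw [div_le_one (by positivity)]
    linarith
  intro k P Θ δ Ψ hP hb hc hroot hθ hδ hδ1 hΨ hΔ ρ hρ hρ1
  have hρ2 : ρ ≤ 1 := by
    have h1 : ρ * 1 ≤ ρ * Ψ := mul_le_mul_of_nonneg_left hΨ hρ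
    have h2 : β' / (4 * K) * δ ^ 2 ≤ 1 := by
      have h3 : β' / (4 * K) ≤ 1 := by
        rw [div_le_one (by positivity)]
        linarith
      have h4 : δ ^ 2 ≤ 1 := pow_le_one₀ hδ.le hδ1
      exact mul_le_one₀ h3 (by positivity) h4
    linarith
  by_contra hcon
  push Not at hcon
  have hcon' : β' * δ < pn k (rs ρ Θ - C (constantCoeff Θ)) :=
    lt_of_le_of_lt (mul_le_mul_of_nonneg_right hβ'1 hδ.le) hcon
  have hivt := intermediate_value_Icc hρ (f := fun r : ℝ => pn k (rs r Θ - C (constantCoeff Θ)))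
    (c2_cont k Θ).continuousOn
  have hmem : β' * δ ∈ Set.Icc (pn k (rs 0 Θ - C (constantCoeff Θ)))
      (pn k (rs ρ Θ - C (constantCoeff Θ))) := by
    rw [c2_zero]
    exact ⟨by positivity, hcon'.le⟩
  obtain ⟨r, ⟨hr0, hr1⟩, hr⟩ := hivt hmem
  simp only at hr
  have hβδ : β' * δ ≤ 1 := mul_le_one₀ (hβ'1.trans hβ1) hδ.le hδ1
  have h1 := c2_ineq (k := k) (ρ := r) hH (by linarith) hr0 (hr1.trans hρ2) hP hb hc hroot hθ
    (by rw [hr]; exact hβδ)
  rw [hr, ← hK] at h1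
  have h2 : δ * (β' * δ) ≤ K * (β' * δ) ^ 2 + K * (r * Ψ) :=
    (mul_le_mul_of_nonneg_right hΔ (by positivity)).trans h1
  have h3 : K * (r * Ψ) ≤ β' / 4 * δ ^ 2 := by
    have h4 : r * Ψ ≤ β' / (4 * K) * δ ^ 2 :=
      (mul_le_mul_of_nonneg_right hr1 (by linarith)).trans hρ1
    calc K * (r * Ψ) ≤ K * (β' / (4 * K) * δ ^ 2) := mul_le_mul_of_nonneg_left h4 (by linarith)
      _ = β' / 4 * δ ^ 2 := by field_simp
  have h5 : K * (β' * δ) ^ 2 ≤ β' / 2 * δ ^ 2 := by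
    calc K * (β' * δ) ^ 2 = (K * β') * (β' * δ ^ 2) := by ring
      _ ≤ 1 / 2 * (β' * δ ^ 2) := mul_le_mul_of_nonneg_right hβ'2 (by positivity)
      _ = β' / 2 * δ ^ 2 := by ring
  have h6 : 0 < β' * δ ^ 2 := by positivity
  nlinarith

end Pool.Agent.H24V
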