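import Pool.Agent.Lib.H24V.C2

set_option autoImplicit false

/-!
H24V, module C: the local lemma for formal power series.
-/

namespace Pool.Agent.H24V

open PowerSeries

/-- The value of a polynomial at the root is close to its constant term. -/
theorem c3_eval {S k : ℕ} {H Ψ ρ : ℝ} {B : Polynomial (PowerSeries ℂ)} {Θ : PowerSeries ℂ}
    (hH : 1 ≤ H) (hΨ : 0 ≤ Ψ) (h0 : 0 ≤ ρ) (h1 : ρ ≤ 1) (hB : B.natDegree ≤ S)
    (hb : ∀ i, ‖constantCoeff (B.coeff i)‖ ≤ H)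
    (hc : ∀ i, pn k (B.coeff i - C (constantCoeff (B.coeff i))) ≤ H * Ψ)
    (hθ : ‖constantCoeff Θ‖ ≤ H) (hη : pn k (rs ρ Θ - C (constantCoeff Θ)) ≤ 1) :
    pn k (rs ρ (B.eval Θ) - C ((B.map constantCoeff).eval (constantCoeff Θ))) ≤
      KH S H * (2 * pn k (rs ρ Θ - C (constantCoeff Θ)) + ρ * Ψ) := by
  have hH0 : 0 ≤ H := by linarith
  obtain ⟨θ, hθd⟩ : ∃ θ, θ = constantCoeff Θ := ⟨_, rfl⟩
  obtain ⟨η, hηd⟩ : ∃ η, η = rs ρ Θ - C (constantCoeff Θ) := ⟨_, rfl⟩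
  have hsum : rs ρ Θ = C θ + η := by rw [hηd, hθd]; ring
  have h9 := c2_err (S := S) (P := B) hH hΨ h0 h1 hc hθ hη
  rw [← hηd] at hη ⊢
  rw [← hθd] at hθ ⊢
  choose r hr hr1 using c2_expand (k := k) hH0 hθ hη
  have h3 : rs ρ (B.eval Θ) - C ((B.map constantCoeff).eval θ) =
      ∑ i ∈ Finset.range (S + 1), (rs ρ (B.coeff i) - C (constantCoeff (B.coeff i))) *
        rs ρ Θ ^ i +
      (η * ∑ i ∈ Finset.range (S + 1), C (constantCoeff (B.coeff i)) * C ((i : ℂ) * θ ^ (i - 1)) +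
        η ^ 2 * ∑ i ∈ Finset.range (S + 1), C (constantCoeff (B.coeff i)) * r i) := by
    rw [c2_eval hB, c2_eval_const hB, map_sum, Finset.mul_sum, Finset.mul_sum,
      ← Finset.sum_add_distrib, ← Finset.sum_add_distrib, ← Finset.sum_sub_distrib]
    refine Finset.sum_congr rfl fun i _ => ?_
    rw [hsum, hr i]
    simp only [map_mul]
    ring
  have h7 : pn k (∑ i ∈ Finset.range (S + 1), C (constantCoeff (B.coeff i)) * r i) ≤ KH S H := by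
    refine (pn_sum _ _ _).trans (c2_sum_le fun i => ?_)
    rw [pn_C_mul]
    refine mul_le_mul (hb i) ((hr1 i).trans ?_) (pn_nonneg _ _) hH0
    refine mul_le_mul_of_nonneg_right ?_ (by positivity)
    linarith
  have h8 : pn k (∑ i ∈ Finset.range (S + 1), C (constantCoeff (B.coeff i)) *
      C ((i : ℂ) * θ ^ (i - 1))) ≤ KH S H := by
    refine (pn_sum _ _ _).trans (c2_sum_le fun i => ?_)
    rw [pn_C_mul, pn_C]
    refine mul_le_mul (hb i) ?_ (norm_nonneg _) hH0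
    rw [norm_mul, norm_pow, Complex.norm_natCast]
    have h10 : (1 : ℝ) ≤ H + 1 := by linarith
    calc (i : ℝ) * ‖θ‖ ^ (i - 1) ≤ (i : ℝ) * (H + 1) ^ i := by
          refine mul_le_mul_of_nonneg_left ?_ (Nat.cast_nonneg _)
          calc ‖θ‖ ^ (i - 1) ≤ (H + 1) ^ (i - 1) := pow_le_pow_left₀ (norm_nonneg _) (by linarith) _
            _ ≤ (H + 1) ^ i := pow_le_pow_right₀ h10 (by omega)
      _ ≤ ((i : ℝ) ^ 2 + 1) * (H + 1) ^ i := by
          refine mul_le_mul_of_nonneg_right ?_ (by positivity)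
          nlinarith [sq_nonneg ((i : ℝ) - 1), sq_nonneg (i : ℝ)]
  have hK : 0 ≤ KH S H := zero_le_one.trans (one_le_KH hH0)
  have hη0 := pn_nonneg k η
  rw [h3]
  refine (pn_add _ _ _).trans ?_
  have h11 : pn k (η * ∑ i ∈ Finset.range (S + 1), C (constantCoeff (B.coeff i)) *
      C ((i : ℂ) * θ ^ (i - 1))) ≤ KH S H * pn k η := by
    refine (pn_mul _ _ _).trans ?_
    rw [mul_comm]
    exact mul_le_mul_of_nonneg_right h8 hη0
  have h12 : pn k (η ^ 2 * ∑ i ∈ Finset.range (S + 1), C (constantCoeff (B.coeff i)) * r i) ≤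
      KH S H * pn k η := by
    refine (pn_mul _ _ _).trans ?_
    rw [mul_comm]
    refine mul_le_mul h7 ?_ (pn_nonneg _ _) hK
    refine (pn_pow _ _ _).trans ?_
    rw [pow_two]
    exact mul_le_of_le_one_left hη0 hη
  have h13 := pn_add k (η * ∑ i ∈ Finset.range (S + 1), C (constantCoeff (B.coeff i)) *
      C ((i : ℂ) * θ ^ (i - 1))) (η ^ 2 * ∑ i ∈ Finset.range (S + 1), C (constantCoeff (B.coeff i)) * r i)
  nlinarith

/-- THE LOCAL LEMMA. -/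
theorem local_lemma (S N : ℕ) {H : ℝ} (hH : 1 ≤ H) :
    ∃ K : ℝ, 1 ≤ K ∧ ∀ (k : ℕ) (P : Polynomial (PowerSeries ℂ))
      (B : Fin (N + 1) → Polynomial (PowerSeries ℂ)) (Θ : PowerSeries ℂ) (Δ : ℂ)
      (g : Fin (N + 1) → ℂ) (δ Ψ : ℝ),
      P.natDegree ≤ S → (∀ i, ‖constantCoeff (P.coeff i)‖ ≤ H) →
      (∀ i, pn k (P.coeff i - C (constantCoeff (P.coeff i))) ≤ H * Ψ) →
      (∀ a, (B a).natDegree ≤ S) → (∀ a i, ‖constantCoeff ((B a).coeff i)‖ ≤ H) →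
      (∀ a i, pn k ((B a).coeff i - C (constantCoeff ((B a).coeff i))) ≤ H * Ψ) →
      P.eval Θ = 0 → ‖constantCoeff Θ‖ ≤ H → 0 < δ → δ ≤ 1 → 1 ≤ Ψ → δ ≤ ‖Δ‖ →
      (P.map constantCoeff).derivative.eval (constantCoeff Θ) = Δ →
      (∀ a, ((B a).map constantCoeff).eval (constantCoeff Θ) = Δ * g a) →
      (∀ a, ‖g a‖ ≤ H) → g 0 ≠ 0 →
      ∀ a, ∀ l ≤ k, ‖coeff l ((B a).eval Θ * ((B 0).eval Θ)⁻¹)‖ ≤
        (K * (Ψ / (δ ^ 2 * ‖g 0‖))) ^ (l + 1) := by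
  have hH0 : 0 ≤ H := by linarith
  set K₀ : ℝ := KH S H with hK₀
  have hK1 : 1 ≤ K₀ := one_le_KH hH0
  obtain ⟨c, hc0, hc1, hroot⟩ := root_small S hH (β := 1 / (4 * K₀)) (by positivity) (by
    rw [div_le_one (by positivity)]
    linarith)
  set c' : ℝ := min c (1 / (2 * K₀)) with hc'
  have hc'0 : 0 < c' := lt_min hc0 (by positivity)
  refine ⟨max (2 * (H + 1)) (2 * H / c'), le_trans (by linarith) (le_max_left _ _), ?_⟩
  intro k P B Θ Δ g δ Ψ hP hPb hPc hB hBb hBc hPΘ hθ hδ hδ1 hΨ hΔ hΔ1 hBg hg hg0 a l hl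
  have hΨ0 : 0 < Ψ := by linarith
  have hΔ0 : 0 < ‖Δ‖ := hδ.trans_le hΔ
  have hΔne : Δ ≠ 0 := norm_pos_iff.1 hΔ0
  have hg00 : 0 < ‖g 0‖ := norm_pos_iff.2 hg0
  -- the first scaling
  set ρ : ℝ := c' * δ ^ 2 / Ψ with hρ
  have hρ0 : 0 < ρ := by positivity
  have hρΨ : ρ * Ψ = c' * δ ^ 2 := by rw [hρ]; field_simp
  have hδ2 : δ ^ 2 ≤ δ := by nlinarith
  have hc'1 : c' ≤ 1 := (min_le_left _ _).trans hc1
  have hρ1 : ρ ≤ 1 := by
    have h1 : ρ * 1 ≤ ρ * Ψ := mul_le_mul_of_nonneg_left hΨ hρ0.le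
    have h2 : c' * δ ^ 2 ≤ 1 := mul_le_one₀ hc'1 (by positivity) (by nlinarith)
    linarith
  have hη := hroot k P Θ δ Ψ hP hPb hPc hPΘ hθ hδ hδ1 hΨ (by rw [hΔ1]; exact hΔ) ρ hρ0.le (by
    rw [hρΨ]
    exact mul_le_mul_of_nonneg_right (min_le_left _ _) (by positivity))
  have hη1 : pn k (rs ρ Θ - C (constantCoeff Θ)) ≤ 1 := by
    refine hη.trans (mul_le_one₀ ?_ hδ.le hδ1)
    rw [div_le_one (by positivity)]
    linarith
  have hdev : ∀ a, pn k (rs ρ ((B a).eval Θ) - C (Δ * g a)) ≤ δ := by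
    intro a
    have h1 := c3_eval (k := k) (ρ := ρ) hH hΨ0.le hρ0.le hρ1 (hB a) (hBb a) (hBc a) hθ hη1
    rw [hBg a, ← hK₀, hρΨ] at h1
    refine h1.trans ?_
    have h2 : K₀ * (2 * pn k (rs ρ Θ - C (constantCoeff Θ))) ≤ δ / 2 := by
      calc K₀ * (2 * pn k (rs ρ Θ - C (constantCoeff Θ))) ≤ K₀ * (2 * (1 / (4 * K₀) * δ)) := by
            gcongr
        _ = δ / 2 := by field_simp; ring
    have h3 : K₀ * (c' * δ ^ 2) ≤ δ / 2 := by
      calc K₀ * (c' * δ ^ 2) ≤ K₀ * (1 / (2 * K₀) * δ) := by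
            gcongr
            exact min_le_right _ _
        _ = δ / 2 := by field_simp
    linarith
  -- the normalized series
  obtain ⟨V, hV⟩ : ∃ V : Fin (N + 1) → PowerSeries ℂ, ∀ a, V a = C Δ⁻¹ * (B a).eval Θ := ⟨_, fun _ => rfl⟩
  have hVc : ∀ a, constantCoeff (V a) = g a := by
    intro a
    have h1 : constantCoeff ((B a).eval Θ) = Δ * g a := by
      rw [← hBg a, Polynomial.eval_eq_sum_range, map_sum, c2_eval_const (le_refl _)]
      refine Finset.sum_congr rfl fun i _ => ?_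
      rw [map_mul, map_pow]
    rw [hV, map_mul, h1, constantCoeff_C, ← mul_assoc, inv_mul_cancel₀ hΔne, one_mul]
  have hVdev : ∀ a, pn k (rs ρ (V a) - C (g a)) ≤ 1 := by
    intro a
    have h1 : rs ρ (V a) - C (g a) = C Δ⁻¹ * (rs ρ ((B a).eval Θ) - C (Δ * g a)) := by
      rw [hV, map_mul, rs_C, map_mul, mul_sub, ← mul_assoc (C Δ⁻¹) (C Δ), ← map_mul,
        inv_mul_cancel₀ hΔne, map_one, one_mul]
    rw [h1, pn_C_mul, norm_inv]
    calc ‖Δ‖⁻¹ * pn k (rs ρ ((B a).eval Θ) - C (Δ * g a)) ≤ ‖Δ‖⁻¹ * ‖Δ‖ :=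
          mul_le_mul_of_nonneg_left ((hdev a).trans hΔ) (by positivity)
      _ = 1 := inv_mul_cancel₀ hΔ0.ne'
  -- the second scaling
  set σ : ℝ := ‖g 0‖ / (2 * H) with hσ
  have hσ0 : 0 < σ := by positivity
  have hσ1 : σ ≤ 1 := by
    rw [hσ, div_le_one (by positivity)]
    have := hg 0
    linarith
  have hσ2 : σ ≤ ‖g 0‖ / 2 := by
    rw [hσ]
    refine div_le_div_of_nonneg_left hg00.le (by norm_num) (by linarith)
  have hVs : ∀ a, pn k (rs (σ * ρ) (V a)) ≤ H + 1 := by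
    intro a
    rw [rs_mul]
    refine (pn_rs_le hσ0.le hσ1 _ _).trans ?_
    have h1 : rs ρ (V a) = (rs ρ (V a) - C (g a)) + C (g a) := by ring
    rw [h1]
    refine (pn_add _ _ _).trans ?_
    rw [pn_C]
    linarith [hVdev a, hg a]
  have hV0 : pn k (rs (σ * ρ) (V 0))⁻¹ ≤ 2 / ‖g 0‖ := by
    have h1 : constantCoeff (rs (σ * ρ) (V 0)) = g 0 := by rw [const_rs, hVc]
    have h2 : pn k (rs (σ * ρ) (V 0) - C (g 0)) ≤ ‖g 0‖ / 2 := by
      have h3 := pn_rs_sub_le hσ0.le hσ1 k (rs ρ (V 0))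
      rw [const_rs, hVc, ← rs_mul] at h3
      refine h3.trans ?_
      calc σ * pn k (rs ρ (V 0) - C (g 0)) ≤ σ * 1 := mul_le_mul_of_nonneg_left (hVdev 0) hσ0.le
        _ ≤ ‖g 0‖ / 2 := by rw [mul_one]; exact hσ2
    have h4 := pn_inv_le (k := k) (f := rs (σ * ρ) (V 0)) (by rw [h1]; exact hg0) (by rw [h1]; exact h2)
    rwa [h1] at h4
  have hquot : rs (σ * ρ) ((B a).eval Θ * ((B 0).eval Θ)⁻¹) =
      rs (σ * ρ) (V a) * (rs (σ * ρ) (V 0))⁻¹ := by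
    have h1 : constantCoeff (V 0) ≠ 0 := by rw [hVc]; exact hg0
    have h2 : constantCoeff ((B 0).eval Θ) ≠ 0 := by
      intro h3
      apply h1
      rw [hV, map_mul, h3, mul_zero]
    have h3 : constantCoeff (rs (σ * ρ) (V 0)) ≠ 0 := by rw [const_rs]; exact h1
    rw [PowerSeries.eq_mul_inv_iff_mul_eq h3, ← map_mul]
    congr 1
    rw [hV, hV]
    have h4 : ((B 0).eval Θ)⁻¹ * (B 0).eval Θ = 1 := PowerSeries.inv_mul_cancel _ h2
    linear_combination (C Δ⁻¹ * (B a).eval Θ) * h4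
  have hfin : ‖coeff l ((B a).eval Θ * ((B 0).eval Θ)⁻¹)‖ * (σ * ρ) ^ l ≤ (H + 1) * (2 / ‖g 0‖) := by
    have h1 := coeff_le_pn hl (rs (σ * ρ) ((B a).eval Θ * ((B 0).eval Θ)⁻¹))
    rw [norm_coeff_rs (by positivity)] at h1
    rw [mul_comm]
    refine h1.trans ?_
    rw [hquot]
    exact (pn_mul _ _ _).trans (mul_le_mul (hVs a) hV0 (pn_nonneg _ _) (by linarith))
  -- conclusion
  set W : ℝ := max (2 * (H + 1)) (2 * H / c') * (Ψ / (δ ^ 2 * ‖g 0‖)) with hW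
  have hδ21 : δ ^ 2 ≤ 1 := by nlinarith
  have hW1 : (H + 1) * (2 / ‖g 0‖) ≤ W := by
    have h1 : 1 / ‖g 0‖ ≤ Ψ / (δ ^ 2 * ‖g 0‖) := by
      rw [div_le_div_iff₀ hg00 (by positivity)]
      nlinarith
    calc (H + 1) * (2 / ‖g 0‖) = 2 * (H + 1) * (1 / ‖g 0‖) := by ring
      _ ≤ max (2 * (H + 1)) (2 * H / c') * (Ψ / (δ ^ 2 * ‖g 0‖)) :=
          mul_le_mul (le_max_left _ _) h1 (by positivity) (by positivity)
  have hW2 : 1 / (σ * ρ) ≤ W := by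
    have h1 : 1 / (σ * ρ) = 2 * H / c' * (Ψ / (δ ^ 2 * ‖g 0‖)) := by
      rw [hσ, hρ]
      field_simp
    rw [h1]
    exact mul_le_mul_of_nonneg_right (le_max_right _ _) (by positivity)
  have hσρ : 0 < σ * ρ := by positivity
  have hW0 : 0 ≤ W := le_trans (by positivity) hW2
  calc ‖coeff l ((B a).eval Θ * ((B 0).eval Θ)⁻¹)‖
      = ‖coeff l ((B a).eval Θ * ((B 0).eval Θ)⁻¹)‖ * (σ * ρ) ^ l * (1 / (σ * ρ)) ^ l := by
        rw [mul_assoc, ← mul_pow, mul_one_div_cancel hσρ.ne', one_pow, mul_one]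
    _ ≤ W * W ^ l := mul_le_mul (hfin.trans hW1) (pow_le_pow_left₀ (by positivity) hW2 _)
        (by positivity) hW0
    _ = W ^ (l + 1) := by rw [pow_succ]; ring

end Pool.Agent.H24V
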