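import Pool.Agent.Lib.H24V.D0

set_option autoImplicit false

/-!
H24V: the calculus of the values at places.
-/

open MvPolynomial

namespace Pool.Agent.H24V

open Pool.Agent.H89T Pool.Agent.H67T Pool.Agent.H53U Pool.Agent.H53V

variable {L : Type} [CommRing L] [Algebra ℂ L] {D : Derivation ℂ L L}

namespace Place

variable (p : Place L D)

theorem val_eq {x : L} (h : x ∈ p.O) : p.val x = p.hom ⟨x, h⟩ := dif_pos h

theorem val_add {x y : L} (hx : x ∈ p.O) (hy : y ∈ p.O) : p.val (x + y) = p.val x + p.val y := by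
  rw [p.val_eq (add_mem hx hy), p.val_eq hx, p.val_eq hy, ← map_add]
  rfl

theorem val_mul {x y : L} (hx : x ∈ p.O) (hy : y ∈ p.O) : p.val (x * y) = p.val x * p.val y := by
  rw [p.val_eq (mul_mem hx hy), p.val_eq hx, p.val_eq hy, ← map_mul]
  rfl

theorem val_algebraMap (t : ℂ) : p.val (algebraMap ℂ L t) = t := by
  rw [p.val_eq (p.O.algebraMap_mem t)]
  exact p.hom.commutes t

theorem val_zero : p.val 0 = 0 := by
  rw [p.val_eq (zero_mem p.O)]
  exact map_zero p.hom

theorem val_one : p.val 1 = 1 := by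
  rw [p.val_eq (one_mem p.O)]
  exact map_one p.hom

theorem val_smul (t : ℂ) {x : L} (hx : x ∈ p.O) : p.val (t • x) = t * p.val x := by
  rw [Algebra.smul_def, p.val_mul (p.O.algebraMap_mem t) hx, p.val_algebraMap]

theorem val_neg {x : L} (hx : x ∈ p.O) : p.val (-x) = - p.val x := by
  rw [p.val_eq (neg_mem hx), p.val_eq hx, ← map_neg]
  rfl

theorem val_sub {x y : L} (hx : x ∈ p.O) (hy : y ∈ p.O) : p.val (x - y) = p.val x - p.val y := by
  rw [p.val_eq (sub_mem hx hy), p.val_eq hx, p.val_eq hy, ← map_sub]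
  rfl

theorem val_pow {x : L} (hx : x ∈ p.O) (n : ℕ) : p.val (x ^ n) = p.val x ^ n := by
  rw [p.val_eq (pow_mem hx n), p.val_eq hx, ← map_pow]
  rfl

theorem val_sum {ι : Type*} (s : Finset ι) {f : ι → L} (hf : ∀ i ∈ s, f i ∈ p.O) :
    p.val (∑ i ∈ s, f i) = ∑ i ∈ s, p.val (f i) := by
  classical
  induction s using Finset.induction_on with
  | empty => simp [val_zero]
  | insert a s ha ih =>
    rw [Finset.sum_insert ha, Finset.sum_insert ha, p.val_add (hf a (Finset.mem_insert_self a s))
      (sum_mem fun i hi => hf i (Finset.mem_insert_of_mem hi)),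
      ih fun i hi => hf i (Finset.mem_insert_of_mem hi)]

theorem val_prod {ι : Type*} (s : Finset ι) {f : ι → L} (hf : ∀ i ∈ s, f i ∈ p.O) :
    p.val (∏ i ∈ s, f i) = ∏ i ∈ s, p.val (f i) := by
  classical
  induction s using Finset.induction_on with
  | empty => simp [val_one]
  | insert a s ha ih =>
    rw [Finset.prod_insert ha, Finset.prod_insert ha, p.val_mul (hf a (Finset.mem_insert_self a s))
      (prod_mem fun i hi => hf i (Finset.mem_insert_of_mem hi)),
      ih fun i hi => hf i (Finset.mem_insert_of_mem hi)]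

theorem natCast_memO (n : ℕ) : (n : L) ∈ p.O := _root_.natCast_mem p.O n

theorem val_natCast (n : ℕ) : p.val (n : L) = n := by
  have h := p.val_algebraMap (n : ℂ)
  rwa [map_natCast] at h

theorem iter_mem {x : L} (hx : x ∈ p.O) (l : ℕ) : D^[l] x ∈ p.O := by
  induction l with
  | zero => exact hx
  | succ l ih =>
    rw [Function.iterate_succ_apply']
    exact p.stable _ ih

theorem aeval_mem {σ : Type*} {g : σ → L} (hg : ∀ i, g i ∈ p.O) (P : MvPolynomial σ ℂ) :
    aeval g P ∈ p.O := by
  induction P using MvPolynomial.induction_on with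
  | C a => rw [aeval_C]; exact p.O.algebraMap_mem a
  | add P Q hP hQ => rw [map_add]; exact add_mem hP hQ
  | mul_X P i hP => rw [map_mul, aeval_X]; exact mul_mem hP (hg i)

theorem val_aeval {σ : Type*} {g : σ → L} (hg : ∀ i, g i ∈ p.O) (P : MvPolynomial σ ℂ) :
    p.val (aeval g P) = eval (fun i => p.val (g i)) P := by
  induction P using MvPolynomial.induction_on with
  | C a => rw [aeval_C, eval_C]; exact p.val_algebraMap a
  | add P Q hP hQ =>
    rw [map_add, map_add, p.val_add (p.aeval_mem hg P) (p.aeval_mem hg Q), hP, hQ]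
  | mul_X P i hP =>
    rw [map_mul, map_mul, aeval_X, eval_X, p.val_mul (p.aeval_mem hg P) (hg i), hP]

theorem linc_mem {n : ℕ} (l : Fin n → ℂ) {y : Fin n → L} (hy : ∀ i, y i ∈ p.O) :
    linc l y ∈ p.O :=
  sum_mem fun i _ => p.O.smul_mem (hy i) (l i)

theorem val_linc {n : ℕ} (l : Fin n → ℂ) {y : Fin n → L} (hy : ∀ i, y i ∈ p.O) :
    p.val (linc l y) = linc l fun i => p.val (y i) := by
  unfold linc
  rw [p.val_sum _ fun i _ => p.O.smul_mem (hy i) (l i)]
  exact Finset.sum_congr rfl fun i _ => p.val_smul (l i) (hy i)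

theorem jetL_mem {N k : ℕ} {f : Fin N → L} (hf : ∀ b, f b ∈ p.O) (q : JV N k) :
    jetL D k f q ∈ p.O :=
  p.O.smul_mem (p.iter_mem (hf q.1) _) _

theorem val_jetL {N k : ℕ} {f : Fin N → L} (hf : ∀ b, f b ∈ p.O) (q : JV N k) :
    p.val (jetL D k f q) = (((q.2 : ℕ).factorial : ℂ)⁻¹) * p.val (D^[(q.2 : ℕ)] (f q.1)) :=
  p.val_smul _ (p.iter_mem (hf q.1) _)

theorem pt_mem {N : ℕ} {f : Fin N → L} (hf : ∀ b, f b ∈ p.O) (a : Fin (N + 1)) : pt f a ∈ p.O := by
  refine Fin.cases ?_ (fun b => ?_) a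
  · exact one_mem p.O
  · exact hf b

theorem val_pt {N : ℕ} {f : Fin N → L} (a : Fin (N + 1)) :
    p.val (pt f a) = pt (fun b => p.val (f b)) a := by
  refine Fin.cases ?_ (fun b => ?_) a
  · exact p.val_one
  · rfl

end Place

/-- The formula of Leibniz. -/
theorem leib (x y : L) (l : ℕ) :
    D^[l] (x * y) = ∑ i ∈ Finset.range (l + 1), (l.choose i : L) * (D^[i] x * D^[l - i] y) := by
  induction l with
  | zero => simp
  | succ l ih =>
    rw [Function.iterate_succ_apply', ih, map_sum]
    have h1 : ∀ i ∈ Finset.range (l + 1), D ((l.choose i : L) * (D^[i] x * D^[l - i] y)) =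
        (l.choose i : L) * (D^[i + 1] x * D^[l - i] y) + (l.choose i : L) * (D^[i] x * D^[l + 1 - i] y) := by
      intro i hi
      have hi' : i ≤ l := Nat.lt_succ_iff.1 (Finset.mem_range.1 hi)
      rw [Derivation.leibniz, Derivation.leibniz, Derivation.map_natCast, Function.iterate_succ_apply' D i,
        show l + 1 - i = (l - i) + 1 by omega, Function.iterate_succ_apply' D (l - i)]
      simp only [smul_eq_mul]
      ring
    rw [Finset.sum_congr rfl h1, Finset.sum_add_distrib, Finset.sum_range_succ' _ (l + 1),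
      Finset.sum_range_succ (fun i => (l.choose i : L) * (D^[i + 1] x * D^[l - i] y)),
      Finset.sum_range_succ' (fun i => (l.choose i : L) * (D^[i] x * D^[l + 1 - i] y)) l]
    have h2 : ∀ i ∈ Finset.range l, (((l + 1).choose (i + 1) : ℕ) : L) *
        (D^[i + 1] x * D^[l + 1 - (i + 1)] y) = (l.choose i : L) * (D^[i + 1] x * D^[l - i] y) +
        (l.choose (i + 1) : L) * (D^[i + 1] x * D^[l + 1 - (i + 1)] y) := by
      intro i _
      rw [Nat.choose_succ_succ, Nat.cast_add, Nat.succ_eq_add_one, show l + 1 - (i + 1) = l - i by omega]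
      ring
    rw [Finset.sum_range_succ (fun i => (((l + 1).choose (i + 1) : ℕ) : L) *
        (D^[i + 1] x * D^[l + 1 - (i + 1)] y)), Finset.sum_congr rfl h2, Finset.sum_add_distrib]
    simp only [Nat.choose_self, Nat.choose_zero_right, Nat.sub_self, Nat.sub_zero]
    ring

end Pool.Agent.H24V
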