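import Pool.Agent.Lib.H24V.C3
import Pool.Agent.Lib.H24V.D1

set_option autoImplicit false

/-!
H24V, module C: the Taylor series at a place.
-/

namespace Pool.Agent.H24V

open Pool.Agent.H89T Pool.Agent.H67T Pool.Agent.H53U Pool.Agent.H53V

variable {L : Type} [CommRing L] [Algebra ℂ L] {D : Derivation ℂ L L}

/-- The Taylor series at a place of an element of the subalgebra. -/
noncomputable def Place.tay (p : Place L D) (x : L) : PowerSeries ℂ :=
  PowerSeries.mk fun l => ((l.factorial : ℂ)⁻¹) * p.val (D^[l] x)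

namespace Place

variable (p : Place L D)

theorem coeff_tay (l : ℕ) (x : L) :
    PowerSeries.coeff l (p.tay x) = ((l.factorial : ℂ)⁻¹) * p.val (D^[l] x) :=
  PowerSeries.coeff_mk _ _

theorem const_tay (x : L) : PowerSeries.constantCoeff (p.tay x) = p.val x := by
  rw [← PowerSeries.coeff_zero_eq_constantCoeff_apply, coeff_tay]
  simp

theorem tay_add {x y : L} (hx : x ∈ p.O) (hy : y ∈ p.O) : p.tay (x + y) = p.tay x + p.tay y := by
  ext l
  rw [map_add, coeff_tay, coeff_tay, coeff_tay]
  have h1 : D^[l] (x + y) = D^[l] x + D^[l] y := by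
    induction l with
    | zero => rfl
    | succ l ih => rw [Function.iterate_succ_apply', ih, map_add, Function.iterate_succ_apply',
        Function.iterate_succ_apply']
  rw [h1, p.val_add (p.iter_mem hx l) (p.iter_mem hy l)]
  ring

theorem tay_mul {x y : L} (hx : x ∈ p.O) (hy : y ∈ p.O) : p.tay (x * y) = p.tay x * p.tay y := by
  ext l
  rw [coeff_tay, leib, PowerSeries.coeff_mul]
  rw [p.val_sum _ fun i _ => mul_mem (p.natCast_memO _) (mul_mem (p.iter_mem hx _) (p.iter_mem hy _)),
    Finset.mul_sum]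
  rw [Finset.Nat.sum_antidiagonal_eq_sum_range_succ_mk]
  refine Finset.sum_congr rfl fun i hi => ?_
  have hi' : i ≤ l := Nat.lt_succ_iff.1 (Finset.mem_range.1 hi)
  rw [p.val_mul (p.natCast_memO _) (mul_mem (p.iter_mem hx _) (p.iter_mem hy _)),
    p.val_mul (p.iter_mem hx _) (p.iter_mem hy _), p.val_natCast, coeff_tay, coeff_tay]
  have h1 : ((l.factorial : ℂ)⁻¹) * (l.choose i : ℂ) =
      ((i.factorial : ℂ)⁻¹) * (((l - i).factorial : ℂ)⁻¹) := by
    have h2 := Nat.choose_mul_factorial_mul_factorial hi'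
    have h3 : (l.factorial : ℂ) ≠ 0 := Nat.cast_ne_zero.2 (Nat.factorial_ne_zero _)
    have h4 : (i.factorial : ℂ) ≠ 0 := Nat.cast_ne_zero.2 (Nat.factorial_ne_zero _)
    have h5 : ((l - i).factorial : ℂ) ≠ 0 := Nat.cast_ne_zero.2 (Nat.factorial_ne_zero _)
    field_simp
    rw [← h2]
    push_cast
    ring
  linear_combination (p.val (D^[i] x) * p.val (D^[l - i] y)) * h1

theorem tay_algebraMap (t : ℂ) : p.tay (algebraMap ℂ L t) = PowerSeries.C t := by
  ext l
  rw [coeff_tay, PowerSeries.coeff_C]
  rcases Nat.eq_zero_or_pos l with rfl | hl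
  · simp [p.val_algebraMap]
  · obtain ⟨j, rfl⟩ : ∃ j, l = j + 1 := ⟨l - 1, by omega⟩
    rw [Function.iterate_succ_apply, Derivation.map_algebraMap, if_neg (Nat.succ_ne_zero _)]
    have h1 : D^[j] (0 : L) = 0 := by
      induction j with
      | zero => rfl
      | succ j ih => rw [Function.iterate_succ_apply, map_zero, ih (Nat.succ_pos _)]
    rw [h1, p.val_zero, mul_zero]

theorem tay_zero : p.tay 0 = 0 := by
  have h := p.tay_algebraMap 0
  rwa [map_zero, map_zero] at h

theorem tay_one : p.tay 1 = 1 := by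
  have h := p.tay_algebraMap 1
  rwa [map_one, map_one] at h

/-- The Taylor series as a homomorphism. -/
noncomputable def tayHom : p.O →+* PowerSeries ℂ where
  toFun x := p.tay x.1
  map_one' := p.tay_one
  map_mul' x y := p.tay_mul x.2 y.2
  map_zero' := p.tay_zero
  map_add' x y := p.tay_add x.2 y.2

theorem tayHom_apply (x : p.O) : p.tayHom x = p.tay x.1 := rfl

theorem tay_sum {ι : Type*} (s : Finset ι) {f : ι → L} (hf : ∀ i ∈ s, f i ∈ p.O) :
    p.tay (∑ i ∈ s, f i) = ∑ i ∈ s, p.tay (f i) := by
  classical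
  induction s using Finset.induction_on with
  | empty => simp [tay_zero]
  | insert a s ha ih =>
    rw [Finset.sum_insert ha, Finset.sum_insert ha, p.tay_add (hf a (Finset.mem_insert_self a s))
      (sum_mem fun i hi => hf i (Finset.mem_insert_of_mem hi)),
      ih fun i hi => hf i (Finset.mem_insert_of_mem hi)]

theorem tay_pow {x : L} (hx : x ∈ p.O) (n : ℕ) : p.tay (x ^ n) = p.tay x ^ n := by
  induction n with
  | zero => rw [pow_zero, pow_zero, tay_one]
  | succ n ih => rw [pow_succ, pow_succ, p.tay_mul (pow_mem hx n) hx, ih]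

/-- The value of a polynomial with complex coefficients. -/
theorem tay_aeval {x : L} (hx : x ∈ p.O) (q : Polynomial ℂ) :
    Polynomial.aeval x q ∈ p.O ∧
      p.tay (Polynomial.aeval x q) = (q.map PowerSeries.C).eval (p.tay x) := by
  induction q using Polynomial.induction_on' with
  | add q r hq hr =>
    rw [map_add, Polynomial.map_add, Polynomial.eval_add]
    exact ⟨add_mem hq.1 hr.1, by rw [p.tay_add hq.1 hr.1, hq.2, hr.2]⟩
  | monomial n a =>
    rw [Polynomial.aeval_monomial, Polynomial.map_monomial, Polynomial.eval_monomial]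
    exact ⟨mul_mem (p.O.algebraMap_mem a) (pow_mem hx n),
      by rw [p.tay_mul (p.O.algebraMap_mem a) (pow_mem hx n), p.tay_algebraMap, p.tay_pow hx]⟩

end Place

/-- Transfer of the Taylor series under an extension. -/
theorem tay_transfer {K' L' : Type} [CommRing K'] [Algebra ℂ K'] [CommRing L'] [Algebra ℂ L']
    [Algebra K' L'] {D' : Derivation ℂ K' K'} {D'' : Derivation ℂ L' L'}
    (hD : ∀ x, D'' (algebraMap K' L' x) = algebraMap K' L' (D' x)) (p : Place K' D') (q : Place L' D'')
    (h : ∀ x ∈ p.O, algebraMap K' L' x ∈ q.O ∧ q.val (algebraMap K' L' x) = p.val x) {x : K'}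
    (hx : x ∈ p.O) : q.tay (algebraMap K' L' x) = p.tay x := by
  ext l
  rw [Place.coeff_tay, Place.coeff_tay]
  have h1 : D''^[l] (algebraMap K' L' x) = algebraMap K' L' (D'^[l] x) := by
    induction l with
    | zero => rfl
    | succ l ih => rw [Function.iterate_succ_apply', ih, hD, Function.iterate_succ_apply']
  rw [h1, (h _ (p.iter_mem hx l)).2]

end Pool.Agent.H24V
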