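import Pool.Agent.Lib.H24V.C0D
import Pool.Agent.Lib.H53U.Q3

set_option autoImplicit false

/-!
H24V, module C: products of linear forms on a pencil; linear forms in general position.
-/

open MvPolynomial

namespace Pool.Agent.H24V

open Pool.Agent.H89T Pool.Agent.H67T Pool.Agent.H53U Pool.Agent.H53V

/-- The polynomial `m (X u - v)` in one variable. -/
noncomputable def pe {n : ℕ} (u v : Fin n → ℂ) : MvPolynomial (Fin n) ℂ →ₐ[ℂ] Polynomial ℂ :=
  aeval fun a => Polynomial.C (u a) * Polynomial.X - Polynomial.C (v a)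

theorem pe_lf {n : ℕ} (u v g : Fin n → ℂ) :
    pe u v (lf g) = Polynomial.C (linc u g) * Polynomial.X - Polynomial.C (linc v g) := by
  unfold pe lf linc
  rw [map_sum, map_sum, map_sum, Finset.sum_mul, ← Finset.sum_sub_distrib]
  refine Finset.sum_congr rfl fun a _ => ?_
  rw [map_mul, aeval_C, aeval_X, Polynomial.algebraMap_eq, smul_eq_mul, smul_eq_mul, map_mul, map_mul]
  ring

theorem pe_prod {n S : ℕ} {u v : Fin n → ℂ} {g : Fin S → Fin n → ℂ} (hg : ∀ j, linc u (g j) = 1) :
    pe u v (∏ j, lf (g j)) = ∏ j, (Polynomial.X - Polynomial.C (linc v (g j))) := by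
  rw [map_prod]
  refine Finset.prod_congr rfl fun j _ => ?_
  rw [pe_lf, hg, map_one, one_mul]

theorem pderiv_lf {n : ℕ} {A : Type} [CommRing A] (x : Fin n → A) (a : Fin n) :
    pderiv a (lf x) = C (x a) := by
  unfold lf
  rw [map_sum, Finset.sum_eq_single a]
  · rw [Derivation.leibniz, pderiv_C, pderiv_X_self]
    simp
  · intro b _ hb
    rw [Derivation.leibniz, pderiv_C, pderiv_X_of_ne hb]
    simp
  · exact fun h => absurd (Finset.mem_univ _) h

theorem c5_deriv_prod {S : ℕ} (θ : Fin S → ℂ) (i : Fin S) :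
    (∏ j, (Polynomial.X - Polynomial.C (θ j))).derivative.eval (θ i) =
      ∏ j ∈ Finset.univ.erase i, (θ i - θ j) := by
  classical
  rw [Polynomial.derivative_prod_finset, Polynomial.eval_finsetSum, Finset.sum_eq_single i]
  · rw [Polynomial.derivative_sub, Polynomial.derivative_X, Polynomial.derivative_C, sub_zero, mul_one,
      Polynomial.eval_prod]
    refine Finset.prod_congr rfl fun j _ => ?_
    simp
  · intro j _ hj
    rw [Polynomial.eval_mul, Polynomial.eval_prod, Finset.prod_eq_zero (i := i), zero_mul]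
    · exact Finset.mem_erase.2 ⟨hj.symm, Finset.mem_univ _⟩
    · simp
  · exact fun h => absurd (Finset.mem_univ _) h

theorem pe_pderiv {n S : ℕ} {u v : Fin n → ℂ} {g : Fin S → Fin n → ℂ} (hg : ∀ j, linc u (g j) = 1)
    (a : Fin n) (i : Fin S) :
    (pe u v (pderiv a (∏ j, lf (g j)))).eval (linc v (g i)) =
      (∏ j ∈ Finset.univ.erase i, (linc v (g i) - linc v (g j))) * g i a := by
  classical
  rw [← Finset.mul_prod_erase Finset.univ (fun j => lf (g j)) (Finset.mem_univ i), Derivation.leibniz,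
    pderiv_lf, smul_eq_mul, smul_eq_mul, map_add, map_mul, map_mul, Polynomial.eval_add,
    Polynomial.eval_mul, Polynomial.eval_mul, pe_lf, hg]
  have h1 : (Polynomial.C (1 : ℂ) * Polynomial.X - Polynomial.C (linc v (g i))).eval (linc v (g i)) = 0 := by
    simp
  have h2 : (pe u v (C (g i a))) = Polynomial.C (g i a) := by
    unfold pe
    rw [aeval_C, Polynomial.algebraMap_eq]
  rw [h1, zero_mul, zero_add, h2, Polynomial.eval_C, map_prod, Polynomial.eval_prod]
  congr 1
  refine Finset.prod_congr rfl fun j _ => ?_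
  rw [pe_lf, hg]
  simp

/-- Linear forms in general position. -/
theorem gp_lin (N S : ℕ) : ∃ c : ℝ, 0 < c ∧ ∀ x : Fin S → Fin (N + 1) → ℂ,
    ∃ t : Fin (N * S + 1), ∀ i, c * ‖x i‖ ≤ ‖linc (mv N t) (x i)‖ := by
  classical
  have hτ : Function.Injective fun i : Fin (N * S + 1) => ((i : ℕ) : ℂ) := by
    intro i j hij
    have h1 : ((i : ℕ) : ℂ) = ((j : ℕ) : ℂ) := hij
    exact Fin.ext (by exact_mod_cast h1)
  choose K hK0 hK using fun J => q3_vand (n := N + 1) hτ J
  set KK : ℝ := 1 + ∑ J, K J with hKK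
  have hKK1 : 1 ≤ KK := le_add_of_nonneg_right (Finset.sum_nonneg fun J _ => hK0 J)
  have hKJ : ∀ J, K J ≤ KK := fun J => by
    have := Finset.single_le_sum (f := K) (fun J _ => hK0 J) (Finset.mem_univ J)
    linarith
  refine ⟨1 / (2 * (KK * (N + 1))), by positivity, fun x => ?_⟩
  set c : ℝ := 1 / (2 * (KK * (N + 1))) with hc
  have hc0 : 0 < c := by positivity
  have hval : ∀ (t : Fin (N * S + 1)) (y : Fin (N + 1) → ℂ),
      linc (mv N t) y = ∑ g : Fin (N + 1), ((t : ℕ) : ℂ) ^ (g : ℕ) * y g := by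
    intro t y
    unfold linc mv
    simp only [smul_eq_mul]
  have hcard : ∀ i, (Finset.univ.filter fun t : Fin (N * S + 1) =>
      ‖linc (mv N t) (x i)‖ < c * ‖x i‖).card ≤ N := by
    intro i
    by_contra hcon
    push Not at hcon
    obtain ⟨J, hJ, hJc⟩ := Finset.exists_subset_card_eq (Nat.succ_le_of_lt hcon)
    have h1 := hK J hJc (x i)
    have h2 : ∑ t ∈ J, ‖∑ g : Fin (N + 1), ((t : ℕ) : ℂ) ^ (g : ℕ) * x i g‖ ≤
        (N + 1) * (c * ‖x i‖) := by
      have h3 : ∀ t ∈ J, ‖∑ g : Fin (N + 1), ((t : ℕ) : ℂ) ^ (g : ℕ) * x i g‖ ≤ c * ‖x i‖ := by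
        intro t ht
        have h4 := (Finset.mem_filter.1 (hJ ht)).2
        rw [hval] at h4
        exact h4.le
      refine (Finset.sum_le_sum h3).trans ?_
      rw [Finset.sum_const, hJc, nsmul_eq_mul]
      push_cast
      exact le_rfl
    obtain ⟨t₀, ht₀⟩ : J.Nonempty := Finset.card_pos.1 (by rw [hJc]; exact Nat.succ_pos _)
    have hx0 : 0 < ‖x i‖ := by
      have h4 := (Finset.mem_filter.1 (hJ ht₀)).2
      by_contra h5
      have h6 : ‖x i‖ = 0 := le_antisymm (not_lt.1 h5) (norm_nonneg _)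
      rw [h6, mul_zero] at h4
      exact absurd h4 (not_lt.2 (norm_nonneg _))
    have h3 : ‖x i‖ ≤ KK * ((N + 1) * (c * ‖x i‖)) :=
      h1.trans (mul_le_mul (hKJ J) h2 (Finset.sum_nonneg fun _ _ => norm_nonneg _) (by linarith))
    have h4 : KK * ((N + 1) * (c * ‖x i‖)) = ‖x i‖ / 2 := by
      rw [hc]
      field_simp
    rw [h4] at h3
    linarith
  have hun : (Finset.univ.biUnion fun i : Fin S => Finset.univ.filter fun t : Fin (N * S + 1) =>
      ‖linc (mv N t) (x i)‖ < c * ‖x i‖).card < N * S + 1 := by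
    refine lt_of_le_of_lt Finset.card_biUnion_le ?_
    refine lt_of_le_of_lt (Finset.sum_le_sum fun i _ => hcard i) ?_
    rw [Finset.sum_const, Finset.card_univ, Fintype.card_fin, smul_eq_mul, mul_comm]
    exact Nat.lt_succ_self _
  have hex : ∃ t : Fin (N * S + 1), t ∉ (Finset.univ.biUnion fun i : Fin S =>
      Finset.univ.filter fun t : Fin (N * S + 1) => ‖linc (mv N t) (x i)‖ < c * ‖x i‖) := by
    by_contra hcon
    push Not at hcon
    have h1 := Finset.card_le_card (s := Finset.univ) (fun t _ => hcon t)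
    rw [Finset.card_univ, Fintype.card_fin] at h1
    omega
  obtain ⟨t, ht⟩ := hex
  refine ⟨t, fun i => ?_⟩
  by_contra hcon
  push Not at hcon
  exact ht (Finset.mem_biUnion.2 ⟨i, Finset.mem_univ _, Finset.mem_filter.2 ⟨Finset.mem_univ _, hcon⟩⟩)

end Pool.Agent.H24V
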