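import Pool.Agent.Lib.H24V.C5

set_option autoImplicit false

/-!
H24V, module C: bounds for complex numbers.
-/

open MvPolynomial

namespace Pool.Agent.H24V

open Pool.Agent.H89T Pool.Agent.H67T Pool.Agent.H53U Pool.Agent.H53V

/-- The values of a polynomial of weight at most `M`. -/
theorem c6_wt {N k M : ℕ} {P : MvPolynomial (JV N k) ℂ} (hP : HasWt M P) :
    ∃ C : ℝ, 1 ≤ C ∧ ∀ (ξ : JV N k → ℂ) (W : ℝ), 1 ≤ W → (∀ p, ‖ξ p‖ ≤ W ^ ((p.2 : ℕ) + 1)) →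
      ‖eval ξ P‖ ≤ C * W ^ M := by
  classical
  refine ⟨1 + ∑ μ ∈ P.support, ‖coeff μ P‖, le_add_of_nonneg_right
    (Finset.sum_nonneg fun _ _ => norm_nonneg _), fun ξ W hW hξ => ?_⟩
  have hW0 : 0 ≤ W := by linarith
  have h1 : ‖eval ξ P‖ ≤ (∑ μ ∈ P.support, ‖coeff μ P‖) * W ^ M := by
    rw [eval_eq', Finset.sum_mul]
    refine (norm_sum_le _ _).trans (Finset.sum_le_sum fun μ hμ => ?_)
    rw [norm_mul]
    refine mul_le_mul_of_nonneg_left ?_ (norm_nonneg _)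
    rw [norm_prod]
    calc ∏ p, ‖ξ p ^ μ p‖ ≤ ∏ p, W ^ (((p.2 : ℕ) + 1) * μ p) := by
          refine Finset.prod_le_prod (fun _ _ => norm_nonneg _) fun p _ => ?_
          rw [norm_pow, pow_mul]
          exact pow_le_pow_left₀ (norm_nonneg _) (hξ p) _
      _ = W ^ wt μ := by
          rw [Finset.prod_pow_eq_pow_sum]
          rfl
      _ ≤ W ^ M := pow_le_pow_right₀ hW (hP μ hμ)
  refine h1.trans (mul_le_mul_of_nonneg_right ?_ (by positivity))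
  linarith

/-- One sheet: the product of the values of the `P_i`. -/
theorem c6_sheet {N k M R s κ : ℕ} {P Q : Fin R → MvPolynomial (JV N k) ℂ} (hP : ∀ i, HasWt M (P i))
    (hQ : ∀ i, HasWt M (Q i)) (l : Fin R → Fin (N + 1) → ℂ) (A : ℝ) :
    ∃ C : ℝ, 1 ≤ C ∧ ∀ (x : Fin (N + 1) → ℂ) (ξ : JV N k → ℂ) (W : ℝ), 1 ≤ W →
      (∀ p, ‖ξ p‖ ≤ W ^ ((p.2 : ℕ) + 1)) → x 0 = 1 →
      (‖x‖ ≤ A * ‖x 0‖ ∨ ∃ I : Finset (Fin R), I.card = κ ∧ ∀ i ∈ I, ‖x‖ ≤ A * ‖linc (l i) x‖) →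
      (∀ i, linc (l i) x ^ s * eval ξ (P i) = eval ξ (Q i)) →
      (∏ i, ‖eval ξ (P i)‖) * ‖x‖ ^ (s * κ) ≤ C * W ^ (R * M) := by
  classical
  choose CP hCP hbP using fun i => c6_wt (hP i)
  choose CQ hCQ hbQ using fun i => c6_wt (hQ i)
  obtain ⟨C₀, hC₀⟩ : ∃ C₀ : ℝ, C₀ = 1 + (∑ i, CP i + ∑ i, CQ i) := ⟨_, rfl⟩
  have hPle : ∀ i, CP i ≤ C₀ := fun i => by
    have h1 := Finset.single_le_sum (f := CP) (fun i _ => zero_le_one.trans (hCP i)) (Finset.mem_univ i)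
    have h2 : 0 ≤ ∑ i, CQ i := Finset.sum_nonneg fun i _ => zero_le_one.trans (hCQ i)
    rw [hC₀]
    linarith
  have hQle : ∀ i, CQ i ≤ C₀ := fun i => by
    have h1 := Finset.single_le_sum (f := CQ) (fun i _ => zero_le_one.trans (hCQ i)) (Finset.mem_univ i)
    have h2 : 0 ≤ ∑ i, CP i := Finset.sum_nonneg fun i _ => zero_le_one.trans (hCP i)
    rw [hC₀]
    linarith
  have hC₀1 : 1 ≤ C₀ := by
    have h1 : 0 ≤ ∑ i, CQ i := Finset.sum_nonneg fun i _ => zero_le_one.trans (hCQ i)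
    have h2 : 0 ≤ ∑ i, CP i := Finset.sum_nonneg fun i _ => zero_le_one.trans (hCP i)
    rw [hC₀]
    linarith
  obtain ⟨A', hA'⟩ : ∃ A' : ℝ, A' = max 1 A := ⟨_, rfl⟩
  have hA'1 : 1 ≤ A' := by rw [hA']; exact le_max_left _ _
  have hAA' : A ≤ A' := by rw [hA']; exact le_max_right _ _
  refine ⟨C₀ ^ R * A' ^ (s * κ), one_le_mul_of_one_le_of_one_le (one_le_pow₀ hC₀1) (one_le_pow₀ hA'1),
    fun x ξ W hW hξ hx0 hA hrel => ?_⟩
  have hW0 : 0 ≤ W := by linarith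
  have hbP' : ∀ i, ‖eval ξ (P i)‖ ≤ C₀ * W ^ M := fun i =>
    (hbP i ξ W hW hξ).trans (mul_le_mul_of_nonneg_right (hPle i) (by positivity))
  have hbQ' : ∀ i, ‖eval ξ (Q i)‖ ≤ C₀ * W ^ M := fun i =>
    (hbQ i ξ W hW hξ).trans (mul_le_mul_of_nonneg_right (hQle i) (by positivity))
  rcases hA with h | ⟨I, hI, h⟩
  · rw [hx0, norm_one, mul_one] at h
    calc (∏ i, ‖eval ξ (P i)‖) * ‖x‖ ^ (s * κ) ≤ (∏ _i : Fin R, (C₀ * W ^ M)) * A' ^ (s * κ) := by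
          refine mul_le_mul (Finset.prod_le_prod (fun _ _ => norm_nonneg _) fun i _ => hbP' i)
            (pow_le_pow_left₀ (norm_nonneg _) (h.trans hAA') _) (by positivity) ?_
          exact Finset.prod_nonneg fun _ _ => by positivity
      _ = C₀ ^ R * A' ^ (s * κ) * W ^ (R * M) := by
          rw [Finset.prod_const, Finset.card_univ, Fintype.card_fin, mul_pow, ← pow_mul, mul_comm M R]
          ring
  · have hI1 : ∀ i ∈ I, ‖eval ξ (P i)‖ * ‖x‖ ^ s ≤ A' ^ s * (C₀ * W ^ M) := by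
      intro i hi
      have h1 : ‖x‖ ^ s ≤ A' ^ s * ‖linc (l i) x‖ ^ s := by
        rw [← mul_pow]
        refine pow_le_pow_left₀ (norm_nonneg _) ((h i hi).trans ?_) _
        exact mul_le_mul_of_nonneg_right hAA' (norm_nonneg _)
      calc ‖eval ξ (P i)‖ * ‖x‖ ^ s ≤ ‖eval ξ (P i)‖ * (A' ^ s * ‖linc (l i) x‖ ^ s) :=
            mul_le_mul_of_nonneg_left h1 (norm_nonneg _)
        _ = A' ^ s * ‖eval ξ (Q i)‖ := by
            rw [← hrel i, norm_mul, norm_pow]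
            ring
        _ ≤ A' ^ s * (C₀ * W ^ M) := mul_le_mul_of_nonneg_left (hbQ' i) (by positivity)
    have hsplit : ∏ i, ‖eval ξ (P i)‖ = (∏ i ∈ I, ‖eval ξ (P i)‖) * ∏ i ∈ Iᶜ, ‖eval ξ (P i)‖ :=
      (Finset.prod_mul_prod_compl I _).symm
    have hpow : ‖x‖ ^ (s * κ) = ∏ _i ∈ I, ‖x‖ ^ s := by
      rw [Finset.prod_const, hI, ← pow_mul]
    calc (∏ i, ‖eval ξ (P i)‖) * ‖x‖ ^ (s * κ)
        = (∏ i ∈ I, (‖eval ξ (P i)‖ * ‖x‖ ^ s)) * ∏ i ∈ Iᶜ, ‖eval ξ (P i)‖ := by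
          rw [hsplit, hpow, Finset.prod_mul_distrib]
          ring
      _ ≤ (∏ _i ∈ I, (A' ^ s * (C₀ * W ^ M))) * ∏ _i ∈ Iᶜ, (C₀ * W ^ M) := by
          refine mul_le_mul (Finset.prod_le_prod (fun _ _ => by positivity) hI1)
            (Finset.prod_le_prod (fun _ _ => norm_nonneg _) fun i _ => hbP' i)
            (Finset.prod_nonneg fun _ _ => norm_nonneg _) (Finset.prod_nonneg fun _ _ => by positivity)
      _ = C₀ ^ R * A' ^ (s * κ) * W ^ (R * M) := by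
          rw [Finset.prod_mul_distrib, Finset.prod_const, hI, mul_assoc, Finset.prod_mul_prod_compl I,
            Finset.prod_const, Finset.card_univ, Fintype.card_fin, mul_pow, ← pow_mul, ← pow_mul,
            mul_comm M R]
          ring

/-- The coefficients of a product of linear forms. -/
theorem c6_coeff {n S : ℕ} (x : Fin S → Fin n → ℂ) (α : Fin n →₀ ℕ) :
    ‖coeff α (∏ j, lf (x j))‖ ≤ (n : ℝ) ^ S * ∏ j, ‖x j‖ := by
  classical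
  unfold lf
  rw [Finset.prod_univ_sum, coeff_sum]
  have h1 : ∀ f ∈ Fintype.piFinset fun _ : Fin S => (Finset.univ : Finset (Fin n)),
      ‖coeff α (∏ j, (C (x j (f j)) * X (f j) : MvPolynomial (Fin n) ℂ))‖ ≤ ∏ j, ‖x j‖ := by
    intro f _
    rw [Finset.prod_mul_distrib, ← map_prod, coeff_C_mul, norm_mul, norm_prod]
    have h2 : ‖coeff α (∏ j, (X (f j) : MvPolynomial (Fin n) ℂ))‖ ≤ 1 := by
      have h3 : ∏ j, (X (f j) : MvPolynomial (Fin n) ℂ) =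
          monomial (∑ j, Finsupp.single (f j) 1) 1 := by
        rw [monomial_sum_one]
        rfl
      rw [h3, coeff_monomial]
      split_ifs
      · rw [norm_one]
      · rw [norm_zero]
        exact zero_le_one
    have h4 : ∏ j, ‖x j (f j)‖ ≤ ∏ j, ‖x j‖ :=
      Finset.prod_le_prod (fun _ _ => norm_nonneg _) fun j _ => norm_le_pi_norm (x j) (f j)
    calc (∏ j, ‖x j (f j)‖) * ‖coeff α (∏ j, (X (f j) : MvPolynomial (Fin n) ℂ))‖
        ≤ (∏ j, ‖x j‖) * 1 := mul_le_mul h4 h2 (norm_nonneg _) (Finset.prod_nonneg fun _ _ => norm_nonneg _)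
      _ = ∏ j, ‖x j‖ := mul_one _
  refine (norm_sum_le _ _).trans ((Finset.sum_le_sum h1).trans ?_)
  rw [Finset.sum_const, Fintype.card_piFinset, Finset.prod_const, Finset.card_univ, Finset.card_univ,
    Fintype.card_fin, Fintype.card_fin, nsmul_eq_mul]
  push_cast
  exact le_rfl

theorem c6_linc_le {n : ℕ} (l x : Fin n → ℂ) : ‖linc l x‖ ≤ (∑ a, ‖l a‖) * ‖x‖ := by
  unfold linc
  rw [Finset.sum_mul]
  refine (norm_sum_le _ _).trans (Finset.sum_le_sum fun a _ => ?_)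
  rw [smul_eq_mul, norm_mul]
  exact mul_le_mul_of_nonneg_left (norm_le_pi_norm x a) (norm_nonneg _)

/-- The difference of two points in terms of the difference of the normalized points. -/
theorem c6_diff {N : ℕ} {u x y : Fin (N + 1) → ℂ} {c Γ : ℝ} (hc : 0 < c) (hΓ : ∑ a, ‖u a‖ ≤ Γ)
    (hx : x 0 = 1) (hy : y 0 = 1) (hux : c * ‖x‖ ≤ ‖linc u x‖) (huy : c * ‖y‖ ≤ ‖linc u y‖) :
    ‖x - y‖ ≤ Γ ^ 2 * (2 / c) * (‖x‖ * ‖y‖ * ‖(linc u x)⁻¹ • x - (linc u y)⁻¹ • y‖) := by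
  have hx1 : 1 ≤ ‖x‖ := by
    have := norm_le_pi_norm x 0
    rwa [hx, norm_one] at this
  have hy1 : 1 ≤ ‖y‖ := by
    have := norm_le_pi_norm y 0
    rwa [hy, norm_one] at this
  have hΓ0 : 0 ≤ Γ := (Finset.sum_nonneg fun _ _ => norm_nonneg _).trans hΓ
  obtain ⟨U, hU⟩ : ∃ U, U = linc u x := ⟨_, rfl⟩
  obtain ⟨V, hV⟩ : ∃ V, V = linc u y := ⟨_, rfl⟩
  rw [← hU] at hux ⊢
  rw [← hV] at huy ⊢
  have hU0 : 0 < ‖U‖ := lt_of_lt_of_le (by positivity) hux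
  have hV0 : 0 < ‖V‖ := lt_of_lt_of_le (by positivity) huy
  have hUne : U ≠ 0 := norm_pos_iff.1 hU0
  have hVne : V ≠ 0 := norm_pos_iff.1 hV0
  have hUle : ‖U‖ ≤ Γ * ‖x‖ := by
    rw [hU]
    exact (c6_linc_le u x).trans (mul_le_mul_of_nonneg_right hΓ (norm_nonneg _))
  have hVle : ‖V‖ ≤ Γ * ‖y‖ := by
    rw [hV]
    exact (c6_linc_le u y).trans (mul_le_mul_of_nonneg_right hΓ (norm_nonneg _))
  obtain ⟨g, hg⟩ : ∃ g, g = U⁻¹ • x := ⟨_, rfl⟩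
  obtain ⟨h, hh⟩ : ∃ h, h = V⁻¹ • y := ⟨_, rfl⟩
  rw [← hg, ← hh]
  have hg0 : g 0 = U⁻¹ := by rw [hg, Pi.smul_apply, hx, smul_eq_mul, mul_one]
  have hh0 : h 0 = V⁻¹ := by rw [hh, Pi.smul_apply, hy, smul_eq_mul, mul_one]
  have hxg : x = U • g := by rw [hg, smul_smul, mul_inv_cancel₀ hUne, one_smul]
  have hyh : y = V • h := by rw [hh, smul_smul, mul_inv_cancel₀ hVne, one_smul]
  have hhn : ‖h‖ ≤ 1 / c := by
    rw [hh, norm_smul, norm_inv, ← div_eq_inv_mul, div_le_div_iff₀ hV0 hc]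
    linarith
  have hkey : x - y = (U * V) • ((h 0) • (g - h) - (g 0 - h 0) • h) := by
    rw [hg0, hh0]
    conv_lhs => rw [hxg, hyh]
    rw [smul_sub, smul_smul, smul_smul, smul_sub, mul_assoc U V V⁻¹, mul_inv_cancel₀ hVne, mul_one]
    have h5 : U * V * (U⁻¹ - V⁻¹) = V - U := by field_simp
    rw [h5, sub_smul]
    abel
  have hd0 : ‖g 0 - h 0‖ ≤ ‖g - h‖ := by
    have := norm_le_pi_norm (g - h) 0
    rwa [Pi.sub_apply] at this
  have hh00 : ‖h 0‖ ≤ 1 / c := (norm_le_pi_norm h 0).trans hhn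
  rw [hkey, norm_smul, norm_mul]
  have h6 : ‖(h 0) • (g - h) - (g 0 - h 0) • h‖ ≤ 2 / c * ‖g - h‖ := by
    refine (norm_sub_le _ _).trans ?_
    rw [norm_smul, norm_smul]
    have h7 : ‖h 0‖ * ‖g - h‖ ≤ 1 / c * ‖g - h‖ := mul_le_mul_of_nonneg_right hh00 (norm_nonneg _)
    have h8 : ‖g 0 - h 0‖ * ‖h‖ ≤ ‖g - h‖ * (1 / c) := mul_le_mul hd0 hhn (norm_nonneg _) (norm_nonneg _)
    calc ‖h 0‖ * ‖g - h‖ + ‖g 0 - h 0‖ * ‖h‖ ≤ 1 / c * ‖g - h‖ + ‖g - h‖ * (1 / c) := add_le_add h7 h8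
      _ = 2 / c * ‖g - h‖ := by ring
  calc ‖U‖ * ‖V‖ * ‖(h 0) • (g - h) - (g 0 - h 0) • h‖
      ≤ (Γ * ‖x‖) * (Γ * ‖y‖) * (2 / c * ‖g - h‖) :=
        mul_le_mul (mul_le_mul hUle hVle (norm_nonneg _) (by positivity)) h6 (norm_nonneg _)
          (by positivity)
    _ = Γ ^ 2 * (2 / c) * (‖x‖ * ‖y‖ * ‖g - h‖) := by ring

end Pool.Agent.H24V
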