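import Pool.Agent.Lib.H24V.C4
import Pool.Agent.Lib.H24V.C6

set_option autoImplicit false

/-!
H24V, module C: the estimate of the jets at one place.
-/

open MvPolynomial

namespace Pool.Agent.H24V

open Pool.Agent.H89T Pool.Agent.H67T Pool.Agent.H53U Pool.Agent.H53V

/-- `∑ τ_α e_α`, a polynomial with formal power series as coefficients. -/
noncomputable def ps {ι : Type} (s : Finset ι) (τ : ι → PowerSeries ℂ) (e : ι → Polynomial ℂ) :
    Polynomial (PowerSeries ℂ) :=
  ∑ α ∈ s, Polynomial.C (τ α) * (e α).map PowerSeries.C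

section

variable {ι : Type} (s : Finset ι) (τ : ι → PowerSeries ℂ) (e : ι → Polynomial ℂ)

theorem ps_coeff (i : ℕ) : (ps s τ e).coeff i = ∑ α ∈ s, PowerSeries.C ((e α).coeff i) * τ α := by
  unfold ps
  rw [Polynomial.finsetSum_coeff]
  refine Finset.sum_congr rfl fun α _ => ?_
  rw [Polynomial.coeff_C_mul, Polynomial.coeff_map, mul_comm]

theorem ps_const (i : ℕ) : PowerSeries.constantCoeff ((ps s τ e).coeff i) =
    ∑ α ∈ s, (e α).coeff i * PowerSeries.constantCoeff (τ α) := by
  rw [ps_coeff, map_sum]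
  refine Finset.sum_congr rfl fun α _ => ?_
  rw [map_mul, PowerSeries.constantCoeff_C]

theorem ps_const_le {T : ℝ} (hτ : ∀ α ∈ s, ‖PowerSeries.constantCoeff (τ α)‖ ≤ T) (i : ℕ) :
    ‖PowerSeries.constantCoeff ((ps s τ e).coeff i)‖ ≤ (∑ α ∈ s, ‖(e α).coeff i‖) * T := by
  rw [ps_const, Finset.sum_mul]
  refine (norm_sum_le _ _).trans (Finset.sum_le_sum fun α hα => ?_)
  rw [norm_mul]
  exact mul_le_mul_of_nonneg_left (hτ α hα) (norm_nonneg _)

theorem ps_pn_le {k : ℕ} {T : ℝ}
    (hτ : ∀ α ∈ s, pn k (τ α - PowerSeries.C (PowerSeries.constantCoeff (τ α))) ≤ T) (i : ℕ) :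
    pn k ((ps s τ e).coeff i - PowerSeries.C (PowerSeries.constantCoeff ((ps s τ e).coeff i))) ≤
      (∑ α ∈ s, ‖(e α).coeff i‖) * T := by
  have h1 : (ps s τ e).coeff i - PowerSeries.C (PowerSeries.constantCoeff ((ps s τ e).coeff i)) =
      ∑ α ∈ s, PowerSeries.C ((e α).coeff i) *
        (τ α - PowerSeries.C (PowerSeries.constantCoeff (τ α))) := by
    rw [ps_const, ps_coeff, map_sum, ← Finset.sum_sub_distrib]
    refine Finset.sum_congr rfl fun α _ => ?_
    rw [map_mul]
    ring
  rw [h1, Finset.sum_mul]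
  refine (pn_sum _ _ _).trans (Finset.sum_le_sum fun α hα => ?_)
  rw [pn_C_mul]
  exact mul_le_mul_of_nonneg_left (hτ α hα) (norm_nonneg _)

theorem ps_map : (ps s τ e).map PowerSeries.constantCoeff =
    ∑ α ∈ s, Polynomial.C (PowerSeries.constantCoeff (τ α)) * e α := by
  ext i
  rw [Polynomial.coeff_map, ps_const, Polynomial.finsetSum_coeff]
  refine Finset.sum_congr rfl fun α _ => ?_
  rw [Polynomial.coeff_C_mul, mul_comm]

theorem ps_eval (Θ : PowerSeries ℂ) :
    (ps s τ e).eval Θ = ∑ α ∈ s, τ α * ((e α).map PowerSeries.C).eval Θ := by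
  unfold ps
  rw [Polynomial.eval_finsetSum]
  refine Finset.sum_congr rfl fun α _ => ?_
  rw [Polynomial.eval_mul, Polynomial.eval_C]

theorem ps_natDegree {S : ℕ} (he : ∀ α ∈ s, (e α).natDegree ≤ S) : (ps s τ e).natDegree ≤ S := by
  unfold ps
  refine Polynomial.natDegree_sum_le_of_forall_le _ _ fun α hα => ?_
  refine (Polynomial.natDegree_C_mul_le _ _).trans ((Polynomial.natDegree_map_le).trans (he α hα))

end

theorem pe_natDegree {n S : ℕ} (u v : Fin n → ℂ) {m : MvPolynomial (Fin n) ℂ}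
    (hm : m.totalDegree ≤ S) : (pe u v m).natDegree ≤ S := by
  unfold pe
  have h := aeval_natDegree_le m hm (fun a => Polynomial.C (u a) * Polynomial.X - Polynomial.C (v a))
    (n := 1) (fun a => by
      refine (Polynomial.natDegree_sub_le _ _).trans (max_le ?_ ?_)
      · exact (Polynomial.natDegree_C_mul_le _ _).trans Polynomial.natDegree_X_le
      · rw [Polynomial.natDegree_C]
        exact Nat.zero_le _)
  rwa [mul_one] at h

/-- The polynomials of the family `G`. -/
noncomputable def eP {n : ℕ} (u v : Fin n → ℂ) (α : Fin n →₀ ℕ) : Polynomial ℂ :=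
  pe u v (monomial α 1)

/-- The polynomials of the partial derivatives. -/
noncomputable def eB {n : ℕ} (u v : Fin n → ℂ) (a : Fin n) (α : Fin n →₀ ℕ) : Polynomial ℂ :=
  pe u v (pderiv a (monomial α 1))

theorem eP_natDegree {n S : ℕ} (u v : Fin n → ℂ) {α : Fin n →₀ ℕ} (hα : α.degree ≤ S) :
    (eP u v α).natDegree ≤ S := by
  refine pe_natDegree u v ((totalDegree_monomial_le _ _).trans ?_)
  exact hα

theorem eB_natDegree {n S : ℕ} (u v : Fin n → ℂ) (a : Fin n) {α : Fin n →₀ ℕ} (hα : α.degree ≤ S) :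
    (eB u v a α).natDegree ≤ S := by
  unfold eB
  refine pe_natDegree u v ?_
  rw [pderiv_monomial]
  refine (totalDegree_monomial_le _ _).trans ?_
  refine le_trans ?_ hα
  have h1 : α - Finsupp.single a 1 ≤ α := tsub_le_self
  exact Finsupp.degree_mono h1

section Field

variable {L : Type} [Field L] [Algebra ℂ L] [Algebra KK L] [IsScalarTower ℂ KK L]

theorem c7_aeval_pe {n : ℕ} (u v : Fin n → ℂ) (θ : L) (m : MvPolynomial (Fin n) ℂ) :
    Polynomial.aeval θ (pe u v m) = aeval (fun a => u a • θ - algebraMap ℂ L (v a)) m := by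
  unfold pe
  have h := MvPolynomial.comp_aeval_apply
    (f := fun a => Polynomial.C (u a) * Polynomial.X - Polynomial.C (v a)) (Polynomial.aeval θ) m
  rw [h]
  congr 2
  funext a
  rw [map_sub, map_mul, Polynomial.aeval_C, Polynomial.aeval_C, Polynomial.aeval_X, Algebra.smul_def]

/-- The values of `G` and of its partial derivatives. -/
theorem c7_eval {n : ℕ} (G : MvPolynomial (Fin n) KK) (w : Fin n → L) :
    eval w (map (algebraMap KK L) G) =
      ∑ α ∈ G.support, algebraMap KK L (coeff α G) * aeval w (monomial α (1 : ℂ)) := by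
  rw [eval_map, eval₂_eq']
  refine Finset.sum_congr rfl fun α _ => ?_
  rw [aeval_monomial, map_one, one_mul, Finsupp.prod_fintype _ _ fun i => pow_zero _]

theorem c7_eval_pderiv {n : ℕ} (G : MvPolynomial (Fin n) KK) (w : Fin n → L) (a : Fin n) :
    eval w (pderiv a (map (algebraMap KK L) G)) =
      ∑ α ∈ G.support, algebraMap KK L (coeff α G) * aeval w (pderiv a (monomial α (1 : ℂ))) := by
  conv_lhs => rw [as_sum G]
  rw [map_sum, map_sum, map_sum]
  refine Finset.sum_congr rfl fun α _ => ?_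
  rw [map_monomial, pderiv_monomial, pderiv_monomial, eval_monomial, aeval_monomial, map_mul,
    map_one, one_mul, map_natCast, mul_assoc]

theorem c7_root {N : ℕ} {x w : Fin (N + 1) → L} {H1 : MvPolynomial (Fin (N + 1)) L}
    (h0 : eval w (lf x) = 0) (a : Fin (N + 1)) :
    eval w (pderiv a (lf x * H1)) = x a * eval w H1 := by
  rw [Derivation.leibniz, map_add, smul_eq_mul, smul_eq_mul, map_mul, map_mul, h0, zero_mul, zero_add,
    pderiv_lf, eval_C, mul_comm]

theorem c7_lf {N : ℕ} (x : Fin (N + 1) → L) (u v : Fin (N + 1) → ℂ) (hU : linc u x ≠ 0) :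
    eval (fun a => u a • (linc v x * (linc u x)⁻¹) - algebraMap ℂ L (v a)) (lf x) = 0 := by
  unfold lf
  rw [map_sum]
  have h1 : ∀ a, eval (fun a => u a • (linc v x * (linc u x)⁻¹) - algebraMap ℂ L (v a))
      (C (x a) * X a) = (u a • x a) * (linc v x * (linc u x)⁻¹) - v a • x a := by
    intro a
    rw [map_mul, eval_C, eval_X]
    simp only [Algebra.smul_def]
    ring
  rw [Finset.sum_congr rfl fun a _ => h1 a, Finset.sum_sub_distrib, ← Finset.sum_mul]
  show linc u x * (linc v x * (linc u x)⁻¹) - linc v x = 0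
  field_simp
  ring

end Field

end Pool.Agent.H24V
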