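import Pool.Agent.Lib.H24V.C7

set_option autoImplicit false

/-!
H24V, module C: the estimate of the jets at one place.
-/

open MvPolynomial

namespace Pool.Agent.H24V

open Pool.Agent.H89T Pool.Agent.H67T Pool.Agent.H53U Pool.Agent.H53V

variable {L : Type} [Field L] [Algebra ℂ L] [Algebra KK L] [IsScalarTower ℂ KK L]
  {D : Derivation ℂ L L}

/-- The coefficients of the Taylor series are bounded. -/
theorem c8_tay_le {pz : Place KK DK} {x : KK} {k : ℕ} {Ψ T : ℝ} (hT : (k : ℝ) + 1 ≤ T) (hΨ : 0 ≤ Ψ)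
    (h : ∀ l ≤ k, ‖pz.val (DK^[l] x)‖ ≤ Ψ) :
    pn k (pz.tay x - PowerSeries.C (PowerSeries.constantCoeff (pz.tay x))) ≤ T * Ψ := by
  unfold pn
  have h1 : ∀ l ∈ Finset.range (k + 1),
      ‖PowerSeries.coeff l (pz.tay x - PowerSeries.C (PowerSeries.constantCoeff (pz.tay x)))‖ ≤ Ψ := by
    intro l hl
    have hl' : l ≤ k := Nat.lt_succ_iff.1 (Finset.mem_range.1 hl)
    rw [map_sub, PowerSeries.coeff_C]
    split_ifs with h0
    · rw [h0, PowerSeries.coeff_zero_eq_constantCoeff_apply, sub_self, norm_zero]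
      exact hΨ
    · rw [sub_zero, Place.coeff_tay, norm_mul, norm_inv, Complex.norm_natCast]
      refine le_trans ?_ (h l hl')
      refine mul_le_of_le_one_left (norm_nonneg _) (inv_le_one_of_one_le₀ ?_)
      exact_mod_cast Nat.one_le_iff_ne_zero.mpr (Nat.factorial_ne_zero _)
  refine (Finset.sum_le_sum h1).trans ?_
  rw [Finset.sum_const, Finset.card_range, nsmul_eq_mul]
  push_cast
  exact mul_le_mul_of_nonneg_right hT hΨ

/-- THE ESTIMATE OF THE JETS. -/
theorem c8_jets (hD : ∀ x, D (algebraMap KK L x) = algebraMap KK L (DK x)) (N S : ℕ) {H : ℝ}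
    (hH : 1 ≤ H) :
    ∃ K : ℝ, 1 ≤ K ∧ ∀ (k : ℕ) (f : Fin N → L) (G : MvPolynomial (Fin (N + 1)) KK)
      (H1 : MvPolynomial (Fin (N + 1)) L) (b : KK) (u v : Fin (N + 1) → ℂ) (pz : Place KK DK)
      (q : Place L D) (gs : Fin S → Fin (N + 1) → ℂ) (i : Fin S) (δ Ψ T : ℝ),
      G.IsHomogeneous S → map (algebraMap KK L) G = lf (pt f) * H1 → b ≠ 0 →
      (∀ x ∈ pz.O, algebraMap KK L x ∈ q.O ∧ q.val (algebraMap KK L x) = pz.val x) →
      (∀ α, coeff α G / b ∈ pz.O) → (∀ j, f j ∈ q.O) → linc u (pt f) ≠ 0 →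
      (linc u (pt f))⁻¹ ∈ q.O → (∀ j, linc u (gs j) = 1) →
      (∀ α, pz.val (coeff α G / b) = coeff α (∏ j, lf (gs j))) →
      (∀ a, gs i a = q.val (pt f a * (linc u (pt f))⁻¹)) →
      (k : ℝ) + 1 ≤ T → (∀ α ∈ G.support, ‖pz.val (coeff α G / b)‖ ≤ T) →
      (∀ l, (∑ α ∈ G.support, ‖(eP u v α).coeff l‖) * T ≤ H) →
      (∀ a l, (∑ α ∈ G.support, ‖(eB u v a α).coeff l‖) * T ≤ H) →
      ‖linc v (gs i)‖ ≤ H → (∀ a, ‖gs i a‖ ≤ H) → gs i 0 ≠ 0 → 0 < δ → δ ≤ 1 → 1 ≤ Ψ →
      δ ≤ ‖∏ j ∈ Finset.univ.erase i, (linc v (gs i) - linc v (gs j))‖ →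
      (∀ α ∈ G.support, ∀ l ≤ k, ‖pz.val (DK^[l] (coeff α G / b))‖ ≤ Ψ) →
      ∀ p : JV N k, ‖q.val (jetL D k f p)‖ ≤ (K * (Ψ / (δ ^ 2 * ‖gs i 0‖))) ^ ((p.2 : ℕ) + 1) := by
  classical
  obtain ⟨K, hK1, hK⟩ := local_lemma S N hH
  refine ⟨K, hK1, ?_⟩
  intro k f G H1 b u v pz q gs i δ Ψ T hG hG1 hb htr hn hf hU hUi hu hGz hgi hT hTn hE hEB hθH hgH hg0 hδ
    hδ1 hΨ hΔ hΨn p
  -- the series
  obtain ⟨τ, hτ⟩ : ∃ τ : (Fin (N + 1) →₀ ℕ) → PowerSeries ℂ, ∀ α, τ α = pz.tay (coeff α G / b) :=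
    ⟨_, fun _ => rfl⟩
  have hτ0 : ∀ α, PowerSeries.constantCoeff (τ α) = coeff α (∏ j, lf (gs j)) := by
    intro α
    rw [hτ, Place.const_tay, hGz]
  have hτT : ∀ α ∈ G.support, ‖PowerSeries.constantCoeff (τ α)‖ ≤ T := by
    intro α hα
    rw [hτ, Place.const_tay]
    exact hTn α hα
  have hτk : ∀ α ∈ G.support,
      pn k (τ α - PowerSeries.C (PowerSeries.constantCoeff (τ α))) ≤ T * Ψ := by
    intro α hα
    rw [hτ]
    exact c8_tay_le hT (by linarith) (hΨn α hα)
  obtain ⟨x, hx⟩ : ∃ x : Fin (N + 1) → L, x = pt f := ⟨_, rfl⟩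
  rw [← hx] at hG1 hU hUi hgi
  have hxO : ∀ a, x a ∈ q.O := fun a => by rw [hx]; exact q.pt_mem hf a
  have hvO : linc v x ∈ q.O := q.linc_mem v hxO
  obtain ⟨θ, hθ⟩ : ∃ θ : L, θ = linc v x * (linc u x)⁻¹ := ⟨_, rfl⟩
  have hθO : θ ∈ q.O := by rw [hθ]; exact mul_mem hvO hUi
  obtain ⟨w, hw⟩ : ∃ w : Fin (N + 1) → L, w = fun a => u a • θ - algebraMap ℂ L (v a) := ⟨_, rfl⟩
  have hwlf : eval w (lf x) = 0 := by rw [hw, hθ]; exact c7_lf x u v hU
  -- the values of the polynomials at the series of theta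
  have hval : ∀ e : (Fin (N + 1) →₀ ℕ) → Polynomial ℂ,
      (∑ α ∈ G.support, algebraMap KK L (coeff α G / b) * Polynomial.aeval θ (e α)) ∈ q.O ∧
      (ps G.support τ e).eval (q.tay θ) =
        q.tay (∑ α ∈ G.support, algebraMap KK L (coeff α G / b) * Polynomial.aeval θ (e α)) := by
    intro e
    have h1 : ∀ α ∈ G.support, algebraMap KK L (coeff α G / b) * Polynomial.aeval θ (e α) ∈ q.O :=
      fun α _ => mul_mem (htr _ (hn α)).1 (q.tay_aeval hθO _).1
    refine ⟨sum_mem h1, ?_⟩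
    rw [ps_eval, q.tay_sum _ h1]
    refine Finset.sum_congr rfl fun α _ => ?_
    rw [q.tay_mul (htr _ (hn α)).1 (q.tay_aeval hθO _).1, (q.tay_aeval hθO _).2,
      tay_transfer hD pz q htr (hn α), hτ]
  have hsumP : ∑ α ∈ G.support, algebraMap KK L (coeff α G / b) * Polynomial.aeval θ (eP u v α) = 0 := by
    have h1 : ∑ α ∈ G.support, algebraMap KK L (coeff α G / b) * Polynomial.aeval θ (eP u v α) =
        (algebraMap KK L b)⁻¹ * eval w (map (algebraMap KK L) G) := by
      rw [c7_eval, Finset.mul_sum]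
      refine Finset.sum_congr rfl fun α _ => ?_
      unfold eP
      rw [c7_aeval_pe, ← hw, map_div₀]
      ring
    rw [h1, hG1, map_mul, hwlf, zero_mul, mul_zero]
  obtain ⟨β, hβ⟩ : ∃ β : Fin (N + 1) → L, ∀ a, β a =
      ∑ α ∈ G.support, algebraMap KK L (coeff α G / b) * Polynomial.aeval θ (eB u v a α) :=
    ⟨_, fun _ => rfl⟩
  have hβ1 : ∀ a, β a = x a * ((algebraMap KK L b)⁻¹ * eval w H1) := by
    intro a
    have h1 : β a = (algebraMap KK L b)⁻¹ * eval w (pderiv a (map (algebraMap KK L) G)) := by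
      rw [hβ, c7_eval_pderiv, Finset.mul_sum]
      refine Finset.sum_congr rfl fun α _ => ?_
      unfold eB
      rw [c7_aeval_pe, ← hw, map_div₀]
      ring
    rw [h1, hG1, c7_root hwlf]
    ring
  have hβO : ∀ a, β a ∈ q.O := fun a => by rw [hβ]; exact (hval (eB u v a)).1
  have hx0 : x 0 = 1 := by rw [hx]; rfl
  have hβ2 : ∀ j : Fin N, β j.succ = f j * β 0 := by
    intro j
    have h1 : x j.succ = f j := by rw [hx]; rfl
    rw [hβ1, hβ1, h1, hx0]
    ring
  -- the value of theta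
  have hθv : q.val θ = linc v (gs i) := by
    have h1 : θ = linc v fun a => x a * (linc u x)⁻¹ := by
      rw [hθ]
      unfold linc
      rw [Finset.sum_mul]
      exact Finset.sum_congr rfl fun a _ => by rw [smul_mul_assoc]
    rw [h1, q.val_linc v fun a => mul_mem (hxO a) hUi]
    congr 1
    funext a
    exact (hgi a).symm
  have hPz : ∑ α ∈ G.support, Polynomial.C (PowerSeries.constantCoeff (τ α)) * eP u v α =
      pe u v (∏ j, lf (gs j)) := by
    have h1 : (∏ j, lf (gs j) : MvPolynomial (Fin (N + 1)) ℂ) =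
        ∑ α ∈ G.support, C (PowerSeries.constantCoeff (τ α)) * monomial α 1 := by
      ext α
      rw [coeff_sum]
      simp only [coeff_C_mul, coeff_monomial]
      by_cases hα : α ∈ G.support
      · rw [Finset.sum_eq_single α]
        · rw [if_pos rfl, mul_one, hτ0]
        · intro α' _ hne
          rw [if_neg hne, mul_zero]
        · exact fun h => absurd hα h
      · rw [Finset.sum_eq_zero]
        · rw [← hGz, notMem_support_iff.1 hα, zero_div, pz.val_zero]
        · intro α' hα'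
          rw [if_neg (fun h => hα (by rw [← h]; exact hα')), mul_zero]
    rw [h1, map_sum]
    refine Finset.sum_congr rfl fun α _ => ?_
    rw [map_mul]
    have h2 : pe u v (C (PowerSeries.constantCoeff (τ α))) =
        Polynomial.C (PowerSeries.constantCoeff (τ α)) := by
      unfold pe
      rw [aeval_C, Polynomial.algebraMap_eq]
    rw [h2]
    rfl
  have hBz : ∀ a, ∑ α ∈ G.support, Polynomial.C (PowerSeries.constantCoeff (τ α)) * eB u v a α =
      pe u v (pderiv a (∏ j, lf (gs j))) := by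
    intro a
    have h1 : (∏ j, lf (gs j) : MvPolynomial (Fin (N + 1)) ℂ) =
        ∑ α ∈ G.support, C (PowerSeries.constantCoeff (τ α)) * monomial α 1 := by
      ext α
      rw [coeff_sum]
      simp only [coeff_C_mul, coeff_monomial]
      by_cases hα : α ∈ G.support
      · rw [Finset.sum_eq_single α]
        · rw [if_pos rfl, mul_one, hτ0]
        · intro α' _ hne
          rw [if_neg hne, mul_zero]
        · exact fun h => absurd hα h
      · rw [Finset.sum_eq_zero]
        · rw [← hGz, notMem_support_iff.1 hα, zero_div, pz.val_zero]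
        · intro α' hα'
          rw [if_neg (fun h => hα (by rw [← h]; exact hα')), mul_zero]
    rw [h1, map_sum, map_sum]
    refine Finset.sum_congr rfl fun α _ => ?_
    rw [pderiv_C_mul, map_mul]
    have h2 : pe u v (C (PowerSeries.constantCoeff (τ α))) =
        Polynomial.C (PowerSeries.constantCoeff (τ α)) := by
      unfold pe
      rw [aeval_C, Polynomial.algebraMap_eq]
    rw [h2]
    rfl
  have hdeg : ∀ α ∈ G.support, α.degree ≤ S := by
    intro α hα
    have h1 := hG (mem_support_iff.1 hα)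
    rw [← h1, Finsupp.degree_eq_weight_one]
    exact le_rfl
  have hΔ' := hΔ
  have hmain := hK k (ps G.support τ (eP u v)) (fun a => ps G.support τ (eB u v a)) (q.tay θ)
    (∏ j ∈ Finset.univ.erase i, (linc v (gs i) - linc v (gs j))) (gs i) δ Ψ
    (ps_natDegree _ _ _ fun α hα => eP_natDegree u v (hdeg α hα))
    (fun l => (ps_const_le _ _ _ hτT l).trans (hE l))
    (fun l => (ps_pn_le _ _ _ hτk l).trans (by
      rw [← mul_assoc]
      exact mul_le_mul_of_nonneg_right (hE l) (by linarith)))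
    (fun a => ps_natDegree _ _ _ fun α hα => eB_natDegree u v a (hdeg α hα))
    (fun a l => (ps_const_le _ _ _ hτT l).trans (hEB a l))
    (fun a l => (ps_pn_le _ _ _ hτk l).trans (by
      rw [← mul_assoc]
      exact mul_le_mul_of_nonneg_right (hEB a l) (by linarith)))
    (by rw [(hval (eP u v)).2, hsumP, q.tay_zero])
    (by rw [q.const_tay, hθv]; exact hθH) hδ hδ1 hΨ hΔ
    (by rw [ps_map, hPz, pe_prod hu, q.const_tay, hθv]; exact c5_deriv_prod (fun j => linc v (gs j)) i)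
    (fun a => by rw [ps_map, hBz, q.const_tay, hθv]; exact pe_pderiv hu a i) hgH hg0
  -- the jets
  have hβ0 : q.val (β 0) ≠ 0 := by
    have h1 : q.val (β 0) = (∏ j ∈ Finset.univ.erase i, (linc v (gs i) - linc v (gs j))) * gs i 0 := by
      rw [← q.const_tay, hβ, ← (hval (eB u v 0)).2]
      have h2 := congrArg (fun r => Polynomial.eval (q.val θ) r) (ps_map G.support τ (eB u v 0))
      rw [hBz, hθv, pe_pderiv hu 0 i, ← hθv, ← q.const_tay, Polynomial.eval_map, Polynomial.eval₂_at_apply] at h2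
      rw [h2, q.const_tay, hθv]
    rw [h1]
    exact mul_ne_zero (fun h => absurd (hδ.trans_le hΔ) (by rw [h, norm_zero]; exact lt_irrefl _)) hg0
  obtain ⟨j, l⟩ := p
  have h1 := hmain j.succ (l : ℕ) (Nat.lt_succ_iff.1 l.2)
  have h2 : (ps G.support τ (eB u v j.succ)).eval (q.tay θ) *
      ((ps G.support τ (eB u v 0)).eval (q.tay θ))⁻¹ = q.tay (f j) := by
    rw [(hval (eB u v j.succ)).2, (hval (eB u v 0)).2, ← hβ, ← hβ, hβ2, q.tay_mul (hf j) (hβO 0),
      mul_assoc, PowerSeries.mul_inv_cancel _ (by rw [q.const_tay]; exact hβ0), mul_one]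
  rw [h2, q.coeff_tay, ← q.val_jetL hf (j, l)] at h1
  exact h1

end Pool.Agent.H24V
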