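import Pool.Agent.Lib.H24V.C8

set_option autoImplicit false

/-!
H24V, module C: the product over the places; the values of polynomials at a place.
-/

open MvPolynomial

namespace Pool.Agent.H24V

open Pool.Agent.H89T Pool.Agent.H67T Pool.Agent.H53U Pool.Agent.H53V

/-- The product over the places: the numerical part. -/
theorem c9_num {S T E : ℕ} (hS : 1 ≤ S) {C₃ Cs D₀ K₁ Ψ : ℝ} (hC₃ : 1 ≤ C₃) (hCs : 1 ≤ Cs)
    (hD₀ : 1 ≤ D₀) (hK₁ : 1 ≤ K₁) (hΨ : 1 ≤ Ψ) (hE : (4 * S - 3) * T + 1 ≤ E) {n q s d δ : Fin S → ℝ}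
    (hn : ∀ i, 1 ≤ n i) (hq : ∀ i, 0 ≤ q i) (hs : ∀ i, 0 ≤ s i) (hδ : ∀ i, 0 < δ i)
    (hd0 : ∀ i, 0 ≤ d i) (hd : ∀ i, d i ≤ D₀ * δ i)
    (hqle : ∀ i, q i ≤ C₃ ^ (S - 1) * (n i ^ (S - 1) * (∏ j ∈ Finset.univ.erase i, n j)) * d i)
    (hsle : ∀ i, s i * n i ^ E ≤ Cs * (K₁ * (Ψ * n i / δ i ^ 2)) ^ T) :
    (∏ i, (q i ^ (2 * T) * s i)) * ∏ i, n i ≤
      Cs ^ S * ((C₃ ^ (S - 1)) ^ 2 * D₀ ^ 2 * K₁) ^ (T * S) * Ψ ^ (T * S) := by
  classical
  obtain ⟨m, hm⟩ : ∃ m : Fin S → ℝ, ∀ i, m i = ∏ j ∈ Finset.univ.erase i, n j := ⟨_, fun _ => rfl⟩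
  obtain ⟨Pi0, hPi⟩ : ∃ Pi0 : ℝ, Pi0 = ∏ i, n i := ⟨_, rfl⟩
  have hPi1 : 1 ≤ Pi0 := by
    rw [hPi]
    calc (1 : ℝ) = ∏ _i : Fin S, (1 : ℝ) := by rw [Finset.prod_const_one]
      _ ≤ ∏ i, n i := Finset.prod_le_prod (fun _ _ => zero_le_one) fun i _ => hn i
  have hPi0 : 0 < Pi0 := by linarith
  have hm1 : ∀ i, n i * m i = Pi0 := fun i => by
    rw [hm, hPi]
    exact Finset.mul_prod_erase Finset.univ n (Finset.mem_univ i)
  have hm0 : ∀ i, 0 ≤ m i := fun i => by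
    rw [hm]
    exact Finset.prod_nonneg fun j _ => zero_le_one.trans (hn j)
  have hmprod : ∏ i, m i = Pi0 ^ (S - 1) := by
    have h1 : (∏ i, n i) * ∏ i, m i = Pi0 ^ S := by
      rw [← Finset.prod_mul_distrib, Finset.prod_congr rfl fun i _ => hm1 i, Finset.prod_const,
        Finset.card_univ, Fintype.card_fin]
    rw [← hPi] at h1
    have h2 : Pi0 ^ S = Pi0 * Pi0 ^ (S - 1) := by
      rw [← pow_succ', Nat.sub_add_cancel hS]
    rw [h2] at h1
    exact mul_left_cancel₀ hPi0.ne' h1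
  have hn0 : ∀ i, 0 < n i := fun i => lt_of_lt_of_le one_pos (hn i)
  -- one place
  obtain ⟨C₇, hC₇⟩ : ∃ C₇ : ℝ, C₇ = (C₃ ^ (S - 1)) ^ 2 * D₀ ^ 2 * K₁ := ⟨_, rfl⟩
  have hC₇0 : 0 ≤ C₇ := by rw [hC₇]; positivity
  have hone : ∀ i, q i ^ (2 * T) * s i * n i ^ E ≤
      Cs * (C₇ * Ψ * ((n i ^ (S - 1) * m i) ^ 2 * n i)) ^ T := by
    intro i
    have h1 : q i ^ 2 * (K₁ * (Ψ * n i / δ i ^ 2)) ≤ C₇ * Ψ * ((n i ^ (S - 1) * m i) ^ 2 * n i) := by
      have h2 : q i ≤ C₃ ^ (S - 1) * (n i ^ (S - 1) * m i) * (D₀ * δ i) := by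
        refine (hqle i).trans ?_
        rw [← hm]
        refine mul_le_mul_of_nonneg_left (hd i) ?_
        have := hm0 i
        have := hn0 i
        positivity
      have h3 : q i ^ 2 ≤ (C₃ ^ (S - 1) * (n i ^ (S - 1) * m i) * (D₀ * δ i)) ^ 2 :=
        pow_le_pow_left₀ (hq i) h2 2
      have h4 : 0 ≤ K₁ * (Ψ * n i / δ i ^ 2) := by
        have := hδ i
        have := hn0 i
        positivity
      calc q i ^ 2 * (K₁ * (Ψ * n i / δ i ^ 2))
          ≤ (C₃ ^ (S - 1) * (n i ^ (S - 1) * m i) * (D₀ * δ i)) ^ 2 * (K₁ * (Ψ * n i / δ i ^ 2)) :=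
            mul_le_mul_of_nonneg_right h3 h4
        _ = C₇ * Ψ * ((n i ^ (S - 1) * m i) ^ 2 * n i) := by
            have := (hδ i).ne'
            rw [hC₇]
            field_simp
    have h5 : 0 ≤ K₁ * (Ψ * n i / δ i ^ 2) := by
      have := hδ i
      have := hn0 i
      positivity
    calc q i ^ (2 * T) * s i * n i ^ E = q i ^ (2 * T) * (s i * n i ^ E) := by ring
      _ ≤ q i ^ (2 * T) * (Cs * (K₁ * (Ψ * n i / δ i ^ 2)) ^ T) :=
          mul_le_mul_of_nonneg_left (hsle i) (pow_nonneg (hq i) _)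
      _ = Cs * (q i ^ 2 * (K₁ * (Ψ * n i / δ i ^ 2))) ^ T := by
          rw [mul_pow (q i ^ 2), ← pow_mul]
          ring
      _ ≤ Cs * (C₇ * Ψ * ((n i ^ (S - 1) * m i) ^ 2 * n i)) ^ T := by
          refine mul_le_mul_of_nonneg_left (pow_le_pow_left₀ ?_ h1 _) (by linarith)
          exact mul_nonneg (pow_nonneg (hq i) _) h5
  have hprod : ∏ i, (q i ^ (2 * T) * s i * n i ^ E) ≤
      ∏ i, (Cs * (C₇ * Ψ * ((n i ^ (S - 1) * m i) ^ 2 * n i)) ^ T) := by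
    refine Finset.prod_le_prod (fun i _ => ?_) fun i _ => hone i
    exact mul_nonneg (mul_nonneg (pow_nonneg (hq i) _) (hs i)) (pow_nonneg (hn0 i).le _)
  have hL : ∏ i, (q i ^ (2 * T) * s i * n i ^ E) = (∏ i, (q i ^ (2 * T) * s i)) * Pi0 ^ E := by
    rw [Finset.prod_mul_distrib, Finset.prod_pow, ← hPi]
  have hexp : (S - 1) * 2 + (S - 1) * 2 + 1 = 4 * S - 3 := by omega
  have hR : ∏ i, (Cs * (C₇ * Ψ * ((n i ^ (S - 1) * m i) ^ 2 * n i)) ^ T) =
      Cs ^ S * C₇ ^ (T * S) * Ψ ^ (T * S) * Pi0 ^ ((4 * S - 3) * T) := by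
    have h1 : ∏ i, ((n i ^ (S - 1) * m i) ^ 2 * n i) = Pi0 ^ (4 * S - 3) := by
      rw [Finset.prod_mul_distrib, Finset.prod_pow, Finset.prod_mul_distrib, Finset.prod_pow, hmprod,
        ← hPi, ← hexp, pow_add, pow_add, pow_mul, pow_one]
      ring
    rw [Finset.prod_mul_distrib, Finset.prod_const, Finset.card_univ, Fintype.card_fin,
      Finset.prod_pow, Finset.prod_mul_distrib, h1, Finset.prod_const, Finset.card_univ,
      Fintype.card_fin, mul_pow (( C₇ * Ψ) ^ S), ← pow_mul, ← pow_mul, mul_pow, mul_comm S T]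
    ring
  rw [hL, hR] at hprod
  obtain ⟨X, hX⟩ : ∃ X : ℝ, X = ∏ i, (q i ^ (2 * T) * s i) := ⟨_, rfl⟩
  rw [← hX] at hprod ⊢
  rw [← hPi, ← hC₇]
  have hB0 : 0 ≤ Cs ^ S * C₇ ^ (T * S) * Ψ ^ (T * S) := by positivity
  have h1 : X * Pi0 * Pi0 ^ E ≤ Cs ^ S * C₇ ^ (T * S) * Ψ ^ (T * S) * Pi0 ^ E := by
    calc X * Pi0 * Pi0 ^ E = (X * Pi0 ^ E) * Pi0 := by ring
      _ ≤ (Cs ^ S * C₇ ^ (T * S) * Ψ ^ (T * S) * Pi0 ^ ((4 * S - 3) * T)) * Pi0 :=
          mul_le_mul_of_nonneg_right hprod hPi0.le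
      _ = Cs ^ S * C₇ ^ (T * S) * Ψ ^ (T * S) * Pi0 ^ ((4 * S - 3) * T + 1) := by
          rw [pow_succ]
          ring
      _ ≤ Cs ^ S * C₇ ^ (T * S) * Ψ ^ (T * S) * Pi0 ^ E :=
          mul_le_mul_of_nonneg_left (pow_le_pow_right₀ hPi1 hE) hB0
  exact le_of_mul_le_mul_right h1 (by positivity)

section Places

variable {L : Type} [Field L] [Algebra ℂ L] [Algebra KK L] [IsScalarTower ℂ KK L]
  {D : Derivation ℂ L L}

/-- The value of a polynomial over `K` at a place of `L`. -/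
theorem c9_val {pz : Place KK DK} {q : Place L D}
    (htr : ∀ x ∈ pz.O, algebraMap KK L x ∈ q.O ∧ q.val (algebraMap KK L x) = pz.val x)
    {θ : L} (hθ : θ ∈ q.O) {Q : Polynomial KK} (hQ : pz.CoP Q) :
    Polynomial.aeval θ Q ∈ q.O ∧ q.val (Polynomial.aeval θ Q) = (pz.rdP Q).eval (q.val θ) := by
  have h1 : ∀ i ∈ Finset.range (Q.natDegree + 1), algebraMap KK L (Q.coeff i) * θ ^ i ∈ q.O :=
    fun i _ => mul_mem (htr _ (hQ i)).1 (pow_mem hθ i)
  have h2 : Polynomial.aeval θ Q = ∑ i ∈ Finset.range (Q.natDegree + 1), algebraMap KK L (Q.coeff i) * θ ^ i := by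
    rw [Polynomial.aeval_def, Polynomial.eval₂_eq_sum_range]
  have h3 : (pz.rdP Q).natDegree ≤ Q.natDegree := by
    rw [Polynomial.natDegree_le_iff_coeff_eq_zero]
    intro i hi
    rw [pz.coeff_rdP, Polynomial.coeff_eq_zero_of_natDegree_lt hi, pz.val_zero]
  refine ⟨by rw [h2]; exact sum_mem h1, ?_⟩
  rw [h2, q.val_sum _ h1, Polynomial.eval_eq_sum_range' (Nat.lt_succ_of_le h3)]
  refine Finset.sum_congr rfl fun i _ => ?_
  rw [q.val_mul (htr _ (hQ i)).1 (pow_mem hθ i), (htr _ (hQ i)).2, q.val_pow hθ, pz.coeff_rdP]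

theorem c9_rdP_derivative {pz : Place KK DK} {Q : Polynomial KK} (hQ : pz.CoP Q) :
    pz.CoP (Polynomial.derivative Q) ∧
      pz.rdP (Polynomial.derivative Q) = Polynomial.derivative (pz.rdP Q) := by
  have h1 : ∀ i, (Polynomial.derivative Q).coeff i = Q.coeff (i + 1) * ((i + 1 : ℕ) : KK) := by
    intro i
    rw [Polynomial.coeff_derivative]
    push_cast
    ring
  refine ⟨fun i => ?_, ?_⟩
  · rw [h1]
    exact mul_mem (hQ _) (pz.natCast_memO _)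
  · ext i
    rw [pz.coeff_rdP, h1, Polynomial.coeff_derivative, pz.coeff_rdP,
      pz.val_mul (hQ _) (pz.natCast_memO _), pz.val_natCast]
    push_cast
    ring

/-- The value of `G` at a constant point. -/
theorem c9_rdM {n : ℕ} {pz : Place KK DK} {G : MvPolynomial (Fin n) KK} (hG : pz.CoM G)
    (v : Fin n → ℂ) :
    pz.val (eval (fun a => algebraMap ℂ KK (v a)) G) = eval v (pz.rdM G) := by
  have hmon : ∀ α : Fin n →₀ ℕ, ∏ a, algebraMap ℂ KK (v a) ^ α a = algebraMap ℂ KK (∏ a, v a ^ α a) := by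
    intro α
    rw [map_prod]
    exact Finset.prod_congr rfl fun a _ => (map_pow _ _ _).symm
  rw [eval_eq', pz.val_sum]
  · have h1 : eval v (pz.rdM G) = ∑ α ∈ G.support, pz.val (coeff α G) * ∏ a, v a ^ α a := by
      rw [eval_eq']
      refine Finset.sum_subset_zero_on_sdiff ?_ ?_ ?_
      · intro α hα
        rw [mem_support_iff, pz.coeff_rdM] at hα
        rw [mem_support_iff]
        intro h0
        exact hα (by rw [h0, pz.val_zero])
      · intro α hα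
        rw [Finset.mem_sdiff] at hα
        have h2 := notMem_support_iff.1 hα.2
        rw [pz.coeff_rdM] at h2
        rw [h2, zero_mul]
      · intro α _
        rw [pz.coeff_rdM]
    rw [h1]
    refine Finset.sum_congr rfl fun α _ => ?_
    rw [hmon, pz.val_mul (hG α) (pz.O.algebraMap_mem _), pz.val_algebraMap]
  · intro α _
    rw [hmon]
    exact mul_mem (hG α) (pz.O.algebraMap_mem _)

end Places

theorem lf_smul {n : ℕ} (c : ℂ) (x : Fin n → ℂ) : lf (c • x) = C c * lf x := by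
  unfold lf
  rw [Finset.mul_sum]
  refine Finset.sum_congr rfl fun a _ => ?_
  rw [Pi.smul_apply, smul_eq_mul, map_mul]
  ring

theorem eval_lf {n : ℕ} (v x : Fin n → ℂ) : eval v (lf x) = linc v x := by
  unfold lf linc
  rw [map_sum]
  refine Finset.sum_congr rfl fun a _ => ?_
  rw [map_mul, eval_C, eval_X, smul_eq_mul, mul_comm]

theorem linc_smul' {n : ℕ} (v : Fin n → ℂ) (c : ℂ) (x : Fin n → ℂ) : linc v (c • x) = c * linc v x := by
  unfold linc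
  rw [Finset.mul_sum]
  refine Finset.sum_congr rfl fun a _ => ?_
  rw [Pi.smul_apply]
  simp only [smul_eq_mul]
  ring

theorem linc_sub' {n : ℕ} (v x y : Fin n → ℂ) : linc v (x - y) = linc v x - linc v y := by
  unfold linc
  rw [← Finset.sum_sub_distrib]
  refine Finset.sum_congr rfl fun a _ => ?_
  rw [Pi.sub_apply]
  simp only [smul_eq_mul]
  ring

end Pool.Agent.H24V
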