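import Pool.Agent.Lib.H53V.D0

set_option autoImplicit false

/-!
H24V (symmetric powers of generic complete intersections, see PROOF.md): definitions and the statements
of the modules.
-/

open MvPolynomial

namespace Pool.Agent.H24V

open Pool.Agent.H89T Pool.Agent.H67T Pool.Agent.H53U Pool.Agent.H53V

/-- A place of a differential algebra over `ℂ`: a homomorphism to `ℂ` of a subalgebra stable under the
derivation. -/
structure Place (L : Type) [CommRing L] [Algebra ℂ L] (D : Derivation ℂ L L) where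
  O : Subalgebra ℂ L
  stable : ∀ x ∈ O, D x ∈ O
  hom : O →ₐ[ℂ] ℂ

open Classical in
/-- The value at a place (`0` outside the subalgebra). -/
noncomputable def Place.val {L : Type} [CommRing L] [Algebra ℂ L] {D : Derivation ℂ L L}
    (p : Place L D) (x : L) : ℂ :=
  if h : x ∈ p.O then p.hom ⟨x, h⟩ else 0

/-- The Taylor coefficients `D ^ l (f b) / l !`. -/
noncomputable def jetL {L : Type} [CommRing L] [Algebra ℂ L] (D : Derivation ℂ L L) {N : ℕ} (k : ℕ)
    (f : Fin N → L) : JV N k → L :=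
  fun p => (((p.2 : ℕ).factorial : ℂ)⁻¹) • (D^[(p.2 : ℕ)] (f p.1))

/-- The value at `y` of the linear form with complex coefficients `l`. -/
noncomputable def linc {L : Type} [CommRing L] [Algebra ℂ L] {n : ℕ} (l : Fin n → ℂ)
    (y : Fin n → L) : L :=
  ∑ a, l a • y a

/-- The point with affine coordinates `f`. -/
def pt {L : Type} [One L] {N : ℕ} (f : Fin N → L) : Fin (N + 1) → L := Fin.cons 1 f

/-- The vanishing theorem for the field `L` with the constant `B`. -/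
def VT (B : ℕ) (L : Type) [Field L] [Algebra ℂ L] (D : Derivation ℂ L L) : Prop :=
  ∀ (N k M R s κ c : ℕ) (F : Fin c → MvPolynomial (Fin (N + 1)) ℂ) (f : Fin N → L)
    (l : Fin R → Fin (N + 1) → ℂ) (A : ℝ) (P Q : Fin R → MvPolynomial (JV N k) ℂ),
    B * (R * M) + 1 ≤ s * κ → (∃ b, D (f b) ≠ 0) → (∀ j, aeval (pt f) (F j) = 0) →
    (∀ x : Fin (N + 1) → ℂ, (∀ j, eval x (F j) = 0) → ‖x‖ ≤ A * ‖x 0‖ ∨
      ∃ I : Finset (Fin R), I.card = κ ∧ ∀ i ∈ I, ‖x‖ ≤ A * ‖linc (l i) x‖) →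
    (∀ i, HasWt M (P i)) → (∀ i, HasWt M (Q i)) →
    (∀ i, linc (l i) (pt f) ^ s * aeval (jetL D k f) (P i) = aeval (jetL D k f) (Q i)) →
    ∃ i, aeval (jetL D k f) (P i) = 0

/-- The differential fields over `ℂ` to which the proof applies. -/
structure Good (B : ℕ) (L : Type) [Field L] [Algebra ℂ L] (D : Derivation ℂ L L) : Prop where
  gp : ∀ s : Finset L, ∃ p : Place L D, (∀ x ∈ s, x ∈ p.O) ∧ ∀ x ∈ s, x ≠ 0 → p.val x ≠ 0
  const : ∀ x : L, D x = 0 → ∃ t : ℂ, x = algebraMap ℂ L t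
  vt : VT B L D

/-- The pointed theorem: if `(1, f)` is a point of a generic complete intersection through
`(1, 0, ..., 0)` over a good field and `f = 0` at a place, then the derivatives vanish there. -/
def PtdL (B n : ℕ) {c : ℕ} (d : Fin c → ℕ) : Prop :=
  ∃ Θ : RC (n + c) d,
    (∃ a : CI (n + c) d → ℂ, (∀ j, U0 a 0 j = 0) ∧ eval a Θ ≠ 0) ∧
    ∀ F : Fin c → MvPolynomial (Fin (n + c + 1)) ℂ, (∀ j, (F j).IsHomogeneous (d j)) →
      (∀ j, U0 (cfs d F) 0 j = 0) → eval (cfs d F) Θ ≠ 0 →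
        ∀ (L : Type) [Field L] [Algebra ℂ L] (D : Derivation ℂ L L), Good B L D →
          ∀ f : Fin (n + c) → L, (∀ j, aeval (pt f) (F j) = 0) →
            ∀ p : Place L D, (∀ b, f b ∈ p.O) → (∀ b, p.val (f b) = 0) → ∀ b, p.val (D (f b)) = 0

/-- The points over good fields of generic complete intersections of type `d` are constant. -/
def HypL (B N : ℕ) {c : ℕ} (d : Fin c → ℕ) : Prop :=
  ∃ Θ : MvPolynomial (Fin c × (Fin (N + 1) →₀ ℕ)) ℂ,
    (∃ F : Fin c → MvPolynomial (Fin (N + 1)) ℂ, (∀ j, (F j).IsHomogeneous (d j)) ∧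
      cvs Θ F ≠ 0) ∧
    ∀ F : Fin c → MvPolynomial (Fin (N + 1)) ℂ, (∀ j, (F j).IsHomogeneous (d j)) →
      cvs Θ F ≠ 0 → ∀ (L : Type) [Field L] [Algebra ℂ L] (D : Derivation ℂ L L), Good B L D →
        ∀ y : Fin (N + 1) → L, (∀ j, aeval y (F j) = 0) →
          ∃ (t : L) (x : Fin (N + 1) → ℂ), ∀ i, y i = t * algebraMap ℂ L (x i)

/-- The linear form `∑ x_b u_b` in the variables `u`. -/
noncomputable def lf {n : ℕ} {A : Type} [CommRing A] (x : Fin n → A) : MvPolynomial (Fin n) A :=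
  ∑ b, C (x b) * X b

/-- `H` is an entire curve in the symmetric power `Sym ^ m (X_F)`: the product of the linear forms of
`m` points of `X_F`. -/
structure SymCurve (m : ℕ) {N c : ℕ} (F : Fin c → MvPolynomial (Fin (N + 1)) ℂ)
    (H : ℂ → MvPolynomial (Fin (N + 1)) ℂ) : Prop where
  diff : ∀ α, Differentiable ℂ fun z => coeff α (H z)
  prod : ∀ z, ∃ p : Fin m → Fin (N + 1) → ℂ, (∀ i, p i ≠ 0) ∧ (∀ i j, eval (p i) (F j) = 0) ∧
    H z = ∏ i, lf (p i)

/-- The `m`-th symmetric powers of generic complete intersections of type `d` in `P ^ N` are Brody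
hyperbolic. -/
def SymHyp (m N : ℕ) {c : ℕ} (d : Fin c → ℕ) : Prop :=
  ∃ Θ : MvPolynomial (Fin c × (Fin (N + 1) →₀ ℕ)) ℂ,
    (∃ F : Fin c → MvPolynomial (Fin (N + 1)) ℂ, (∀ j, (F j).IsHomogeneous (d j)) ∧
      cvs Θ F ≠ 0) ∧
    ∀ F : Fin c → MvPolynomial (Fin (N + 1)) ℂ, (∀ j, (F j).IsHomogeneous (d j)) →
      cvs Θ F ≠ 0 → ∀ H : ℂ → MvPolynomial (Fin (N + 1)) ℂ, SymCurve m F H →
        ∀ z w, ∃ t : ℂ, H w = t • H z

end Pool.Agent.H24V
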