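import Pool.Agent.Lib.H24V.R3
import Pool.Agent.Lib.H24V.R4
import Pool.Agent.Lib.H53U.R4
import Pool.Agent.Lib.H53U.R5

set_option autoImplicit false

/-!
H24V, module R: from the pointed theorem in dimension `2 n` to the theorem in dimension `n` (port of
H53U/RFinal.lean).
-/

open MvPolynomial

namespace Pool.Agent.H24V

open Pool.Agent.H89T Pool.Agent.H67T Pool.Agent.H53U

theorem hypL_of_ptdL {B n c : ℕ} {d : Fin c → ℕ} (hd : ∀ j, 1 ≤ d j) (h : PtdL B (n + n) d) :
    HypL B (n + c) d := by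
  classical
  obtain ⟨Θ, hΘ, hmain⟩ := h
  obtain ⟨Θ₀, hΘ₀, hcv⟩ := exists_theta0 hΘ
  obtain ⟨Θ', hΘ', hel⟩ := alg2T (m := n + c) hd rfl hΘ₀
  refine hypL_of_chart hΘ' ?_
  intro F hF hF' L _ _ D hG f hfF' b
  by_contra hb
  obtain ⟨p, hp, hp0⟩ := hG.gp (insert (D (f b)) (Finset.univ.image f))
  have hfO : ∀ b, f b ∈ p.O := fun b =>
    hp _ (Finset.mem_insert_of_mem (Finset.mem_image_of_mem f (Finset.mem_univ b)))
  have hbv : p.val (D (f b)) ≠ 0 := hp0 _ (Finset.mem_insert_self _ _) hb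
  set a : Fin (n + c) → ℂ := fun b => p.val (f b) with ha
  have hfF : ∀ j, fm (fun δ : Ex (Fin (n + c + 1)) (d j) => coeff δ.1 (F j)) = F j :=
    fun j => fm_coeff (hF j)
  have hFa : ∀ j, eval (Fin.cons 1 a) (F j) = 0 := by
    intro j
    have h1 := p.val_aeval (fun i => p.pt_mem hfO i) (F j)
    rw [hfF' j, p.val_zero] at h1
    have h2 : (fun i => p.val (pt f i)) = (Fin.cons 1 a : Fin (n + c + 1) → ℂ) := by
      funext i
      exact p.val_pt i
    rw [h2] at h1
    exact h1.symm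
  obtain ⟨ψ, hψ, hne⟩ := hel (fun p => coeff p.2.1 (F p.1)) a hF' (fun j => by
    rw [hfF]
    exact hFa j)
  have hG' : (fun j => shear a (fm fun δ : Ex (Fin (n + c + 1)) (d j) => coeff δ.1 (F j))) =
      fun j => shear a (F j) := by
    funext j
    rw [hfF]
  rw [hG'] at hne
  -- the extended forms
  have hψh : ∀ j, (ψ j).IsHomogeneous (d j) := by
    obtain ⟨s, E, hE, hψ⟩ := hψ
    intro j
    rw [hψ]
    refine IsHomogeneous.sum _ _ _ fun i _ => ?_
    have h5 : (X (Sum.inr i) + ∑ b : Fin (n + c), C (s i b) * X (Sum.inl b.succ) :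
        MvPolynomial (Fin (n + c + 1) ⊕ Fin n) ℂ).IsHomogeneous 1 := by
      refine (isHomogeneous_X _ _).add (IsHomogeneous.sum _ _ _ fun b _ => ?_)
      exact (isHomogeneous_C _ _).mul (isHomogeneous_X _ _)
    have h6 := h5.mul (hE i j)
    rwa [Nat.add_sub_cancel' (hd j)] at h6
  have hbig : ∀ j, (bigT ℂ ψ (fun j => shear a (F j)) j).IsHomogeneous (d j) := fun j =>
    ((shear_homogeneous a (hF j)).rename_isHomogeneous
      (f := (Sum.inl : Fin (n + c + 1) → Fin (n + c + 1) ⊕ Fin n))).add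
      ((hψh j).map (algebraMap ℂ ℂ))
  obtain ⟨f', hf'O, hf'0, hYF, i, hi⟩ := exists_ptL p hfO hfF' hψ hbv
  have hU0 : ∀ j, U0 (cfs d fun j => rename (eqvT n c)
      (bigT ℂ ψ (fun j => shear a (F j)) j)) 0 j = 0 := by
    intro j
    rw [U0_cfs_zero]
    have h1 := p.val_aeval (fun i => p.pt_mem hf'O i) (rename (eqvT n c)
      (bigT ℂ ψ (fun j => shear a (F j)) j))
    rw [hYF j, p.val_zero] at h1
    have h3 : ∀ G : MvPolynomial (Fin (n + n + c + 1)) ℂ, G.IsHomogeneous (d j) →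
        eval (Pi.single 0 1) G = coeff (Finsupp.single 0 (d j)) G := by
      intro G hG
      rw [← U0_cfs_zero (N := n + n + c) (d := fun _ : Fin c => d j) (fun _ => G) j]
      have h4 := eval_insertNth 0 hG (0 : Fin (n + n + c) → ℂ)
      have h5 : ((0 : Fin (n + n + c + 1)).insertNth 1 (0 : Fin (n + n + c) → ℂ) :
          Fin (n + n + c + 1) → ℂ) = Pi.single 0 1 := by
        funext i
        refine Fin.cases ?_ (fun b => ?_) i
        · simp
        · rw [Pi.single_eq_of_ne (Fin.succ_ne_zero b)]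
          simp
      rw [h5] at h4
      exact h4
    have h2 : (fun i => p.val (pt f' i)) = (Pi.single 0 1 : Fin (n + n + c + 1) → ℂ) := by
      funext i
      rw [p.val_pt]
      refine Fin.cases ?_ (fun b => ?_) i
      · simp [pt]
      · rw [Pi.single_eq_of_ne (Fin.succ_ne_zero b)]
        exact hf'0 b
    rw [h2, h3 _ (hbig j).rename_isHomogeneous] at h1
    exact h1.symm
  have hne' : eval (cfs d fun j => rename (eqvT n c)
      (bigT ℂ ψ (fun j => shear a (F j)) j)) Θ ≠ 0 := by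
    rw [hcv _ hbig (fun j => ?_)]
    · exact hne
    · have h1 := hU0 j
      rw [U0_cfs_zero, ← eqvT_zero n c] at h1
      have h2 : (Finsupp.single (eqvT n c (Sum.inl 0)) (d j) : Fin (n + n + c + 1) →₀ ℕ) =
          (Finsupp.single (Sum.inl 0) (d j) : (Fin (n + c + 1) ⊕ Fin n) →₀ ℕ).mapDomain
            (eqvT n c) := by
        rw [Finsupp.mapDomain_single]
      rw [h2, coeff_rename_mapDomain _ (eqvT n c).injective] at h1
      exact h1
  exact hi (hmain _ (fun j => (hbig j).rename_isHomogeneous) hU0 hne' L D hG f' hYF p hf'O hf'0 i)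

end Pool.Agent.H24V
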