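import Pool.Agent.Lib.H24V.P5
import Pool.Agent.Lib.H24V.R2
import Pool.Agent.Lib.H24V.R5
import Pool.Agent.Lib.H78Y.A1

set_option autoImplicit false

/-!
H24V, final assembly: the bounds.
-/

open MvPolynomial

namespace Pool.Agent.H24V

open Pool.Agent.H89T Pool.Agent.H67T Pool.Agent.H53U Pool.Agent.H53V

/-- Dropping equations (port of `hypU_of_sub`, H78W/F2.lean). -/
theorem hypL_of_sub {B N c c' : ℕ} {d : Fin c → ℕ} (e : Fin c' → Fin c) (he : Function.Injective e)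
    (h : HypL B N fun j => d (e j)) : HypL B N d := by
  classical
  obtain ⟨Θ, ⟨F₀, hF₀, hF₀Θ⟩, hΘ⟩ := h
  have hval : ∀ F : Fin c → MvPolynomial (Fin (N + 1)) ℂ,
      cvs (rename (fun p : Fin c' × (Fin (N + 1) →₀ ℕ) => (e p.1, p.2)) Θ) F =
        cvs Θ (fun j => F (e j)) := by
    intro F
    rw [cvs, cvs, eval_rename]
    rfl
  refine ⟨rename (fun p : Fin c' × (Fin (N + 1) →₀ ℕ) => (e p.1, p.2)) Θ,
    ⟨fun j => if hj : ∃ j', e j' = j then F₀ hj.choose else 0, fun j => ?_, ?_⟩, ?_⟩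
  · beta_reduce
    split_ifs with hj
    · have h1 : (F₀ hj.choose).IsHomogeneous (d (e hj.choose)) := hF₀ hj.choose
      rwa [hj.choose_spec] at h1
    · exact isHomogeneous_zero _ _ _
  · rw [hval]
    have h1 : (fun j : Fin c' => (if hj : ∃ j', e j' = e j then F₀ hj.choose else 0 :
        MvPolynomial (Fin (N + 1)) ℂ)) = F₀ := by
      funext j
      have hj : ∃ j', e j' = e j := ⟨j, rfl⟩
      rw [dif_pos hj]
      exact congrArg F₀ (he hj.choose_spec)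
    rw [h1]
    exact hF₀Θ
  · intro F hF hFΘ L _ _ D hG y hFy
    rw [hval] at hFΘ
    exact hΘ (fun j => F (e j)) (fun j => hF (e j)) hFΘ L D hG y fun j => hFy (e j)

theorem tr1 (B : ℕ) : Pool.Agent.H78Y.Tr1 B (fun n _ d => PtdL B n d) (fun N _ d => HypL B N d) where
  algK := by
    rintro n k q c d hn hk hd ⟨M, s, hs, hmain⟩
    exact ptdL_of hn hk hd hs hmain
  ry := fun _ hd h => hypL_of_ptdL hd h
  sub := fun e he h => hypL_of_sub e he h

/-- All the bounds, with `B = 4 m - 3` and `L = 6 + log n + (log B) / (3 n)`. -/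
theorem sym_bounds {m n c : ℕ} (hm : 1 ≤ m) (hn : 1 ≤ n) {d : Fin c → ℕ} (hd : ∀ j, 2 ≤ d j)
    {B : ℝ} (hB : B = 4 * m - 3)
    (h : 17100 * (n : ℝ) ^ 4 * (1 + Real.log n) * B ^ 2 ≤ ∑ j, ((d j : ℝ) - 1) ∨
      250 * (n : ℝ) ^ 2 * (2 * (n : ℝ) + (Finset.univ.filter fun j => d j < 4 * n).card) *
        (1 + Real.log n) * B ≤ ∑ j ∈ Finset.univ.filter (fun j => 4 * n ≤ d j), ((d j : ℝ) - 1) ∨
      (∀ K : Finset (Fin c), K.card < 2 * n → 64 * (n : ℝ) ^ 2 * B ≤ ∑ j ∈ Kᶜ, ((d j : ℝ) - 1)) ∨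
      (c = 1 ∧ ∀ j, 1 + 1000 * B * (n : ℝ) ^ 2 * (6 + Real.log n) ^ 2 ≤ d j) ∨
      ((∀ j, 8 * (n : ℝ) * (6 + (Real.log n + Real.log B / (3 * n))) ≤ d j) ∧
        1750 * B * (n : ℝ) ^ 2 * (6 + (Real.log n + Real.log B / (3 * n))) ^ 2 ≤ ∑ j, ((d j : ℝ) - 1)) ∨
      2 * (c : ℝ) ≤ 4 * (n : ℝ) + 8 * n * (6 + (Real.log n + Real.log B / (3 * n))) ∧
        90000 * B * (n : ℝ) ^ 2 * (6 + (Real.log n + Real.log B / (3 * n))) ^ 4 ≤
          ∑ j, ((d j : ℝ) - 1)) :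
    SymHyp m (n + c) d := by
  classical
  refine symHyp_of_hypL ?_
  have hb : ((4 * m - 3 : ℕ) : ℝ) = B := by
    rw [hB, Nat.cast_sub (by omega)]
    push_cast
    ring
  refine Pool.Agent.H78Y.boundsB1 (tr1 (4 * m - 3)) (by omega) hn hd ?_
  rw [hb]
  rcases h with h | h | h | h | h | h
  · exact Or.inl h
  · exact Or.inr (Or.inl h)
  · refine Or.inr (Or.inr (Or.inl fun K hK => ?_))
    have h1 := h K hK
    have h2 : ∑ j ∈ Kᶜ, ((d j : ℝ) - 1) = ((∑ j ∈ Kᶜ, (d j - 1) : ℕ) : ℝ) := by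
      rw [Nat.cast_sum]
      refine Finset.sum_congr rfl fun j _ => ?_
      rw [Nat.cast_sub ((hd j).trans' one_le_two), Nat.cast_one]
    rw [h2, ← hb] at h1
    exact_mod_cast h1
  · exact Or.inr (Or.inr (Or.inr (Or.inl h)))
  · exact Or.inr (Or.inr (Or.inr (Or.inr (Or.inl h))))
  · exact Or.inr (Or.inr (Or.inr (Or.inr (Or.inr h))))

/-- The case `m = 1`: linear forms are points. -/
theorem symHyp_one {N c : ℕ} {d : Fin c → ℕ} (h : HypU N d) : SymHyp 1 N d := by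
  classical
  obtain ⟨Θ, hΘ, hmain⟩ := h
  refine ⟨Θ, hΘ, fun F hF hF0 H hH z z' => ?_⟩
  obtain ⟨y, hy⟩ : ∃ y : ℂ → Fin (N + 1) → ℂ, ∀ z a, y z a = coeff (Finsupp.single a 1) (H z) :=
    ⟨_, fun _ _ => rfl⟩
  have hp : ∀ z, y z ≠ 0 ∧ (∀ j, eval (y z) (F j) = 0) ∧ H z = lf (y z) := by
    intro z
    obtain ⟨p, hp0, hpF, hpH⟩ := hH.prod z
    rw [Fin.prod_univ_one] at hpH
    have h1 : y z = p 0 := by
      funext a
      rw [hy, hpH]
      unfold lf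
      rw [coeff_sum, Finset.sum_eq_single a]
      · rw [coeff_C_mul, coeff_X', if_pos rfl, mul_one]
      · intro b _ hb
        rw [coeff_C_mul, coeff_X', if_neg, mul_zero]
        intro h0
        exact hb ((Finsupp.single_left_inj one_ne_zero).1 h0)
      · exact fun h => absurd (Finset.mem_univ _) h
    rw [h1]
    exact ⟨hp0 0, hpF 0, hpH⟩
  have hyH : IsHol y := ⟨fun a => by
    have e : (fun z => y z a) = fun z => coeff (Finsupp.single a 1) (H z) := _root_.funext fun z => hy z a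
    rw [e]
    exact hH.diff _, fun z => (hp z).1⟩
  obtain ⟨t, ht⟩ := hmain F hF hF0 y hyH (fun z j => (hp z).2.1 j) z z'
  refine ⟨t, ?_⟩
  rw [(hp z').2.2, (hp z).2.2, ht]
  unfold lf
  rw [Finset.smul_sum]
  refine Finset.sum_congr rfl fun a _ => ?_
  rw [Pi.smul_apply, smul_eq_mul, map_mul, smul_eq_C_mul, mul_assoc]

end Pool.Agent.H24V
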