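import Pool.Agent.Lib.H24V.E0

set_option autoImplicit false

/-!
CHUNK P1 (M).  The field of the germs along an ultrafilter.
-/

open Filter Topology

namespace Pool.Agent.H24V

/-- The filter of the codiscrete sets is proper. -/
theorem p1_neBot : NeBot (codiscrete ℂ) := by
  refine ⟨fun h => ?_⟩
  have h1 : (∅ : Set ℂ) ∈ codiscrete ℂ := by
    rw [h]
    exact mem_bot
  have h2 := mem_codiscrete.mp h1 0
  rw [Filter.disjoint_principal_right, compl_compl] at h2
  obtain ⟨z, hz⟩ := Filter.nonempty_of_mem h2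
  exact hz

/-- A field `Om` containing the field of the meromorphic functions, with a homomorphism `ev` from the ring of all functions
`ℂ → ℂ` which extends `EF → KK`: take an ultrafilter `φ ≤ codiscrete ℂ` (`Ultrafilter.of`, `NeBot (codiscrete ℂ)`), `Om = (φ : Filter ℂ).Germ ℂ`
(Mathlib/Order/Filter/FilterProduct.lean: it is a field), `ev f` the germ of `f`; a nonzero entire function has nonzero germ (its zeros are
isolated: see `EF_mul_ne` in E0.lean), so `EF → Om` is injective and extends to `KK` (`IsFractionRing.lift`,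
`IsLocalization.lift`). -/
theorem exists_Om : ∃ (Om : Type) (_ : Field Om) (_ : Algebra ℂ Om) (_ : Algebra KK Om)
    (_ : IsScalarTower ℂ KK Om) (ev : (ℂ → ℂ) →ₐ[ℂ] Om),
    ∀ f : EF, ev f.1 = algebraMap KK Om (algebraMap EF KK f) := by
  have := p1_neBot
  let φ : Ultrafilter ℂ := Ultrafilter.of (codiscrete ℂ)
  have hφ : (φ : Filter ℂ) ≤ codiscrete ℂ := Ultrafilter.of_le _
  let c : (ℂ → ℂ) →+* Germ (φ : Filter ℂ) ℂ := Germ.coeRingHom (φ : Filter ℂ)
  let a1 : Algebra ℂ (Germ (φ : Filter ℂ) ℂ) := (c.comp (algebraMap ℂ (ℂ → ℂ))).toAlgebra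
  let g : EF →+* Germ (φ : Filter ℂ) ℂ := c.comp EF.val.toRingHom
  have hg : Function.Injective g := by
    rw [injective_iff_map_eq_zero]
    intro f hf
    by_contra hne
    obtain ⟨a, ha⟩ := EF_exists_ne hne
    have h1 := hφ (AnalyticOnNhd.preimage_zero_mem_codiscrete (fun z _ => f.2.analyticAt z) ha)
    have h2 : (f.1 : Germ (φ : Filter ℂ) ℂ) = ((0 : ℂ → ℂ) : Germ (φ : Filter ℂ) ℂ) := hf
    rw [Germ.coe_eq] at h2
    obtain ⟨z, hz⟩ := Filter.nonempty_of_mem (Filter.inter_mem h1 h2)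
    exact hz.1 hz.2
  let a2 : Algebra KK (Germ (φ : Filter ℂ) ℂ) := (IsFractionRing.lift hg).toAlgebra
  have h3 : ∀ f : EF, algebraMap KK (Germ (φ : Filter ℂ) ℂ) (algebraMap EF KK f) = g f :=
    fun f => IsFractionRing.lift_algebraMap hg f
  refine ⟨Germ (φ : Filter ℂ) ℂ, inferInstance, a1, a2, ?_, { c with commutes' := fun x => rfl },
    fun f => (h3 f).symm⟩
  refine IsScalarTower.of_algebraMap_eq fun x => ?_
  rw [IsScalarTower.algebraMap_apply ℂ EF KK, h3]
  rfl

end Pool.Agent.H24V
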