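import Pool.Agent.Lib.H24V.D1

set_option autoImplicit false

/-!
H24V, module R: the equations on the jets of a point.
-/

open MvPolynomial

namespace Pool.Agent.H24V

open Pool.Agent.H89T Pool.Agent.H67T Pool.Agent.H53U Pool.Agent.H53V

variable {L : Type} [Field L] [Algebra ℂ L]

/-- The first coefficients of `A` are those of `exp (s D) x`. -/
def TayP (D : Derivation ℂ L L) (k : ℕ) (A : Polynomial L) (x : L) : Prop :=
  ∀ i ≤ k, A.coeff i = ((i.factorial : ℂ)⁻¹) • D^[i] x

variable {D : Derivation ℂ L L} {k : ℕ}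

theorem iter_add (x y : L) (i : ℕ) : D^[i] (x + y) = D^[i] x + D^[i] y := by
  induction i with
  | zero => rfl
  | succ i ih => rw [Function.iterate_succ_apply', ih, map_add, Function.iterate_succ_apply', Function.iterate_succ_apply']

theorem iter_zero (i : ℕ) : D^[i] (0 : L) = 0 := by
  induction i with
  | zero => rfl
  | succ i ih => rw [Function.iterate_succ_apply', ih, map_zero]

theorem iter_const (t : ℂ) (i : ℕ) : D^[i + 1] (algebraMap ℂ L t) = 0 := by
  rw [Function.iterate_succ_apply, Derivation.map_algebraMap, iter_zero]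

theorem TayP.add {A B : Polynomial L} {x y : L} (hA : TayP D k A x) (hB : TayP D k B y) :
    TayP D k (A + B) (x + y) := fun i hi => by
  rw [Polynomial.coeff_add, hA i hi, hB i hi, iter_add, smul_add]

theorem TayP.mul {A B : Polynomial L} {x y : L} (hA : TayP D k A x) (hB : TayP D k B y) :
    TayP D k (A * B) (x * y) := fun i hi => by
  rw [Polynomial.coeff_mul, Finset.Nat.sum_antidiagonal_eq_sum_range_succ_mk, leib, Finset.smul_sum]
  refine Finset.sum_congr rfl fun j hj => ?_
  have hj' : j ≤ i := Nat.lt_succ_iff.1 (Finset.mem_range.1 hj)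
  simp only
  rw [hA j (hj'.trans hi), hB (i - j) ((Nat.sub_le _ _).trans hi), smul_mul_smul_comm]
  have h1 : ((i.choose j : ℕ) : L) * (D^[j] x * D^[i - j] y) = ((i.choose j : ℕ) : ℂ) • (D^[j] x * D^[i - j] y) := by
    rw [Algebra.smul_def, map_natCast]
  rw [h1, smul_smul]
  congr 1
  have h2 : ((i.choose j : ℕ) : ℂ) * (j.factorial : ℂ) * ((i - j).factorial : ℂ) = (i.factorial : ℂ) := by
    exact_mod_cast Nat.choose_mul_factorial_mul_factorial hj'
  have h3 : (j.factorial : ℂ) ≠ 0 := by exact_mod_cast Nat.factorial_ne_zero j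
  have h4 : ((i - j).factorial : ℂ) ≠ 0 := by exact_mod_cast Nat.factorial_ne_zero (i - j)
  have h5 : (i.factorial : ℂ) ≠ 0 := by exact_mod_cast Nat.factorial_ne_zero i
  field_simp
  linear_combination -h2

theorem TayP.const (t : ℂ) : TayP D k (Polynomial.C (algebraMap ℂ L t)) (algebraMap ℂ L t) := fun i _ => by
  rcases i with _ | i
  · simp
  · rw [Polynomial.coeff_C_succ, iter_const, smul_zero]

theorem TayP.one : TayP D k 1 (1 : L) := by
  have h := TayP.const (D := D) (k := k) 1
  simpa using h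

theorem TayP.zero : TayP D k 0 (0 : L) := fun i _ => by
  rw [Polynomial.coeff_zero, iter_zero, smul_zero]

theorem TayP.pow {A : Polynomial L} {x : L} (hA : TayP D k A x) (n : ℕ) : TayP D k (A ^ n) (x ^ n) := by
  induction n with
  | zero => simpa using TayP.one
  | succ n ih => rw [pow_succ, pow_succ]; exact ih.mul hA

theorem TayP.prod {ι : Type} (s : Finset ι) {A : ι → Polynomial L} {x : ι → L}
    (hA : ∀ i, TayP D k (A i) (x i)) : TayP D k (∏ i ∈ s, A i) (∏ i ∈ s, x i) := by
  classical
  induction s using Finset.induction_on with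
  | empty => simpa using TayP.one
  | insert a s ha ih => rw [Finset.prod_insert ha, Finset.prod_insert ha]; exact (hA a).mul ih

theorem TayP.sum {ι : Type} (s : Finset ι) {A : ι → Polynomial L} {x : ι → L}
    (hA : ∀ i, TayP D k (A i) (x i)) : TayP D k (∑ i ∈ s, A i) (∑ i ∈ s, x i) := by
  classical
  induction s using Finset.induction_on with
  | empty => simpa using TayP.zero
  | insert a s ha ih => rw [Finset.sum_insert ha, Finset.sum_insert ha]; exact (hA a).add ih

theorem tayP_arc {N : ℕ} (f : Fin N → L) (b : Fin N) : TayP D k (arc (jetL D k f) b) (f b) := fun i hi => by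
  unfold arc
  rw [Polynomial.finsetSum_coeff, Finset.sum_eq_single (⟨i, by omega⟩ : Fin (k + 1))]
  · rw [Polynomial.coeff_C_mul, Polynomial.coeff_X_pow_self, mul_one]
    rfl
  · intro c _ hc
    have : i ≠ (c : ℕ) := fun e => hc (Fin.ext e.symm)
    rw [Polynomial.coeff_C_mul, Polynomial.coeff_X_pow, if_neg this, mul_zero]
  · exact fun h => absurd (Finset.mem_univ _) h

/-- The `i`-th Taylor coefficient of `F_a (x (t))` at the jet of `f`. -/
theorem aeval_uR_jet {N e : ℕ} (a : Idx N e → ℂ) (f : Fin N → L) {i : ℕ} (hi : i ≤ k) :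
    aeval (jetL D k f) (uR a i : MvPolynomial (JV N k) ℂ) =
      ((i.factorial : ℂ)⁻¹) • D^[i] (ev (fun α => algebraMap ℂ L (a α)) f) := by
  have h1 : aeval (jetL D k f) (uR a i : MvPolynomial (JV N k) ℂ) =
      uu (fun α => algebraMap ℂ L (a α)) (jetL D k f) i := by
    unfold uR
    have h2 := uu_map (aeval (jetL D k f) : MvPolynomial (JV N k) ℂ →ₐ[ℂ] L).toRingHom
      (fun α => C (a α)) (fun p => X p) i
    have h3 : (fun α => (aeval (jetL D k f) : MvPolynomial (JV N k) ℂ →ₐ[ℂ] L).toRingHom (C (a α))) =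
        fun α => algebraMap ℂ L (a α) := by
      funext α
      exact aeval_C _ _
    have h4 : (fun p => (aeval (jetL D k f) : MvPolynomial (JV N k) ℂ →ₐ[ℂ] L).toRingHom (X p)) =
        jetL D k f := by
      funext p
      exact aeval_X _ _
    rw [h3, h4] at h2
    exact h2
  rw [h1]
  have h5 : TayP D k (Fx (fun α => algebraMap ℂ L (a α)) (jetL D k f))
      (ev (fun α => algebraMap ℂ L (a α)) f) := by
    unfold Fx ev
    exact TayP.sum _ fun α => (TayP.const (a α)).mul (TayP.prod _ fun b => (tayP_arc f b).pow _)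
  exact h5 i hi

/-- The value of a form at the point with affine coordinates `f`. -/
theorem aeval_pt {N e : ℕ} {G : MvPolynomial (Fin (N + 1)) ℂ} (hG : G.IsHomogeneous e) (f : Fin N → L) :
    aeval (pt f) G = ev (fun α => algebraMap ℂ L (cfF e 0 G α)) f := by
  classical
  rw [aeval_def, eval₂_eq']
  have h1 : G.support ⊆ Finset.univ.image (ext (k := e) 0) := by
    intro d hd
    obtain ⟨α, hα⟩ := exists_ext 0 d (degree_eq_of_mem hG (mem_support_iff.1 hd))
    exact Finset.mem_image.2 ⟨α, Finset.mem_univ _, hα⟩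
  rw [Finset.sum_subset h1 (fun d _ hd => by rw [notMem_support_iff.1 hd, map_zero, zero_mul]),
    Finset.sum_image (fun α _ β _ h => ext_injective 0 h)]
  unfold ev
  refine Finset.sum_congr rfl fun α _ => ?_
  show _ = algebraMap ℂ L (coeff (ext 0 α) G) * ∏ b, f b ^ (α.1 b : ℕ)
  rw [Fin.prod_univ_succ]
  have h2 : ∀ b : Fin N, ext 0 α b.succ = (α.1 b : ℕ) := fun b => by
    rw [← Fin.zero_succAbove, ext_succAbove]
  have h3 : pt f 0 = 1 := rfl
  rw [h3, one_pow, one_mul]
  congr 1

/-- The equations vanish on the jets of the points. -/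
theorem aeval_uK_zero {N c : ℕ} {d : Fin c → ℕ} {F : Fin c → MvPolynomial (Fin (N + 1)) ℂ}
    (hF : ∀ j, (F j).IsHomogeneous (d j)) {f : Fin N → L} (hf : ∀ j, aeval (pt f) (F j) = 0)
    (j : Fin c) {i : ℕ} (hi : i ≤ k) :
    aeval (jetL D k f) (uK k (cfs d F) j i) = 0 := by
  unfold uK
  rw [aeval_uR_jet _ _ hi]
  have h1 := aeval_pt (hF j) f
  rw [hf] at h1
  have h2 : ev (fun α => algebraMap ℂ L (cfs d F ⟨j, α⟩)) f = 0 := h1.symm
  rw [h2, iter_zero, smul_zero]

/-- The elements of the ideal vanish on the jets of the points. -/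
theorem aeval_mem_IK {N c : ℕ} {d : Fin c → ℕ} {F : Fin c → MvPolynomial (Fin (N + 1)) ℂ}
    (hF : ∀ j, (F j).IsHomogeneous (d j)) {f : Fin N → L} (hf : ∀ j, aeval (pt f) (F j) = 0)
    {J : Finset (Fin c)} {P : MvPolynomial (JV N k) ℂ} (hP : P ∈ IK k J (cfs d F)) :
    aeval (jetL D k f) P = 0 := by
  have hle : IK k J (cfs d F) ≤ RingHom.ker (aeval (jetL D k f) : MvPolynomial (JV N k) ℂ →ₐ[ℂ] L) := by
    unfold IK
    rw [Ideal.span_le]
    rintro _ ⟨j, i, hi, -, rfl⟩
    show aeval (jetL D k f) (uK k (cfs d F) j i) = 0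
    exact aeval_uK_zero hF hf j hi
  exact hle hP

end Pool.Agent.H24V
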