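import Pool.Agent.Lib.H24V.D2

set_option autoImplicit false

/-!
CHUNK V1 (M).  The norm form is not constant.
-/

open MvPolynomial

namespace Pool.Agent.H24V

open Pool.Agent.H89T Pool.Agent.H67T Pool.Agent.H53U Pool.Agent.H53V

theorem v1_deg {K : Type} [Field K] {N S : ℕ} {G : MvPolynomial (Fin (N + 1)) K}
    (hG : G.IsHomogeneous S) {μ : Fin (N + 1) →₀ ℕ} (hμ : μ ∈ G.support) : μ.degree = S := by
  by_contra hne
  exact (mem_support_iff.1 hμ) (hG.coeff_eq_zero hne)

theorem v1_eq {N S : ℕ} {μ : Fin (N + 1) →₀ ℕ} (h : μ.degree = S)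
    (h0 : ∀ c : Fin N, μ c.succ = 0) : μ = Finsupp.single 0 S := by
  rw [Finsupp.degree_eq_sum, Fin.sum_univ_succ] at h
  simp only [h0, Finset.sum_const_zero, add_zero] at h
  ext i
  refine Fin.cases ?_ (fun j => ?_) i
  · rw [h, Finsupp.single_eq_same]
  · rw [h0, Finsupp.single_apply, if_neg (Fin.succ_ne_zero j).symm]

theorem v1_eq' {N S : ℕ} {μ : Fin (N + 1) →₀ ℕ} (h : μ.degree = S) (h0 : μ 0 = S) :
    μ = Finsupp.single 0 S := by
  refine v1_eq h fun c => ?_
  rw [Finsupp.degree_eq_sum, Fin.sum_univ_succ, h0] at h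
  have h1 : ∑ i : Fin N, μ i.succ = 0 := by omega
  exact (Finset.sum_eq_zero_iff.1 h1) c (Finset.mem_univ c)

/-- The value at `(1, 0, ..., 0)` of a form is the coefficient of `v_0 ^ S` (see the `have h3` in `hypU_of_ptdU`,
H53U/RFinal.lean, or directly `eval_eq'`). -/
theorem eval_single_zero {K : Type} [Field K] {N S : ℕ} {G : MvPolynomial (Fin (N + 1)) K}
    (hG : G.IsHomogeneous S) : eval (Pi.single 0 1) G = coeff (Finsupp.single 0 S) G := by
  classical
  rw [eval_eq']
  rw [Finset.sum_eq_single (Finsupp.single 0 S)]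
  · rw [Finset.prod_eq_one, mul_one]
    intro i _
    refine Fin.cases ?_ (fun j => ?_) i
    · simp
    · rw [Finsupp.single_apply, if_neg (Fin.succ_ne_zero j).symm, pow_zero]
  · intro μ hμ hne
    obtain ⟨b, hb⟩ : ∃ b : Fin N, μ b.succ ≠ 0 := by
      by_contra hcon
      push Not at hcon
      exact hne (v1_eq (v1_deg hG hμ) (fun c => hcon c))
    rw [Finset.prod_eq_zero (Finset.mem_univ b.succ), mul_zero]
    rw [Pi.single_eq_of_ne (Fin.succ_ne_zero b), zero_pow hb]
  · intro hμ
    rw [notMem_support_iff.1 hμ, zero_mul]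

/-- If all coefficients of the norm form are complex numbers, the coordinates `f b` are complex numbers: with
`v = f b • e_0 - e_(b+1)` the value at `v` of `lf (pt f)` is `f b * 1 - f b = 0`, so `eval v (map _ G) = 0`: this is a polynomial
in `f b` with complex coefficients and leading term `coeff (single 0 S) G * (f b) ^ S = (f b) ^ S` (`S ≥ 1`; if `S = 0`, `G` is a
constant and `G = lf (pt f) * H1` is impossible by evaluation at `v = 0`), so `f b` is integral over `ℂ`, and `ℂ` is
algebraically closed. -/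
theorem const_of_form {K L : Type} [Field K] [Field L] [Algebra ℂ K] [Algebra ℂ L] [Algebra K L]
    [IsScalarTower ℂ K L] {N S : ℕ} {f : Fin N → L} {G : MvPolynomial (Fin (N + 1)) K}
    (hG : G.IsHomogeneous S) (h1 : coeff (Finsupp.single 0 S) G = 1)
    {H1 : MvPolynomial (Fin (N + 1)) L} (hG1 : map (algebraMap K L) G = lf (pt f) * H1)
    (hc : ∀ α, ∃ t : ℂ, coeff α G = algebraMap ℂ K t) (b : Fin N) :
    ∃ t : ℂ, f b = algebraMap ℂ L t := by
  classical
  choose t ht using hc
  obtain ⟨u, hu⟩ : ∃ u : Fin N → ℂ, ∀ c, u c = if c = b then -1 else 0 := ⟨_, fun _ => rfl⟩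
  obtain ⟨v, hv⟩ : ∃ v : Fin (N + 1) → L, v = Fin.cons (f b) fun c => algebraMap ℂ L (u c) :=
    ⟨_, rfl⟩
  have hv0 : v 0 = f b := by rw [hv, Fin.cons_zero]
  have hvs : ∀ c : Fin N, v c.succ = algebraMap ℂ L (u c) := fun c => by rw [hv, Fin.cons_succ]
  obtain ⟨p, hp⟩ : ∃ p : Polynomial ℂ, p = ∑ α ∈ G.support,
      Polynomial.C (t α * ∏ c : Fin N, u c ^ α c.succ) * Polynomial.X ^ (α 0) := ⟨_, rfl⟩
  have hlf : eval v (lf (pt f)) = 0 := by
    unfold lf
    rw [map_sum, Fin.sum_univ_succ]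
    simp only [map_mul, eval_C, eval_X]
    have e0 : pt f 0 = 1 := rfl
    have e1 : ∀ c : Fin N, pt f c.succ = f c := fun c => rfl
    rw [e0, hv0, one_mul, Finset.sum_eq_single b]
    · rw [e1, hvs, hu, if_pos rfl, map_neg, map_one, mul_neg, mul_one, add_neg_cancel]
    · intro c _ hcb
      rw [hvs, hu, if_neg hcb, map_zero, mul_zero]
    · intro h
      exact absurd (Finset.mem_univ b) h
  have hz : eval v (map (algebraMap K L) G) = 0 := by
    rw [hG1, map_mul, hlf, zero_mul]
  have hpz : Polynomial.aeval (f b) p = 0 := by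
    rw [eval_map, eval₂_eq'] at hz
    rw [← hz, hp, map_sum]
    refine Finset.sum_congr rfl fun α _ => ?_
    rw [map_mul, map_pow, Polynomial.aeval_X, Polynomial.aeval_C, map_mul, map_prod,
      Fin.prod_univ_succ, hv0, ht α, ← IsScalarTower.algebraMap_apply ℂ K L]
    simp only [hvs, map_pow]
    ring
  have ht1 : t (Finsupp.single 0 S) = 1 := by
    have h2 := ht (Finsupp.single 0 S)
    rw [h1] at h2
    exact (algebraMap ℂ K).injective (by rw [← h2, map_one])
  have hp1 : p.coeff S = 1 := by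
    rw [hp, Polynomial.finsetSum_coeff, Finset.sum_eq_single (Finsupp.single 0 S)]
    · rw [Polynomial.coeff_C_mul, Finsupp.single_eq_same, Polynomial.coeff_X_pow_self, mul_one, ht1,
        one_mul]
      refine Finset.prod_eq_one fun c _ => ?_
      rw [Finsupp.single_apply, if_neg (Fin.succ_ne_zero c).symm, pow_zero]
    · intro α hα hne
      rw [Polynomial.coeff_C_mul, Polynomial.coeff_X_pow, if_neg, mul_zero]
      intro h3
      exact hne (v1_eq' (v1_deg hG hα) h3.symm)
    · intro h3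
      exfalso
      rw [mem_support_iff, h1] at h3
      exact h3 one_ne_zero
  have hp0 : p ≠ 0 := fun h3 => by
    rw [h3, Polynomial.coeff_zero] at hp1
    exact zero_ne_one hp1
  have hi : IsIntegral ℂ (f b) := isAlgebraic_iff_isIntegral.1 ⟨p, hp0, hpz⟩
  have hd := IsAlgClosed.degree_eq_one_of_irreducible ℂ (minpoly.irreducible hi)
  obtain ⟨r, hr⟩ := minpoly.mem_range_of_degree_eq_one ℂ (f b) hd
  exact ⟨r, hr.symm⟩

end Pool.Agent.H24V
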