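import Pool.Agent.Lib.H24V.B

set_option autoImplicit false

/-!
CHUNK V2 (M).  Intermediate fields are stable under the derivation.
-/

open MvPolynomial

namespace Pool.Agent.H24V

open Pool.Agent.H89T Pool.Agent.H67T Pool.Agent.H53U Pool.Agent.H53V

variable {L : Type} [Field L] [Algebra ℂ L] [Algebra KK L] [IsScalarTower ℂ KK L]
  [FiniteDimensional KK L] {D : Derivation ℂ L L}

/-- `x ∈ E` is algebraic over `KK` with minimal polynomial `Q`: `0 = D (Q (x)) = Q ^ D (x) + Q' (x) D x` (`Q ^ D`: `DK` applied to the
coefficients; by induction on polynomials) and `Q' (x) ≠ 0` (characteristic `0`), so `D x ∈ KK (x)`. -/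
theorem D_mem (hD : ∀ x, D (algebraMap KK L x) = algebraMap KK L (DK x)) (E : IntermediateField KK L)
    {x : L} (hx : x ∈ E) : D x ∈ E := by
  have hx' : IsIntegral KK x := Algebra.IsIntegral.isIntegral x
  have key : ∀ P : Polynomial KK, ∃ e ∈ E,
      D (Polynomial.aeval x P) = e + Polynomial.aeval x (Polynomial.derivative P) * D x := by
    intro P
    induction P using Polynomial.induction_on' with
    | add p q hp hq =>
      obtain ⟨e, he, h1⟩ := hp
      obtain ⟨e', he', h2⟩ := hq
      refine ⟨e + e', E.add_mem he he', ?_⟩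
      rw [map_add, map_add, h1, h2, Polynomial.derivative_add, map_add]
      ring
    | monomial n a =>
      refine ⟨algebraMap KK L (DK a) * x ^ n,
        E.mul_mem (E.algebraMap_mem _) (pow_mem hx n), ?_⟩
      rw [Polynomial.aeval_monomial, Derivation.leibniz, Derivation.leibniz_pow, hD,
        Polynomial.derivative_monomial, Polynomial.aeval_monomial, map_mul, map_natCast]
      simp only [smul_eq_mul, nsmul_eq_mul]
      ring
  have hch : CharZero KK := charZero_of_injective_algebraMap (algebraMap ℂ KK).injective
  obtain ⟨e, he, h1⟩ := key (minpoly KK x)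
  rw [minpoly.aeval, map_zero] at h1
  have hQ : Polynomial.aeval x (Polynomial.derivative (minpoly KK x)) ≠ 0 :=
    (minpoly.irreducible hx').separable.aeval_derivative_ne_zero (minpoly.aeval KK x)
  have hQE : Polynomial.aeval x (Polynomial.derivative (minpoly KK x)) ∈ E := by
    have h2 : Polynomial.aeval x (Polynomial.derivative (minpoly KK x)) =
        E.val (Polynomial.aeval (⟨x, hx⟩ : E) (Polynomial.derivative (minpoly KK x))) :=
      Polynomial.aeval_algHom_apply E.val (⟨x, hx⟩ : E) _
    rw [h2]
    exact SetLike.coe_mem _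
  have h3 : D x = -(e / Polynomial.aeval x (Polynomial.derivative (minpoly KK x))) := by
    have h4 : e = -(Polynomial.aeval x (Polynomial.derivative (minpoly KK x)) * D x) :=
      eq_neg_of_add_eq_zero_left h1.symm
    rw [h4]
    field_simp
  rw [h3]
  exact E.neg_mem (E.div_mem he hQE)

/-- The restriction of `D` to `E`. -/
theorem exists_DE' (hD : ∀ x, D (algebraMap KK L x) = algebraMap KK L (DK x))
    (E : IntermediateField KK L) : ∃ D' : Derivation ℂ E E, (∀ x : E, ((D' x : E) : L) = D (x : L)) ∧
      ∀ x, D' (algebraMap KK E x) = algebraMap KK E (DK x) := by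
  let D₀ : E →ₗ[ℂ] E :=
    { toFun := fun x => ⟨D (x : L), D_mem hD E x.2⟩
      map_add' := fun x y => Subtype.ext (map_add D (x : L) (y : L))
      map_smul' := fun c x => Subtype.ext (D.map_smul c (x : L)) }
  refine ⟨Derivation.mk' D₀ fun x y => Subtype.ext ?_, fun x => rfl, fun x => Subtype.ext ?_⟩
  · exact D.leibniz (x : L) (y : L)
  · exact hD x

/-- The jets of elements of `E`. -/
theorem jet_coe {E : IntermediateField KK L} {D' : Derivation ℂ E E}
    (h : ∀ x : E, ((D' x : E) : L) = D (x : L)) {N k : ℕ} (f : Fin N → E)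
    (P : MvPolynomial (JV N k) ℂ) :
    ((aeval (jetL D' k f) P : E) : L) = aeval (jetL D k fun b => (f b : L)) P := by
  have hit : ∀ (n : ℕ) (x : E), ((D'^[n] x : E) : L) = D^[n] (x : L) := by
    intro n
    induction n with
    | zero => exact fun x => rfl
    | succ n ih =>
      intro x
      rw [Function.iterate_succ_apply, Function.iterate_succ_apply, ih, h]
  have htow : IsScalarTower ℂ E L := IsScalarTower.of_algebraMap_eq fun t => rfl
  have h1 := MvPolynomial.comp_aeval_apply (R := ℂ) (f := jetL D' k f)
    (IsScalarTower.toAlgHom ℂ E L) P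
  refine h1.trans ?_
  have h2 : (fun i => (IsScalarTower.toAlgHom ℂ E L) (jetL D' k f i)) =
      jetL D k fun b => (f b : L) := by
    funext p
    unfold jetL
    rw [map_smul]
    exact congrArg _ (hit _ _)
  rw [h2]

end Pool.Agent.H24V
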