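import Pool.Agent.Lib.H24V.A13
import Pool.Agent.Lib.H24V.C0
import Pool.Agent.Lib.H24V.V1
import Pool.Agent.Lib.H24V.V2

set_option autoImplicit false

/-!
H24V, module V: the vanishing theorem for finite extensions of the field of the meromorphic functions.
-/

open MvPolynomial

namespace Pool.Agent.H24V

open Pool.Agent.H89T Pool.Agent.H67T Pool.Agent.H53U Pool.Agent.H53V

/-- The vanishing theorem for `L = K (f)`. -/
theorem vt_prim {L : Type} [Field L] [Algebra ℂ L] [Algebra KK L] [IsScalarTower ℂ KK L]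
    [FiniteDimensional KK L] {D : Derivation ℂ L L}
    (hD : ∀ x, D (algebraMap KK L x) = algebraMap KK L (DK x))
    {N k M R s κ c : ℕ} {F : Fin c → MvPolynomial (Fin (N + 1)) ℂ}
    {f : Fin N → L} (hf : IntermediateField.adjoin KK (Set.range f) = ⊤)
    {l : Fin R → Fin (N + 1) → ℂ} {A : ℝ} {P Q : Fin R → MvPolynomial (JV N k) ℂ}
    (hs : (4 * Module.finrank KK L - 3) * (R * M) + 1 ≤ s * κ) (hb : ∃ b, D (f b) ≠ 0)
    (hF : ∀ j, aeval (pt f) (F j) = 0)
    (hA : ∀ x : Fin (N + 1) → ℂ, (∀ j, eval x (F j) = 0) → ‖x‖ ≤ A * ‖x 0‖ ∨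
      ∃ I : Finset (Fin R), I.card = κ ∧ ∀ i ∈ I, ‖x‖ ≤ A * ‖linc (l i) x‖)
    (hP : ∀ i, HasWt M (P i)) (hQ : ∀ i, HasWt M (Q i))
    (hrel : ∀ i, linc (l i) (pt f) ^ s * aeval (jetL D k f) (P i) = aeval (jetL D k f) (Q i)) :
    ∃ i, aeval (jetL D k f) (P i) = 0 := by
  classical
  obtain ⟨lam, hlam⟩ := exists_prim f hf
  obtain ⟨G, hG, hGn, H1, hG1⟩ := norm_form (K := KK) (pt f)
  have hE := est_of hD rfl hlam hs hF hA hP hQ hrel hG hGn hG1
  have h1 : coeff (Finsupp.single 0 (Module.finrank KK L)) G = 1 := by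
    rw [← eval_single_zero hG, hGn, Finset.sum_eq_single (0 : Fin (N + 1))]
    · rw [Pi.single_eq_same, one_smul]
      exact map_one _
    · intro a _ ha
      rw [Pi.single_eq_of_ne ha, zero_smul]
    · exact fun h => absurd (Finset.mem_univ _) h
  have hmem : Finsupp.single 0 (Module.finrank KK L) ∈ G.support :=
    mem_support_iff.2 (by rw [h1]; exact one_ne_zero)
  have hX := zero_of_est hE (i₀ := ⟨_, hmem⟩) h1
    (γ := fun t α => ∏ a, (mv N t a) ^ (α.1 a)) (by
      intro t
      rw [eval_eq', ← Finset.sum_coe_sort]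
      refine Finset.sum_congr rfl fun α _ => ?_
      rw [Algebra.smul_def, map_prod, mul_comm]
      simp only [map_pow]) (by
      by_contra hcon
      push Not at hcon
      obtain ⟨b, hb⟩ := hb
      obtain ⟨t, ht⟩ := const_of_form hG h1 hG1 (fun α => by
        by_cases hα : α ∈ G.support
        · exact hcon ⟨α, hα⟩
        · exact ⟨0, by rw [notMem_support_iff.1 hα, map_zero]⟩) b
      exact hb (by rw [ht, Derivation.map_algebraMap]))
  unfold XX at hX
  rw [Algebra.norm_eq_zero_iff, mul_eq_zero] at hX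
  rcases hX with h2 | h2
  · exfalso
    have hint : IsIntegral KK (linc lam f) := IsIntegral.of_finite KK _
    have h3 : Polynomial.aeval (linc lam f) (Polynomial.derivative (minpoly KK (linc lam f))) ≠ 0 :=
      (minpoly.irreducible hint).separable.aeval_derivative_ne_zero (minpoly.aeval _ _)
    exact pow_ne_zero _ h3 h2
  · obtain ⟨i, -, hi⟩ := Finset.prod_eq_zero_iff.1 h2
    exact ⟨i, hi⟩

/-- The vanishing theorem. -/
theorem vt_of {L : Type} [Field L] [Algebra ℂ L] [Algebra KK L] [IsScalarTower ℂ KK L]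
    [FiniteDimensional KK L] {D : Derivation ℂ L L}
    (hD : ∀ x, D (algebraMap KK L x) = algebraMap KK L (DK x)) {m : ℕ}
    (hm : Module.finrank KK L ≤ m) : VT (4 * m - 3) L D := by
  classical
  intro N k M R s κ c F f l A P Q hs hb hF hA hP hQ hrel
  obtain ⟨E, hE⟩ : ∃ E : IntermediateField KK L, E = IntermediateField.adjoin KK (Set.range f) :=
    ⟨_, rfl⟩
  have hfE : ∀ b, f b ∈ E := fun b => by
    rw [hE]
    exact IntermediateField.subset_adjoin _ _ ⟨b, rfl⟩
  obtain ⟨D', hD', hD'K⟩ := exists_DE' hD E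
  obtain ⟨f', hf'⟩ : ∃ f' : Fin N → E, ∀ b, (f' b : L) = f b := ⟨fun b => ⟨f b, hfE b⟩, fun _ => rfl⟩
  have hff : (fun b => (f' b : L)) = f := _root_.funext hf'
  have hgen : IntermediateField.adjoin KK (Set.range f') = ⊤ := by
    have h1 : IntermediateField.map E.val (IntermediateField.adjoin KK (Set.range f')) =
        IntermediateField.map E.val ⊤ := by
      rw [IntermediateField.adjoin_map, ← Set.range_comp, ← AlgHom.fieldRange_eq_map]
      have h2 : (⇑E.val ∘ f') = f := hff
      rw [h2, ← hE, IntermediateField.fieldRange_val]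
    exact IntermediateField.map_injective E.val h1
  have hpt : ∀ a, ((pt f' a : E) : L) = pt f a := by
    intro a
    refine Fin.cases ?_ (fun b => ?_) a
    · rfl
    · exact hf' b
  have hptf : (fun a => ((pt f' a : E) : L)) = pt f := _root_.funext hpt
  have hae : ∀ G : MvPolynomial (Fin (N + 1)) ℂ, ((aeval (pt f') G : E) : L) = aeval (pt f) G := by
    intro G
    have h1 := MvPolynomial.comp_aeval_apply (f := pt f') (E.val.restrictScalars ℂ) G
    rw [← hptf]
    exact h1
  have hlin : ∀ v : Fin (N + 1) → ℂ, ((linc v (pt f') : E) : L) = linc v (pt f) := by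
    intro v
    unfold linc
    rw [← hptf]
    have h1 := map_sum (E.val.restrictScalars ℂ) (fun a => v a • pt f' a) Finset.univ
    simp only [map_smul] at h1
    exact h1
  have hle : Module.finrank KK E ≤ m := (Submodule.finrank_le (Subalgebra.toSubmodule E.toSubalgebra)).trans hm
  obtain ⟨i, hi⟩ := vt_prim (D := D') hD'K (k := k) (s := s) (κ := κ) (F := F) (A := A) (P := P)
    (Q := Q) (l := l) hgen (by
      refine le_trans ?_ hs
      have : 4 * Module.finrank KK E - 3 ≤ 4 * m - 3 := by omega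
      have := Nat.mul_le_mul_right (R * M) this
      omega) (by
      obtain ⟨b, hb⟩ := hb
      refine ⟨b, fun h0 => hb ?_⟩
      have h1 := hD' (f' b)
      rw [h0, hf'] at h1
      exact h1.symm) (fun j => by
        apply Subtype.ext
        rw [hae, hF]
        rfl) hA hP hQ (fun i => by
        apply Subtype.ext
        have h1 := hrel i
        rw [← hlin, ← hff, ← jet_coe hD', ← jet_coe hD'] at h1
        exact_mod_cast h1)
  refine ⟨i, ?_⟩
  rw [← hff, ← jet_coe hD', hi]
  rfl

/-- Finite extensions of degree at most `m` of the field of the meromorphic functions are good. -/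
theorem good_of {L : Type} [Field L] [Algebra ℂ L] [Algebra KK L] [IsScalarTower ℂ KK L]
    [FiniteDimensional KK L] {D : Derivation ℂ L L}
    (hD : ∀ x, D (algebraMap KK L x) = algebraMap KK L (DK x)) {m : ℕ}
    (hm : Module.finrank KK L ≤ m) : Good (4 * m - 3) L D :=
  ⟨fun s => gp_of hD s, fun x hx => const_of hD x hx, vt_of hD hm⟩

end Pool.Agent.H24V
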